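import Mathlib
import Pool.Agent.H318R2.Cr.Defs

/-! Empty intervals and the limsup of the normalised gaps (helper46). -/

set_option autoImplicit false

namespace Pool.Agent.Q46.CM

open Finset Filter Pool.Agent.H318R2.Cr

/-- `S` has an element in every large dyadic block, and every large dyadic block contains an interval
`(a, a + h]` without elements of `S` with `h + 1 > lam (log 2^(j+1))^2` -/
theorem limsup_ge (S : Set ℕ) (lam : ℝ) (J : ℕ)
    (h1 : ∀ j ≥ J, ∃ n ∈ S, 2 ^ j ≤ n ∧ n < 2 ^ (j + 1))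
    (h2 : ∀ j ≥ J, ∃ a h : ℕ, 2 ^ j ≤ a ∧ a + h < 2 ^ (j + 1) ∧
      lam * (Real.log ((2:ℝ) ^ (j + 1))) ^ 2 < h + 1 ∧ ∀ n ∈ S, a < n → a + h < n) :
    (lam : EReal) ≤ cramerLimsup S := by
  classical
  have hinf : (Set.ofPred (· ∈ S)).Infinite := by
    rw [Set.infinite_iff_exists_gt (α := ℕ)]
    intro b
    obtain ⟨n, hn, hn1, -⟩ := h1 (max J (b + 1)) (le_max_left _ _)
    refine ⟨n, hn, ?_⟩
    have : b < 2 ^ max J (b + 1) := by
      calc b < 2 ^ b := Nat.lt_two_pow_self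
        _ ≤ 2 ^ max J (b + 1) := Nat.pow_le_pow_right (by norm_num) (by omega)
    omega
  unfold cramerLimsup
  apply le_limsup_of_frequently_le'
  rw [frequently_atTop]
  intro K
  -- a large block
  set j := max (J + 2) (Nat.nth (· ∈ S) K + 2) with hj
  have hjJ : J + 2 ≤ j := le_max_left _ _
  have hjK : Nat.nth (· ∈ S) K + 2 ≤ j := le_max_right _ _
  obtain ⟨a, h, ha1, ha2, ha3, ha4⟩ := h2 j (by omega)
  obtain ⟨n, hn, hn1, hn2⟩ := h1 (j - 1) (by omega)
  have hj1 : j - 1 + 1 = j := by omega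
  rw [hj1] at hn2
  -- the index
  have hna : n ≤ a := by omega
  set c := Nat.count (· ∈ S) (a + 1) with hc
  have hc0 : 0 < c := by
    rw [hc, Nat.pos_iff_ne_zero]
    intro h0
    have h5 : Nat.count (· ∈ S) (n + 1) ≤ Nat.count (· ∈ S) (a + 1) := Nat.count_monotone _ (by omega)
    rw [h0, Nat.count_succ, if_pos hn] at h5
    omega
  have hk1 : Nat.nth (· ∈ S) (c - 1) ≤ a := by
    have := (Nat.lt_nth_iff_count_lt hinf (a := a) (b := c - 1)).not
    have h6 : Nat.nth (· ∈ S) (c - 1) < a + 1 := Nat.nth_lt_of_lt_count (by omega)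
    omega
  have hk0 : n ≤ Nat.nth (· ∈ S) (c - 1) := by
    by_contra hlt
    push Not at hlt
    have h7 : Nat.count (· ∈ S) n ≤ c - 1 := by
      have h8 : Nat.count (· ∈ S) (n + 1) ≤ c := Nat.count_monotone _ (by omega)
      rw [Nat.count_succ, if_pos hn] at h8
      omega
    have h9 := (Nat.count_le_iff_le_nth hinf).1 h7
    omega
  have hk2 : a + h < Nat.nth (· ∈ S) c := by
    have hm : Nat.nth (· ∈ S) c ∈ S := Nat.nth_mem_of_infinite hinf c
    have h10 : a + 1 ≤ Nat.nth (· ∈ S) c := (Nat.count_le_iff_le_nth hinf).1 le_rfl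
    exact ha4 _ hm (by omega)
  have hKc : K ≤ c - 1 := by
    by_contra hlt
    push Not at hlt
    have h11 : Nat.nth (· ∈ S) (c - 1) < Nat.nth (· ∈ S) K := Nat.nth_strictMono hinf hlt
    have h12 : j - 1 < 2 ^ (j - 1) := Nat.lt_two_pow_self
    omega
  refine ⟨c - 1, hKc, ?_⟩
  have hcc : c - 1 + 1 = c := by omega
  rw [hcc]
  apply EReal.coe_le_coe_iff.2
  -- numerics
  set x := Nat.nth (· ∈ S) (c - 1) with hx
  have hx2 : 2 ≤ x := by
    have h13 : 2 ^ 1 ≤ 2 ^ (j - 1) := Nat.pow_le_pow_right (by norm_num) (by omega)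
    omega
  have hxr : (1 : ℝ) < x := by exact_mod_cast hx2
  have hlog : 0 < Real.log x := Real.log_pos hxr
  have hlog2 : Real.log x ≤ Real.log ((2:ℝ) ^ (j + 1)) := by
    apply Real.log_le_log (by linarith)
    have : x < 2 ^ (j + 1) := by omega
    exact_mod_cast this.le
  rw [le_div_iff₀ (by positivity)]
  have h14 : ((h : ℝ) + 1) ≤ (Nat.nth (· ∈ S) c : ℝ) - x := by
    have h15 : x + h + 1 ≤ Nat.nth (· ∈ S) c := by omega
    have h16 : ((x + h + 1 : ℕ) : ℝ) ≤ Nat.nth (· ∈ S) c := by exact_mod_cast h15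
    push_cast at h16
    linarith
  rcases le_or_gt lam 0 with hl | hl
  · have h17 : lam * Real.log x ^ 2 ≤ 0 := mul_nonpos_of_nonpos_of_nonneg hl (by positivity)
    have h18 : (0 : ℝ) ≤ h := Nat.cast_nonneg h
    linarith
  · have h19 : lam * Real.log x ^ 2 ≤ lam * (Real.log ((2:ℝ) ^ (j + 1))) ^ 2 := by
      apply mul_le_mul_of_nonneg_left _ hl.le
      exact pow_le_pow_left₀ hlog.le hlog2 2
    linarith

end Pool.Agent.Q46.CM
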