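import Mathlib
import Pool.Agent.H318R2.Cr.Low

/-! Numerical facts for the sieved random model (helper46). -/

set_option autoImplicit false

namespace Pool.Agent.Q46.CM

open Finset Filter Topology Pool.Agent.H318R2.Cr

/-- the length of the empty intervals in the block `j` -/
noncomputable def hh (lam : ℝ) (j : ℕ) : ℕ := ⌊lam * (Real.log ((2:ℝ) ^ (j + 1))) ^ 2⌋₊

theorem hh_lt (lam : ℝ) (j : ℕ) : lam * (Real.log ((2:ℝ) ^ (j + 1))) ^ 2 < hh lam j + 1 := Nat.lt_floor_add_one _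

theorem hh_le {lam : ℝ} (hl : 0 ≤ lam) (j : ℕ) : (hh lam j : ℝ) ≤ lam * ((j + 1) * Real.log 2) ^ 2 := by
  unfold hh
  have h := Nat.floor_le (show 0 ≤ lam * (Real.log ((2:ℝ) ^ (j + 1))) ^ 2 by positivity)
  rw [Real.log_pow] at h
  push_cast at h
  rw [Real.log_pow]
  push_cast
  exact h

theorem ev_atTop {a : ℝ} (ha : 0 < a) (C : ℝ) : ∀ᶠ j : ℕ in atTop, C ≤ (j : ℝ) ^ a :=
  ((tendsto_rpow_atTop ha).comp tendsto_natCast_atTop_atTop).eventually_ge_atTop C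

theorem ev_cube (C : ℝ) : ∀ᶠ j : ℕ in atTop, C * ((j : ℝ) + 1) ^ 2 ≤ (j : ℝ) ^ (3:ℝ) := by
  have h1 := ev_atTop one_pos (4 * |C| + 1)
  filter_upwards [h1, eventually_ge_atTop 1] with j h2 h3
  rw [Real.rpow_one] at h2
  have h3' : (1 : ℝ) ≤ j := by exact_mod_cast h3
  have e : (j : ℝ) ^ (3:ℝ) = (j:ℝ) ^ 3 := by
    rw [← Real.rpow_natCast]; norm_num
  rw [e]
  have h5 : ((j : ℝ) + 1) ^ 2 ≤ 4 * (j:ℝ) ^ 2 := by nlinarith
  calc C * ((j : ℝ) + 1) ^ 2 ≤ |C| * ((j : ℝ) + 1) ^ 2 := by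
        apply mul_le_mul_of_nonneg_right (le_abs_self C) (by positivity)
    _ ≤ |C| * (4 * (j:ℝ) ^ 2) := by apply mul_le_mul_of_nonneg_left h5 (abs_nonneg _)
    _ = (4 * |C|) * (j:ℝ) ^ 2 := by ring
    _ ≤ (j:ℝ) * (j:ℝ) ^ 2 := by
        apply mul_le_mul_of_nonneg_right (by linarith) (by positivity)
    _ = (j:ℝ) ^ 3 := by ring

/-- powers of `j` against exponentials -/
theorem ev_exp (K C η : ℝ) (hη : 0 < η) (hC : 0 < C) : ∀ᶠ j : ℕ in atTop, C * (j : ℝ) ^ K ≤ Real.exp (η * j) := by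
  have h1 := (isLittleO_rpow_exp_pos_mul_atTop K hη).def (c := 1 / C) (by positivity)
  have h2 := tendsto_natCast_atTop_atTop (R := ℝ) |>.eventually h1
  filter_upwards [h2, eventually_ge_atTop 1] with j h3 h4
  have h5 : (0 : ℝ) ≤ (j:ℝ) ^ K := Real.rpow_nonneg (Nat.cast_nonneg j) K
  rw [Real.norm_of_nonneg h5, Real.norm_of_nonneg (Real.exp_pos _).le] at h3
  calc C * (j : ℝ) ^ K ≤ C * (1 / C * Real.exp (η * j)) := mul_le_mul_of_nonneg_left h3 hC.le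
    _ = Real.exp (η * j) := by field_simp

section
variable {z : ℕ → ℕ} {α : ℝ}

theorem ev_z (hα : 0 < α) (h1 : ∀ᶠ j : ℕ in atTop, (j : ℝ) ^ α ≤ z j) (z₀ : ℕ) :
    ∀ᶠ j : ℕ in atTop, z₀ ≤ z j := by
  filter_upwards [h1, ev_atTop hα z₀] with j h2 h3
  exact_mod_cast h3.trans h2

theorem ev_small (h2 : Tendsto (fun j : ℕ => (z j : ℝ) / j) atTop (𝓝 0)) (η : ℝ) (hη : 0 < η) :
    ∀ᶠ j : ℕ in atTop, (z j : ℝ) ≤ η * j := by
  filter_upwards [h2.eventually_lt_const hη, eventually_ge_atTop 1] with j h3 h4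
  have h5 : (0 : ℝ) < j := by exact_mod_cast h4
  rw [div_lt_iff₀ h5] at h3
  exact h3.le

theorem ev_hh (lam : ℝ) (hl : 0 ≤ lam) (hα : 0 < α) (h1 : ∀ᶠ j : ℕ in atTop, (j : ℝ) ^ α ≤ z j) :
    ∀ᶠ j : ℕ in atTop, (hh lam j : ℝ) ≤ (z j : ℝ) ^ (3 / α) := by
  filter_upwards [h1, ev_cube (lam * (Real.log 2) ^ 2)] with j h2 h3
  calc (hh lam j : ℝ) ≤ lam * ((j + 1) * Real.log 2) ^ 2 := hh_le hl j
    _ = lam * (Real.log 2) ^ 2 * ((j : ℝ) + 1) ^ 2 := by ring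
    _ ≤ (j : ℝ) ^ (3:ℝ) := h3
    _ = ((j : ℝ) ^ α) ^ (3 / α) := by
        rw [← Real.rpow_mul (Nat.cast_nonneg j)]
        congr 1
        field_simp
    _ ≤ _ := Real.rpow_le_rpow (Real.rpow_nonneg (Nat.cast_nonneg j) _) h2 (by positivity)

theorem ev_hh1 (lam : ℝ) (hl : 0 < lam) : ∀ᶠ j : ℕ in atTop, 1 ≤ hh lam j := by
  have h1 := ev_atTop one_pos (1 / (lam * (Real.log 2) ^ 2))
  have hl2 : 0 < Real.log 2 := Real.log_pos (by norm_num)
  filter_upwards [h1, eventually_ge_atTop 1] with j h2 h3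
  rw [Real.rpow_one, div_le_iff₀ (by positivity)] at h2
  unfold hh
  apply Nat.le_floor
  rw [Real.log_pow]
  push_cast
  have h3' : (1 : ℝ) ≤ j := by exact_mod_cast h3
  have h4 : (j : ℝ) ≤ ((j : ℝ) + 1) ^ 2 := by nlinarith
  calc (1 : ℝ) ≤ j * (lam * (Real.log 2) ^ 2) := h2
    _ ≤ ((j : ℝ) + 1) ^ 2 * (lam * (Real.log 2) ^ 2) := by
        apply mul_le_mul_of_nonneg_right h4 (by positivity)
    _ = lam * ((j + 1) * Real.log 2) ^ 2 := by ring

/-- the largest probability in the block `j` -/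
noncomputable def pj (z : ℕ → ℕ) (j : ℕ) : ℝ := 1 / (V (z j) * (j * Real.log 2))

theorem ev_pj (h0 : ∀ᶠ j : ℕ in atTop, 2 ≤ z j)
    (h2 : Tendsto (fun j : ℕ => (z j : ℝ) / j) atTop (𝓝 0)) (η : ℝ) (hη : 0 < η) :
    ∀ᶠ j : ℕ in atTop, pj z j ≤ η := by
  obtain ⟨c₁, c₂, hc₁, hc₁₂, hcz⟩ := cz_bounds
  have hl2 : 0 < Real.log 2 := Real.log_pos (by norm_num)
  have e1 : ∀ᶠ x : ℝ in atTop, Real.log x ≤ η * (c₁ * Real.log 2) * x := by
    have h1 := Real.isLittleO_log_id_atTop.def (c := η * (c₁ * Real.log 2)) (by positivity)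
    filter_upwards [h1, eventually_ge_atTop (1 : ℝ)] with x h3 h4
    rw [Real.norm_of_nonneg (Real.log_nonneg h4), id, Real.norm_of_nonneg (by linarith)] at h3
    exact h3
  have e2 := tendsto_natCast_atTop_atTop (R := ℝ) |>.eventually e1
  filter_upwards [h0, ev_small h2 1 one_pos, e2, eventually_ge_atTop 2] with j h3 h4 h5 h6
  have hj : (0 : ℝ) < j := by exact_mod_cast (by omega : 0 < j)
  have hz2 : (2 : ℝ) ≤ z j := by exact_mod_cast h3
  have hlz : 0 < Real.log (z j) := Real.log_pos (by linarith)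
  have hV := V_pos (z j)
  have h7 := (hcz (z j) h3).1
  unfold pj
  rw [div_le_iff₀ (by positivity)]
  have h8 : Real.log (z j) ≤ Real.log j := Real.log_le_log (by linarith) (by linarith)
  have h9 : c₁ ≤ V (z j) * (η * (c₁ * Real.log 2) * j) := by
    calc c₁ ≤ V (z j) * Real.log (z j) := h7
      _ ≤ V (z j) * (η * (c₁ * Real.log 2) * j) := by
          apply mul_le_mul_of_nonneg_left (h8.trans h5) hV.le
  have h10 : c₁ * 1 ≤ c₁ * (η * (V (z j) * (j * Real.log 2))) := by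
    rw [mul_one]
    calc c₁ ≤ _ := h9
      _ = _ := by ring
  exact le_of_mul_le_mul_left h10 hc₁

end

end Pool.Agent.Q46.CM
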