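import Mathlib

/-! Independent events in disjoint groups; products of probabilities (helper46). -/

set_option autoImplicit false

namespace Pool.Agent.Q46.CM

open Finset MeasureTheory ProbabilityTheory Filter
open scoped ENNReal

variable {Ω : Type*} [MeasurableSpace Ω] {μ : Measure Ω} {A : ℕ → Set Ω}

/-- the `σ`-algebra of the events with index in `I` -/
def sg (A : ℕ → Set Ω) (I : Set ℕ) : MeasurableSpace Ω :=
  MeasurableSpace.generateFrom {t | ∃ n ∈ I, A n = t}

theorem sg_mono {I J : Set ℕ} (h : I ⊆ J) : sg A I ≤ sg A J := by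
  apply MeasurableSpace.generateFrom_mono
  rintro t ⟨n, hn, rfl⟩
  exact ⟨n, h hn, rfl⟩

theorem meas_sg {I : Set ℕ} {n : ℕ} (h : n ∈ I) : MeasurableSet[sg A I] (A n) :=
  MeasurableSpace.measurableSet_generateFrom ⟨n, h, rfl⟩

theorem meas_empty {I : Finset ℕ} : MeasurableSet[sg A (I : Set ℕ)] (⋂ n ∈ I, (A n)ᶜ) := by
  apply Finset.measurableSet_biInter
  intro n hn
  exact MeasurableSet.compl (meas_sg (by exact_mod_cast hn))

theorem group_prod (hm : ∀ n, MeasurableSet (A n)) (hi : iIndepSet A μ) {ι : Type*} [DecidableEq ι]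
    (I : ι → Set ℕ) (B : ι → Set Ω) (hB : ∀ i, MeasurableSet[sg A (I i)] (B i)) (s : Finset ι)
    (hI : ∀ i ∈ s, ∀ j ∈ s, i ≠ j → Disjoint (I i) (I j)) :
    μ (⋂ i ∈ s, B i) = ∏ i ∈ s, μ (B i) := by
  haveI : IsProbabilityMeasure μ := hi.isProbabilityMeasure
  induction s using Finset.induction_on with
  | empty => simp
  | insert a s ha ih =>
    have h1 : (⋂ i ∈ insert a s, B i) = B a ∩ ⋂ i ∈ s, B i := by
      ext x
      simp only [Set.mem_iInter, Finset.mem_insert, Set.mem_inter_iff]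
      constructor
      · intro h
        exact ⟨h a (Or.inl rfl), fun i hi => h i (Or.inr hi)⟩
      · rintro ⟨h1, h2⟩ i (rfl | hi)
        · exact h1
        · exact h2 i hi
    have hdis : Disjoint (I a) (⋃ i ∈ s, I i) := by
      rw [Set.disjoint_iUnion₂_right]
      intro i hi
      exact hI a (Finset.mem_insert_self _ _) i (Finset.mem_insert_of_mem hi) (by rintro rfl; exact ha hi)
    have h2 := hi.indep_generateFrom_of_disjoint hm (I a) (⋃ i ∈ s, I i) hdis
    rw [Indep_iff] at h2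
    have h3 : MeasurableSet[sg A (⋃ i ∈ s, I i)] (⋂ i ∈ s, B i) := by
      apply Finset.measurableSet_biInter
      intro i hi
      exact sg_mono (Set.subset_biUnion_of_mem (u := fun i => I i) (by exact_mod_cast hi)) _ (hB i)
    rw [h1, Finset.prod_insert ha, h2 _ _ (hB a) h3, ih (fun i hi j hj => hI i (Finset.mem_insert_of_mem hi) j (Finset.mem_insert_of_mem hj))]

/-- the probability that none of the events with index in `I` happens -/
theorem prob_empty (hm : ∀ n, MeasurableSet (A n)) (hi : iIndepSet A μ) (p : ℕ → ℝ) (hp0 : ∀ n, 0 ≤ p n)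
    (hp1 : ∀ n, p n ≤ 1) (hp : ∀ n, μ (A n) = ENNReal.ofReal (p n)) (I : Finset ℕ) :
    μ (⋂ n ∈ I, (A n)ᶜ) = ENNReal.ofReal (∏ n ∈ I, (1 - p n)) := by
  haveI : IsProbabilityMeasure μ := hi.isProbabilityMeasure
  rw [group_prod hm hi (fun n => ({n} : Set ℕ)) (fun n => (A n)ᶜ)
    (fun n => MeasurableSet.compl (meas_sg (Set.mem_singleton n))) I
    (fun i _ j _ hij => Set.disjoint_singleton.2 hij)]
  rw [ENNReal.ofReal_prod_of_nonneg (fun n _ => by linarith [hp1 n])]
  apply Finset.prod_congr rfl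
  intro n _
  rw [prob_compl_eq_one_sub (hm n), hp, ENNReal.ofReal_sub _ (hp0 n), ENNReal.ofReal_one]

/-- the probability that each of the pairwise disjoint finite sets `I i`, `i < N`, contains the index of an
event that happens, if each of them contains none with probability at least `q` -/
theorem prob_all_nonempty (hm : ∀ n, MeasurableSet (A n)) (hi : iIndepSet A μ) (I : ℕ → Finset ℕ) (N : ℕ)
    (hI : ∀ i < N, ∀ j < N, i ≠ j → Disjoint (I i) (I j)) (q : ℝ) (hq0 : 0 ≤ q)
    (hq : ∀ i < N, ENNReal.ofReal q ≤ μ (⋂ n ∈ I i, (A n)ᶜ)) :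
    μ (⋂ i ∈ range N, (⋂ n ∈ I i, (A n)ᶜ)ᶜ) ≤ ENNReal.ofReal (Real.exp (-(q * N))) := by
  haveI : IsProbabilityMeasure μ := hi.isProbabilityMeasure
  rw [group_prod hm hi (fun i => (I i : Set ℕ)) (fun i => (⋂ n ∈ I i, (A n)ᶜ)ᶜ)
    (fun i => MeasurableSet.compl meas_empty) (range N)
    (fun i hi j hj hij => by
      rw [Finset.disjoint_coe]
      exact hI i (Finset.mem_range.1 hi) j (Finset.mem_range.1 hj) hij)]
  rcases Nat.eq_zero_or_pos N with h0 | hN
  · subst h0
    simp
  have hq1 : q ≤ 1 := by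
    have h1 := (hq 0 hN).trans prob_le_one
    rwa [ENNReal.ofReal_le_one] at h1
  have h2 : ∀ i ∈ range N, μ ((⋂ n ∈ I i, (A n)ᶜ)ᶜ) ≤ ENNReal.ofReal (1 - q) := by
    intro i hi'
    have hme : MeasurableSet (⋂ n ∈ I i, (A n)ᶜ) := Finset.measurableSet_biInter _ fun n _ => (hm n).compl
    rw [prob_compl_eq_one_sub hme, ENNReal.ofReal_sub _ hq0, ENNReal.ofReal_one]
    exact tsub_le_tsub_left (hq i (Finset.mem_range.1 hi')) 1
  calc ∏ i ∈ range N, μ ((⋂ n ∈ I i, (A n)ᶜ)ᶜ) ≤ ∏ i ∈ range N, ENNReal.ofReal (1 - q) :=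
        Finset.prod_le_prod' h2
    _ = ENNReal.ofReal ((1 - q) ^ N) := by
        rw [Finset.prod_const, Finset.card_range, ENNReal.ofReal_pow (by linarith)]
    _ ≤ _ := by
        apply ENNReal.ofReal_le_ofReal
        calc (1 - q) ^ N ≤ (Real.exp (-q)) ^ N :=
              pow_le_pow_left₀ (by linarith) (by have := Real.add_one_le_exp (-q); linarith) N
          _ = Real.exp (-(q * N)) := by rw [← Real.exp_nat_mul]; ring_nf

end Pool.Agent.Q46.CM
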