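import Mathlib
import Pool.Agent.Q46.CM.Prob
import Pool.Agent.Q46.CM.Gap
import Pool.Agent.Q46.CM.Num

/-! The sieved random model: long empty intervals (helper46). -/

set_option autoImplicit false

namespace Pool.Agent.Q46.CM

open Finset Filter Topology MeasureTheory ProbabilityTheory Pool.Agent.H318R2.Cr
open scoped ENNReal

theorem rgh_add {z n m : ℕ} (hm : ∀ p : ℕ, p.Prime → p ≤ z → p ∣ m) : Rgh z (m + n) ↔ Rgh z n := by
  unfold Rgh
  refine forall_congr' fun p => forall_congr' fun hp => forall_congr' fun hpz => ?_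
  rw [not_iff_not]
  exact (Nat.dvd_add_right (hm p hp hpz))

theorem cnt_shift {z a h m : ℕ} (hm : ∀ p : ℕ, p.Prime → p ≤ z → p ∣ m) : cnt z (m + a) h = cnt z a h := by
  classical
  unfold cnt
  have h1 : (Ioc (m + a) (m + a + h)).filter (Rgh z) = ((Ioc a (a + h)).filter (Rgh z)).image (fun n => m + n) := by
    ext n
    simp only [mem_filter, mem_Ioc, mem_image]
    constructor
    · rintro ⟨⟨h1, h2⟩, h3⟩
      refine ⟨n - m, ⟨⟨by omega, by omega⟩, ?_⟩, by omega⟩
      rw [← rgh_add hm, show m + (n - m) = n by omega]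
      exact h3
    · rintro ⟨k, ⟨⟨h1, h2⟩, h3⟩, rfl⟩
      exact ⟨⟨by omega, by omega⟩, (rgh_add hm).2 h3⟩
  rw [h1, card_image_of_injective _ (fun a b hab => by simpa using hab)]

theorem log_block {n j : ℕ} (h1 : 2 ^ j ≤ n) (h2 : n < 2 ^ (j + 1)) : Nat.log 2 n = j :=
  Nat.log_eq_of_pow_le_of_lt_pow h1 h2

theorem keep_nonneg (z : ℕ → ℕ) (n : ℕ) : 0 ≤ keepProb z n := by
  unfold keepProb
  split_ifs
  · have := V_pos (z (Nat.log 2 n))
    have := Real.log_natCast_nonneg n
    positivity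
  · exact le_rfl

theorem keep_le_one (z : ℕ → ℕ) (n : ℕ) : keepProb z n ≤ 1 := by
  unfold keepProb
  split_ifs
  · exact min_le_left _ _
  · exact zero_le_one

theorem keep_le {z : ℕ → ℕ} {n j : ℕ} (hj : 1 ≤ j) (h1 : 2 ^ j ≤ n) (h2 : n < 2 ^ (j + 1)) :
    keepProb z n ≤ pj z j := by
  have hl2 : 0 < Real.log 2 := Real.log_pos (by norm_num)
  have hV := V_pos (z j)
  have hj0 : (0 : ℝ) < j := by exact_mod_cast hj
  unfold keepProb pj
  rw [log_block h1 h2]
  split_ifs
  · refine (min_le_right _ _).trans ?_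
    apply one_div_le_one_div_of_le (by positivity)
    apply mul_le_mul_of_nonneg_left _ hV.le
    rw [← Real.log_pow]
    apply Real.log_le_log (by positivity)
    exact_mod_cast h1
  · positivity

theorem keep_rough_ge {z : ℕ → ℕ} {n j : ℕ} (h1 : 2 ^ j ≤ n) (h2 : n < 2 ^ (j + 1)) (h3 : Rgh (z j) n)
    (hj : 1 ≤ j) : 1 / ((j : ℝ) + 1) ≤ keepProb z n := by
  have hl2 : 0 < Real.log 2 := Real.log_pos (by norm_num)
  have hV := V_pos (z j)
  have hV1 := V_le_one (z j)
  have hj0 : (0 : ℝ) < j := by exact_mod_cast hj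
  unfold keepProb
  rw [log_block h1 h2, if_pos h3]
  apply le_min
  · rw [div_le_one (by positivity)]; linarith
  · have hn2 : 2 ≤ n := by
      have : 2 ^ 1 ≤ 2 ^ j := Nat.pow_le_pow_right (by norm_num) hj
      omega
    have hln : 0 < Real.log n := Real.log_pos (by exact_mod_cast hn2)
    apply one_div_le_one_div_of_le (by positivity)
    have h4 : Real.log n ≤ (j + 1) * Real.log 2 := by
      have h5 : Real.log n ≤ Real.log ((2:ℝ) ^ (j + 1)) := by
        apply Real.log_le_log (by exact_mod_cast (by omega : 0 < n))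
        exact_mod_cast h2.le
      rw [Real.log_pow] at h5
      push_cast at h5
      exact h5
    have h6 : Real.log 2 ≤ 1 := by
      have := Real.log_two_lt_d9
      linarith
    calc V (z j) * Real.log n ≤ 1 * ((j + 1) * Real.log 2) := mul_le_mul hV1 h4 hln.le zero_le_one
      _ ≤ (j : ℝ) + 1 := by nlinarith

theorem prod_lower {z : ℕ → ℕ} {j x h : ℕ} (hj : 1 ≤ j) (h1 : 2 ^ j ≤ x) (h2 : x + h < 2 ^ (j + 1))
    (hp : pj z j ≤ 1 / 2) :
    Real.exp (-((1 + 2 * pj z j) * pj z j * cnt (z j) x h)) ≤ ∏ n ∈ Ioc x (x + h), (1 - keepProb z n) := by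
  classical
  set p := pj z j with hpdef
  have hp0 : 0 ≤ p := by
    rw [hpdef]; unfold pj
    have := V_pos (z j)
    have hl2 : 0 < Real.log 2 := Real.log_pos (by norm_num)
    positivity
  have h3 : ∀ n ∈ Ioc x (x + h), (if Rgh (z j) n then Real.exp (-(p + 2 * p ^ 2)) else 1) ≤ 1 - keepProb z n := by
    intro n hn
    rw [mem_Ioc] at hn
    have hb1 : 2 ^ j ≤ n := by omega
    have hb2 : n < 2 ^ (j + 1) := by omega
    split_ifs with hr
    · have h4 := keep_le (z := z) hj hb1 hb2
      have h5 := exp_le_one_sub hp0 hp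
      have h6 : -(p + 2 * p ^ 2) = -p - 2 * p ^ 2 := by ring
      rw [h6]
      linarith
    · unfold keepProb
      rw [log_block hb1 hb2, if_neg hr]
      linarith
  calc Real.exp (-((1 + 2 * p) * p * cnt (z j) x h))
      = ∏ n ∈ Ioc x (x + h), (if Rgh (z j) n then Real.exp (-(p + 2 * p ^ 2)) else 1) := by
        rw [Finset.prod_ite, Finset.prod_const_one, mul_one, Finset.prod_const, ← Real.exp_nat_mul]
        unfold cnt
        congr 1
        ring
    _ ≤ _ := Finset.prod_le_prod (fun n _ => by split_ifs <;> positivity) h3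

end Pool.Agent.Q46.CM
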