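import Mathlib
import Pool.Agent.Q46.CM.Main

/-! Numerical part of the engine for the sieved random model (helper46). -/

set_option autoImplicit false

namespace Pool.Agent.Q46.CM

open Finset Filter Topology Pool.Agent.H318R2.Cr

theorem geom {j P a h Q N M : ℕ} (hP : 1 ≤ P) (ha : a < P) (hQ : Q = P * (h + 1)) (h4 : 4 * Q ≤ 2 ^ j)
    (hM : M = 2 ^ j / Q + 1) (hN : N = 2 ^ j / (4 * Q)) :
    1 ≤ Q ∧ a + h < Q ∧ ∀ i < N, 2 ^ j ≤ (M + i) * Q ∧ (M + i + 1) * Q < 2 ^ (j + 1) := by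
  have hQ1 : a + h < Q := by
    rw [hQ, Nat.mul_add, Nat.mul_one]
    have : h ≤ P * h := Nat.le_mul_of_pos_left h hP
    omega
  have hQ0 : 1 ≤ Q := by omega
  refine ⟨hQ0, hQ1, fun i hi => ?_⟩
  set T := 2 ^ j with hT
  have h5 : T < Q * (T / Q + 1) := Nat.lt_mul_div_succ T hQ0
  have h6 : (4 * Q) * (T / (4 * Q)) ≤ T := Nat.mul_div_le T (4 * Q)
  have h7 : Q * (T / Q) ≤ T := Nat.mul_div_le T Q
  rw [← hN] at h6
  have hpow : 2 ^ (j + 1) = 2 * T := by rw [pow_succ]; ring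
  rw [hpow]
  constructor
  · rw [hM, Nat.add_mul]
    have : Q * (T / Q + 1) = (T / Q + 1) * Q := Nat.mul_comm _ _
    have h9 : 0 ≤ i * Q := Nat.zero_le _
    omega
  · have h8 : (M + i + 1) * Q ≤ (M + N) * Q := Nat.mul_le_mul_right _ (by omega)
    have h9 : (M + N) * Q = Q * (T / Q) + Q + N * Q := by rw [hM]; ring
    have h10 : 4 * Q * N = 4 * (N * Q) := by ring
    rw [h10] at h6
    omega

set_option maxHeartbeats 4000000 in
theorem ev_main {z : ℕ → ℕ} (hz2 : ∀ᶠ j : ℕ in atTop, 2 ≤ z j)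
    (hz : Tendsto (fun j : ℕ => (z j : ℝ) / j) atTop (𝓝 0)) {lam δ θ : ℝ} (hlam : 0 < lam)
    (hδ1 : δ ≤ 1) (hθ : 0 < θ) (hθ1 : θ ≤ 1 / 8) (hl : (1 - δ) * lam ≤ 1 - 4 * θ) :
    ∀ᶠ j : ℕ in atTop, ∀ P Q N : ℕ, 1 ≤ P → P ≤ 4 ^ (z j) → Q = P * (hh lam j + 1) → N = 2 ^ j / (4 * Q) →
      4 * Q ≤ 2 ^ j ∧ (j : ℝ) ≤ Real.exp (-((1 + 2 * pj z j) * pj z j * ((1 - δ) * (hh lam j * V (z j))))) * N ∧
        (j : ℝ) ≤ N / ((j : ℝ) + 1) := by
  have hl2 : 0 < Real.log 2 := Real.log_pos (by norm_num)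
  set l := Real.log 2 with hl2def
  filter_upwards [ev_small hz (θ / 4) (by positivity), ev_cube (lam * l ^ 2),
    ev_exp 3 2 (θ * l / 2) (by positivity) (by norm_num), ev_exp 1 8 (θ * l) (by positivity) (by norm_num),
    ev_pj hz2 hz (θ / 4) (by positivity), eventually_ge_atTop 1, ev_exp 2 2 ((1 - 2 * θ) * l)
      (mul_pos (by linarith) hl2) (by norm_num),
    tendsto_natCast_atTop_atTop (R := ℝ) |>.eventually (eventually_ge_atTop (6 / θ))]
    with j e1 e2 e3 e4 e5 e6 e7 e8 P Q N hP1 hP hQ hN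
  have hj : (1 : ℝ) ≤ j := by exact_mod_cast e6
  rw [Real.rpow_one] at e4
  have hQ0 : 1 ≤ Q := by
    rw [hQ]; exact Nat.mul_pos hP1 (Nat.succ_pos _)
  have hQ0' : (1 : ℝ) ≤ Q := by exact_mod_cast hQ0
  -- size of `Q`
  have f1 : ((4 : ℝ) ^ (z j)) ≤ Real.exp (θ * l / 2 * j) := by
    have : (4 : ℝ) ^ (z j) = Real.exp (2 * l * z j) := by
      rw [show (4 : ℝ) = 2 ^ 2 by norm_num, ← pow_mul, ← Real.exp_log (show (0 : ℝ) < 2 ^ (2 * z j) by positivity),
        Real.log_pow]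
      congr 1
      push_cast; ring
    rw [this]
    apply Real.exp_le_exp.2
    nlinarith
  have f2 : ((hh lam j : ℝ) + 1) ≤ Real.exp (θ * l / 2 * j) := by
    refine le_trans ?_ e3
    have g1 := hh_le hlam.le j
    have g2 : lam * ((j + 1) * Real.log 2) ^ 2 = lam * l ^ 2 * ((j : ℝ) + 1) ^ 2 := by ring
    rw [g2] at g1
    have g3 : (1 : ℝ) ≤ (j : ℝ) ^ (3 : ℝ) := Real.one_le_rpow hj (by norm_num)
    linarith
  have f3 : (Q : ℝ) ≤ Real.exp (θ * l * j) := by
    rw [hQ]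
    push_cast
    have g1 : (P : ℝ) ≤ (4 : ℝ) ^ (z j) := by exact_mod_cast hP
    calc (P : ℝ) * ((hh lam j : ℝ) + 1) ≤ Real.exp (θ * l / 2 * j) * Real.exp (θ * l / 2 * j) := by
          apply mul_le_mul (g1.trans f1) f2 (by positivity) (Real.exp_pos _).le
      _ = Real.exp (θ * l * j) := by rw [← Real.exp_add]; congr 1; ring
  -- size of `N`
  have g4 : (2 : ℝ) ^ j = Real.exp (l * j) := by
    rw [hl2def, ← Real.exp_log (show (0 : ℝ) < 2 ^ j by positivity), Real.log_pow]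
    congr 1; ring
  set G := Real.exp ((1 - 2 * θ) * l * j) with hG
  have hG1 : 1 ≤ G := by
    rw [hG]; apply Real.one_le_exp
    apply mul_nonneg (mul_nonneg (by linarith) hl2.le) (by linarith)
  have f4 : G ≤ N := by
    have h1 : (2 : ℝ) ^ j / (4 * Q) < N + 1 := by
      have h2 : 2 ^ j < (4 * Q) * (N + 1) := by
        rw [hN]; exact Nat.lt_mul_div_succ _ (by omega)
      have h3 : (2 : ℝ) ^ j < (4 * Q) * (N + 1) := by exact_mod_cast h2
      rw [div_lt_iff₀ (by positivity)]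
      linarith
    have h2 : 2 * G ≤ (2 : ℝ) ^ j / (4 * Q) := by
      rw [le_div_iff₀ (by positivity), g4]
      have h3 : 8 ≤ Real.exp (θ * l * j) := by
        refine le_trans ?_ e4
        linarith
      calc 2 * G * (4 * Q) ≤ 2 * G * (4 * Real.exp (θ * l * j)) := by gcongr
        _ = 8 * (G * Real.exp (θ * l * j)) := by ring
        _ ≤ Real.exp (θ * l * j) * (G * Real.exp (θ * l * j)) := by gcongr
        _ = Real.exp (l * j) := by
            rw [hG, ← Real.exp_add, ← Real.exp_add]; congr 1; ring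
    linarith
  have hN1 : 1 ≤ N := by
    have : (1 : ℝ) ≤ N := hG1.trans f4
    exact_mod_cast this
  refine ⟨?_, ?_, ?_⟩
  · by_contra hcon
    push Not at hcon
    have : 2 ^ j / (4 * Q) = 0 := Nat.div_eq_of_lt hcon
    omega
  · -- the exponent
    have hV := V_pos (z j)
    have hp0 : 0 ≤ pj z j := by
      unfold pj; positivity
    have hpV : pj z j * V (z j) = 1 / (j * l) := by
      show 1 / (V (z j) * (j * l)) * V (z j) = 1 / (j * l)
      field_simp
    have h1 : (1 + 2 * pj z j) * pj z j * ((1 - δ) * (hh lam j * V (z j))) ≤ (1 - 3 * θ) * l * j := by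
      have h2 : (1 + 2 * pj z j) * pj z j * ((1 - δ) * (hh lam j * V (z j))) =
          (1 + 2 * pj z j) * ((1 - δ) * (hh lam j * (1 / (j * l)))) := by
        rw [← hpV]; ring
      rw [h2]
      have h3 : (hh lam j : ℝ) * (1 / (j * l)) ≤ lam * ((j + 3) * l) := by
        rw [mul_one_div, div_le_iff₀ (by positivity)]
        refine (hh_le hlam.le j).trans ?_
        have h4 : ((j : ℝ) + 1) ^ 2 ≤ (j + 3) * j := by nlinarith
        calc lam * ((j + 1) * Real.log 2) ^ 2 = lam * l ^ 2 * ((j : ℝ) + 1) ^ 2 := by ring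
          _ ≤ lam * l ^ 2 * ((j + 3) * j) := by gcongr
          _ = lam * ((j + 3) * l) * (j * l) := by ring
      have h5 : (1 - δ) * ((hh lam j : ℝ) * (1 / (j * l))) ≤ (1 - 4 * θ) * ((j + 3) * l) := by
        calc (1 - δ) * ((hh lam j : ℝ) * (1 / (j * l))) ≤ (1 - δ) * (lam * ((j + 3) * l)) :=
              mul_le_mul_of_nonneg_left h3 (by linarith)
          _ = (1 - δ) * lam * ((j + 3) * l) := by ring
          _ ≤ (1 - 4 * θ) * ((j + 3) * l) := by gcongr
      have h6 : 0 ≤ (1 - 4 * θ) * (((j : ℝ) + 3) * l) := mul_nonneg (by linarith) (by positivity)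
      calc (1 + 2 * pj z j) * ((1 - δ) * (hh lam j * (1 / (j * l)))) ≤
          (1 + 2 * pj z j) * ((1 - 4 * θ) * ((j + 3) * l)) := mul_le_mul_of_nonneg_left h5 (by linarith)
        _ ≤ (1 + 2 * (θ / 4)) * ((1 - 4 * θ) * ((j + 3) * l)) := mul_le_mul_of_nonneg_right (by linarith) h6
        _ = ((1 + 2 * (θ / 4)) * (1 - 4 * θ) * (j + 3)) * l := by ring
        _ ≤ ((1 - 3 * θ) * j) * l := by
            apply mul_le_mul_of_nonneg_right _ hl2.le
            rw [div_le_iff₀ hθ] at e8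
            have h7 : (1 + 2 * (θ / 4)) * (1 - 4 * θ) ≤ 1 - 7 / 2 * θ := by nlinarith
            calc (1 + 2 * (θ / 4)) * (1 - 4 * θ) * ((j : ℝ) + 3) ≤ (1 - 7 / 2 * θ) * ((j : ℝ) + 3) := by gcongr
              _ ≤ (1 - 3 * θ) * j := by nlinarith
        _ = (1 - 3 * θ) * l * j := by ring
    calc (j : ℝ) ≤ Real.exp (θ * l * j) := by linarith
      _ = Real.exp (-((1 - 3 * θ) * l * j)) * G := by
          rw [hG, ← Real.exp_add]; congr 1; ring
      _ ≤ Real.exp (-((1 + 2 * pj z j) * pj z j * ((1 - δ) * (hh lam j * V (z j))))) * N := by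
          apply mul_le_mul _ f4 (by linarith) (Real.exp_pos _).le
          apply Real.exp_le_exp.2
          linarith
  · rw [Real.rpow_two] at e7
    have h1 : (j : ℝ) * (j + 1) ≤ 2 * (j : ℝ) ^ 2 := by nlinarith
    have h2 : (0 : ℝ) < (j : ℝ) + 1 := by linarith
    rw [le_div_iff₀ h2]
    exact h1.trans (e7.trans f4)

end Pool.Agent.Q46.CM
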