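import Mathlib
import Pool.Agent.Q46.CM.Num2

/-! The engine for the sieved random model (helper46). -/

set_option autoImplicit false

namespace Pool.Agent.Q46.CM

open Finset Filter Topology MeasureTheory ProbabilityTheory Pool.Agent.H318R2.Cr
open scoped ENNReal

variable {Ω : Type*} [MeasurableSpace Ω] {μ : Measure Ω} {z : ℕ → ℕ} {A : ℕ → Set Ω}

/-- no empty interval of length `h` in the block `j` -/
def EE (A : ℕ → Set Ω) (j h : ℕ) : Set Ω :=
  {ω | ∀ b, 2 ^ j ≤ b → b + h < 2 ^ (j + 1) → ∃ n, b < n ∧ n ≤ b + h ∧ ω ∈ A n}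

/-- no element in the block `j` -/
def FF (A : ℕ → Set Ω) (j : ℕ) : Set Ω := {ω | ∀ n, 2 ^ j ≤ n → n < 2 ^ (j + 1) → ω ∉ A n}

theorem EE_bound (hA : IsSievedModel μ z A) {j a h Q N M : ℕ} (hj : 1 ≤ j) (hp : pj z j ≤ 1 / 2) {c : ℝ}
    (hc : (cnt (z j) a h : ℝ) ≤ c) (hQd : ∀ p : ℕ, p.Prime → p ≤ z j → p ∣ Q) (hQ0 : 1 ≤ Q) (haQ : a + h < Q)
    (hg : ∀ i < N, 2 ^ j ≤ (M + i) * Q ∧ (M + i + 1) * Q < 2 ^ (j + 1)) :
    μ (EE A j h) ≤ ENNReal.ofReal (Real.exp (-(Real.exp (-((1 + 2 * pj z j) * pj z j * c)) * N))) := by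
  have hp0 : 0 ≤ pj z j := by
    unfold pj
    have := V_pos (z j)
    have hl2 : 0 < Real.log 2 := Real.log_pos (by norm_num)
    positivity
  set I : ℕ → Finset ℕ := fun i => Ioc ((M + i) * Q + a) ((M + i) * Q + a + h) with hI
  have hlt : ∀ i, (M + i) * Q + a + h < (M + i + 1) * Q := by
    intro i
    have : (M + i + 1) * Q = (M + i) * Q + Q := by ring
    omega
  have hdisj : ∀ i < N, ∀ k < N, i ≠ k → Disjoint (I i) (I k) := by
    have key : ∀ i k : ℕ, i < k → Disjoint (I i) (I k) := by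
      intro i k hik
      rw [Finset.disjoint_left]
      intro n h1 h2
      simp only [hI, mem_Ioc] at h1 h2
      have h3 : (M + i + 1) * Q ≤ (M + k) * Q := Nat.mul_le_mul_right _ (by omega)
      have := hlt i
      omega
    intro i _ k _ hik
    rcases lt_or_gt_of_ne hik with h1 | h1
    · exact key i k h1
    · exact (key k i h1).symm
  refine le_trans (measure_mono ?_) (prob_all_nonempty hA.measurable hA.indep I N hdisj
    (Real.exp (-((1 + 2 * pj z j) * pj z j * c))) (Real.exp_pos _).le ?_)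
  · intro ω hω
    simp only [Set.mem_iInter]
    intro i hi
    rw [mem_range] at hi
    obtain ⟨g1, g2⟩ := hg i hi
    obtain ⟨n, hn1, hn2, hn3⟩ := hω ((M + i) * Q + a) (by omega) (by have := hlt i; omega)
    intro hcon
    simp only [Set.mem_iInter] at hcon
    exact hcon n (by simp only [hI, mem_Ioc]; exact ⟨hn1, hn2⟩) hn3
  · intro i hi
    obtain ⟨g1, g2⟩ := hg i hi
    rw [prob_empty hA.measurable hA.indep (keepProb z) (keep_nonneg z) (keep_le_one z) hA.prob]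
    apply ENNReal.ofReal_le_ofReal
    refine le_trans ?_ (prod_lower hj (by omega) (by have := hlt i; omega) hp)
    apply Real.exp_le_exp.2
    rw [cnt_shift (fun p hp1 hp2 => Dvd.dvd.mul_left (hQd p hp1 hp2) _)]
    have : (1 + 2 * pj z j) * pj z j * (cnt (z j) a h : ℝ) ≤ (1 + 2 * pj z j) * pj z j * c :=
      mul_le_mul_of_nonneg_left hc (by positivity)
    linarith

theorem FF_bound (hA : IsSievedModel μ z A) {j Q N M : ℕ} (hj : 1 ≤ j)
    (hQd : ∀ p : ℕ, p.Prime → p ≤ z j → p ∣ Q) (hQ0 : 1 ≤ Q)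
    (hg : ∀ i < N, 2 ^ j ≤ (M + i) * Q ∧ (M + i + 1) * Q < 2 ^ (j + 1)) :
    μ (FF A j) ≤ ENNReal.ofReal (Real.exp (-(N / ((j : ℝ) + 1)))) := by
  set I : Finset ℕ := (range N).image (fun i => (M + i) * Q + 1) with hI
  have hinj : Set.InjOn (fun i => (M + i) * Q + 1) (range N : Set ℕ) := by
    intro i _ k _ hik
    simp only [Nat.add_right_cancel_iff] at hik
    have := Nat.eq_of_mul_eq_mul_right hQ0 hik
    omega
  have hsub : FF A j ⊆ ⋂ n ∈ I, (A n)ᶜ := by
    intro ω hω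
    simp only [Set.mem_iInter]
    intro n hn
    rw [hI, mem_image] at hn
    obtain ⟨i, hi, rfl⟩ := hn
    rw [mem_range] at hi
    obtain ⟨g1, g2⟩ := hg i hi
    have : (M + i + 1) * Q = (M + i) * Q + Q := by ring
    exact hω _ (by omega) (by omega)
  refine (measure_mono hsub).trans ?_
  rw [prob_empty hA.measurable hA.indep (keepProb z) (keep_nonneg z) (keep_le_one z) hA.prob]
  apply ENNReal.ofReal_le_ofReal
  rw [hI, Finset.prod_image hinj]
  have h1 : ∀ i ∈ range N, 1 - keepProb z ((M + i) * Q + 1) ≤ Real.exp (-(1 / ((j : ℝ) + 1))) := by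
    intro i hi
    rw [mem_range] at hi
    obtain ⟨g1, g2⟩ := hg i hi
    have h3 : (M + i + 1) * Q = (M + i) * Q + Q := by ring
    have hr : Rgh (z j) ((M + i) * Q + 1) := by
      rw [rgh_add (fun p hp1 hp2 => Dvd.dvd.mul_left (hQd p hp1 hp2) _)]
      exact Rgh_one
    have h2 := keep_rough_ge (z := z) (show 2 ^ j ≤ (M + i) * Q + 1 by omega)
      (show (M + i) * Q + 1 < 2 ^ (j + 1) by omega) hr hj
    have h4 := Real.add_one_le_exp (-(1 / ((j : ℝ) + 1)))
    linarith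
  calc ∏ i ∈ range N, (1 - keepProb z ((M + i) * Q + 1)) ≤ ∏ i ∈ range N, Real.exp (-(1 / ((j : ℝ) + 1))) :=
        Finset.prod_le_prod (fun i _ => by linarith [keep_le_one z ((M + i) * Q + 1)]) h1
    _ = Real.exp (-(N / ((j : ℝ) + 1))) := by
        rw [Finset.prod_const, card_range, ← Real.exp_nat_mul]
        congr 1
        ring

theorem sum_fin (f : ℕ → ℝ≥0∞) (J : ℕ) (h : ∀ j ≥ J, f j ≤ ENNReal.ofReal (Real.exp (-(j : ℝ)))) :
    ∑' j, f (j + J) ≠ ∞ := by
  have h1 : ∀ j, f (j + J) ≤ ENNReal.ofReal ((Real.exp (-1)) ^ j) := by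
    intro j
    refine (h (j + J) (by omega)).trans (ENNReal.ofReal_le_ofReal ?_)
    rw [← Real.exp_nat_mul]
    apply Real.exp_le_exp.2
    push_cast
    have : (0 : ℝ) ≤ J := Nat.cast_nonneg J
    linarith
  have h2 : Summable (fun j : ℕ => (Real.exp (-1)) ^ j) :=
    summable_geometric_of_lt_one (Real.exp_pos _).le (by rw [Real.exp_lt_one_iff]; norm_num)
  refine ne_top_of_le_ne_top ?_ (ENNReal.tsum_le_tsum h1)
  rw [← ENNReal.ofReal_tsum_of_nonneg (fun j => by positivity) h2]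
  exact ENNReal.ofReal_ne_top

theorem bc (f : ℕ → Set Ω) (J : ℕ) (h : ∀ j ≥ J, μ (f j) ≤ ENNReal.ofReal (Real.exp (-(j : ℝ)))) :
    ∀ᵐ ω ∂μ, ∃ J' : ℕ, ∀ j ≥ J', ω ∉ f j := by
  have h1 := ae_eventually_notMem (μ := μ) (s := fun j => f (j + J)) (sum_fin (fun j => μ (f j)) J h)
  filter_upwards [h1] with ω hω
  obtain ⟨J', hJ'⟩ := eventually_atTop.1 hω
  refine ⟨J' + J, fun j hj => ?_⟩
  have h3 : ω ∉ f (j - J + J) := hJ' (j - J) (by omega)
  rwa [Nat.sub_add_cancel (by omega)] at h3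

/-- the product of the primes up to `z` -/
theorem prime_dvd_primorial {p n : ℕ} (hp : p.Prime) (h : p ≤ n) : p ∣ primorial n := by
  unfold primorial
  apply Finset.dvd_prod_of_mem
  rw [mem_filter, mem_range]
  exact ⟨by omega, hp⟩

theorem engine (hA : IsSievedModel μ z A) (hz2 : ∀ᶠ j : ℕ in atTop, 2 ≤ z j)
    (hz : Tendsto (fun j : ℕ => (z j : ℝ) / j) atTop (𝓝 0)) {lam δ : ℝ} (hlam : 0 < lam)
    (hδ1 : δ ≤ 1) (hl : (1 - δ) * lam < 1)
    (H : ∀ᶠ j : ℕ in atTop, ∃ a : ℕ, (cnt (z j) a (hh lam j) : ℝ) ≤ (1 - δ) * (hh lam j * V (z j))) :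
    ∀ᵐ ω ∂μ, (lam : EReal) ≤ cramerLimsup {n | ω ∈ A n} := by
  set θ : ℝ := min ((1 - (1 - δ) * lam) / 4) (1 / 8) with hθ
  have hθ0 : 0 < θ := lt_min (by linarith) (by norm_num)
  have hθ1 : θ ≤ 1 / 8 := min_le_right _ _
  have hθ2 : (1 - δ) * lam ≤ 1 - 4 * θ := by
    have : θ ≤ (1 - (1 - δ) * lam) / 4 := min_le_left _ _
    linarith
  obtain ⟨J, hJ⟩ := eventually_atTop.1 (((ev_main hz2 hz hlam hδ1 hθ0 hθ1 hθ2).and H).and
    ((ev_pj hz2 hz (1 / 2) (by norm_num)).and (eventually_ge_atTop 1)))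
  have hboth : ∀ j ≥ J, μ (EE A j (hh lam j)) ≤ ENNReal.ofReal (Real.exp (-(j : ℝ))) ∧
      μ (FF A j) ≤ ENNReal.ofReal (Real.exp (-(j : ℝ))) := by
    intro j hj
    obtain ⟨⟨h1, a', ha'⟩, h2, h3⟩ := hJ j hj
    set P := primorial (z j) with hP
    have hP1 : 1 ≤ P := primorial_pos _
    have hP4 : P ≤ 4 ^ (z j) := primorial_le_four_pow _
    set a := a' % P with ha
    have haP : a < P := Nat.mod_lt _ hP1
    have hcnt : cnt (z j) a (hh lam j) = cnt (z j) a' (hh lam j) := by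
      conv_rhs => rw [← Nat.div_add_mod a' P]
      rw [cnt_shift (fun p hp1 hp2 => Dvd.dvd.mul_right (prime_dvd_primorial hp1 hp2) _)]
    set Q := P * (hh lam j + 1) with hQ
    set N := 2 ^ j / (4 * Q) with hN
    set M := 2 ^ j / Q + 1 with hM
    obtain ⟨f1, f2, f3⟩ := h1 P Q N hP1 hP4 rfl rfl
    obtain ⟨g1, g2, g3⟩ := geom hP1 haP hQ f1 hM hN
    have hQd : ∀ p : ℕ, p.Prime → p ≤ z j → p ∣ Q := fun p hp1 hp2 =>
      Dvd.dvd.mul_right (prime_dvd_primorial hp1 hp2) _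
    constructor
    · rw [← hcnt] at ha'
      refine (EE_bound hA h3 h2 ha' hQd g1 g2 g3).trans (ENNReal.ofReal_le_ofReal ?_)
      apply Real.exp_le_exp.2
      linarith
    · refine (FF_bound hA h3 hQd g1 g3).trans (ENNReal.ofReal_le_ofReal ?_)
      apply Real.exp_le_exp.2
      linarith
  filter_upwards [bc (fun j => EE A j (hh lam j)) J (fun j hj => (hboth j hj).1),
    bc (fun j => FF A j) J (fun j hj => (hboth j hj).2)] with ω h1 h2
  obtain ⟨J1, hJ1⟩ := h1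
  obtain ⟨J2, hJ2⟩ := h2
  apply limsup_ge {n | ω ∈ A n} lam (max J1 J2)
  · intro j hj
    have := hJ2 j (le_trans (le_max_right _ _) hj)
    unfold FF at this
    simp only [Set.mem_setOf_eq, not_forall] at this
    obtain ⟨n, hn1, hn2, hn3⟩ := this
    exact ⟨n, by simpa using hn3, hn1, hn2⟩
  · intro j hj
    have := hJ1 j (le_trans (le_max_left _ _) hj)
    unfold EE at this
    simp only [Set.mem_setOf_eq, not_forall] at this
    obtain ⟨b, hb1, hb2, hb3⟩ := this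
    refine ⟨b, hh lam j, hb1, hb2, hh_lt lam j, fun n hn hbn => ?_⟩
    by_contra hcon
    exact hb3 ⟨n, hbn, by omega, hn⟩

end Pool.Agent.Q46.CM
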