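import Mathlib
import Pool.Agent.Q46.CM.Engine

/-! The average number of rough integers in an interval (helper46). -/

set_option autoImplicit false

namespace Pool.Agent.Q46.CM

open Finset Filter Topology MeasureTheory Pool.Agent.H318R2.Cr

theorem rgh_iff (z n : ℕ) : Rgh z n ↔ (primorial z).Coprime n := by
  unfold Rgh primorial
  rw [Nat.coprime_prod_left_iff]
  constructor
  · intro h p hp
    rw [mem_filter, mem_range] at hp
    rw [Nat.Prime.coprime_iff_not_dvd hp.2]
    exact h p hp.2 (by omega)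
  · intro h p hp hpz
    rw [← Nat.Prime.coprime_iff_not_dvd hp]
    exact h p (mem_filter.2 ⟨mem_range.2 (by omega), hp⟩)

theorem tot_primorial (z : ℕ) : (Nat.totient (primorial z) : ℝ) = primorial z * V z := by
  have h1 := Nat.totient_eq_mul_prod_factors (primorial z)
  rw [primeFactors_primorial] at h1
  have h2 : ((Nat.totient (primorial z) : ℚ) : ℝ) = ((primorial z * ∏ p ∈ Nat.primesLE z, (1 - (p : ℚ)⁻¹) : ℚ) : ℝ) := by
    rw [h1]
  push_cast at h2
  rw [h2]
  congr 1
  unfold V
  have : Nat.primesLE z = Pz z := by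
    ext p
    rw [Nat.mem_primesLE]
    unfold Pz
    rw [mem_filter, mem_Ioc]
    constructor
    · rintro ⟨h1, h2⟩; exact ⟨⟨h2.pos, h1⟩, h2⟩
    · rintro ⟨⟨_, h1⟩, h2⟩; exact ⟨h1, h2⟩
  rw [this]
  apply Finset.prod_congr rfl
  intro p _
  rw [one_div]

theorem avg (z h : ℕ) : ∃ a : ℕ, (cnt z a h : ℝ) ≤ h * V z := by
  classical
  set P := primorial z with hP
  have hP0 : 0 < P := primorial_pos z
  have hsum : ∑ a ∈ range P, (cnt z a h : ℝ) = P * (h * V z) := by
    have h1 : ∀ a : ℕ, (cnt z a h : ℝ) = ∑ i ∈ Ioc 0 h, (if P.Coprime (a + i) then (1 : ℝ) else 0) := by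
      intro a
      rw [Finset.sum_boole]
      unfold cnt
      congr 1
      have h2 : (Ioc a (a + h)).filter (Rgh z) = ((Ioc 0 h).filter (fun i => P.Coprime (a + i))).image (fun n => a + n) := by
        ext m
        simp only [mem_filter, mem_Ioc, mem_image]
        constructor
        · rintro ⟨⟨h1, h2⟩, h3⟩
          refine ⟨m - a, ⟨⟨by omega, by omega⟩, ?_⟩, by omega⟩
          rw [show a + (m - a) = m by omega]
          exact (rgh_iff z m).1 h3
        · rintro ⟨k, ⟨⟨h1, h2⟩, h3⟩, rfl⟩
          exact ⟨⟨by omega, by omega⟩, (rgh_iff z _).2 h3⟩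
      rw [h2, card_image_of_injective _ (fun u v huv => by simpa using huv)]
    rw [Finset.sum_congr rfl (fun a _ => h1 a), Finset.sum_comm]
    have h3 : ∀ i ∈ Ioc 0 h, ∑ a ∈ range P, (if P.Coprime (a + i) then (1 : ℝ) else 0) = P * V z := by
      intro i _
      rw [Finset.sum_boole, ← tot_primorial, ← Nat.filter_coprime_Ico_eq_totient P i]
      congr 1
      have h4 : (Ico i (i + P)).filter (fun x => P.Coprime x) =
          ((range P).filter (fun a => P.Coprime (a + i))).image (fun a => a + i) := by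
        ext m
        simp only [mem_filter, mem_Ico, mem_image, mem_range]
        constructor
        · rintro ⟨⟨h1, h2⟩, h3⟩
          exact ⟨m - i, ⟨by omega, by rwa [Nat.sub_add_cancel h1]⟩, by omega⟩
        · rintro ⟨k, ⟨h1, h3⟩, rfl⟩
          exact ⟨⟨by omega, by omega⟩, h3⟩
      rw [h4, card_image_of_injective _ (fun u v huv => by simpa using huv)]
    rw [Finset.sum_congr rfl h3, Finset.sum_const, Nat.card_Ioc, Nat.sub_zero, nsmul_eq_mul]
    ring
  by_contra hcon
  push Not at hcon
  have h5 : ∑ _a ∈ range P, (h * V z : ℝ) < ∑ a ∈ range P, (cnt z a h : ℝ) :=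
    Finset.sum_lt_sum_of_nonempty ⟨0, mem_range.2 hP0⟩ (fun a _ => hcon a)
  rw [hsum, Finset.sum_const, card_range, nsmul_eq_mul] at h5
  exact lt_irrefl _ h5

end Pool.Agent.Q46.CM
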