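import Mathlib

/-! The largest gap up to `x` (helper46). -/

set_option autoImplicit false

namespace Pool.Agent.Q46.CM

open Filter Topology

/-- `q < q'` are consecutive elements of `S` -/
def Consec (S : Set ℕ) (q q' : ℕ) : Prop := q ∈ S ∧ q' ∈ S ∧ q < q' ∧ ∀ m ∈ S, q < m → q' ≤ m

/-- the largest gap `q' - q` between consecutive elements of `S` whose smaller member is at most `x` -/
noncomputable def GapMax (S : Set ℕ) (x : ℝ) : EReal :=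
  ⨆ (q : ℕ) (q' : ℕ) (_ : Consec S q q' ∧ (q : ℝ) ≤ x), (((q' : ℝ) - q : ℝ) : EReal)

theorem G_ge (S : Set ℕ) {lam lam' : ℝ} (hl : 0 ≤ lam') (hll : lam' < lam) (J : ℕ)
    (h1 : ∀ j ≥ J, ∃ n ∈ S, 2 ^ j ≤ n ∧ n < 2 ^ (j + 1))
    (h2 : ∀ j ≥ J, ∃ a h : ℕ, 2 ^ j ≤ a ∧ a + h < 2 ^ (j + 1) ∧
      lam * (Real.log ((2:ℝ) ^ (j + 1))) ^ 2 < h + 1 ∧ ∀ n ∈ S, a < n → a + h < n) :
    ∃ x₀ : ℝ, ∀ x : ℝ, x₀ ≤ x → ((lam' * Real.log x ^ 2 : ℝ) : EReal) ≤ GapMax S x := by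
  classical
  have hlim : ∀ᶠ k : ℕ in atTop, lam' * (((k : ℝ) + 1) / k) ^ 2 ≤ lam := by
    have h3 : Tendsto (fun j : ℕ => ((j : ℝ) + 1) / j) atTop (𝓝 1) := by
      have h4 : Tendsto (fun j : ℕ => 1 + 1 / (j : ℝ)) atTop (𝓝 (1 + 0)) :=
        tendsto_const_nhds.add tendsto_one_div_atTop_nhds_zero_nat
      rw [add_zero] at h4
      refine h4.congr' ?_
      filter_upwards [eventually_ge_atTop 1] with j hj
      have : (0 : ℝ) < j := by exact_mod_cast hj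
      field_simp
    have h5 := (h3.pow 2).const_mul lam'
    rw [one_pow, mul_one] at h5
    exact h5.eventually_le_const hll
  obtain ⟨k₀, hk₀⟩ := eventually_atTop.1 hlim
  refine ⟨(2 : ℝ) ^ (max k₀ (J + 2)), fun x hx => ?_⟩
  have hxpos : (0 : ℝ) < x := lt_of_lt_of_le (by positivity) hx
  have hfx : 2 ^ (max k₀ (J + 2)) ≤ ⌊x⌋₊ := Nat.le_floor (by push_cast; exact hx)
  have hfx0 : ⌊x⌋₊ ≠ 0 := by
    have : 0 < 2 ^ (max k₀ (J + 2)) := by positivity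
    omega
  obtain ⟨k, hk⟩ : ∃ k, k = Nat.log 2 ⌊x⌋₊ := ⟨_, rfl⟩
  have hk1 : 2 ^ k ≤ ⌊x⌋₊ := by rw [hk]; exact Nat.pow_log_le_self 2 hfx0
  have hk2 : ⌊x⌋₊ < 2 ^ (k + 1) := by rw [hk]; exact Nat.lt_pow_succ_log_self (by norm_num) _
  have hkm : max k₀ (J + 2) ≤ k := by rw [hk]; exact Nat.le_log_of_pow_le (by norm_num) hfx
  have hkk : k₀ ≤ k := (le_max_left _ _).trans hkm
  have hkJ : J + 2 ≤ k := (le_max_right _ _).trans hkm
  clear hk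
  obtain ⟨j, rfl⟩ : ∃ j, k = j + 1 := ⟨k - 1, by omega⟩
  obtain ⟨a, h, ha1, ha2, ha3, ha4⟩ := h2 j (by omega)
  obtain ⟨n₁, hn₁, hn₁a, hn₁b⟩ := h1 (j - 1) (by omega)
  obtain ⟨n₂, hn₂, hn₂a, hn₂b⟩ := h1 (j + 1) (by omega)
  have hj1 : j - 1 + 1 = j := by omega
  rw [hj1] at hn₁b
  set q := Nat.findGreatest (· ∈ S) a with hq
  have hqS : q ∈ S := Nat.findGreatest_spec (P := (· ∈ S)) (show n₁ ≤ a by omega) hn₁
  have hqa : q ≤ a := Nat.findGreatest_le a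
  have hex : ∃ m, m ∈ S ∧ a < m := ⟨n₂, hn₂, by omega⟩
  set q' := Nat.find hex with hq'
  obtain ⟨hq'S, hq'a⟩ := Nat.find_spec hex
  have hcons : Consec S q q' := by
    refine ⟨hqS, hq'S, by omega, fun m hm hqm => ?_⟩
    by_cases hma : m ≤ a
    · have := Nat.le_findGreatest (P := (· ∈ S)) hma hm
      omega
    · exact Nat.find_min' hex ⟨hm, by omega⟩
  have hqx : (q : ℝ) ≤ x := by
    have h5 : q ≤ ⌊x⌋₊ := by omega
    have h6 : (q : ℝ) ≤ ⌊x⌋₊ := by exact_mod_cast h5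
    exact h6.trans (Nat.floor_le hxpos.le)
  unfold GapMax
  refine le_iSup_of_le q (le_iSup_of_le q' (le_iSup_of_le ⟨hcons, hqx⟩ ?_))
  apply EReal.coe_le_coe_iff.2
  have h7 := ha4 q' hq'S hq'a
  have h8 : (a : ℝ) + h + 1 ≤ q' := by exact_mod_cast h7
  have h9 : (q : ℝ) ≤ a := by exact_mod_cast hqa
  have h10 : Real.log x ≤ ((j + 1 : ℕ) + 1) * Real.log 2 := by
    have h11 : x ≤ (2 : ℝ) ^ (j + 1 + 1) := by
      have h12 := Nat.lt_floor_add_one x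
      have h13 : (⌊x⌋₊ : ℝ) + 1 ≤ (2 : ℝ) ^ (j + 1 + 1) := by exact_mod_cast hk2
      linarith
    have h14 := Real.log_le_log hxpos h11
    rw [Real.log_pow] at h14
    push_cast at h14 ⊢
    exact h14
  have hlx : 0 ≤ Real.log x := by
    apply Real.log_nonneg
    have : (1 : ℝ) ≤ 2 ^ (max k₀ (J + 2)) := one_le_pow₀ (by norm_num)
    linarith
  have h15 := hk₀ (j + 1) hkk
  rw [Real.log_pow] at ha3
  have hjp : (0 : ℝ) < ((j + 1 : ℕ) : ℝ) := by positivity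
  have h16 : lam' * Real.log x ^ 2 ≤ lam * (((j + 1 : ℕ) : ℝ) * Real.log 2) ^ 2 := by
    calc lam' * Real.log x ^ 2 ≤ lam' * ((((j + 1 : ℕ) : ℝ) + 1) * Real.log 2) ^ 2 := by
          apply mul_le_mul_of_nonneg_left _ hl
          exact pow_le_pow_left₀ hlx h10 2
      _ = lam' * ((((j + 1 : ℕ) : ℝ) + 1) / ((j + 1 : ℕ) : ℝ)) ^ 2 * (((j + 1 : ℕ) : ℝ) * Real.log 2) ^ 2 := by
          field_simp
      _ ≤ lam * (((j + 1 : ℕ) : ℝ) * Real.log 2) ^ 2 := mul_le_mul_of_nonneg_right h15 (by positivity)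
  linarith

theorem G_le (S : Set ℕ) {β : ℝ} (hβ : 0 < β) (J : ℕ)
    (h : ∀ j ≥ J, ∀ a : ℕ, 2 ^ j ≤ a → a < 2 ^ (j + 1) →
      ∃ n ∈ S, a < n ∧ (n : ℝ) ≤ a + β * (Real.log ((2:ℝ) ^ j)) ^ 2) :
    ∃ x₀ : ℝ, ∀ x : ℝ, x₀ ≤ x → GapMax S x ≤ ((β * Real.log x ^ 2 : ℝ) : EReal) := by
  obtain ⟨n₀, hn₀, hn₀a, -⟩ := h J le_rfl (2 ^ J) le_rfl (Nat.pow_lt_pow_right (by norm_num) (Nat.lt_succ_self J))
  have hlim : ∀ᶠ x : ℝ in atTop, (n₀ : ℝ) ≤ β * Real.log x ^ 2 := by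
    have h1 : Tendsto (fun x : ℝ => β * Real.log x ^ 2) atTop atTop :=
      ((tendsto_pow_atTop (by norm_num)).comp Real.tendsto_log_atTop).const_mul_atTop hβ
    exact h1.eventually_ge_atTop _
  obtain ⟨x₀, hx₀⟩ := eventually_atTop.1 hlim
  refine ⟨x₀, fun x hx => ?_⟩
  unfold GapMax
  refine iSup_le fun q => iSup_le fun q' => iSup_le fun hq => ?_
  obtain ⟨⟨hqS, hq'S, hqq, hmin⟩, hqx⟩ := hq
  apply EReal.coe_le_coe_iff.2
  rcases lt_or_ge q (2 ^ J) with h1 | h1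
  · have h2 : q' ≤ n₀ := hmin n₀ hn₀ (by omega)
    have h3 : (q' : ℝ) ≤ n₀ := by exact_mod_cast h2
    have h4 : (0 : ℝ) ≤ q := Nat.cast_nonneg q
    linarith [hx₀ x hx]
  · have hq0 : q ≠ 0 := by
      have : 0 < 2 ^ J := by positivity
      omega
    set j := Nat.log 2 q with hj
    have hj1 : 2 ^ j ≤ q := Nat.pow_log_le_self 2 hq0
    have hj2 : q < 2 ^ (j + 1) := Nat.lt_pow_succ_log_self (by norm_num) _
    have hjJ : J ≤ j := Nat.le_log_of_pow_le (by norm_num) h1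
    obtain ⟨n, hn, hn1, hn2⟩ := h j hjJ q hj1 hj2
    have h2 : q' ≤ n := hmin n hn hn1
    have h3 : (q' : ℝ) ≤ n := by exact_mod_cast h2
    have h4 : Real.log ((2:ℝ) ^ j) ≤ Real.log x := by
      apply Real.log_le_log (by positivity)
      have : ((2:ℝ) ^ j) ≤ q := by exact_mod_cast hj1
      linarith
    have h5 : 0 ≤ Real.log ((2:ℝ) ^ j) := Real.log_nonneg (one_le_pow₀ (by norm_num))
    have h6 : β * Real.log ((2:ℝ) ^ j) ^ 2 ≤ β * Real.log x ^ 2 :=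
      mul_le_mul_of_nonneg_left (pow_le_pow_left₀ h5 h4 2) hβ.le
    linarith

end Pool.Agent.Q46.CM
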