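import Mathlib
import Pool.Agent.Q46.CM.Prob

/-! A zero-one law for long gaps in random sets with independent members (helper46). -/

set_option autoImplicit false

namespace Pool.Agent.Q46.CM

open Finset Filter Topology MeasureTheory ProbabilityTheory
open scoped ENNReal

section cheb
variable {Ω : Type*} [MeasurableSpace Ω] {μ : Measure Ω} [IsProbabilityMeasure μ]

/-- second moment method for events with nonpositive correlations -/
theorem cheb (E : ℕ → Set Ω) (hE : ∀ n, MeasurableSet (E n)) (I : Finset ℕ)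
    (hneg : ∀ n ∈ I, ∀ m ∈ I, n ≠ m → μ.real (E n ∩ E m) ≤ μ.real (E n) * μ.real (E m))
    (hM : 0 < ∑ n ∈ I, μ.real (E n)) :
    μ.real (⋂ n ∈ I, (E n)ᶜ) ≤ 1 / ∑ n ∈ I, μ.real (E n) := by
  classical
  set M := ∑ n ∈ I, μ.real (E n) with hMd
  set f : ℕ → Ω → ℝ := fun n => (E n).indicator 1 with hf
  have hint : ∀ n, Integrable (f n) μ := fun n => (integrable_const (1 : ℝ)).indicator (hE n)
  have hmul : ∀ n m, (fun ω => f n ω * f m ω) = (E n ∩ E m).indicator 1 := by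
    intro n m
    funext ω
    simp only [hf, Set.indicator_apply, Set.mem_inter_iff, Pi.one_apply]
    by_cases h1 : ω ∈ E n <;> by_cases h2 : ω ∈ E m <;> simp [h1, h2]
  have hint2 : ∀ n m, Integrable (fun ω => f n ω * f m ω) μ := by
    intro n m
    rw [hmul]
    exact (integrable_const (1 : ℝ)).indicator ((hE n).inter (hE m))
  have hval : ∀ n, ∫ ω, f n ω ∂μ = μ.real (E n) := fun n => integral_indicator_one (hE n)
  have hval2 : ∀ n m, ∫ ω, f n ω * f m ω ∂μ = μ.real (E n ∩ E m) := by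
    intro n m
    rw [hmul]
    exact integral_indicator_one ((hE n).inter (hE m))
  set B := ⋂ n ∈ I, (E n)ᶜ with hB
  have hBm : MeasurableSet B := Finset.measurableSet_biInter _ fun n _ => (hE n).compl
  have hexp : ∀ ω, (∑ n ∈ I, f n ω - M) ^ 2 = (∑ n ∈ I, ∑ m ∈ I, f n ω * f m ω) - 2 * M * ∑ n ∈ I, f n ω + M ^ 2 := by
    intro ω
    have : (∑ n ∈ I, f n ω) ^ 2 = ∑ n ∈ I, ∑ m ∈ I, f n ω * f m ω := by
      rw [pow_two, Finset.sum_mul_sum]
    rw [← this]
    ring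
  have hi1 : Integrable (fun ω => ∑ n ∈ I, ∑ m ∈ I, f n ω * f m ω) μ :=
    integrable_finsetSum _ fun n _ => integrable_finsetSum _ fun m _ => hint2 n m
  have hi2 : Integrable (fun ω => ∑ n ∈ I, f n ω) μ := integrable_finsetSum _ fun n _ => hint n
  have hsecond : ∫ ω, (∑ n ∈ I, f n ω - M) ^ 2 ∂μ ≤ M := by
    have h1 : ∫ ω, (∑ n ∈ I, f n ω - M) ^ 2 ∂μ = (∑ n ∈ I, ∑ m ∈ I, μ.real (E n ∩ E m)) - 2 * M * M + M ^ 2 := by
      simp only [hexp]
      have hsub : Integrable (fun ω => (∑ n ∈ I, ∑ m ∈ I, f n ω * f m ω) - 2 * M * ∑ n ∈ I, f n ω) μ :=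
        hi1.sub (hi2.const_mul (2 * M))
      have e1 : ∫ ω, ((∑ n ∈ I, ∑ m ∈ I, f n ω * f m ω) - 2 * M * ∑ n ∈ I, f n ω + M ^ 2) ∂μ =
          ∫ ω, ((∑ n ∈ I, ∑ m ∈ I, f n ω * f m ω) - 2 * M * ∑ n ∈ I, f n ω) ∂μ + ∫ _ω, M ^ 2 ∂μ :=
        integral_add hsub (integrable_const _)
      have e2 : ∫ ω, ((∑ n ∈ I, ∑ m ∈ I, f n ω * f m ω) - 2 * M * ∑ n ∈ I, f n ω) ∂μ =
          ∫ ω, (∑ n ∈ I, ∑ m ∈ I, f n ω * f m ω) ∂μ - ∫ ω, 2 * M * ∑ n ∈ I, f n ω ∂μ :=
        integral_sub hi1 (hi2.const_mul (2 * M))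
      rw [e1, e2, integral_const_mul, integral_finsetSum _ (fun n _ => hint n), integral_const]
      rw [integral_finsetSum _ (fun n _ => integrable_finsetSum _ fun m _ => hint2 n m)]
      simp only [hval]
      have h2 : ∀ n ∈ I, ∫ ω, ∑ m ∈ I, f n ω * f m ω ∂μ = ∑ m ∈ I, μ.real (E n ∩ E m) := by
        intro n _
        rw [integral_finsetSum _ (fun m _ => hint2 n m)]
        exact Finset.sum_congr rfl fun m _ => hval2 n m
      rw [Finset.sum_congr rfl h2]
      simp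
      exact Or.inl hMd.symm
    rw [h1]
    have h3 : ∑ n ∈ I, ∑ m ∈ I, μ.real (E n ∩ E m) ≤ M + M ^ 2 := by
      have h4 : ∀ n ∈ I, ∑ m ∈ I, μ.real (E n ∩ E m) ≤ μ.real (E n) + μ.real (E n) * M := by
        intro n hn
        rw [← Finset.add_sum_erase I _ hn, Set.inter_self, hMd, Finset.mul_sum]
        apply add_le_add le_rfl
        calc ∑ m ∈ I.erase n, μ.real (E n ∩ E m) ≤ ∑ m ∈ I.erase n, μ.real (E n) * μ.real (E m) := by
              apply Finset.sum_le_sum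
              intro m hm
              rw [Finset.mem_erase] at hm
              exact hneg n hn m hm.2 (Ne.symm hm.1)
          _ ≤ ∑ m ∈ I, μ.real (E n) * μ.real (E m) := by
              apply Finset.sum_le_sum_of_subset_of_nonneg (Finset.erase_subset _ _)
              intro m _ _
              positivity
      calc ∑ n ∈ I, ∑ m ∈ I, μ.real (E n ∩ E m) ≤ ∑ n ∈ I, (μ.real (E n) + μ.real (E n) * M) := Finset.sum_le_sum h4
        _ = M + M ^ 2 := by rw [Finset.sum_add_distrib, ← Finset.sum_mul, pow_two]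
    nlinarith
  have hlow : M ^ 2 * μ.real B ≤ ∫ ω, (∑ n ∈ I, f n ω - M) ^ 2 ∂μ := by
    have h1 : ∫ ω, B.indicator (fun _ => M ^ 2) ω ∂μ = M ^ 2 * μ.real B := by
      rw [integral_indicator_const _ hBm, smul_eq_mul, mul_comm]
    rw [← h1]
    apply integral_mono ((integrable_const _).indicator hBm)
    · simp only [hexp]
      exact (hi1.sub (hi2.const_mul _)).add (integrable_const _)
    · intro ω
      by_cases hω : ω ∈ B
      · have h2 : ∑ n ∈ I, f n ω = 0 := by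
          apply Finset.sum_eq_zero
          intro n hn
          simp only [hB, Set.mem_iInter] at hω
          exact Set.indicator_of_notMem (hω n hn) _
        simp only [Set.indicator_of_mem hω, h2]
        apply le_of_eq
        ring
      · simp only [Set.indicator_of_notMem hω]
        positivity
  have h5 : M ^ 2 * μ.real B ≤ M := hlow.trans hsecond
  rw [le_div_iff₀ hM]
  have h6 : M * (μ.real B * M) ≤ M * 1 := by nlinarith
  exact le_of_mul_le_mul_left h6 hM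

end cheb

section
variable {Ω : Type*} [MeasurableSpace Ω] {μ : Measure Ω} {A : ℕ → Set Ω}

/-- `n` is kept and the next `h` integers are not -/
def EN (A : ℕ → Set Ω) (n h : ℕ) : Set Ω := A n ∩ ⋂ m ∈ Ioc n (n + h), (A m)ᶜ

variable (hm : ∀ n, MeasurableSet (A n)) (hi : iIndepSet A μ) (p : ℕ → ℝ) (hp0 : ∀ n, 0 ≤ p n)
    (hp1 : ∀ n, p n ≤ 1) (hp : ∀ n, μ (A n) = ENNReal.ofReal (p n))
include hm hi hp0 hp1 hp

theorem EN_meas (n h : ℕ) : MeasurableSet (EN A n h) :=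
  (hm n).inter (Finset.measurableSet_biInter _ fun m _ => (hm m).compl)

theorem W_real (I : Finset ℕ) : μ.real (⋂ n ∈ I, (A n)ᶜ) = ∏ n ∈ I, (1 - p n) := by
  rw [measureReal_def, prob_empty hm hi p hp0 hp1 hp I,
    ENNReal.toReal_ofReal (Finset.prod_nonneg fun n _ => by linarith [hp1 n])]

theorem one_kept (I : Finset ℕ) {n : ℕ} (hn : n ∉ I) :
    μ.real (A n ∩ ⋂ m ∈ I, (A m)ᶜ) = p n * ∏ m ∈ I, (1 - p m) := by
  classical
  have : IsProbabilityMeasure μ := hi.isProbabilityMeasure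
  have h1 : μ.real ((⋂ m ∈ I, (A m)ᶜ) ∩ A n) + μ.real ((⋂ m ∈ I, (A m)ᶜ) \ A n) = μ.real (⋂ m ∈ I, (A m)ᶜ) :=
    measureReal_inter_add_sdiff (hm n)
  have h2 : (⋂ m ∈ I, (A m)ᶜ) \ A n = ⋂ m ∈ insert n I, (A m)ᶜ := by
    ext ω
    simp only [Set.mem_sdiff, Set.mem_iInter, Finset.mem_insert, Set.mem_compl_iff]
    constructor
    · rintro ⟨h3, h4⟩ m (rfl | h5)
      · exact h4
      · exact h3 m h5
    · intro h3
      exact ⟨fun m h5 => h3 m (Or.inr h5), h3 n (Or.inl rfl)⟩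
  rw [h2, W_real hm hi p hp0 hp1 hp, W_real hm hi p hp0 hp1 hp, Finset.prod_insert hn] at h1
  rw [Set.inter_comm]
  linarith

theorem two_kept (I : Finset ℕ) {n k : ℕ} (hn : n ∉ I) (hk : k ∉ I) (hnk : n ≠ k) :
    μ.real (A n ∩ (A k ∩ ⋂ m ∈ I, (A m)ᶜ)) = p n * (p k * ∏ m ∈ I, (1 - p m)) := by
  classical
  have : IsProbabilityMeasure μ := hi.isProbabilityMeasure
  have h1 : μ.real ((A k ∩ ⋂ m ∈ I, (A m)ᶜ) ∩ A n) + μ.real ((A k ∩ ⋂ m ∈ I, (A m)ᶜ) \ A n) =
      μ.real (A k ∩ ⋂ m ∈ I, (A m)ᶜ) := measureReal_inter_add_sdiff (hm n)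
  have h2 : (A k ∩ ⋂ m ∈ I, (A m)ᶜ) \ A n = A k ∩ ⋂ m ∈ insert n I, (A m)ᶜ := by
    ext ω
    simp only [Set.mem_sdiff, Set.mem_inter_iff, Set.mem_iInter, Finset.mem_insert, Set.mem_compl_iff]
    constructor
    · rintro ⟨⟨h0, h3⟩, h4⟩
      refine ⟨h0, ?_⟩
      rintro m (rfl | h5)
      · exact h4
      · exact h3 m h5
    · rintro ⟨h0, h3⟩
      exact ⟨⟨h0, fun m h5 => h3 m (Or.inr h5)⟩, h3 n (Or.inl rfl)⟩
  rw [h2, one_kept hm hi p hp0 hp1 hp I hk, one_kept hm hi p hp0 hp1 hp (insert n I)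
    (by rw [Finset.mem_insert]; rintro (h | h); exact hnk h.symm; exact hk h), Finset.prod_insert hn] at h1
  rw [Set.inter_comm]
  linarith

theorem EN_real (n h : ℕ) : μ.real (EN A n h) = p n * ∏ m ∈ Ioc n (n + h), (1 - p m) :=
  one_kept hm hi p hp0 hp1 hp _ (by simp)

theorem EN_neg {n k h h' : ℕ} (hnk : n < k) :
    μ.real (EN A n h ∩ EN A k h') ≤ μ.real (EN A n h) * μ.real (EN A k h') := by
  classical
  have : IsProbabilityMeasure μ := hi.isProbabilityMeasure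
  rcases le_or_gt k (n + h) with h1 | h1
  · have h2 : EN A n h ∩ EN A k h' = ∅ := by
      ext ω
      simp only [EN, Set.mem_inter_iff, Set.mem_iInter, Set.mem_compl_iff, Set.mem_empty_iff_false, iff_false]
      rintro ⟨⟨_, h3⟩, h4, _⟩
      exact h3 k (mem_Ioc.2 ⟨hnk, h1⟩) h4
    rw [h2, measureReal_empty]
    positivity
  · have h2 : EN A n h ∩ EN A k h' = A n ∩ (A k ∩ ⋂ m ∈ Ioc n (n + h) ∪ Ioc k (k + h'), (A m)ᶜ) := by
      ext ω
      simp only [EN, Set.mem_inter_iff, Set.mem_iInter, Set.mem_compl_iff, Finset.mem_union]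
      constructor
      · rintro ⟨⟨a1, a2⟩, a3, a4⟩
        refine ⟨a1, a3, ?_⟩
        rintro m (h5 | h5)
        · exact a2 m h5
        · exact a4 m h5
      · rintro ⟨a1, a3, a2⟩
        exact ⟨⟨a1, fun m h5 => a2 m (Or.inl h5)⟩, a3, fun m h5 => a2 m (Or.inr h5)⟩
    have hdis : Disjoint (Ioc n (n + h)) (Ioc k (k + h')) := by
      rw [Finset.disjoint_left]
      intro m h3 h4
      rw [mem_Ioc] at h3 h4
      omega
    rw [h2, two_kept hm hi p hp0 hp1 hp _ (by simp; omega) (by simp; omega) (by omega), EN_real hm hi p hp0 hp1 hp,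
      EN_real hm hi p hp0 hp1 hp, Finset.prod_union hdis]
    apply le_of_eq
    ring

/-- convergence: almost surely only finitely many -/
theorem zo_fin (h : ℕ → ℕ) (hs : Summable fun n => p n * ∏ m ∈ Ioc n (n + h n), (1 - p m)) :
    ∀ᵐ ω ∂μ, ∃ N : ℕ, ∀ n ≥ N, ω ∉ EN A n (h n) := by
  have : IsProbabilityMeasure μ := hi.isProbabilityMeasure
  have h1 : ∀ n, μ (EN A n (h n)) = ENNReal.ofReal (p n * ∏ m ∈ Ioc n (n + h n), (1 - p m)) := by
    intro n
    rw [← EN_real hm hi p hp0 hp1 hp n (h n), ofReal_measureReal]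
  have h2 : ∑' n, μ (EN A n (h n)) ≠ ∞ := by
    simp only [h1]
    rw [← ENNReal.ofReal_tsum_of_nonneg _ hs]
    · exact ENNReal.ofReal_ne_top
    · intro n
      exact mul_nonneg (hp0 n) (Finset.prod_nonneg fun m _ => by linarith [hp1 m])
  filter_upwards [ae_eventually_notMem h2] with ω hω
  exact eventually_atTop.1 hω

/-- divergence: almost surely infinitely many -/
theorem zo_inf (h : ℕ → ℕ) (hs : ¬ Summable fun n => p n * ∏ m ∈ Ioc n (n + h n), (1 - p m)) :
    ∀ᵐ ω ∂μ, ∀ N : ℕ, ∃ n ≥ N, ω ∈ EN A n (h n) := by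
  have : IsProbabilityMeasure μ := hi.isProbabilityMeasure
  set f : ℕ → ℝ := fun n => p n * ∏ m ∈ Ioc n (n + h n), (1 - p m) with hf
  have hf0 : ∀ n, 0 ≤ f n := fun n => mul_nonneg (hp0 n) (Finset.prod_nonneg fun m _ => by linarith [hp1 m])
  have hfE : ∀ n, μ.real (EN A n (h n)) = f n := fun n => EN_real hm hi p hp0 hp1 hp n (h n)
  have htend := (not_summable_iff_tendsto_nat_atTop_of_nonneg hf0).1 hs
  rw [ae_all_iff]
  intro N
  have key : ∀ K : ℕ, μ.real (⋂ n ∈ Set.Ici N, (EN A n (h n))ᶜ) ≤ 1 / ((K : ℝ) + 1) := by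
    intro K
    obtain ⟨M, hM⟩ := eventually_atTop.1 (htend.eventually_ge_atTop ((K : ℝ) + 1 + ∑ n ∈ range N, f n))
    have h1 := hM (max M N) (le_max_left _ _)
    have h2 : ∑ n ∈ Ico N (max M N), f n = ∑ n ∈ range (max M N), f n - ∑ n ∈ range N, f n :=
      Finset.sum_Ico_eq_sub _ (le_max_right _ _)
    have h3 : (K : ℝ) + 1 ≤ ∑ n ∈ Ico N (max M N), f n := by linarith
    have hK : (0 : ℝ) < (K : ℝ) + 1 := by positivity
    have h4 := cheb (μ := μ) (fun n => EN A n (h n)) (fun n => EN_meas hm hi p hp0 hp1 hp n (h n)) (Ico N (max M N))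
      (by
        intro n _ k _ hnk
        rcases lt_or_gt_of_ne hnk with h5 | h5
        · exact EN_neg hm hi p hp0 hp1 hp h5
        · rw [Set.inter_comm, mul_comm]
          exact EN_neg hm hi p hp0 hp1 hp h5)
      (by simp only [hfE]; linarith)
    simp only [hfE] at h4
    calc μ.real (⋂ n ∈ Set.Ici N, (EN A n (h n))ᶜ) ≤ μ.real (⋂ n ∈ Ico N (max M N), (EN A n (h n))ᶜ) := by
          apply measureReal_mono _ (measure_ne_top _ _)
          intro ω hω
          simp only [Set.mem_iInter] at hω ⊢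
          intro n hn
          rw [mem_Ico] at hn
          exact hω n hn.1
      _ ≤ 1 / ∑ n ∈ Ico N (max M N), f n := h4
      _ ≤ 1 / ((K : ℝ) + 1) := one_div_le_one_div_of_le hK h3
  have hzero : μ.real (⋂ n ∈ Set.Ici N, (EN A n (h n))ᶜ) = 0 := by
    apply le_antisymm _ measureReal_nonneg
    exact ge_of_tendsto' tendsto_one_div_add_atTop_nhds_zero_nat key
  have hz2 : μ (⋂ n ∈ Set.Ici N, (EN A n (h n))ᶜ) = 0 := (measureReal_eq_zero_iff).1 hzero
  rw [ae_iff]
  refine measure_mono_null ?_ hz2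
  intro ω hω
  simp only [Set.mem_ofPred_eq, not_exists, not_and] at hω
  simp only [Set.mem_iInter, Set.mem_compl_iff]
  exact fun n hn => hω n hn

end

end Pool.Agent.Q46.CM
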