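import Mathlib
import Pool.Agent.Q46.CM.ZO
import Pool.Agent.Q46.CM.Avg
import Pool.Agent.Q46.CM.GX

/-! Second order term of the largest gaps in the random model with a constant sieve level (helper46). -/

set_option autoImplicit false

namespace Pool.Agent.Q46.CM

open Finset Filter Topology MeasureTheory ProbabilityTheory Pool.Agent.H318R2.Cr
open scoped ENNReal

theorem cnt_add (z a h h' : ℕ) : cnt z a (h + h') = cnt z a h + cnt z (a + h) h' := by
  classical
  unfold cnt
  rw [← card_union_of_disjoint, ← filter_union, Ioc_union_Ioc_eq_Ioc (by omega) (by omega), Nat.add_assoc]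
  apply disjoint_filter_filter
  rw [Finset.disjoint_left]
  intro m h1 h2
  rw [mem_Ioc] at h1 h2
  omega

theorem cnt_period (z a : ℕ) : (cnt z a (primorial z) : ℝ) = primorial z * V z := by
  classical
  rw [← tot_primorial, ← Nat.filter_coprime_Ico_eq_totient (primorial z) (a + 1)]
  unfold cnt
  congr 2
  ext m
  simp only [mem_filter, mem_Ioc, mem_Ico, rgh_iff]
  constructor
  · rintro ⟨⟨h1, h2⟩, h3⟩; exact ⟨⟨by omega, by omega⟩, h3⟩
  · rintro ⟨⟨h1, h2⟩, h3⟩; exact ⟨⟨by omega, by omega⟩, h3⟩

theorem cnt_periods (z t : ℕ) : ∀ a : ℕ, (cnt z a (t * primorial z) : ℝ) = t * (primorial z * V z) := by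
  induction t with
  | zero => intro a; simp [cnt]
  | succ t ih =>
    intro a
    rw [Nat.succ_mul, cnt_add, Nat.cast_add, ih, cnt_period]
    push_cast
    ring

theorem cnt_bounds (z a h : ℕ) : h * V z - primorial z ≤ cnt z a h ∧ (cnt z a h : ℝ) ≤ h * V z + primorial z := by
  set P := primorial z with hP
  have hP0 : 0 < P := primorial_pos z
  have hV0 := V_pos z
  have hV1 := V_le_one z
  set t := h / P with ht
  set r := h % P with hr
  have hh : h = t * P + r := by
    have := Nat.div_add_mod h P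
    rw [mul_comm] at this
    exact this.symm
  have hrP : r < P := Nat.mod_lt _ hP0
  have h1 := cnt_periods z t a
  rw [← hP] at h1
  have h2 : (cnt z a h : ℝ) = t * (P * V z) + cnt z (a + t * P) r := by
    conv_lhs => rw [hh, cnt_add]
    rw [Nat.cast_add, h1]
  have h3 : (cnt z (a + t * P) r : ℝ) ≤ P * V z := by
    have h4 := cnt_period z (a + t * P)
    rw [← hP] at h4
    have h5 : P = r + (P - r) := by omega
    rw [← h4]
    have h6 : cnt z (a + t * P) P = cnt z (a + t * P) r + cnt z (a + t * P + r) (P - r) := by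
      have h := cnt_add z (a + t * P) r (P - r)
      rwa [← h5] at h
    rw [h6]
    push_cast
    linarith [(Nat.cast_nonneg (cnt z (a + t * P + r) (P - r)) : (0 : ℝ) ≤ _)]
  have h7 : (h : ℝ) = t * P + r := by exact_mod_cast hh
  have h8 : (0 : ℝ) ≤ cnt z (a + t * P) r := Nat.cast_nonneg _
  have h9 : (r : ℝ) ≤ P := by exact_mod_cast hrP.le
  have h10 : (0 : ℝ) ≤ r := Nat.cast_nonneg _
  have h11 : (r : ℝ) * V z ≤ P := by nlinarith
  have h12 : (P : ℝ) * V z ≤ P := by
    have : (0 : ℝ) ≤ P := Nat.cast_nonneg _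
    nlinarith
  have h13 : 0 ≤ (r : ℝ) * V z := by positivity
  rw [h2, h7]
  constructor <;> nlinarith

/-- the level is constant -/
theorem kp_eq (z n : ℕ) (h : 1 ≤ V z * Real.log n) (hr : Rgh z n) : keepProb (fun _ => z) n = 1 / (V z * Real.log n) := by
  unfold keepProb
  rw [if_pos hr, min_eq_right]
  rw [div_le_one (by linarith)]
  exact h

theorem kp_zero (z n : ℕ) (hr : ¬ Rgh z n) : keepProb (fun _ => z) n = 0 := by
  unfold keepProb
  rw [if_neg hr]

/-- probability of a gap of length more than `h` after `n` -/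
noncomputable def fP (z n h : ℕ) : ℝ := keepProb (fun _ => z) n * ∏ m ∈ Ioc n (n + h), (1 - keepProb (fun _ => z) m)

theorem sum_kp_le (z n h : ℕ) (hL : 1 ≤ V z * Real.log n) :
    ∑ m ∈ Ioc n (n + h), keepProb (fun _ => z) m ≤ (h * V z + primorial z) / (V z * Real.log n) := by
  classical
  have hV := V_pos z
  have hlog : 0 < Real.log n := by
    by_contra hc
    push Not at hc
    nlinarith
  have hn : (0 : ℝ) < n := by
    by_contra hc
    have : (n : ℝ) = 0 := le_antisymm (not_lt.1 hc) (Nat.cast_nonneg n)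
    rw [this, Real.log_zero] at hlog
    exact lt_irrefl _ hlog
  have h1 : ∀ m ∈ Ioc n (n + h), keepProb (fun _ => z) m ≤ (if Rgh z m then 1 / (V z * Real.log n) else 0) := by
    intro m hm
    rw [mem_Ioc] at hm
    unfold keepProb
    split_ifs with hr
    · refine (min_le_right _ _).trans ?_
      apply one_div_le_one_div_of_le (by positivity)
      apply mul_le_mul_of_nonneg_left _ hV.le
      exact Real.log_le_log hn (by exact_mod_cast hm.1.le)
    · exact le_rfl
  calc ∑ m ∈ Ioc n (n + h), keepProb (fun _ => z) m ≤ ∑ m ∈ Ioc n (n + h), (if Rgh z m then 1 / (V z * Real.log n) else 0) :=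
        Finset.sum_le_sum h1
    _ = (cnt z n h : ℝ) / (V z * Real.log n) := by
        rw [Finset.sum_ite, Finset.sum_const_zero, add_zero, Finset.sum_const, nsmul_eq_mul]
        unfold cnt
        ring
    _ ≤ _ := by
        apply div_le_div_of_nonneg_right (cnt_bounds z n h).2 (by positivity)

theorem sum_kp_ge (z n h : ℕ) (hL : 1 ≤ V z * Real.log n) :
    (h * V z - primorial z) / (V z * Real.log (n + h : ℕ)) ≤ ∑ m ∈ Ioc n (n + h), keepProb (fun _ => z) m := by
  classical
  have hV := V_pos z
  have hlog : 0 < Real.log n := by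
    by_contra hc
    push Not at hc
    nlinarith
  have hn : (0 : ℝ) < n := by
    by_contra hc
    have : (n : ℝ) = 0 := le_antisymm (not_lt.1 hc) (Nat.cast_nonneg n)
    rw [this, Real.log_zero] at hlog
    exact lt_irrefl _ hlog
  have hlog2 : Real.log n ≤ Real.log (n + h : ℕ) := Real.log_le_log hn (by push_cast; linarith [(Nat.cast_nonneg h : (0 : ℝ) ≤ h)])
  have h1 : ∀ m ∈ Ioc n (n + h), (if Rgh z m then 1 / (V z * Real.log (n + h : ℕ)) else 0) ≤ keepProb (fun _ => z) m := by
    intro m hm
    rw [mem_Ioc] at hm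
    have hlm : Real.log n ≤ Real.log m := Real.log_le_log hn (by exact_mod_cast hm.1.le)
    split_ifs with hr
    · rw [kp_eq z m (hL.trans (mul_le_mul_of_nonneg_left hlm hV.le)) hr]
      apply one_div_le_one_div_of_le (mul_pos hV (by linarith))
      apply mul_le_mul_of_nonneg_left _ hV.le
      apply Real.log_le_log (by exact_mod_cast (by omega : 0 < m))
      exact_mod_cast hm.2
    · exact keep_nonneg _ _
  calc (h * V z - primorial z) / (V z * Real.log (n + h : ℕ)) ≤ (cnt z n h : ℝ) / (V z * Real.log (n + h : ℕ)) := by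
        apply div_le_div_of_nonneg_right (cnt_bounds z n h).1
        exact mul_nonneg hV.le (by linarith)
    _ = ∑ m ∈ Ioc n (n + h), (if Rgh z m then 1 / (V z * Real.log (n + h : ℕ)) else 0) := by
        rw [Finset.sum_ite, Finset.sum_const_zero, add_zero, Finset.sum_const, nsmul_eq_mul]
        unfold cnt
        ring
    _ ≤ _ := Finset.sum_le_sum h1

/-- lower bound -/
theorem fP_ge (z n h : ℕ) (hr : Rgh z n) (hL : 2 ≤ V z * Real.log n) (hL1 : 1 ≤ Real.log n)
    (hh : (h : ℝ) ≤ Real.log n ^ 2 + 1) :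
    Real.exp (-(1 + primorial z / V z + 2 * (2 + primorial z) / V z ^ 2)) / V z / (n * Real.log n) ≤ fP z n h := by
  classical
  have hV := V_pos z
  have hV1 := V_le_one z
  set L := Real.log n with hLd
  have hL0 : 0 < L := by linarith
  have hn : (0 : ℝ) < n := by
    by_contra hc
    have : (n : ℝ) = 0 := le_antisymm (not_lt.1 hc) (Nat.cast_nonneg n)
    rw [hLd, this, Real.log_zero] at hL0
    exact lt_irrefl _ hL0
  have hsum := sum_kp_le z n h (by linarith)
  have hP0 : (0 : ℝ) ≤ primorial z := Nat.cast_nonneg _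
  have hkp : ∀ m ∈ Ioc n (n + h), keepProb (fun _ => z) m ≤ 1 / (V z * L) := by
    intro m hm
    rw [mem_Ioc] at hm
    unfold keepProb
    split_ifs with hr
    · refine (min_le_right _ _).trans ?_
      apply one_div_le_one_div_of_le (by positivity)
      apply mul_le_mul_of_nonneg_left _ hV.le
      exact Real.log_le_log hn (by exact_mod_cast hm.1.le)
    · positivity
  have hhalf : 1 / (V z * L) ≤ 1 / 2 := one_div_le_one_div_of_le (by norm_num) hL
  have h1 : Real.exp (-(∑ m ∈ Ioc n (n + h), (keepProb (fun _ => z) m + 2 * (1 / (V z * L)) * keepProb (fun _ => z) m))) ≤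
      ∏ m ∈ Ioc n (n + h), (1 - keepProb (fun _ => z) m) := by
    rw [← Finset.sum_neg_distrib, Real.exp_sum]
    apply Finset.prod_le_prod (fun m _ => (Real.exp_pos _).le)
    intro m hm
    have h2 := hkp m hm
    have h3 := keep_nonneg (fun _ => z) m
    refine le_trans ?_ (exp_le_one_sub h3 (h2.trans hhalf))
    apply Real.exp_le_exp.2
    have h4 : keepProb (fun _ => z) m ^ 2 ≤ 1 / (V z * L) * keepProb (fun _ => z) m := by
      rw [pow_two]
      exact mul_le_mul_of_nonneg_right h2 h3
    linarith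
  have h5 : ∑ m ∈ Ioc n (n + h), (keepProb (fun _ => z) m + 2 * (1 / (V z * L)) * keepProb (fun _ => z) m) ≤
      L + (1 + primorial z / V z + 2 * (2 + primorial z) / V z ^ 2) := by
    rw [Finset.sum_add_distrib, ← Finset.mul_sum]
    set S := ∑ m ∈ Ioc n (n + h), keepProb (fun _ => z) m with hS
    have h6 : (h * V z + primorial z) / (V z * L) ≤ L + 1 + primorial z / V z := by
      rw [div_le_iff₀ (by positivity)]
      have h7 : (L + 1 + primorial z / V z) * (V z * L) = V z * L ^ 2 + V z * L + primorial z * L := by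
        field_simp
      rw [h7]
      have h8 : (h : ℝ) * V z ≤ (L ^ 2 + 1) * V z := mul_le_mul_of_nonneg_right hh hV.le
      have h9 : V z * 1 ≤ V z * L := mul_le_mul_of_nonneg_left hL1 hV.le
      have h10 : (primorial z : ℝ) * 1 ≤ primorial z * L := mul_le_mul_of_nonneg_left hL1 hP0
      nlinarith
    have h11 : S ≤ (2 + primorial z) * L / V z := by
      refine hsum.trans ?_
      rw [div_le_div_iff₀ (by positivity) hV]
      have h8 : (h : ℝ) * V z ≤ (L ^ 2 + 1) * V z := mul_le_mul_of_nonneg_right hh hV.le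
      have hLL : 1 ≤ L ^ 2 := one_le_pow₀ hL1
      have h12 : (h * V z + primorial z) ≤ (2 + primorial z) * L ^ 2 := by
        have h13 : (L ^ 2 + 1) * V z ≤ 2 * L ^ 2 := by nlinarith
        have h14 : (primorial z : ℝ) * 1 ≤ primorial z * L ^ 2 := mul_le_mul_of_nonneg_left hLL hP0
        linarith
      calc (h * V z + primorial z) * V z ≤ ((2 + primorial z) * L ^ 2) * V z := mul_le_mul_of_nonneg_right h12 hV.le
        _ = _ := by ring
    have h15 : 2 * (1 / (V z * L)) * S ≤ 2 * (2 + primorial z) / V z ^ 2 := by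
      calc 2 * (1 / (V z * L)) * S ≤ 2 * (1 / (V z * L)) * ((2 + primorial z) * L / V z) :=
            mul_le_mul_of_nonneg_left h11 (by positivity)
        _ = _ := by field_simp
    linarith
  unfold fP
  rw [kp_eq z n (by linarith) hr]
  calc Real.exp (-(1 + primorial z / V z + 2 * (2 + primorial z) / V z ^ 2)) / V z / (n * L)
      = 1 / (V z * L) * Real.exp (-(L + (1 + primorial z / V z + 2 * (2 + primorial z) / V z ^ 2))) := by
        generalize 1 + (primorial z : ℝ) / V z + 2 * (2 + primorial z) / V z ^ 2 = X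
        rw [show -(L + X) = -X - L by ring, Real.exp_sub, hLd, Real.exp_log hn]
        field_simp
    _ ≤ 1 / (V z * L) * ∏ m ∈ Ioc n (n + h), (1 - keepProb (fun _ => z) m) := by
        apply mul_le_mul_of_nonneg_left _ (by positivity)
        refine le_trans ?_ h1
        apply Real.exp_le_exp.2
        linarith

/-- upper bound -/
theorem fP_le (z n h : ℕ) (c : ℝ) (hL : 1 ≤ V z * Real.log n) (hL1 : 1 ≤ Real.log n)
    (hh : Real.log n ^ 2 + c * Real.log n * Real.log (Real.log n) ≤ h) (hhn : (h : ℝ) ^ 2 ≤ n) :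
    fP z n h ≤ Real.exp (1 + primorial z / V z) / V z * (1 / (n * Real.log n ^ (1 + c))) := by
  classical
  have hV := V_pos z
  have hV1 := V_le_one z
  set L := Real.log n with hLd
  have hL0 : 0 < L := by linarith
  have hn : (0 : ℝ) < n := by
    by_contra hc
    have : (n : ℝ) = 0 := le_antisymm (not_lt.1 hc) (Nat.cast_nonneg n)
    rw [hLd, this, Real.log_zero] at hL0
    exact lt_irrefl _ hL0
  have hP0 : (0 : ℝ) ≤ primorial z := Nat.cast_nonneg _
  have hh0 : (0 : ℝ) ≤ h := Nat.cast_nonneg _
  have hsum := sum_kp_ge z n h hL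
  set S := ∑ m ∈ Ioc n (n + h), keepProb (fun _ => z) m with hS
  have hlog2 : L ≤ Real.log (n + h : ℕ) := Real.log_le_log hn (by push_cast; linarith)
  have hlog3 : Real.log (n + h : ℕ) ≤ L + h / n := by
    have h1 : ((n + h : ℕ) : ℝ) = n * (1 + h / n) := by
      push_cast
      field_simp
    rw [h1, Real.log_mul hn.ne' (by positivity)]
    have := Real.log_le_sub_one_of_pos (show (0 : ℝ) < 1 + h / n by positivity)
    linarith
  have hSlow : L + c * Real.log L - (1 + primorial z / V z) ≤ S := by
    refine le_trans ?_ hsum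
    set M := Real.log (n + h : ℕ) with hM
    have hM0 : 0 < M := by linarith
    have h1 : (h * V z - primorial z) / (V z * M) = h / M - primorial z / (V z * M) := by
      field_simp
    rw [h1]
    have h2 : primorial z / (V z * M) ≤ primorial z / V z := by
      apply div_le_div_of_nonneg_left hP0 hV
      nlinarith
    have h3 : (h : ℝ) / L - 1 ≤ h / M := by
      rw [div_sub_one hL0.ne', div_le_div_iff₀ hL0 hM0]
      have h4 : (h : ℝ) * M ≤ h * (L + h / n) := mul_le_mul_of_nonneg_left hlog3 hh0
      have h5 : (h : ℝ) * (h / n) ≤ 1 := by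
        rw [← mul_div_assoc, div_le_one hn, ← pow_two]
        exact hhn
      have h6 : 1 ≤ L * M := by nlinarith
      nlinarith
    have h7 : L + c * Real.log L ≤ h / L := by
      rw [le_div_iff₀ hL0]
      calc (L + c * Real.log L) * L = L ^ 2 + c * L * Real.log L := by ring
        _ ≤ h := hh
    linarith
  have hprod : ∏ m ∈ Ioc n (n + h), (1 - keepProb (fun _ => z) m) ≤ Real.exp (-S) := by
    rw [hS, ← Finset.sum_neg_distrib, Real.exp_sum]
    apply Finset.prod_le_prod (fun m _ => by linarith [keep_le_one (fun _ => z) m])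
    intro m _
    have := Real.add_one_le_exp (-keepProb (fun _ => z) m)
    linarith
  have hkn : keepProb (fun _ => z) n ≤ 1 / (V z * L) := by
    by_cases hr : Rgh z n
    · rw [kp_eq z n hL hr]
    · rw [kp_zero z n hr]; positivity
  unfold fP
  calc keepProb (fun _ => z) n * ∏ m ∈ Ioc n (n + h), (1 - keepProb (fun _ => z) m)
      ≤ 1 / (V z * L) * Real.exp (-S) := by
        apply mul_le_mul hkn hprod (Finset.prod_nonneg fun m _ => by linarith [keep_le_one (fun _ => z) m]) (by positivity)
    _ ≤ 1 / (V z * L) * Real.exp (-(L + c * Real.log L - (1 + primorial z / V z))) := by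
        apply mul_le_mul_of_nonneg_left _ (by positivity)
        apply Real.exp_le_exp.2
        linarith
    _ = Real.exp (1 + primorial z / V z) / V z * (1 / (n * L ^ (1 + c))) := by
        have h1 : -(L + c * Real.log L - (1 + primorial z / V z)) = (1 + primorial z / V z) - L - c * Real.log L := by ring
        rw [h1, Real.exp_sub, Real.exp_sub, hLd, Real.exp_log hn, ← hLd]
        have h2 : Real.exp (c * Real.log L) = L ^ c := by
          rw [Real.rpow_def_of_pos hL0]
          congr 1; ring
        rw [h2, Real.rpow_add hL0, Real.rpow_one]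
        have : 0 < L ^ c := Real.rpow_pos_of_pos hL0 c
        field_simp

theorem summ_c (c : ℝ) (hc : 0 < c) : Summable fun n : ℕ => 1 / ((n : ℝ) * (1 + Real.log n) ^ (1 + c)) := by
  have hl0 : 0 < Real.log 2 := Real.log_pos (by norm_num)
  have hl1 : Real.log 2 ≤ 1 := by
    have := Real.log_two_lt_d9
    linarith
  have hnn : ∀ n : ℕ, 0 ≤ 1 + Real.log n := fun n => by have := Real.log_natCast_nonneg n; linarith
  rw [← summable_condensed_iff_of_nonneg]
  · have h1 : Summable fun k : ℕ => (1 / Real.log 2) ^ (1 + c) * (1 / (((k + 1 : ℕ) : ℝ)) ^ (1 + c)) := by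
      apply Summable.mul_left
      exact (summable_nat_add_iff 1).2 (Real.summable_one_div_nat_rpow.2 (by linarith))
    refine Summable.of_nonneg_of_le (fun k => ?_) (fun k => ?_) h1
    · have := hnn (2 ^ k)
      positivity
    · have h2 : (2 : ℝ) ^ k * (1 / (((2 ^ k : ℕ) : ℝ) * (1 + Real.log (2 ^ k : ℕ)) ^ (1 + c))) =
          1 / (1 + k * Real.log 2) ^ (1 + c) := by
        push_cast
        rw [Real.log_pow]
        have : (0 : ℝ) < (1 + k * Real.log 2) ^ (1 + c) := Real.rpow_pos_of_pos (by positivity) _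
        field_simp
      rw [h2]
      rw [Real.div_rpow zero_le_one hl0.le, Real.one_rpow, div_mul_div_comm, one_mul, ← Real.mul_rpow hl0.le (by positivity)]
      apply one_div_le_one_div_of_le
      · exact Real.rpow_pos_of_pos (by positivity) _
      · apply Real.rpow_le_rpow (by positivity) _ (by linarith)
        push_cast
        nlinarith [(Nat.cast_nonneg k : (0 : ℝ) ≤ k)]
  · intro n
    have := hnn n
    positivity
  · intro m n hm hmn
    have hm0 : (0 : ℝ) < m := by exact_mod_cast hm
    have hmn' : (m : ℝ) ≤ n := by exact_mod_cast hmn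
    have h1 : 0 < 1 + Real.log m := by have := Real.log_natCast_nonneg m; linarith
    have h2 : Real.log m ≤ Real.log n := Real.log_le_log hm0 hmn'
    apply one_div_le_one_div_of_le
    · exact mul_pos hm0 (Real.rpow_pos_of_pos h1 _)
    · apply mul_le_mul hmn' _ (Real.rpow_nonneg h1.le _) (by linarith)
      exact Real.rpow_le_rpow h1.le (by linarith) (by linarith)

theorem not_summ : ¬ Summable fun n : ℕ => 1 / ((n : ℝ) * (1 + Real.log n)) := by
  have hl0 : 0 < Real.log 2 := Real.log_pos (by norm_num)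
  have hl1 : Real.log 2 ≤ 1 := by
    have := Real.log_two_lt_d9
    linarith
  have hnn : ∀ n : ℕ, 0 ≤ 1 + Real.log n := fun n => by have := Real.log_natCast_nonneg n; linarith
  rw [← summable_condensed_iff_of_nonneg]
  · intro hs
    have h1 : Summable fun k : ℕ => 1 / (((k + 1 : ℕ) : ℝ)) := by
      refine Summable.of_nonneg_of_le (fun k => by positivity) (fun k => ?_) hs
      have h2 : (2 : ℝ) ^ k * (1 / (((2 ^ k : ℕ) : ℝ) * (1 + Real.log (2 ^ k : ℕ)))) = 1 / (1 + k * Real.log 2) := by
        push_cast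
        rw [Real.log_pow]
        field_simp
      rw [h2]
      apply one_div_le_one_div_of_le (by positivity)
      push_cast
      nlinarith [(Nat.cast_nonneg k : (0 : ℝ) ≤ k)]
    exact Real.not_summable_one_div_natCast ((summable_nat_add_iff 1).1 h1)
  · intro n
    have := hnn n
    positivity
  · intro m n hm hmn
    have hm0 : (0 : ℝ) < m := by exact_mod_cast hm
    have hmn' : (m : ℝ) ≤ n := by exact_mod_cast hmn
    have h1 : 0 < 1 + Real.log m := by have := Real.log_natCast_nonneg m; linarith
    have h2 : Real.log m ≤ Real.log n := Real.log_le_log hm0 hmn'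
    apply one_div_le_one_div_of_le
    · exact mul_pos hm0 h1
    · apply mul_le_mul hmn' (by linarith) h1.le (by linarith)

/-- the comparison function -/
noncomputable def Fc (c : ℝ) (q : ℕ) : ℝ := Real.log q ^ 2 + c * Real.log q * Real.log (Real.log q)

theorem summ_fP (z : ℕ) (c : ℝ) (hc : 0 < c) : Summable fun n : ℕ => fP z n ⌈Fc c n⌉₊ := by
  have hV := V_pos z
  have eR := tendsto_natCast_atTop_atTop (R := ℝ)
  have hlog : Tendsto (fun n : ℕ => Real.log n) atTop atTop := Real.tendsto_log_atTop.comp eR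
  set C : ℝ := Real.exp (1 + primorial z / V z) / V z with hC
  have hC0 : 0 < C := by positivity
  have hg := (summ_c c hc).mul_left (C * 2 ^ (1 + c))
  apply Summable.of_norm_bounded_eventually_nat hg
  have e1 : ∀ᶠ x : ℝ in atTop, ((2 + c) * Real.log x ^ 2 + 1) ^ 2 ≤ x := by
    have h1 : Tendsto (fun x : ℝ => (((2 + c) * Real.log x ^ 2 + 1) ^ 2) / x) atTop (𝓝 0) := by
      have h2 : ∀ k : ℕ, Tendsto (fun x : ℝ => Real.log x ^ k / x) atTop (𝓝 0) := by
        intro k
        have := (Real.isLittleO_pow_log_id_atTop (n := k)).tendsto_div_nhds_zero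
        simpa using this
      have h3 := ((h2 4).const_mul ((2 + c) ^ 2)).add (((h2 2).const_mul (2 * (2 + c))).add (h2 0))
      simp only [mul_zero, add_zero] at h3
      refine h3.congr fun x => ?_
      ring
    filter_upwards [h1.eventually_le_const (show (0 : ℝ) < 1 by norm_num), eventually_gt_atTop 0] with x h2 h3
    rwa [div_le_one h3] at h2
  filter_upwards [hlog.eventually_ge_atTop 1, hlog.eventually_ge_atTop (1 / V z), eR.eventually e1] with n h1 h2 h3
  have hL0 : 0 < Real.log n := by linarith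
  have h4 : 1 ≤ V z * Real.log n := by
    rw [div_le_iff₀ hV] at h2
    linarith
  have h0 : 0 ≤ Real.log (Real.log n) := Real.log_nonneg h1
  have h5 : Real.log (Real.log n) ≤ Real.log n := by
    have := Real.log_le_sub_one_of_pos hL0
    linarith
  have hF0 : 0 ≤ Fc c n := by unfold Fc; positivity
  have hF : Fc c n ≤ (1 + c) * Real.log n ^ 2 := by
    unfold Fc
    have : c * Real.log n * Real.log (Real.log n) ≤ c * Real.log n * Real.log n :=
      mul_le_mul_of_nonneg_left h5 (by positivity)
    nlinarith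
  have h6 : (⌈Fc c n⌉₊ : ℝ) ≤ (2 + c) * Real.log n ^ 2 + 1 := by
    have := (Nat.ceil_lt_add_one hF0).le
    have h7 : 0 ≤ Real.log n ^ 2 := sq_nonneg _
    nlinarith
  have h7 : (⌈Fc c n⌉₊ : ℝ) ^ 2 ≤ n := (pow_le_pow_left₀ (Nat.cast_nonneg _) h6 2).trans h3
  have h8 := fP_le z n ⌈Fc c n⌉₊ c h4 h1 (Nat.le_ceil _) h7
  have hnn : 0 ≤ fP z n ⌈Fc c n⌉₊ := mul_nonneg (keep_nonneg _ _) (Finset.prod_nonneg fun m _ => by linarith [keep_le_one (fun _ => z) m])
  rw [Real.norm_of_nonneg hnn]
  refine h8.trans ?_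
  rw [mul_assoc]
  apply mul_le_mul_of_nonneg_left _ hC0.le
  have hn : (0 : ℝ) < n := by
    by_contra hc
    have : (n : ℝ) = 0 := le_antisymm (not_lt.1 hc) (Nat.cast_nonneg n)
    rw [this, Real.log_zero] at hL0
    exact lt_irrefl _ hL0
  rw [mul_one_div, div_le_div_iff₀ (mul_pos hn (Real.rpow_pos_of_pos hL0 _)) (mul_pos hn (Real.rpow_pos_of_pos (by linarith) _)), one_mul]
  have h9 : (1 + Real.log n) ^ (1 + c) ≤ (2 * Real.log n) ^ (1 + c) :=
    Real.rpow_le_rpow (by linarith) (by linarith) (by linarith)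
  rw [Real.mul_rpow (by norm_num) hL0.le] at h9
  calc (n : ℝ) * (1 + Real.log n) ^ (1 + c) ≤ n * (2 ^ (1 + c) * Real.log n ^ (1 + c)) := mul_le_mul_of_nonneg_left h9 hn.le
    _ = _ := by ring

theorem not_summ_fP (z : ℕ) : ¬ Summable fun n : ℕ => fP z n ⌈Fc 0 n⌉₊ := by
  intro hs
  have hV := V_pos z
  set Q := primorial z with hQ
  have hQ0 : 0 < Q := primorial_pos z
  have hQr : (1 : ℝ) ≤ Q := by exact_mod_cast hQ0
  have eR := tendsto_natCast_atTop_atTop (R := ℝ)
  have hinj : Function.Injective (fun t : ℕ => Q * t + 1) := by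
    intro a b h
    simp only [Nat.add_right_cancel_iff] at h
    exact Nat.eq_of_mul_eq_mul_left hQ0 h
  have hs2 := hs.comp_injective hinj
  set c₂ : ℝ := Real.exp (-(1 + primorial z / V z + 2 * (2 + primorial z) / V z ^ 2)) / V z with hc₂
  have hc0 : 0 < c₂ := by positivity
  set c₃ : ℝ := 2 * Q * (1 + Real.log (2 * Q)) / c₂ with hc₃
  have hl2Q : 0 ≤ Real.log (2 * Q) := Real.log_nonneg (by linarith)
  have hc30 : 0 < c₃ := by positivity
  apply not_summ
  apply Summable.of_norm_bounded_eventually_nat (hs2.mul_left c₃)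
  have hlogt : Tendsto (fun t : ℕ => Real.log t) atTop atTop := Real.tendsto_log_atTop.comp eR
  filter_upwards [hlogt.eventually_ge_atTop (2 / V z), hlogt.eventually_ge_atTop 1, eventually_ge_atTop 1] with t h1 h2 h3
  have ht : (1 : ℝ) ≤ t := by exact_mod_cast h3
  set n : ℕ := Q * t + 1 with hn
  have hnr : (n : ℝ) = Q * t + 1 := by rw [hn]; push_cast; ring
  have hnt : (t : ℝ) ≤ n := by rw [hnr]; nlinarith
  have hn2 : (n : ℝ) ≤ 2 * Q * t := by rw [hnr]; nlinarith
  have hlt : Real.log t ≤ Real.log n := Real.log_le_log (by linarith) hnt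
  have hln : Real.log n ≤ Real.log (2 * Q) + Real.log t := by
    rw [← Real.log_mul (by positivity) (by linarith)]
    exact Real.log_le_log (by linarith) hn2
  have hrgh : Rgh z n := by
    rw [rgh_iff, ← hQ, hn]
    simp
  have hVl : 2 ≤ V z * Real.log n := by
    rw [div_le_iff₀ hV] at h1
    nlinarith
  have hF : Fc 0 n = Real.log n ^ 2 := by unfold Fc; ring
  have h4 := fP_ge z n ⌈Fc 0 n⌉₊ hrgh hVl (h2.trans hlt) (by
    rw [hF]
    exact (Nat.ceil_lt_add_one (sq_nonneg _)).le)
  have h5 : 0 ≤ 1 / ((t : ℝ) * (1 + Real.log t)) := by positivity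
  rw [Real.norm_of_nonneg h5]
  simp only [Function.comp]
  rw [← hn]
  have hlt0 : 0 < Real.log t := by linarith
  have hln0 : 0 < Real.log n := by linarith
  have hn0 : (0 : ℝ) < n := by linarith
  calc 1 / ((t : ℝ) * (1 + Real.log t)) ≤ c₃ * (c₂ / (n * Real.log n)) := by
        rw [hc₃, div_mul_div_comm, mul_comm (2 * (Q : ℝ) * (1 + Real.log (2 * Q))) c₂, mul_div_mul_left _ _ hc0.ne',
          div_le_div_iff₀ (by positivity) (by positivity), one_mul]
        have h6 : Real.log n ≤ (1 + Real.log (2 * Q)) * (1 + Real.log t) := by nlinarith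
        calc (n : ℝ) * Real.log n ≤ (2 * Q * t) * ((1 + Real.log (2 * Q)) * (1 + Real.log t)) :=
              mul_le_mul hn2 h6 hln0.le (by positivity)
          _ = _ := by ring
    _ ≤ c₃ * fP z n ⌈Fc 0 n⌉₊ := mul_le_mul_of_nonneg_left h4 hc30.le

end Pool.Agent.Q46.CM
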