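import Mathlib
import Pool.Agent.Q46.CM.Bor

/-! Zero-one law for long gaps in the sieved random models: final theorems (helper46). -/

set_option autoImplicit false

namespace Pool.Agent.Q46.CM

open Finset Filter Topology MeasureTheory ProbabilityTheory Pool.Agent.H318R2.Cr
open scoped ENNReal

/-- the elements `q` of `S` followed by a gap `q' - q` with `q' - q - 1 ≥ F q` -/
def LongGaps (S : Set ℕ) (F : ℕ → ℝ) : Set ℕ := {q | ∃ q' : ℕ, Consec S q q' ∧ F q ≤ (q' : ℝ) - q - 1}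

theorem EN_long {Ω : Type*} {A : ℕ → Set Ω} {ω : Ω} {F : ℕ → ℝ} {n h : ℕ} (hE : ω ∈ EN A n h) (hF : F n ≤ h)
    (hinf : ∀ N : ℕ, ∃ m ≥ N, ω ∈ A m) : n ∈ LongGaps {n | ω ∈ A n} F := by
  classical
  obtain ⟨m, hm, hmA⟩ := hinf (n + 1)
  have hex : ∃ m, ω ∈ A m ∧ n < m := ⟨m, hmA, by omega⟩
  obtain ⟨h1, h2⟩ := Nat.find_spec hex
  set q' := Nat.find hex with hq'
  refine ⟨q', ⟨hE.1, h1, h2, fun m hm1 hm2 => Nat.find_min' hex ⟨hm1, hm2⟩⟩, ?_⟩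
  have h3 : n + h < q' := by
    by_contra hc
    have h4 := hE.2
    simp only [Set.mem_iInter, Set.mem_compl_iff] at h4
    exact h4 q' (mem_Ioc.2 ⟨h2, by omega⟩) h1
  have h5 : (n : ℝ) + h + 1 ≤ q' := by exact_mod_cast h3
  linarith

theorem long_EN {Ω : Type*} {A : ℕ → Set Ω} {ω : Ω} {F : ℕ → ℝ} {n : ℕ}
    (h : n ∈ LongGaps {n | ω ∈ A n} F) : ω ∈ EN A n ⌈F n⌉₊ := by
  obtain ⟨q', ⟨h1, _, h3, h4⟩, h5⟩ := h
  refine ⟨h1, ?_⟩
  simp only [Set.mem_iInter, Set.mem_compl_iff]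
  intro m hm hmA
  rw [mem_Ioc] at hm
  have h6 : q' ≤ m := h4 m hmA hm.1
  have h7 : ⌈F n⌉₊ ≤ q' - n - 1 := by
    apply Nat.ceil_le.2
    rw [Nat.sub_sub, Nat.cast_sub (by omega)]
    push_cast
    linarith
  omega

variable {Ω : Type*} [MeasurableSpace Ω] {μ : Measure Ω} {z : ℕ → ℕ} {A : ℕ → Set Ω}

theorem z1 (hA : IsSievedModel μ z A) (F : ℕ → ℝ)
    (hs : Summable fun n => keepProb z n * ∏ m ∈ Ioc n (n + ⌈F n⌉₊), (1 - keepProb z m)) :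
    ∀ᵐ ω ∂μ, (LongGaps {n | ω ∈ A n} F).Finite := by
  filter_upwards [zo_fin hA.measurable hA.indep (keepProb z) (keep_nonneg z) (keep_le_one z) hA.prob
    (fun n => ⌈F n⌉₊) hs] with ω hω
  obtain ⟨N, hN⟩ := hω
  refine (Set.finite_lt_nat N).subset fun q hq => ?_
  by_contra hc
  exact hN q (not_lt.1 hc) (long_EN hq)

theorem z2 (hA : IsSievedModel μ z A) (F : ℕ → ℝ)
    (hs : ¬ Summable fun n => keepProb z n * ∏ m ∈ Ioc n (n + ⌈F n⌉₊), (1 - keepProb z m)) :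
    ∀ᵐ ω ∂μ, (LongGaps {n | ω ∈ A n} F).Infinite := by
  filter_upwards [zo_inf hA.measurable hA.indep (keepProb z) (keep_nonneg z) (keep_le_one z) hA.prob
    (fun n => ⌈F n⌉₊) hs] with ω hω
  rw [Set.infinite_iff_exists_gt (α := ℕ)]
  intro a
  obtain ⟨n, hn, hE⟩ := hω (a + 1)
  refine ⟨n, EN_long hE (Nat.le_ceil _) fun N => ?_, by omega⟩
  obtain ⟨m, hm, hE'⟩ := hω N
  exact ⟨m, hm, hE'.1⟩

theorem z3 {z₀ : ℕ} (hA : IsSievedModel μ (fun _ => z₀) A) {c : ℝ} (hc : 0 < c) :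
    ∀ᵐ ω ∂μ, (LongGaps {n | ω ∈ A n} (Fc c)).Finite :=
  z1 hA (Fc c) (summ_fP z₀ c hc)

theorem z4 {z₀ : ℕ} (hA : IsSievedModel μ (fun _ => z₀) A) {c : ℝ} (hc : c ≤ 0) :
    ∀ᵐ ω ∂μ, (LongGaps {n | ω ∈ A n} (Fc c)).Infinite := by
  filter_upwards [zo_inf hA.measurable hA.indep (keepProb (fun _ => z₀)) (keep_nonneg _) (keep_le_one _) hA.prob
    (fun n => ⌈Fc 0 n⌉₊) (not_summ_fP z₀)] with ω hω
  rw [Set.infinite_iff_exists_gt (α := ℕ)]
  intro a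
  obtain ⟨n, hn, hE⟩ := hω (max (a + 1) 3)
  have h1 : a + 1 ≤ n := (le_max_left _ _).trans hn
  have h3 : 3 ≤ n := (le_max_right _ _).trans hn
  refine ⟨n, EN_long hE ?_ fun N => ?_, by omega⟩
  · refine le_trans ?_ (Nat.le_ceil (Fc 0 n))
    unfold Fc
    have h4 : 1 ≤ Real.log n := by
      rw [Real.le_log_iff_exp_le (by exact_mod_cast (by omega : 0 < n))]
      have h5 := Real.exp_one_lt_d9
      have h6 : (3 : ℝ) ≤ n := by exact_mod_cast h3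
      linarith
    have h7 : 0 ≤ Real.log (Real.log n) := Real.log_nonneg h4
    have h8 : c * Real.log n * Real.log (Real.log n) ≤ 0 := by
      rw [mul_assoc]
      exact mul_nonpos_of_nonpos_of_nonneg hc (by positivity)
    linarith
  · obtain ⟨m, hm, hE'⟩ := hω N
    exact ⟨m, hm, hE'.1⟩

end Pool.Agent.Q46.CM
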