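import Mathlib
import Pool.Agent.Q46.CM.Main
import Pool.Agent.H373R2.T7.Fund

/-! The sieved random model: upper bounds, arithmetic part (helper46). -/

set_option autoImplicit false

namespace Pool.Agent.Q46.CM

open Finset Filter Topology Pool.Agent.H318R2.Cr
open Pool.Agent.H373R2.T7 (pz mem_pz PerB nuB sys_fund)

theorem limsup_le (S : Set ℕ) (β : ℝ) (J : ℕ)
    (h : ∀ j ≥ J, ∀ a : ℕ, 2 ^ j ≤ a → a < 2 ^ (j + 1) →
      ∃ n ∈ S, a < n ∧ (n : ℝ) ≤ a + β * (Real.log ((2:ℝ) ^ j)) ^ 2) :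
    cramerLimsup S ≤ (β : EReal) := by
  classical
  have hinf : (Set.ofPred (· ∈ S)).Infinite := by
    rw [Set.infinite_iff_exists_gt (α := ℕ)]
    intro b
    obtain ⟨n, hn, hn1, -⟩ := h (max J (b + 1)) (le_max_left _ _) (2 ^ (max J (b + 1))) le_rfl
      (Nat.pow_lt_pow_right (by norm_num) (Nat.lt_succ_self _))
    refine ⟨n, hn, ?_⟩
    have : b < 2 ^ max J (b + 1) := by
      calc b < 2 ^ b := Nat.lt_two_pow_self
        _ ≤ 2 ^ max J (b + 1) := Nat.pow_le_pow_right (by norm_num) (by omega)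
    omega
  unfold cramerLimsup
  have hev : ∀ᶠ k : ℕ in atTop, ((((Nat.nth (· ∈ S) (k + 1) : ℝ) - Nat.nth (· ∈ S) k) /
      Real.log (Nat.nth (· ∈ S) k) ^ 2 : ℝ) : EReal) ≤ (β : EReal) := by
    filter_upwards [eventually_ge_atTop (2 ^ (J + 1))] with k hk
    have hmono : StrictMono (Nat.nth (· ∈ S)) := Nat.nth_strictMono hinf
    set x := Nat.nth (· ∈ S) k with hx
    have hkx : k ≤ x := hmono.le_apply
    have hx0 : x ≠ 0 := by
      have : 0 < 2 ^ (J + 1) := by positivity
      omega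
    set j := Nat.log 2 x with hj
    have h1 : 2 ^ j ≤ x := Nat.pow_log_le_self 2 hx0
    have h2 : x < 2 ^ (j + 1) := Nat.lt_pow_succ_log_self (by norm_num) x
    have hjJ : J + 1 ≤ j := by
      have h3 : 2 ^ (J + 1) < 2 ^ (j + 1) := lt_of_le_of_lt (hk.trans hkx) h2
      have := (Nat.pow_lt_pow_iff_right (by norm_num : 1 < 2)).1 h3
      omega
    obtain ⟨n, hn, hn1, hn2⟩ := h j (by omega) x h1 h2
    have h4 : Nat.nth (· ∈ S) (Nat.count (· ∈ S) n) = n := Nat.nth_count hn
    have h5 : k < Nat.count (· ∈ S) n := by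
      rw [← h4, hx] at hn1
      exact (Nat.nth_lt_nth hinf).1 hn1
    have h6 : Nat.nth (· ∈ S) (k + 1) ≤ n := by
      rw [← h4]
      exact (Nat.nth_le_nth hinf).2 h5
    have h6' : ((Nat.nth (· ∈ S) (k + 1) : ℕ) : ℝ) ≤ n := by exact_mod_cast h6
    apply EReal.coe_le_coe_iff.2
    have hx2 : 2 ≤ x := by
      have : 2 ^ 1 ≤ 2 ^ j := Nat.pow_le_pow_right (by norm_num) (by omega)
      omega
    have hlx : 0 < Real.log x := Real.log_pos (by exact_mod_cast hx2)
    have hl2 : 0 < Real.log 2 := Real.log_pos (by norm_num)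
    have hlj : 0 < Real.log ((2 : ℝ) ^ j) := by
      rw [Real.log_pow]
      have : (0 : ℝ) < j := by exact_mod_cast (by omega : 0 < j)
      positivity
    have hle : Real.log ((2 : ℝ) ^ j) ≤ Real.log x := Real.log_le_log (by positivity) (by exact_mod_cast h1)
    have hβ : 0 ≤ β := by
      by_contra hneg
      push Not at hneg
      have a1 : (x : ℝ) < n := by exact_mod_cast hn1
      have a2 : 0 < (Real.log ((2:ℝ) ^ j)) ^ 2 := by positivity
      nlinarith
    rw [div_le_iff₀ (by positivity)]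
    have h7 : β * (Real.log ((2:ℝ) ^ j)) ^ 2 ≤ β * (Real.log x) ^ 2 := by gcongr
    linarith
  exact limsup_le_of_le (by isBoundedDefault) hev

/-- the fundamental lemma for intervals -/
theorem fl_int (ε : ℝ) (hε : 0 < ε) : ∃ K x0 : ℕ, 1 ≤ K ∧ ∀ y : ℕ, x0 ≤ y → ∀ h : ℕ, y ^ K ≤ h → ∀ a : ℕ,
    (1 - ε) * (h * V y) ≤ cnt y a h := by
  classical
  obtain ⟨K, x0, hK, hF⟩ := sys_fund 1 le_rfl (ε / 2) (by positivity)
  obtain ⟨c₁, c₂, hc₁, hc₁₂, hcz⟩ := cz_bounds
  -- `log h ≤ (ε/2) c₁ √h`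
  have e1 : ∀ᶠ x : ℕ in atTop, Real.log x ≤ ε / 2 * c₁ * √(x : ℝ) := by
    have h1 := (isLittleO_log_rpow_atTop (r := 1 / 2) (by norm_num)).def (c := ε / 2 * c₁) (by positivity)
    filter_upwards [(tendsto_natCast_atTop_atTop (R := ℝ)).eventually h1, eventually_ge_atTop 1] with x h3 h4
    have h4' : (1 : ℝ) ≤ x := by exact_mod_cast h4
    rw [Real.norm_of_nonneg (Real.log_nonneg h4'), Real.norm_of_nonneg (by positivity)] at h3
    rwa [Real.sqrt_eq_rpow]
  obtain ⟨x1, hx1⟩ := eventually_atTop.1 e1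
  refine ⟨K, max (max x0 x1) 2, hK, fun y hy h hh a => ?_⟩
  have hy0 : x0 ≤ y := (le_max_left _ _).trans ((le_max_left _ _).trans hy)
  have hy1 : x1 ≤ y := (le_max_right _ _).trans ((le_max_left _ _).trans hy)
  have hy2 : 2 ≤ y := (le_max_right _ _).trans hy
  have hyh : y ≤ h := (Nat.le_self_pow (by omega) y).trans hh
  set Q : ℕ → ℕ → Prop := fun p n => p ∣ a + n with hQ
  have hper : ∀ p n, Q p n ↔ Q p (n % p) := by
    intro p n
    simp only [hQ]
    constructor
    · intro hd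
      have : p ∣ a + (n % p + p * (n / p)) := by rwa [Nat.mod_add_div]
      rw [← add_assoc] at this
      exact (Nat.dvd_add_left (Dvd.intro _ rfl)).1 this
    · intro hd
      have : p ∣ a + n % p + p * (n / p) := Dvd.dvd.add hd (Dvd.intro _ rfl)
      rwa [add_assoc, Nat.mod_add_div] at this
  have hone : ∀ p : ℕ, p.Prime → nuB Q p = 1 := by
    intro p hp
    unfold nuB
    rw [Finset.card_eq_one]
    refine ⟨(p - a % p) % p, ?_⟩
    have hp0 : 0 < p := hp.pos
    have ham : a % p < p := Nat.mod_lt _ hp0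
    have haa : a = p * (a / p) + a % p := (Nat.div_add_mod a p).symm
    ext r
    simp only [mem_filter, mem_range, mem_singleton, hQ]
    constructor
    · rintro ⟨h1, h2⟩
      rw [haa, add_assoc] at h2
      have h3 : p ∣ a % p + r := (Nat.dvd_add_right (Dvd.intro _ rfl)).1 h2
      obtain ⟨t, ht⟩ := h3
      have ht2 : t < 2 := by
        by_contra hcon
        push Not at hcon
        have : p * 2 ≤ p * t := Nat.mul_le_mul_left p hcon
        omega
      interval_cases t
      · have : a % p = 0 := by omega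
        rw [this, Nat.sub_zero, Nat.mod_self]
        omega
      · rcases Nat.eq_zero_or_pos (a % p) with h0 | h0
        · omega
        · rw [Nat.mod_eq_of_lt (by omega)]
          omega
    · rintro rfl
      refine ⟨Nat.mod_lt _ hp0, ?_⟩
      have h6 : a + (p - a % p) % p = p * (a / p) + (a % p + (p - a % p) % p) := by omega
      rw [h6]
      apply Dvd.dvd.add (Dvd.intro _ rfl)
      rcases Nat.eq_zero_or_pos (a % p) with h0 | h0
      · rw [h0, Nat.sub_zero, Nat.mod_self]; simp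
      · rw [Nat.mod_eq_of_lt (show p - a % p < p by omega)]
        have : a % p + (p - a % p) = p := by omega
        rw [this]
  have hP : PerB Q 1 := ⟨hper, fun p hp => (hone p hp).le⟩
  have hmain := hF h y hy0 hh Q hP h
  have e2 : ∏ p ∈ pz y, (1 - (nuB Q p : ℝ) / p) = V y := by
    unfold V
    have : pz y = Pz y := by
      ext p
      rw [mem_pz]
      unfold Pz
      rw [mem_filter, mem_Ioc]
      constructor
      · rintro ⟨h1, h2⟩; exact ⟨⟨h2.pos, h1⟩, h2⟩
      · rintro ⟨⟨_, h1⟩, h2⟩; exact ⟨h1, h2⟩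
    rw [this]
    apply Finset.prod_congr rfl
    intro p hp
    unfold Pz at hp
    rw [mem_filter] at hp
    rw [hone p hp.2]
    norm_num
  have e3 : ((Icc 1 h).filter (fun n : ℕ => ∀ p ∈ pz y, ¬ Q p n)).card = cnt y a h := by
    unfold cnt
    have : (Ioc a (a + h)).filter (Rgh y) = ((Icc 1 h).filter (fun n : ℕ => ∀ p ∈ pz y, ¬ Q p n)).image (fun n => a + n) := by
      ext m
      simp only [mem_filter, mem_Ioc, mem_image, mem_Icc, hQ]
      constructor
      · rintro ⟨⟨h1, h2⟩, h3⟩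
        refine ⟨m - a, ⟨⟨by omega, by omega⟩, ?_⟩, by omega⟩
        intro p hp
        rw [mem_pz] at hp
        rw [show a + (m - a) = m by omega]
        exact h3 p hp.2 hp.1
      · rintro ⟨k, ⟨⟨h1, h2⟩, h3⟩, rfl⟩
        exact ⟨⟨by omega, by omega⟩, fun p hp hpz => h3 p (mem_pz.2 ⟨hpz, hp⟩)⟩
    rw [this, card_image_of_injective _ (fun u v huv => by simpa using huv)]
  have hmain2 : |(cnt y a h : ℝ) - h * V y| ≤ ε / 2 * (h * V y) + √(h : ℝ) := by
    rw [← e3, ← e2]
    convert hmain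
  have hV := V_pos y
  have hh0 : (0 : ℝ) < h := by exact_mod_cast (by omega : 0 < h)
  have hsq : √(h : ℝ) ≤ ε / 2 * (h * V y) := by
    have h1 := hx1 h (hy1.trans hyh)
    have hly : 0 < Real.log y := Real.log_pos (by exact_mod_cast hy2)
    have h2 : Real.log y ≤ Real.log h := Real.log_le_log (by exact_mod_cast (by omega : 0 < y)) (by exact_mod_cast hyh)
    have h3 := (hcz y hy2).1
    have h4 : c₁ ≤ V y * (ε / 2 * c₁ * √(h : ℝ)) := h3.trans (mul_le_mul_of_nonneg_left (h2.trans h1) hV.le)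
    have h5 : 1 ≤ ε / 2 * V y * √(h : ℝ) := by
      have : c₁ * 1 ≤ c₁ * (ε / 2 * V y * √(h : ℝ)) := by linarith
      exact le_of_mul_le_mul_left this hc₁
    have h6 : √(h : ℝ) * √(h : ℝ) = h := Real.mul_self_sqrt hh0.le
    calc √(h : ℝ) = 1 * √(h : ℝ) := (one_mul _).symm
      _ ≤ ε / 2 * V y * √(h : ℝ) * √(h : ℝ) := mul_le_mul_of_nonneg_right h5 (Real.sqrt_nonneg _)
      _ = ε / 2 * (√(h : ℝ) * √(h : ℝ) * V y) := by ring
      _ = ε / 2 * (h * V y) := by rw [h6]
  have h7 := (abs_le.1 hmain2).1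
  linarith

end Pool.Agent.Q46.CM
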