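import Mathlib
import Pool.Agent.Q46.CM.Upper1
import Pool.Agent.Q46.CM.Engine

/-! The sieved random model: upper bounds, probabilistic part (helper46). -/

set_option autoImplicit false

namespace Pool.Agent.Q46.CM

open Finset Filter Topology MeasureTheory ProbabilityTheory Pool.Agent.H318R2.Cr
open scoped ENNReal

/-- expected number in a piece of a block -/
theorem piece {z : ℕ → ℕ} {i b g : ℕ} (hi : 1 ≤ i) (h1 : 2 ^ i ≤ b + 1) (h2 : b + g < 2 ^ (i + 1))
    (hp : pj z i ≤ 1) :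
    (cnt (z i) b g : ℝ) / (V (z i) * ((i + 1) * Real.log 2)) ≤ ∑ n ∈ Ioc b (b + g), keepProb z n := by
  classical
  have hl2 : 0 < Real.log 2 := Real.log_pos (by norm_num)
  have hV := V_pos (z i)
  have hi0 : (1 : ℝ) ≤ i := by exact_mod_cast hi
  set c : ℝ := 1 / (V (z i) * ((i + 1) * Real.log 2)) with hc
  have hc1 : c ≤ 1 := by
    refine le_trans ?_ hp
    rw [hc]
    unfold pj
    apply one_div_le_one_div_of_le (by positivity)
    apply mul_le_mul_of_nonneg_left _ hV.le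
    nlinarith
  have h3 : ∀ n ∈ Ioc b (b + g), (if Rgh (z i) n then c else 0) ≤ keepProb z n := by
    intro n hn
    rw [mem_Ioc] at hn
    have hb1 : 2 ^ i ≤ n := by omega
    have hb2 : n < 2 ^ (i + 1) := by omega
    unfold keepProb
    rw [log_block hb1 hb2]
    split_ifs with hr
    · apply le_min hc1
      have hn2 : 2 ≤ n := by
        have : 2 ^ 1 ≤ 2 ^ i := Nat.pow_le_pow_right (by norm_num) hi
        omega
      have hln : 0 < Real.log n := Real.log_pos (by exact_mod_cast hn2)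
      rw [hc]
      apply one_div_le_one_div_of_le (by positivity)
      apply mul_le_mul_of_nonneg_left _ hV.le
      have h5 : Real.log n ≤ Real.log ((2:ℝ) ^ (i + 1)) := by
        apply Real.log_le_log (by exact_mod_cast (by omega : 0 < n))
        exact_mod_cast hb2.le
      rw [Real.log_pow] at h5
      push_cast at h5
      exact h5
    · exact le_rfl
  calc (cnt (z i) b g : ℝ) / (V (z i) * ((i + 1) * Real.log 2)) = ∑ n ∈ Ioc b (b + g), (if Rgh (z i) n then c else 0) := by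
        rw [Finset.sum_ite, Finset.sum_const_zero, add_zero, Finset.sum_const, nsmul_eq_mul]
        unfold cnt
        rw [hc]
        ring
    _ ≤ _ := Finset.sum_le_sum h3

theorem keep_sum {z : ℕ → ℕ} {j a h K x0 : ℕ} {ε : ℝ} (hε : 0 < ε) (hε1 : ε < 1 / 2)
    (hfl : ∀ y : ℕ, x0 ≤ y → ∀ h : ℕ, y ^ K ≤ h → ∀ a : ℕ, (1 - ε) * (h * V y) ≤ cnt y a h)
    (hj : 1 ≤ j) (hz1 : x0 ≤ z j) (hz2 : x0 ≤ z (j + 1)) (hK1 : ((z j ^ K : ℕ) : ℝ) ≤ ε * h)
    (hK2 : ((z (j + 1) ^ K : ℕ) : ℝ) ≤ ε * h) (hp1 : pj z j ≤ 1) (hp2 : pj z (j + 1) ≤ 1)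
    (ha1 : 2 ^ j ≤ a) (ha2 : a < 2 ^ (j + 1)) (hh : h ≤ 2 ^ (j + 1)) :
    (1 - ε) ^ 2 * (h / ((j + 2) * Real.log 2)) ≤ ∑ n ∈ Ioc a (a + h), keepProb z n := by
  have hl2 : 0 < Real.log 2 := Real.log_pos (by norm_num)
  have hj0 : (1 : ℝ) ≤ j := by exact_mod_cast hj
  have hh0 : (0 : ℝ) ≤ h := Nat.cast_nonneg h
  set g1 := min h (2 ^ (j + 1) - 1 - a) with hg1
  set g2 := h - g1 with hg2
  have hg1h : g1 ≤ h := min_le_left _ _
  have hg1b : g1 ≤ 2 ^ (j + 1) - 1 - a := min_le_right _ _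
  have hsplit : Ioc a (a + h) = Ioc a (a + g1) ∪ Ioc (a + g1) (a + g1 + g2) := by
    rw [Ioc_union_Ioc_eq_Ioc (by omega) (by omega)]
    congr 1
    omega
  have hdisj : Disjoint (Ioc a (a + g1)) (Ioc (a + g1) (a + g1 + g2)) := by
    rw [Finset.disjoint_left]
    intro n h1 h2
    rw [mem_Ioc] at h1 h2
    omega
  rw [hsplit, Finset.sum_union hdisj]
  -- general piece bound
  have gen : ∀ i b g : ℕ, 1 ≤ i → i ≤ j + 1 → 2 ^ i ≤ b + 1 → b + g < 2 ^ (i + 1) → pj z i ≤ 1 → x0 ≤ z i →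
      ((z i ^ K : ℕ) : ℝ) ≤ ε * h → ε * h ≤ g →
      (1 - ε) * (g / ((j + 2) * Real.log 2)) ≤ ∑ n ∈ Ioc b (b + g), keepProb z n := by
    intro i b g hi hij hb1 hb2 hpi hzi hKi hgi
    have hVi := V_pos (z i)
    have h1 := hfl (z i) hzi g (by exact_mod_cast hKi.trans hgi) b
    have hi0 : (1 : ℝ) ≤ i := by exact_mod_cast hi
    have hij' : (i : ℝ) ≤ j + 1 := by exact_mod_cast hij
    refine le_trans ?_ (piece hi hb1 hb2 hpi)
    rw [le_div_iff₀ (by positivity)]
    refine le_trans ?_ h1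
    have hg0 : (0 : ℝ) ≤ g := Nat.cast_nonneg g
    have h2 : (g : ℝ) / ((j + 2) * Real.log 2) * ((i + 1) * Real.log 2) ≤ g := by
      rw [div_mul_eq_mul_div, div_le_iff₀ (by positivity)]
      apply mul_le_mul_of_nonneg_left _ hg0
      apply mul_le_mul_of_nonneg_right _ hl2.le
      linarith
    calc (1 - ε) * ((g : ℝ) / ((j + 2) * Real.log 2)) * (V (z i) * ((i + 1) * Real.log 2)) =
        (1 - ε) * (((g : ℝ) / ((j + 2) * Real.log 2) * ((i + 1) * Real.log 2)) * V (z i)) := by ring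
      _ ≤ (1 - ε) * (g * V (z i)) := by
          apply mul_le_mul_of_nonneg_left _ (by linarith)
          exact mul_le_mul_of_nonneg_right h2 hVi.le
  have hnn : ∀ s : Finset ℕ, 0 ≤ ∑ n ∈ s, keepProb z n := fun s => Finset.sum_nonneg fun n _ => keep_nonneg z n
  have hgsum : (g1 : ℝ) + g2 = h := by
    have : g1 + g2 = h := by omega
    exact_mod_cast this
  have hD : 0 < ((j : ℝ) + 2) * Real.log 2 := by positivity
  have hb2 : 0 < g2 → 2 ^ (j + 1) ≤ a + g1 + 1 := by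
    intro hpos
    have : g1 < h := by omega
    have : g1 = 2 ^ (j + 1) - 1 - a := by
      rcases min_choice h (2 ^ (j + 1) - 1 - a) with h1 | h1
      · omega
      · rw [hg1, h1]
    omega
  have hpow2 : 2 ^ (j + 1 + 1) = 2 * 2 ^ (j + 1) := by rw [pow_succ]; ring
  -- the two pieces
  have P1 : ε * h ≤ g1 → (1 - ε) * (g1 / ((j + 2) * Real.log 2)) ≤ ∑ n ∈ Ioc a (a + g1), keepProb z n := fun hc =>
    gen j a g1 hj (by omega) (by omega) (by omega) hp1 hz1 hK1 hc
  have P2 : ε * h ≤ g2 → 0 < g2 →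
      (1 - ε) * (g2 / ((j + 2) * Real.log 2)) ≤ ∑ n ∈ Ioc (a + g1) (a + g1 + g2), keepProb z n := fun hc hpos =>
    gen (j + 1) (a + g1) g2 (by omega) (by omega) (hb2 hpos) (by rw [hpow2]; omega) hp2 hz2 hK2 hc
  rcases lt_or_ge (g1 : ℝ) (ε * h) with hc1 | hc1
  · have h1 : (1 - ε) * h ≤ g2 := by linarith
    rcases Nat.eq_zero_or_pos g2 with h0 | hpos
    · rw [h0] at h1 hgsum
      push_cast at h1 hgsum
      have : (h : ℝ) = 0 := by nlinarith
      rw [this]
      simp only [zero_div, mul_zero]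
      exact add_nonneg (hnn _) (hnn _)
    · have h2 := P2 (by nlinarith) hpos
      have h3 : (1 - ε) ^ 2 * (h / ((j + 2) * Real.log 2)) ≤ (1 - ε) * (g2 / ((j + 2) * Real.log 2)) := by
        rw [pow_two, mul_assoc]
        apply mul_le_mul_of_nonneg_left _ (by linarith)
        rw [← mul_div_assoc]
        exact div_le_div_of_nonneg_right h1 hD.le
      linarith [hnn (Ioc a (a + g1))]
  · have h2 := P1 hc1
    rcases lt_or_ge (g2 : ℝ) (ε * h) with hc2 | hc2
    · have h1 : (1 - ε) * h ≤ g1 := by linarith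
      have h3 : (1 - ε) ^ 2 * (h / ((j + 2) * Real.log 2)) ≤ (1 - ε) * (g1 / ((j + 2) * Real.log 2)) := by
        rw [pow_two, mul_assoc]
        apply mul_le_mul_of_nonneg_left _ (by linarith)
        rw [← mul_div_assoc]
        exact div_le_div_of_nonneg_right h1 hD.le
      linarith [hnn (Ioc (a + g1) (a + g1 + g2))]
    · rcases Nat.eq_zero_or_pos g2 with h0 | hpos
      · rw [h0] at hgsum
        push_cast at hgsum
        have h4 : (g1 : ℝ) = h := by linarith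
        rw [h4] at h2
        have h3 : (1 - ε) ^ 2 * (h / ((j + 2) * Real.log 2)) ≤ (1 - ε) * (h / ((j + 2) * Real.log 2)) := by
          apply mul_le_mul_of_nonneg_right _ (by positivity)
          nlinarith
        linarith [hnn (Ioc (a + g1) (a + g1 + g2))]
      · have h5 := P2 hc2 hpos
        have h3 : (1 - ε) ^ 2 * (h / ((j + 2) * Real.log 2)) ≤ (1 - ε) * (h / ((j + 2) * Real.log 2)) := by
          apply mul_le_mul_of_nonneg_right _ (by positivity)
          nlinarith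
        have h6 : (1 - ε) * (h / ((j + 2) * Real.log 2)) =
            (1 - ε) * (g1 / ((j + 2) * Real.log 2)) + (1 - ε) * (g2 / ((j + 2) * Real.log 2)) := by
          rw [← hgsum]; ring
        linarith

variable {Ω : Type*} [MeasurableSpace Ω] {μ : Measure Ω} {z : ℕ → ℕ} {A : ℕ → Set Ω}

/-- some interval of length `h` starting in the block `j` is empty -/
def GG (A : ℕ → Set Ω) (j h : ℕ) : Set Ω :=
  {ω | ∃ a, 2 ^ j ≤ a ∧ a < 2 ^ (j + 1) ∧ ∀ n, a < n → n ≤ a + h → ω ∉ A n}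

theorem GG_bound (hA : IsSievedModel μ z A) {j h : ℕ} {s : ℝ}
    (hs : ∀ a : ℕ, 2 ^ j ≤ a → a < 2 ^ (j + 1) → s ≤ ∑ n ∈ Ioc a (a + h), keepProb z n) :
    μ (GG A j h) ≤ ENNReal.ofReal ((2 : ℝ) ^ j * Real.exp (-s)) := by
  have hsub : GG A j h ⊆ ⋃ a ∈ Ico (2 ^ j) (2 ^ (j + 1)), ⋂ n ∈ Ioc a (a + h), (A n)ᶜ := by
    rintro ω ⟨a, ha1, ha2, ha3⟩
    simp only [Set.mem_iUnion]
    refine ⟨a, mem_Ico.2 ⟨ha1, ha2⟩, ?_⟩
    simp only [Set.mem_iInter]
    intro n hn
    rw [mem_Ioc] at hn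
    exact ha3 n hn.1 hn.2
  refine (measure_mono hsub).trans ((measure_biUnion_finset_le _ _).trans ?_)
  have h1 : ∀ a ∈ Ico (2 ^ j) (2 ^ (j + 1)), μ (⋂ n ∈ Ioc a (a + h), (A n)ᶜ) ≤ ENNReal.ofReal (Real.exp (-s)) := by
    intro a ha
    rw [mem_Ico] at ha
    rw [prob_empty hA.measurable hA.indep (keepProb z) (keep_nonneg z) (keep_le_one z) hA.prob]
    apply ENNReal.ofReal_le_ofReal
    calc ∏ n ∈ Ioc a (a + h), (1 - keepProb z n) ≤ ∏ n ∈ Ioc a (a + h), Real.exp (-keepProb z n) :=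
          Finset.prod_le_prod (fun n _ => by linarith [keep_le_one z n])
            (fun n _ => by have := Real.add_one_le_exp (-keepProb z n); linarith)
      _ = Real.exp (-∑ n ∈ Ioc a (a + h), keepProb z n) := by
          rw [← Real.exp_sum, Finset.sum_neg_distrib]
      _ ≤ Real.exp (-s) := Real.exp_le_exp.2 (by linarith [hs a ha.1 ha.2])
  refine (Finset.sum_le_sum h1).trans ?_
  rw [Finset.sum_const, Nat.card_Ico, nsmul_eq_mul]
  have h2 : 2 ^ (j + 1) - 2 ^ j = 2 ^ j := by rw [pow_succ]; omega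
  rw [h2, ENNReal.ofReal_mul (by positivity)]
  apply le_of_eq
  congr 1
  rw [ENNReal.ofReal_pow (by norm_num)]
  push_cast
  norm_num

theorem bc' (c : ℝ) (hc : 0 < c) (f : ℕ → Set Ω) (J : ℕ)
    (h : ∀ j ≥ J, μ (f j) ≤ ENNReal.ofReal (Real.exp (-(c * (j : ℝ))))) :
    ∀ᵐ ω ∂μ, ∃ J' : ℕ, ∀ j ≥ J', ω ∉ f j := by
  have hs : ∑' j, μ (f (j + J)) ≠ ∞ := by
    have h1 : ∀ j, μ (f (j + J)) ≤ ENNReal.ofReal ((Real.exp (-c)) ^ j) := by
      intro j
      refine (h (j + J) (by omega)).trans (ENNReal.ofReal_le_ofReal ?_)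
      rw [← Real.exp_nat_mul]
      apply Real.exp_le_exp.2
      push_cast
      have : (0 : ℝ) ≤ J := Nat.cast_nonneg J
      nlinarith
    have h2 : Summable (fun j : ℕ => (Real.exp (-c)) ^ j) :=
      summable_geometric_of_lt_one (Real.exp_pos _).le (by rw [Real.exp_lt_one_iff]; linarith)
    refine ne_top_of_le_ne_top ?_ (ENNReal.tsum_le_tsum h1)
    rw [← ENNReal.ofReal_tsum_of_nonneg (fun j => by positivity) h2]
    exact ENNReal.ofReal_ne_top
  have h1 := ae_eventually_notMem (μ := μ) (s := fun j => f (j + J)) hs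
  filter_upwards [h1] with ω hω
  obtain ⟨J', hJ'⟩ := eventually_atTop.1 hω
  refine ⟨J' + J, fun j hj => ?_⟩
  have h3 : ω ∉ f (j - J + J) := hJ' (j - J) (by omega)
  rwa [Nat.sub_add_cancel (by omega)] at h3

end Pool.Agent.Q46.CM
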