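import Mathlib
import Pool.Agent.Q46.CM.Final4
import Pool.Agent.Q46.CM.Upper2

/-! Oscillation of the largest gap in the random model with constant level: estimates (helper46). -/

set_option autoImplicit false

namespace Pool.Agent.Q46.CM

open Finset Filter Topology MeasureTheory ProbabilityTheory Pool.Agent.H318R2.Cr
open scoped ENNReal

theorem bcS {Ω : Type*} [MeasurableSpace Ω] {μ : Measure Ω} (f : ℕ → Set Ω) (g : ℕ → ℝ) (hg : Summable g)
    (hg0 : ∀ j, 0 ≤ g j) (h : ∀ᶠ j : ℕ in atTop, μ (f j) ≤ ENNReal.ofReal (g j)) :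
    ∀ᵐ ω ∂μ, ∃ J : ℕ, ∀ j ≥ J, ω ∉ f j := by
  obtain ⟨J, hJ⟩ := eventually_atTop.1 h
  have hs : ∑' j, μ (f (j + J)) ≠ ∞ := by
    refine ne_top_of_le_ne_top ?_ (ENNReal.tsum_le_tsum fun j => hJ (j + J) (by omega))
    rw [← ENNReal.ofReal_tsum_of_nonneg (fun j => hg0 _) ((summable_nat_add_iff J).2 hg)]
    exact ENNReal.ofReal_ne_top
  have h1 := ae_eventually_notMem (μ := μ) (s := fun j => f (j + J)) hs
  filter_upwards [h1] with ω hω
  obtain ⟨J', hJ'⟩ := eventually_atTop.1 hω
  refine ⟨J' + J, fun j hj => ?_⟩
  have h3 : ω ∉ f (j - J + J) := hJ' (j - J) (by omega)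
  rwa [Nat.sub_add_cancel (by omega)] at h3

/-- the constant in the lower bound -/
noncomputable def C0 (z : ℕ) : ℝ := primorial z / V z + 2 * (2 + primorial z) / V z ^ 2

/-- lower bound, general `h` -/
theorem fP_ge2 (z n h : ℕ) (hr : Rgh z n) (hL : 2 ≤ V z * Real.log n) (hL1 : 1 ≤ Real.log n)
    (hh : (h : ℝ) ≤ Real.log n ^ 2 + 1) :
    Real.exp (-(h / Real.log n + C0 z)) / (V z * Real.log n) ≤ fP z n h := by
  classical
  have hV := V_pos z
  have hV1 := V_le_one z
  set L := Real.log n with hLd
  have hL0 : 0 < L := by linarith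
  have hn : (0 : ℝ) < n := by
    by_contra hc
    have : (n : ℝ) = 0 := le_antisymm (not_lt.1 hc) (Nat.cast_nonneg n)
    rw [hLd, this, Real.log_zero] at hL0
    exact lt_irrefl _ hL0
  have hsum := sum_kp_le z n h (by linarith)
  have hP0 : (0 : ℝ) ≤ primorial z := Nat.cast_nonneg _
  have hkp : ∀ m ∈ Ioc n (n + h), keepProb (fun _ => z) m ≤ 1 / (V z * L) := by
    intro m hm
    rw [mem_Ioc] at hm
    unfold keepProb
    split_ifs with hr
    · refine (min_le_right _ _).trans ?_
      apply one_div_le_one_div_of_le (by positivity)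
      apply mul_le_mul_of_nonneg_left _ hV.le
      exact Real.log_le_log hn (by exact_mod_cast hm.1.le)
    · positivity
  have hhalf : 1 / (V z * L) ≤ 1 / 2 := one_div_le_one_div_of_le (by norm_num) hL
  have h1 : Real.exp (-(∑ m ∈ Ioc n (n + h), (keepProb (fun _ => z) m + 2 * (1 / (V z * L)) * keepProb (fun _ => z) m))) ≤
      ∏ m ∈ Ioc n (n + h), (1 - keepProb (fun _ => z) m) := by
    rw [← Finset.sum_neg_distrib, Real.exp_sum]
    apply Finset.prod_le_prod (fun m _ => (Real.exp_pos _).le)
    intro m hm
    have h2 := hkp m hm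
    have h3 := keep_nonneg (fun _ => z) m
    refine le_trans ?_ (exp_le_one_sub h3 (h2.trans hhalf))
    apply Real.exp_le_exp.2
    have h4 : keepProb (fun _ => z) m ^ 2 ≤ 1 / (V z * L) * keepProb (fun _ => z) m := by
      rw [pow_two]
      exact mul_le_mul_of_nonneg_right h2 h3
    linarith
  have h5 : ∑ m ∈ Ioc n (n + h), (keepProb (fun _ => z) m + 2 * (1 / (V z * L)) * keepProb (fun _ => z) m) ≤
      h / L + C0 z := by
    rw [Finset.sum_add_distrib, ← Finset.mul_sum]
    set S := ∑ m ∈ Ioc n (n + h), keepProb (fun _ => z) m with hS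
    have h6 : (h * V z + primorial z) / (V z * L) ≤ h / L + primorial z / V z := by
      have h7 : (h * V z + primorial z) / (V z * L) = h / L + primorial z / (V z * L) := by field_simp
      rw [h7]
      apply add_le_add le_rfl
      apply div_le_div_of_nonneg_left hP0 hV
      nlinarith
    have h11 : S ≤ (2 + primorial z) * L / V z := by
      refine hsum.trans ?_
      rw [div_le_div_iff₀ (by positivity) hV]
      have h8 : (h : ℝ) * V z ≤ (L ^ 2 + 1) * V z := mul_le_mul_of_nonneg_right hh hV.le
      have hLL : 1 ≤ L ^ 2 := one_le_pow₀ hL1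
      have h12 : (h * V z + primorial z) ≤ (2 + primorial z) * L ^ 2 := by
        have h13 : (L ^ 2 + 1) * V z ≤ 2 * L ^ 2 := by nlinarith
        have h14 : (primorial z : ℝ) * 1 ≤ primorial z * L ^ 2 := mul_le_mul_of_nonneg_left hLL hP0
        linarith
      calc (h * V z + primorial z) * V z ≤ ((2 + primorial z) * L ^ 2) * V z := mul_le_mul_of_nonneg_right h12 hV.le
        _ = _ := by ring
    have h15 : 2 * (1 / (V z * L)) * S ≤ 2 * (2 + primorial z) / V z ^ 2 := by
      calc 2 * (1 / (V z * L)) * S ≤ 2 * (1 / (V z * L)) * ((2 + primorial z) * L / V z) :=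
            mul_le_mul_of_nonneg_left h11 (by positivity)
        _ = _ := by field_simp
    unfold C0
    linarith
  unfold fP
  rw [kp_eq z n (by linarith) hr, div_eq_mul_inv, mul_comm, ← one_div]
  apply mul_le_mul_of_nonneg_left _ (by positivity)
  refine le_trans ?_ h1
  apply Real.exp_le_exp.2
  linarith

theorem W_le (z n h N : ℕ) (hN : n + h ≤ 2 * N) (hL : 1 ≤ V z * Real.log (2 * N : ℕ)) :
    ∏ m ∈ Ioc n (n + h), (1 - keepProb (fun _ => z) m) ≤
      Real.exp ((primorial z + 1) / V z) * Real.exp (-(h / Real.log (2 * N : ℕ))) := by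
  classical
  have hV := V_pos z
  have hV1 := V_le_one z
  set M := Real.log (2 * N : ℕ) with hM
  have hM1 : 1 ≤ M := by nlinarith
  have hP0 : (0 : ℝ) ≤ primorial z := Nat.cast_nonneg _
  have h1 : ∀ m ∈ Ioc n (n + h), (if Rgh z m then 1 / (V z * M) else 0) - (if m = 1 then 1 / (V z * M) else 0) ≤
      keepProb (fun _ => z) m := by
    intro m hm
    rw [mem_Ioc] at hm
    have hpos : 0 ≤ 1 / (V z * M) := by positivity
    by_cases hm1 : m = 1
    · have := keep_nonneg (fun _ => z) m
      rw [if_pos hm1]
      split_ifs <;> linarith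
    · rw [if_neg hm1, sub_zero]
      split_ifs with hr
      · unfold keepProb
        rw [if_pos hr]
        have hm2 : 2 ≤ m := by omega
        have hlm : 0 < Real.log m := Real.log_pos (by exact_mod_cast hm2)
        apply le_min
        · rw [div_le_one (by positivity)]; exact hL
        · apply one_div_le_one_div_of_le (by positivity)
          apply mul_le_mul_of_nonneg_left _ hV.le
          apply Real.log_le_log (by exact_mod_cast (by omega : 0 < m))
          exact_mod_cast hm.2.trans hN
      · exact keep_nonneg _ _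
  have h2 : (h * V z - primorial z) / (V z * M) - 1 / (V z * M) ≤ ∑ m ∈ Ioc n (n + h), keepProb (fun _ => z) m := by
    refine le_trans ?_ (Finset.sum_le_sum h1)
    rw [Finset.sum_sub_distrib]
    apply sub_le_sub
    · rw [Finset.sum_ite, Finset.sum_const_zero, add_zero, Finset.sum_const, nsmul_eq_mul]
      have h3 := (cnt_bounds z n h).1
      unfold cnt at h3
      rw [mul_one_div]
      exact div_le_div_of_nonneg_right h3 (by positivity)
    · rw [Finset.sum_ite_eq' (Ioc n (n + h)) 1 (fun _ => 1 / (V z * M))]
      split_ifs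
      · exact le_rfl
      · positivity
  calc ∏ m ∈ Ioc n (n + h), (1 - keepProb (fun _ => z) m) ≤ Real.exp (-∑ m ∈ Ioc n (n + h), keepProb (fun _ => z) m) := by
        rw [← Finset.sum_neg_distrib, Real.exp_sum]
        apply Finset.prod_le_prod (fun m _ => by linarith [keep_le_one (fun _ => z) m])
        intro m _
        have := Real.add_one_le_exp (-keepProb (fun _ => z) m)
        linarith
    _ ≤ Real.exp ((primorial z + 1) / V z - h / M) := by
        apply Real.exp_le_exp.2
        have h4 : (h * V z - primorial z) / (V z * M) - 1 / (V z * M) = h / M - (primorial z + 1) / (V z * M) := by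
          field_simp
          ring
        have h5 : (primorial z + 1) / (V z * M) ≤ (primorial z + 1) / V z := by
          apply div_le_div_of_nonneg_left (by positivity) hV
          nlinarith
        linarith
    _ = _ := by rw [sub_eq_add_neg, Real.exp_add]

theorem sum_kp_all (z N : ℕ) (hL : 0 < Real.log N) (hN : 1 ≤ N) :
    ∑ n ∈ range (N + 1), keepProb (fun _ => z) n ≤ √N + 1 + (N + 1) * (2 / (V z * Real.log N)) := by
  classical
  have hV := V_pos z
  have h1 : ∀ n ∈ range (N + 1), keepProb (fun _ => z) n ≤
      (if n ∈ range (Nat.sqrt N + 1) then 1 else 0) + 2 / (V z * Real.log N) := by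
    intro n hn
    have hpos : 0 ≤ 2 / (V z * Real.log N) := by positivity
    split_ifs with h
    · linarith [keep_le_one (fun _ => z) n]
    · rw [mem_range, not_lt] at h
      rw [zero_add]
      unfold keepProb
      split_ifs with hr
      · refine (min_le_right _ _).trans ?_
        have hn0 : (0 : ℝ) < n := by exact_mod_cast (by omega : 0 < n)
        have hnn : N < n * n := Nat.sqrt_lt.1 (by omega)
        have h2 : Real.log N ≤ 2 * Real.log n := by
          have h3 : Real.log N ≤ Real.log ((n : ℝ) ^ 2) := by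
            apply Real.log_le_log (by exact_mod_cast hN)
            rw [pow_two]
            exact_mod_cast hnn.le
          rw [Real.log_pow] at h3
          push_cast at h3
          exact h3
        have hln : 0 < Real.log n := by linarith
        rw [div_le_div_iff₀ (by positivity) (by positivity)]
        nlinarith
      · exact hpos
  refine (Finset.sum_le_sum h1).trans ?_
  rw [Finset.sum_add_distrib, Finset.sum_const, card_range, nsmul_eq_mul]
  push_cast
  apply add_le_add _ le_rfl
  rw [Finset.sum_boole]
  have h4 : ((range (N + 1)).filter (fun n => n ∈ range (Nat.sqrt N + 1))).card ≤ Nat.sqrt N + 1 := by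
    calc _ ≤ (range (Nat.sqrt N + 1)).card := by
          apply Finset.card_le_card
          intro n hn
          exact (mem_filter.1 hn).2
      _ = _ := card_range _
  have h5 : ((Nat.sqrt N : ℕ) : ℝ) ≤ √N := Real.nat_sqrt_le_real_sqrt
  have h6 : (((range (N + 1)).filter (fun n => n ∈ range (Nat.sqrt N + 1))).card : ℝ) ≤ ((Nat.sqrt N + 1 : ℕ) : ℝ) := by
    exact_mod_cast h4
  push_cast at h6
  linarith

end Pool.Agent.Q46.CM
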