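import Mathlib
import Pool.Agent.Q46.CM.Osc1

/-! Oscillation of the largest gap in the random model with constant level: probabilities (helper46). -/

set_option autoImplicit false

namespace Pool.Agent.Q46.CM

open Finset Filter Topology MeasureTheory ProbabilityTheory Pool.Agent.H318R2.Cr
open scoped ENNReal

/-- the length for the upper side -/
noncomputable def hU (ε : ℝ) (N : ℕ) : ℕ := ⌈Real.log N ^ 2 - (1 - ε) * Real.log N * Real.log (Real.log N)⌉₊

theorem upto_bound (z : ℕ) (ε : ℝ) (hε : 0 < ε) (hε1 : ε ≤ 1) : ∃ C : ℝ, 0 < C ∧ ∀ᶠ N : ℕ in atTop,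
    ∑ n ∈ range (N + 1), fP z n (hU ε N) ≤ C * Real.log N ^ (-ε) := by
  have hV := V_pos z
  have hl2 : 0 < Real.log 2 := Real.log_pos (by norm_num)
  have hl1 : Real.log 2 ≤ 1 := by
    have := Real.log_two_lt_d9
    linarith
  have eR := tendsto_natCast_atTop_atTop (R := ℝ)
  have hlog : Tendsto (fun n : ℕ => Real.log n) atTop atTop := Real.tendsto_log_atTop.comp eR
  set D : ℝ := Real.exp ((primorial z + 1) / V z) with hD
  have hD0 : 0 < D := Real.exp_pos _
  refine ⟨D * Real.exp 2 * (2 + 4 / V z), by positivity, ?_⟩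
  have e1 : ∀ᶠ x : ℝ in atTop, Real.log x ^ 2 + 1 ≤ x := by
    have h1 : Tendsto (fun x : ℝ => (Real.log x ^ 2 + 1) / x) atTop (𝓝 0) := by
      have h2 : ∀ k : ℕ, Tendsto (fun x : ℝ => Real.log x ^ k / x) atTop (𝓝 0) := by
        intro k
        have := (Real.isLittleO_pow_log_id_atTop (n := k)).tendsto_div_nhds_zero
        simpa using this
      have h3 := (h2 2).add (h2 0)
      simp only [add_zero] at h3
      refine h3.congr fun x => ?_
      ring
    filter_upwards [h1.eventually_le_const (show (0 : ℝ) < 1 by norm_num), eventually_gt_atTop 0] with x h2 h3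
    rwa [div_le_one h3] at h2
  have e2 : ∀ᶠ x : ℝ in atTop, Real.log x ^ 2 ≤ x := by
    filter_upwards [e1] with x h
    linarith
  filter_upwards [hlog.eventually_ge_atTop 1, hlog.eventually_ge_atTop (1 / V z), eR.eventually e1, eventually_ge_atTop 1]
    with N h1 h2 h3 h5
  have hN1 : (1 : ℝ) ≤ N := by exact_mod_cast h5
  set L := Real.log N with hL
  have hL0 : 0 < L := by linarith
  have hexpL : Real.exp L = N := by rw [hL, Real.exp_log (by linarith)]
  set h := hU ε N with hh
  have hlL : 0 ≤ Real.log L := Real.log_nonneg h1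
  have hge : L ^ 2 - (1 - ε) * L * Real.log L ≤ h := Nat.le_ceil _
  have hlLL : Real.log L ≤ L := by
    have := Real.log_le_sub_one_of_pos hL0
    linarith
  have hle : (h : ℝ) ≤ L ^ 2 + 1 := by
    have h6 : 0 ≤ L ^ 2 - (1 - ε) * L * Real.log L := by
      have h7 : (1 - ε) * (L * Real.log L) ≤ 1 * (L * Real.log L) := mul_le_mul_of_nonneg_right (by linarith) (by positivity)
      have h8 : L * Real.log L ≤ L * L := mul_le_mul_of_nonneg_left hlLL hL0.le
      nlinarith
    have h7 : (h : ℝ) < L ^ 2 - (1 - ε) * L * Real.log L + 1 := Nat.ceil_lt_add_one h6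
    have h8 : 0 ≤ (1 - ε) * L * Real.log L := mul_nonneg (mul_nonneg (by linarith) hL0.le) hlL
    linarith
  have hhN : h ≤ N := by exact_mod_cast hle.trans h3
  have hM : Real.log ((2 * N : ℕ) : ℝ) = L + Real.log 2 := by
    push_cast
    rw [Real.log_mul (by norm_num) (by linarith), hL]
    ring
  have hVM : 1 ≤ V z * Real.log ((2 * N : ℕ) : ℝ) := by
    rw [hM]
    rw [div_le_iff₀ hV] at h2
    nlinarith
  -- each term
  have hterm : ∀ n ∈ range (N + 1), fP z n h ≤ keepProb (fun _ => z) n * (D * (Real.exp 2 * (L ^ (1 - ε) / N))) := by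
    intro n hn
    rw [mem_range] at hn
    unfold fP
    apply mul_le_mul_of_nonneg_left _ (keep_nonneg _ _)
    refine (W_le z n h N (by omega) hVM).trans ?_
    apply mul_le_mul_of_nonneg_left _ hD0.le
    rw [hM]
    have h6 : h / L - 2 ≤ h / (L + Real.log 2) := by
      rw [div_sub' hL0.ne', div_le_div_iff₀ hL0 (by positivity)]
      have h7 : (h : ℝ) * Real.log 2 ≤ h * 1 := mul_le_mul_of_nonneg_left hl1 (Nat.cast_nonneg _)
      nlinarith
    have h8 : L - (1 - ε) * Real.log L ≤ h / L := by
      rw [le_div_iff₀ hL0]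
      calc (L - (1 - ε) * Real.log L) * L = L ^ 2 - (1 - ε) * L * Real.log L := by ring
        _ ≤ h := hge
    calc Real.exp (-(h / (L + Real.log 2))) ≤ Real.exp (2 - L + (1 - ε) * Real.log L) := by
          apply Real.exp_le_exp.2
          linarith
      _ = Real.exp 2 * (L ^ (1 - ε) / N) := by
          rw [Real.exp_add, Real.exp_sub, hexpL, Real.rpow_def_of_pos hL0, mul_comm (Real.log L)]
          ring
  have hsum := sum_kp_all z N hL0 h5
  have hsq : √N ≤ N / L := by
    rw [le_div_iff₀ hL0]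
    have h9 : L ≤ √N := by
      apply Real.le_sqrt_of_sq_le
      linarith
    calc √N * L ≤ √N * √N := mul_le_mul_of_nonneg_left h9 (Real.sqrt_nonneg _)
      _ = N := Real.mul_self_sqrt (by linarith)
  have hone : 1 ≤ N / L := by
    rw [le_div_iff₀ hL0]
    nlinarith
  have htot : ∑ n ∈ range (N + 1), keepProb (fun _ => z) n ≤ (2 + 4 / V z) * (N / L) := by
    refine hsum.trans ?_
    have h10 : ((N : ℝ) + 1) * (2 / (V z * L)) ≤ 4 / V z * (N / L) := by
      rw [mul_div_assoc', div_mul_div_comm, div_le_div_iff_of_pos_right (by positivity)]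
      linarith
    linarith
  calc ∑ n ∈ range (N + 1), fP z n h ≤ ∑ n ∈ range (N + 1), keepProb (fun _ => z) n * (D * (Real.exp 2 * (L ^ (1 - ε) / N))) :=
        Finset.sum_le_sum hterm
    _ = (∑ n ∈ range (N + 1), keepProb (fun _ => z) n) * (D * (Real.exp 2 * (L ^ (1 - ε) / N))) := by rw [Finset.sum_mul]
    _ ≤ (2 + 4 / V z) * (N / L) * (D * (Real.exp 2 * (L ^ (1 - ε) / N))) := by
        apply mul_le_mul_of_nonneg_right htot (by positivity)
    _ = D * Real.exp 2 * (2 + 4 / V z) * L ^ (-ε) := by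
        have h11 : L ^ (1 - ε) = L * L ^ (-ε) := by
          rw [sub_eq_add_neg, Real.rpow_add hL0, Real.rpow_one]
        rw [h11]
        field_simp

end Pool.Agent.Q46.CM
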