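import Mathlib
import Pool.Agent.Q46.CM.Osc2

/-! Oscillation of the largest gap in the random model with constant level: every block has long gaps (helper46). -/

set_option autoImplicit false

namespace Pool.Agent.Q46.CM

open Finset Filter Topology MeasureTheory ProbabilityTheory Pool.Agent.H318R2.Cr
open scoped ENNReal

/-- the length for the lower side -/
noncomputable def hB (δ : ℝ) (j : ℕ) : ℕ :=
  ⌈(j * Real.log 2) ^ 2 - (1 + δ) * (j * Real.log 2) * Real.log (j * Real.log 2)⌉₊

/-- the expected number of long gaps in a piece of the block -/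
theorem piece_sum (z : ℕ) (δ : ℝ) (hδ : 0 < δ) : ∃ c : ℝ, 0 < c ∧ ∀ᶠ j : ℕ in atTop, ∀ a M : ℕ, 2 ^ j ≤ a →
    a + M ≤ 2 ^ (j + 1) →
    (M * V z - primorial z) * (c * (Real.exp (-(j * Real.log 2)) * (j * Real.log 2) ^ δ)) ≤
      ∑ n ∈ Ico a (a + M), fP z n (hB δ j) := by
  classical
  have hV := V_pos z
  have hl2 : 0 < Real.log 2 := Real.log_pos (by norm_num)
  have hl1 : Real.log 2 ≤ 1 := by
    have := Real.log_two_lt_d9
    linarith
  have eR := tendsto_natCast_atTop_atTop (R := ℝ)
  have hLT : Tendsto (fun j : ℕ => (j : ℝ) * Real.log 2) atTop atTop := eR.atTop_mul_const hl2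
  refine ⟨Real.exp (-(1 + C0 z)) / (2 * V z), by positivity, ?_⟩
  have e1 : ∀ᶠ x : ℝ in atTop, (1 + δ) * Real.log x ≤ x := by
    have := (Real.isLittleO_log_id_atTop.def (show 0 < 1 / (1 + δ) by positivity))
    filter_upwards [this, eventually_ge_atTop (1 : ℝ)] with x hx hx1
    rw [id, Real.norm_of_nonneg (Real.log_nonneg hx1), Real.norm_of_nonneg (by linarith), one_div, inv_mul_eq_div,
      le_div_iff₀ (by positivity)] at hx
    linarith
  filter_upwards [hLT.eventually_ge_atTop 1, hLT.eventually_ge_atTop (2 / V z), hLT.eventually e1, eventually_ge_atTop 1]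
    with j h1 h2 h3 h4 a M ha haM
  set L : ℝ := (j : ℝ) * Real.log 2 with hL
  have hL0 : 0 < L := by linarith
  have hlL : 0 ≤ Real.log L := Real.log_nonneg h1
  set h := hB δ j with hh
  have hin : 0 ≤ L ^ 2 - (1 + δ) * L * Real.log L := by
    have : (1 + δ) * Real.log L * L ≤ L * L := mul_le_mul_of_nonneg_right h3 hL0.le
    nlinarith
  have hle : (h : ℝ) ≤ L ^ 2 - (1 + δ) * L * Real.log L + 1 := (Nat.ceil_lt_add_one hin).le
  have hhL : (h : ℝ) / L ≤ L - (1 + δ) * Real.log L + 1 := by
    rw [div_le_iff₀ hL0]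
    nlinarith
  set val : ℝ := Real.exp (-(1 + C0 z)) / (2 * V z) * (Real.exp (-L) * L ^ δ) with hval
  have hval0 : 0 < val := by positivity
  have hterm : ∀ n ∈ Ico a (a + M), (if Rgh z n then val else 0) ≤ fP z n h := by
    intro n hn
    rw [mem_Ico] at hn
    have hn1 : 2 ^ j ≤ n := ha.trans hn.1
    have hn2 : n < 2 ^ (j + 1) := by omega
    have hn0 : (0 : ℝ) < n := by
      have : 0 < 2 ^ j := by positivity
      exact_mod_cast (by omega : 0 < n)
    have hlog1 : L ≤ Real.log n := by
      have h5 : Real.log ((2:ℝ) ^ j) ≤ Real.log n := by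
        apply Real.log_le_log (by positivity)
        exact_mod_cast hn1
      rwa [Real.log_pow] at h5
    have hlog2 : Real.log n ≤ 2 * L := by
      have h5 : Real.log n ≤ Real.log ((2:ℝ) ^ (j + 1)) := by
        apply Real.log_le_log hn0
        exact_mod_cast hn2.le
      rw [Real.log_pow] at h5
      push_cast at h5
      have hj : (1 : ℝ) ≤ j := by exact_mod_cast h4
      have : ((j : ℝ) + 1) * Real.log 2 ≤ 2 * L := by rw [hL]; nlinarith
      linarith
    split_ifs with hr
    · have hVl : 2 ≤ V z * Real.log n := by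
        rw [div_le_iff₀ hV] at h2
        have : V z * L ≤ V z * Real.log n := mul_le_mul_of_nonneg_left hlog1 hV.le
        linarith
      have hh2 : (h : ℝ) ≤ Real.log n ^ 2 + 1 := by
        have h6 : L ^ 2 ≤ Real.log n ^ 2 := pow_le_pow_left₀ hL0.le hlog1 2
        have h7 : 0 ≤ (1 + δ) * L * Real.log L := by positivity
        linarith
      refine le_trans ?_ (fP_ge2 z n h hr hVl (h1.trans hlog1) hh2)
      have hln0 : 0 < Real.log n := by linarith
      have h8 : (h : ℝ) / Real.log n ≤ h / L := div_le_div_of_nonneg_left (Nat.cast_nonneg _) hL0 hlog1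
      have h9 : Real.exp (-(1 + C0 z)) * (Real.exp (-L) * L ^ (1 + δ)) ≤ Real.exp (-(h / Real.log n + C0 z)) := by
        rw [Real.rpow_def_of_pos hL0, ← Real.exp_add, ← Real.exp_add]
        apply Real.exp_le_exp.2
        linarith
      rw [le_div_iff₀ (by positivity)]
      refine le_trans ?_ h9
      rw [Real.rpow_add hL0, Real.rpow_one, hval]
      have h10 : V z * Real.log n ≤ V z * (2 * L) := mul_le_mul_of_nonneg_left hlog2 hV.le
      calc Real.exp (-(1 + C0 z)) / (2 * V z) * (Real.exp (-L) * L ^ δ) * (V z * Real.log n)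
          ≤ Real.exp (-(1 + C0 z)) / (2 * V z) * (Real.exp (-L) * L ^ δ) * (V z * (2 * L)) :=
            mul_le_mul_of_nonneg_left h10 (by positivity)
        _ = Real.exp (-(1 + C0 z)) * (Real.exp (-L) * (L * L ^ δ)) := by field_simp
    · exact mul_nonneg (keep_nonneg _ _) (Finset.prod_nonneg fun m _ => by linarith [keep_le_one (fun _ => z) m])
  refine le_trans ?_ (Finset.sum_le_sum hterm)
  rw [Finset.sum_ite, Finset.sum_const_zero, add_zero, Finset.sum_const, nsmul_eq_mul]
  apply mul_le_mul_of_nonneg_right _ hval0.le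
  have ha1 : 1 ≤ a := le_trans (Nat.one_le_two_pow) ha
  have h11 := (cnt_bounds z (a - 1) M).1
  refine h11.trans (le_of_eq ?_)
  unfold cnt
  congr 2
  ext m
  simp only [mem_filter, mem_Ioc, mem_Ico]
  constructor
  · rintro ⟨⟨k1, k2⟩, k3⟩; exact ⟨⟨by omega, by omega⟩, k3⟩
  · rintro ⟨⟨k1, k2⟩, k3⟩; exact ⟨⟨by omega, by omega⟩, k3⟩

variable {Ω : Type*} [MeasurableSpace Ω] {μ : Measure Ω} {A : ℕ → Set Ω}

theorem EN_sg {I : Set ℕ} {n h : ℕ} (hI : ∀ m, n ≤ m → m ≤ n + h → m ∈ I) : MeasurableSet[sg A I] (EN A n h) := by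
  apply MeasurableSet.inter (meas_sg (hI n le_rfl (by omega)))
  apply Finset.measurableSet_biInter
  intro m hm
  rw [mem_Ioc] at hm
  exact MeasurableSet.compl (meas_sg (hI m (by omega) (by omega)))

/-- independent pieces -/
theorem pieces {z : ℕ → ℕ} (hA : IsSievedModel μ z A) (b M h K : ℕ)
    (hs : ∀ i < K, 2 ≤ ∑ n ∈ Ico (b + i * (M + h + 1)) (b + i * (M + h + 1) + M), μ.real (EN A n h)) :
    μ (⋂ i ∈ range K, ⋂ n ∈ Ico (b + i * (M + h + 1)) (b + i * (M + h + 1) + M), (EN A n h)ᶜ) ≤
      ENNReal.ofReal ((1 / 2) ^ K) := by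
  have : IsProbabilityMeasure μ := hA.indep.isProbabilityMeasure
  set a : ℕ → ℕ := fun i => b + i * (M + h + 1) with ha
  have hstep : ∀ i k : ℕ, i < k → a i + M + h < a k := by
    intro i k hik
    simp only [ha]
    have : (i + 1) * (M + h + 1) ≤ k * (M + h + 1) := Nat.mul_le_mul_right _ hik
    have h2 : (i + 1) * (M + h + 1) = i * (M + h + 1) + (M + h + 1) := by ring
    omega
  rw [group_prod hA.measurable hA.indep (fun i => Set.Ico (a i) (a i + M + h))
    (fun i => ⋂ n ∈ Ico (a i) (a i + M), (EN A n h)ᶜ) ?_ (range K) ?_]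
  · have h1 : ∀ i ∈ range K, μ (⋂ n ∈ Ico (a i) (a i + M), (EN A n h)ᶜ) ≤ ENNReal.ofReal (1 / 2) := by
      intro i hi
      rw [mem_range] at hi
      have h2 := hs i hi
      have h3 := cheb (μ := μ) (fun n => EN A n h)
        (fun n => EN_meas hA.measurable hA.indep (keepProb z) (keep_nonneg z) (keep_le_one z) hA.prob n h)
        (Ico (a i) (a i + M)) (by
          intro n _ k _ hnk
          rcases lt_or_gt_of_ne hnk with h5 | h5
          · exact EN_neg hA.measurable hA.indep (keepProb z) (keep_nonneg z) (keep_le_one z) hA.prob h5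
          · rw [Set.inter_comm, mul_comm]
            exact EN_neg hA.measurable hA.indep (keepProb z) (keep_nonneg z) (keep_le_one z) hA.prob h5)
        (by linarith)
      rw [← ofReal_measureReal (μ := μ)]
      apply ENNReal.ofReal_le_ofReal
      refine h3.trans ?_
      exact one_div_le_one_div_of_le (by norm_num) h2
    calc ∏ i ∈ range K, μ (⋂ n ∈ Ico (a i) (a i + M), (EN A n h)ᶜ) ≤ ∏ i ∈ range K, ENNReal.ofReal (1 / 2) :=
          Finset.prod_le_prod' h1
      _ = ENNReal.ofReal ((1 / 2) ^ K) := by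
          rw [Finset.prod_const, card_range, ENNReal.ofReal_pow (by norm_num)]
  · intro i
    apply Finset.measurableSet_biInter
    intro n hn
    rw [mem_Ico] at hn
    apply MeasurableSet.compl
    apply EN_sg
    intro m h1 h2
    exact ⟨by omega, by omega⟩
  · intro i _ k _ hik
    rw [Set.disjoint_left]
    intro m h1 h2
    rw [Set.mem_Ico] at h1 h2
    rcases lt_or_gt_of_ne hik with h3 | h3
    · have := hstep i k h3; omega
    · have := hstep k i h3; omega

end Pool.Agent.Q46.CM
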