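import Mathlib
import Pool.Agent.Q46.CM.Osc3

/-! Oscillation of the largest gap in the random model with constant level: almost sure statements (helper46). -/

set_option autoImplicit false

namespace Pool.Agent.Q46.CM

open Finset Filter Topology MeasureTheory ProbabilityTheory Pool.Agent.H318R2.Cr
open scoped ENNReal

theorem ev_rpow_exp (C s : ℝ) (hC : 0 < C) : ∀ᶠ x : ℝ in atTop, C * x ^ s ≤ Real.exp x := by
  have h1 := (isLittleO_rpow_exp_pos_mul_atTop s one_pos).def (c := 1 / C) (by positivity)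
  filter_upwards [h1, eventually_ge_atTop (0 : ℝ)] with x h3 hx
  have h5 : 0 ≤ x ^ s := Real.rpow_nonneg hx s
  rw [Real.norm_of_nonneg h5, Real.norm_of_nonneg (Real.exp_pos _).le, one_mul] at h3
  calc C * x ^ s ≤ C * (1 / C * Real.exp x) := mul_le_mul_of_nonneg_left h3 hC.le
    _ = Real.exp x := by field_simp

theorem ev_log_rpow (r : ℝ) (hr : 0 < r) (η : ℝ) (hη : 0 < η) : ∀ᶠ x : ℝ in atTop, Real.log x ≤ η * x ^ r := by
  have h1 := (isLittleO_log_rpow_atTop hr).def hη
  filter_upwards [h1, eventually_ge_atTop (1 : ℝ)] with x h3 hx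
  rwa [Real.norm_of_nonneg (Real.log_nonneg hx), Real.norm_of_nonneg (Real.rpow_nonneg (by linarith) r)] at h3

theorem fP_nonneg (z n h : ℕ) : 0 ≤ fP z n h :=
  mul_nonneg (keep_nonneg _ _) (Finset.prod_nonneg fun m _ => by linarith [keep_le_one (fun _ => z) m])

variable {Ω : Type*} [MeasurableSpace Ω] {μ : Measure Ω} {A : ℕ → Set Ω}

theorem block_gap {z : ℕ} (hA : IsSievedModel μ (fun _ => z) A) (δ : ℝ) (hδ : 0 < δ) :
    ∀ᵐ ω ∂μ, ∃ J : ℕ, ∀ j ≥ J, ∃ n : ℕ, 2 ^ j ≤ n ∧ n < 2 ^ (j + 1) ∧ ω ∈ EN A n (hB δ j) := by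
  have hV := V_pos z
  have hV1 := V_le_one z
  have hl2 : 0 < Real.log 2 := Real.log_pos (by norm_num)
  have hl1 : Real.log 2 ≤ 1 := by
    have := Real.log_two_lt_d9
    linarith
  set l := Real.log 2 with hl
  have eR := tendsto_natCast_atTop_atTop (R := ℝ)
  have hLT : Tendsto (fun j : ℕ => (j : ℝ) * l) atTop atTop := eR.atTop_mul_const hl2
  obtain ⟨c, hc, hsum⟩ := piece_sum z δ hδ
  set r : ℝ := δ / 2 with hr
  have hr0 : 0 < r := by positivity
  have hpr : Tendsto (fun x : ℝ => x ^ r) atTop atTop := tendsto_rpow_atTop hr0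
  set K : ℕ → ℕ := fun j => ⌊((j : ℝ) * l) ^ r⌋₊ with hK
  set g : ℕ → ℝ := fun j => 1 / ((j : ℝ)) ^ (2 : ℝ) with hg
  have hgs : Summable g := Real.summable_one_div_nat_rpow.2 (by norm_num)
  have hbd : ∀ᶠ j : ℕ in atTop, μ {ω | ∀ n, 2 ^ j ≤ n → n < 2 ^ (j + 1) → ω ∉ EN A n (hB δ j)} ≤
      ENNReal.ofReal (g j) := by
    have e0 : ∀ᶠ x : ℝ in atTop, (1 + δ) * Real.log x ≤ x := by
      have := (Real.isLittleO_log_id_atTop.def (show 0 < 1 / (1 + δ) by positivity))
      filter_upwards [this, eventually_ge_atTop (1 : ℝ)] with x hx hx1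
      rw [id, Real.norm_of_nonneg (Real.log_nonneg hx1), Real.norm_of_nonneg (by linarith), one_div, inv_mul_eq_div,
        le_div_iff₀ (by positivity)] at hx
      linarith
    filter_upwards [hsum, hLT.eventually_ge_atTop 1, hLT.eventually (ev_rpow_exp 6 (2 + r) (by norm_num)),
      hLT.eventually (ev_rpow_exp (4 * (1 + primorial z) / V z) r (by positivity)),
      (hpr.comp hLT).eventually_ge_atTop (8 / (V z * c)),
      hLT.eventually (ev_log_rpow r hr0 (l / 4) (by positivity)),
      (hpr.comp hLT).eventually_ge_atTop (2 * (l - 2 * Real.log l) / l), (hpr.comp hLT).eventually_ge_atTop 1,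
      eventually_ge_atTop 1, hLT.eventually e0] with j k0 k1 k2 k3 k4 k5 k6 k7 k8 k9
    simp only [Function.comp] at k4 k6 k7
    set L : ℝ := (j : ℝ) * l with hL
    have hL0 : 0 < L := by linarith
    have hj0 : (0 : ℝ) < j := by exact_mod_cast k8
    have hexp : Real.exp L = 2 ^ j := by
      rw [hL, mul_comm, Real.exp_mul, hl, Real.exp_log (by norm_num), Real.rpow_natCast]
    have hlL : 0 ≤ Real.log L := Real.log_nonneg k1
    set h := hB δ j with hh
    have hin : 0 ≤ L ^ 2 - (1 + δ) * L * Real.log L := by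
      have : (1 + δ) * Real.log L * L ≤ L * L := mul_le_mul_of_nonneg_right k9 hL0.le
      nlinarith
    have hle : (h : ℝ) ≤ L ^ 2 + 1 := by
      have h1 : (h : ℝ) ≤ L ^ 2 - (1 + δ) * L * Real.log L + 1 := (Nat.ceil_lt_add_one hin).le
      have h2 : 0 ≤ (1 + δ) * L * Real.log L := by positivity
      linarith
    set Kj : ℕ := K j with hKj
    have hKle : (Kj : ℝ) ≤ L ^ r := Nat.floor_le (Real.rpow_nonneg hL0.le r)
    have hKge : L ^ r < Kj + 1 := Nat.lt_floor_add_one _
    have hK1 : 1 ≤ Kj := Nat.le_floor (by rw [Nat.cast_one]; exact k7)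
    have hK1r : (1 : ℝ) ≤ Kj := by exact_mod_cast hK1
    set M : ℕ := 2 ^ j / (2 * Kj) with hM
    have hM1 : M * (2 * Kj) ≤ 2 ^ j := Nat.div_mul_le_self _ _
    have hM2 : 2 ^ j < (M + 1) * (2 * Kj) := by
      have h1 := Nat.div_add_mod (2 ^ j) (2 * Kj)
      have h2 := Nat.mod_lt (2 ^ j) (show 0 < 2 * Kj by omega)
      rw [← hM] at h1
      have h3 : (M + 1) * (2 * Kj) = 2 * Kj * M + 2 * Kj := by ring
      omega
    have hM1r : (M : ℝ) * (2 * Kj) ≤ Real.exp L := by rw [hexp]; exact_mod_cast hM1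
    have hM2r : Real.exp L < ((M : ℝ) + 1) * (2 * Kj) := by rw [hexp]; exact_mod_cast hM2
    -- the pieces fit
    have hfit : Kj * (M + h + 1) ≤ 2 ^ j := by
      have h1 : (Kj : ℝ) * (M + h + 1) ≤ Real.exp L := by
        have h2 : (Kj : ℝ) * (h + 1) ≤ Real.exp L / 2 := by
          have h3 : (h : ℝ) + 1 ≤ 3 * L ^ 2 := by nlinarith
          have h4 : (Kj : ℝ) * (h + 1) ≤ L ^ r * (3 * L ^ 2) := mul_le_mul hKle h3 (by positivity) (by positivity)
          have h5 : L ^ (2 + r) = L ^ 2 * L ^ r := by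
            rw [Real.rpow_add hL0, Real.rpow_two]
          rw [h5] at k2
          linarith
        linarith
      rw [hexp] at h1
      exact_mod_cast h1
    have hS : ∀ i < Kj, 2 ≤ ∑ n ∈ Ico (2 ^ j + i * (M + h + 1)) (2 ^ j + i * (M + h + 1) + M), μ.real (EN A n h) := by
      intro i hi
      have hiK : i * (M + h + 1) + (M + h + 1) ≤ 2 ^ j := by
        have : (i + 1) * (M + h + 1) ≤ Kj * (M + h + 1) := Nat.mul_le_mul_right _ hi
        have h2 : (i + 1) * (M + h + 1) = i * (M + h + 1) + (M + h + 1) := by ring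
        omega
      have hpow : 2 ^ (j + 1) = 2 ^ j + 2 ^ j := by rw [pow_succ]; ring
      have h1 := k0 (2 ^ j + i * (M + h + 1)) M (by omega) (by omega)
      have h2 : ∀ n, μ.real (EN A n h) = fP z n h := fun n =>
        EN_real hA.measurable hA.indep (keepProb (fun _ => z)) (keep_nonneg _) (keep_le_one _) hA.prob n h
      simp only [h2]
      refine le_trans ?_ h1
      have hexp0 : 0 < Real.exp L := Real.exp_pos _
      have h3 : V z * Real.exp L / (4 * Kj) ≤ M * V z - primorial z := by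
        have h4 : Real.exp L / (2 * Kj) ≤ M + 1 := by
          rw [div_le_iff₀ (by positivity)]
          exact hM2r.le
        have h5 : V z * (Real.exp L / (2 * Kj)) ≤ V z * (M + 1) := mul_le_mul_of_nonneg_left h4 hV.le
        have h6 : (1 + (primorial z : ℝ)) ≤ V z * Real.exp L / (4 * Kj) := by
          rw [le_div_iff₀ (by positivity)]
          have h7 : 4 * (1 + (primorial z : ℝ)) / V z * Kj ≤ Real.exp L :=
            (mul_le_mul_of_nonneg_left hKle (by positivity)).trans k3
          rw [div_mul_eq_mul_div, div_le_iff₀ hV] at h7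
          linarith
        have h8 : V z * (Real.exp L / (2 * Kj)) = V z * Real.exp L / (4 * Kj) + V z * Real.exp L / (4 * Kj) := by
          field_simp
          ring
        rw [h8] at h5
        linarith
      calc (2 : ℝ) ≤ V z * c * L ^ r / 4 := by
            rw [div_le_iff₀ (by positivity)] at k4
            linarith
        _ ≤ V z * c * L ^ δ / (4 * Kj) := by
            rw [div_le_div_iff₀ (by norm_num) (by positivity)]
            have h9 : L ^ δ = L ^ r * L ^ r := by
              rw [← Real.rpow_add hL0]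
              congr 1
              rw [hr]; ring
            rw [h9]
            have h10 : V z * c * L ^ r * (4 * Kj) ≤ V z * c * L ^ r * (4 * L ^ r) := by
              apply mul_le_mul_of_nonneg_left _ (by positivity)
              linarith
            linarith
        _ = V z * Real.exp L / (4 * Kj) * (c * (Real.exp (-L) * L ^ δ)) := by
            rw [Real.exp_neg]
            field_simp
        _ ≤ (M * V z - primorial z) * (c * (Real.exp (-L) * L ^ δ)) :=
            mul_le_mul_of_nonneg_right h3 (by positivity)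
    have hP := pieces hA (2 ^ j) M h Kj hS
    refine (measure_mono ?_).trans (hP.trans (ENNReal.ofReal_le_ofReal ?_))
    · intro ω hω
      simp only [Set.mem_iInter, Set.mem_compl_iff]
      intro i hi n hn
      rw [mem_range] at hi
      rw [mem_Ico] at hn
      have hiK : i * (M + h + 1) + (M + h + 1) ≤ 2 ^ j := by
        have : (i + 1) * (M + h + 1) ≤ Kj * (M + h + 1) := Nat.mul_le_mul_right _ hi
        have h2 : (i + 1) * (M + h + 1) = i * (M + h + 1) + (M + h + 1) := by ring
        omega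
      have hpow : 2 ^ (j + 1) = 2 ^ j + 2 ^ j := by rw [pow_succ]; ring
      exact hω n (by omega) (by omega)
    · -- `(1/2)^K ≤ 1/j²`
      have h1 : ((1 : ℝ) / 2) ^ Kj = Real.exp (-(l * Kj)) := by
        rw [one_div, inv_pow, Real.exp_neg, Real.exp_mul, hl, Real.exp_log (by norm_num), Real.rpow_natCast]
      rw [h1, hg]
      simp only
      rw [one_div, ← Real.rpow_neg hj0.le, Real.rpow_def_of_pos hj0]
      apply Real.exp_le_exp.2
      have h2 : Real.log j = Real.log L - Real.log l := by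
        rw [hL, Real.log_mul hj0.ne' hl2.ne']; ring
      rw [h2]
      have h3 : l * (L ^ r - 1) ≤ l * Kj := mul_le_mul_of_nonneg_left (by linarith) hl2.le
      rw [div_le_iff₀ hl2] at k6
      linarith
  filter_upwards [bcS _ g hgs (fun j => by positivity) hbd] with ω hω
  obtain ⟨J, hJ⟩ := hω
  refine ⟨J, fun j hj => ?_⟩
  have h1 := hJ j hj
  simp only [not_forall, not_not] at h1
  obtain ⟨n, h2, h3, h4⟩ := h1
  exact ⟨n, h2, h3, h4⟩

theorem upto_rare {z : ℕ} (hA : IsSievedModel μ (fun _ => z) A) (ε : ℝ) (hε : 0 < ε) (hε1 : ε ≤ 1) :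
    ∀ᵐ ω ∂μ, ∀ N₀ : ℕ, ∃ N ≥ N₀, ∀ n ≤ N, ω ∉ EN A n (hU ε N) := by
  have hl2 : 0 < Real.log 2 := Real.log_pos (by norm_num)
  obtain ⟨C, hC, hb⟩ := upto_bound z ε hε hε1
  set N : ℕ → ℕ := fun k => 2 ^ (2 ^ k) with hN
  have hNT : Tendsto N atTop atTop := by
    have h1 : Tendsto (fun n : ℕ => 2 ^ n) atTop atTop := tendsto_pow_atTop_atTop_of_one_lt (by norm_num)
    exact h1.comp h1
  set g : ℕ → ℝ := fun k => C * Real.log 2 ^ (-ε) * ((2 : ℝ) ^ (-ε)) ^ k with hg
  have hgs : Summable g := by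
    apply Summable.mul_left
    apply summable_geometric_of_lt_one (by positivity)
    exact Real.rpow_lt_one_of_one_lt_of_neg (by norm_num) (by linarith)
  have hbd : ∀ᶠ k : ℕ in atTop, μ {ω | ∃ n ≤ N k, ω ∈ EN A n (hU ε (N k))} ≤ ENNReal.ofReal (g k) := by
    filter_upwards [hNT.eventually hb] with k hk
    have h0 : IsProbabilityMeasure μ := hA.indep.isProbabilityMeasure
    have hsub : {ω | ∃ n ≤ N k, ω ∈ EN A n (hU ε (N k))} ⊆ ⋃ n ∈ range (N k + 1), EN A n (hU ε (N k)) := by
      rintro ω ⟨n, h1, h2⟩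
      simp only [Set.mem_iUnion]
      exact ⟨n, mem_range.2 (by omega), h2⟩
    refine (measure_mono hsub).trans ((measure_biUnion_finset_le _ _).trans ?_)
    have h2 : ∀ n, μ (EN A n (hU ε (N k))) = ENNReal.ofReal (fP z n (hU ε (N k))) := by
      intro n
      have h3 := EN_real hA.measurable hA.indep (keepProb (fun _ => z)) (keep_nonneg _) (keep_le_one _) hA.prob n (hU ε (N k))
      unfold fP
      rw [← h3, ofReal_measureReal]
    simp only [h2]
    rw [← ENNReal.ofReal_sum_of_nonneg (fun n _ => fP_nonneg z n _)]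
    apply ENNReal.ofReal_le_ofReal
    refine hk.trans (le_of_eq ?_)
    have h4 : Real.log (N k : ℕ) = 2 ^ k * Real.log 2 := by
      simp only [hN]
      push_cast
      rw [Real.log_pow]
      push_cast
      ring
    rw [h4, hg]
    simp only
    rw [Real.mul_rpow (by positivity) hl2.le, ← Real.rpow_natCast (2 : ℝ) k, ← Real.rpow_mul (by norm_num),
      ← Real.rpow_natCast ((2 : ℝ) ^ (-ε)) k, ← Real.rpow_mul (by norm_num)]
    rw [show (k : ℝ) * -ε = -ε * k by ring]
    ring
  filter_upwards [bcS _ g hgs (fun k => by positivity) hbd] with ω hω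
  obtain ⟨J, hJ⟩ := hω
  intro N₀
  obtain ⟨J', hJ'⟩ := eventually_atTop.1 (hNT.eventually_ge_atTop N₀)
  refine ⟨N (max J J'), hJ' _ (le_max_right _ _), fun n hn hE => ?_⟩
  exact hJ _ (le_max_left _ _) ⟨n, hn, hE⟩

end Pool.Agent.Q46.CM
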