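import Mathlib
import Pool.Agent.Q46.CM.Osc4

/-! Strong law for events with nonpositive correlations (helper46). -/

set_option autoImplicit false

namespace Pool.Agent.Q46.CM

open Finset Filter Topology MeasureTheory ProbabilityTheory
open scoped ENNReal

section
variable {Ω : Type*} [MeasurableSpace Ω] {μ : Measure Ω} [IsProbabilityMeasure μ]

/-- the number of events -/
noncomputable def SN (E : ℕ → Set Ω) (N : ℕ) (ω : Ω) : ℝ := ∑ n ∈ range N, (E n).indicator 1 ω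

theorem second (E : ℕ → Set Ω) (hE : ∀ n, MeasurableSet (E n)) (I : Finset ℕ)
    (hneg : ∀ n ∈ I, ∀ m ∈ I, n ≠ m → μ.real (E n ∩ E m) ≤ μ.real (E n) * μ.real (E m)) :
    Integrable (fun ω => (∑ n ∈ I, (E n).indicator (1 : Ω → ℝ) ω - ∑ n ∈ I, μ.real (E n)) ^ 2) μ ∧
    ∫ ω, (∑ n ∈ I, (E n).indicator (1 : Ω → ℝ) ω - ∑ n ∈ I, μ.real (E n)) ^ 2 ∂μ ≤ ∑ n ∈ I, μ.real (E n) := by
  classical
  set M := ∑ n ∈ I, μ.real (E n) with hMd
  have hM0 : 0 ≤ M := Finset.sum_nonneg fun n _ => measureReal_nonneg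
  set f : ℕ → Ω → ℝ := fun n => (E n).indicator 1 with hf
  have hint : ∀ n, Integrable (f n) μ := fun n => (integrable_const (1 : ℝ)).indicator (hE n)
  have hmul : ∀ n m, (fun ω => f n ω * f m ω) = (E n ∩ E m).indicator 1 := by
    intro n m
    funext ω
    simp only [hf, Set.indicator_apply, Set.mem_inter_iff, Pi.one_apply]
    by_cases h1 : ω ∈ E n <;> by_cases h2 : ω ∈ E m <;> simp [h1, h2]
  have hint2 : ∀ n m, Integrable (fun ω => f n ω * f m ω) μ := by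
    intro n m
    rw [hmul]
    exact (integrable_const (1 : ℝ)).indicator ((hE n).inter (hE m))
  have hval : ∀ n, ∫ ω, f n ω ∂μ = μ.real (E n) := fun n => integral_indicator_one (hE n)
  have hval2 : ∀ n m, ∫ ω, f n ω * f m ω ∂μ = μ.real (E n ∩ E m) := by
    intro n m
    rw [hmul]
    exact integral_indicator_one ((hE n).inter (hE m))
  have hexp : ∀ ω, (∑ n ∈ I, f n ω - M) ^ 2 = (∑ n ∈ I, ∑ m ∈ I, f n ω * f m ω) - 2 * M * ∑ n ∈ I, f n ω + M ^ 2 := by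
    intro ω
    have : (∑ n ∈ I, f n ω) ^ 2 = ∑ n ∈ I, ∑ m ∈ I, f n ω * f m ω := by
      rw [pow_two, Finset.sum_mul_sum]
    rw [← this]
    ring
  have hi1 : Integrable (fun ω => ∑ n ∈ I, ∑ m ∈ I, f n ω * f m ω) μ :=
    integrable_finsetSum _ fun n _ => integrable_finsetSum _ fun m _ => hint2 n m
  have hi2 : Integrable (fun ω => ∑ n ∈ I, f n ω) μ := integrable_finsetSum _ fun n _ => hint n
  refine ⟨?_, ?_⟩
  · have : (fun ω => (∑ n ∈ I, (E n).indicator (1 : Ω → ℝ) ω - M) ^ 2) =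
        fun ω => (∑ n ∈ I, ∑ m ∈ I, f n ω * f m ω) - 2 * M * ∑ n ∈ I, f n ω + M ^ 2 := funext hexp
    rw [this]
    exact (hi1.sub (hi2.const_mul (2 * M))).add (integrable_const _)
  have h1 : ∫ ω, (∑ n ∈ I, f n ω - M) ^ 2 ∂μ = (∑ n ∈ I, ∑ m ∈ I, μ.real (E n ∩ E m)) - 2 * M * M + M ^ 2 := by
    simp only [hexp]
    have hsub : Integrable (fun ω => (∑ n ∈ I, ∑ m ∈ I, f n ω * f m ω) - 2 * M * ∑ n ∈ I, f n ω) μ :=
      hi1.sub (hi2.const_mul (2 * M))
    have e1 : ∫ ω, ((∑ n ∈ I, ∑ m ∈ I, f n ω * f m ω) - 2 * M * ∑ n ∈ I, f n ω + M ^ 2) ∂μ =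
        ∫ ω, ((∑ n ∈ I, ∑ m ∈ I, f n ω * f m ω) - 2 * M * ∑ n ∈ I, f n ω) ∂μ + ∫ _ω, M ^ 2 ∂μ :=
      integral_add hsub (integrable_const _)
    have e2 : ∫ ω, ((∑ n ∈ I, ∑ m ∈ I, f n ω * f m ω) - 2 * M * ∑ n ∈ I, f n ω) ∂μ =
        ∫ ω, (∑ n ∈ I, ∑ m ∈ I, f n ω * f m ω) ∂μ - ∫ ω, 2 * M * ∑ n ∈ I, f n ω ∂μ :=
      integral_sub hi1 (hi2.const_mul (2 * M))
    rw [e1, e2, integral_const_mul, integral_finsetSum _ (fun n _ => hint n), integral_const]
    rw [integral_finsetSum _ (fun n _ => integrable_finsetSum _ fun m _ => hint2 n m)]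
    simp only [hval]
    have h2 : ∀ n ∈ I, ∫ ω, ∑ m ∈ I, f n ω * f m ω ∂μ = ∑ m ∈ I, μ.real (E n ∩ E m) := by
      intro n _
      rw [integral_finsetSum _ (fun m _ => hint2 n m)]
      exact Finset.sum_congr rfl fun m _ => hval2 n m
    rw [Finset.sum_congr rfl h2]
    simp
    exact Or.inl hMd.symm
  rw [h1]
  have h3 : ∑ n ∈ I, ∑ m ∈ I, μ.real (E n ∩ E m) ≤ M + M ^ 2 := by
    have h4 : ∀ n ∈ I, ∑ m ∈ I, μ.real (E n ∩ E m) ≤ μ.real (E n) + μ.real (E n) * M := by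
      intro n hn
      rw [← Finset.add_sum_erase I _ hn, Set.inter_self, hMd, Finset.mul_sum]
      apply add_le_add le_rfl
      calc ∑ m ∈ I.erase n, μ.real (E n ∩ E m) ≤ ∑ m ∈ I.erase n, μ.real (E n) * μ.real (E m) := by
            apply Finset.sum_le_sum
            intro m hm
            rw [Finset.mem_erase] at hm
            exact hneg n hn m hm.2 (Ne.symm hm.1)
        _ ≤ ∑ m ∈ I, μ.real (E n) * μ.real (E m) := by
            apply Finset.sum_le_sum_of_subset_of_nonneg (Finset.erase_subset _ _)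
            intro m _ _
            positivity
    calc ∑ n ∈ I, ∑ m ∈ I, μ.real (E n ∩ E m) ≤ ∑ n ∈ I, (μ.real (E n) + μ.real (E n) * M) := Finset.sum_le_sum h4
      _ = M + M ^ 2 := by rw [Finset.sum_add_distrib, ← Finset.sum_mul, pow_two]
  nlinarith

theorem devi (E : ℕ → Set Ω) (hE : ∀ n, MeasurableSet (E n))
    (hneg : ∀ n m, n ≠ m → μ.real (E n ∩ E m) ≤ μ.real (E n) * μ.real (E m)) (N : ℕ)
    {ε : ℝ} (hε : 0 < ε) (hM : 0 < ∑ n ∈ range N, μ.real (E n)) :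
    μ {ω | ε * ∑ n ∈ range N, μ.real (E n) ≤ |SN E N ω - ∑ n ∈ range N, μ.real (E n)|} ≤
      ENNReal.ofReal (1 / (ε ^ 2 * ∑ n ∈ range N, μ.real (E n))) := by
  set M := ∑ n ∈ range N, μ.real (E n) with hMd
  obtain ⟨h1, h2⟩ := second (μ := μ) E hE (range N) (fun n _ m _ h => hneg n m h)
  rw [← hMd] at h1 h2
  have h3 := mul_meas_ge_le_integral_of_nonneg (μ := μ) (Eventually.of_forall fun ω => sq_nonneg
    (∑ n ∈ range N, (E n).indicator (1 : Ω → ℝ) ω - M)) h1 ((ε * M) ^ 2)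
  have hsub : {ω | ε * M ≤ |SN E N ω - M|} ⊆
      {ω | (ε * M) ^ 2 ≤ (∑ n ∈ range N, (E n).indicator (1 : Ω → ℝ) ω - M) ^ 2} := by
    intro ω hω
    simp only [Set.mem_ofPred_eq] at hω ⊢
    rw [← sq_abs (∑ n ∈ range N, (E n).indicator (1 : Ω → ℝ) ω - M)]
    exact pow_le_pow_left₀ (by positivity) hω 2
  refine (measure_mono hsub).trans ?_
  rw [← ofReal_measureReal (μ := μ)]
  apply ENNReal.ofReal_le_ofReal
  rw [le_div_iff₀ (by positivity)]
  have h4 : (ε * M) ^ 2 * μ.real {ω | (ε * M) ^ 2 ≤ (∑ n ∈ range N, (E n).indicator (1 : Ω → ℝ) ω - M) ^ 2} ≤ M :=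
    h3.trans h2
  have h5 : M * (μ.real {ω | (ε * M) ^ 2 ≤ (∑ n ∈ range N, (E n).indicator (1 : Ω → ℝ) ω - M) ^ 2} * (ε ^ 2 * M)) ≤ M * 1 := by
    calc _ = (ε * M) ^ 2 * μ.real {ω | (ε * M) ^ 2 ≤ (∑ n ∈ range N, (E n).indicator (1 : Ω → ℝ) ω - M) ^ 2} := by ring
      _ ≤ M := h4
      _ = M * 1 := by ring
  exact le_of_mul_le_mul_left h5 hM

theorem strong_law (E : ℕ → Set Ω) (hE : ∀ n, MeasurableSet (E n))
    (hneg : ∀ n m, n ≠ m → μ.real (E n ∩ E m) ≤ μ.real (E n) * μ.real (E m))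
    (hT : Tendsto (fun N => ∑ n ∈ range N, μ.real (E n)) atTop atTop) :
    ∀ᵐ ω ∂μ, Tendsto (fun N => SN E N ω / ∑ n ∈ range N, μ.real (E n)) atTop (𝓝 1) := by
  classical
  set m : ℕ → ℝ := fun N => ∑ n ∈ range N, μ.real (E n) with hm
  have hmono : Monotone m := fun a b hab =>
    Finset.sum_le_sum_of_subset_of_nonneg (range_subset_range.2 hab) fun _ _ _ => measureReal_nonneg
  have hex : ∀ k : ℕ, ∃ N : ℕ, (k : ℝ) ^ 2 ≤ m N := fun k => (hT.eventually_ge_atTop ((k : ℝ) ^ 2)).exists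
  set Nk : ℕ → ℕ := fun k => Nat.find (hex k) with hNk
  have hN1 : ∀ k : ℕ, (k : ℝ) ^ 2 ≤ m (Nk k) := fun k => Nat.find_spec (hex k)
  have hN2 : ∀ k : ℕ, 1 ≤ k → m (Nk k) ≤ (k : ℝ) ^ 2 + 1 := by
    intro k hk
    have h0 : Nk k ≠ 0 := by
      intro h
      have h1 := hN1 k
      rw [h] at h1
      simp only [hm, range_zero, sum_empty] at h1
      have : (0 : ℝ) < (k : ℝ) ^ 2 := by positivity
      linarith
    obtain ⟨N, hN⟩ := Nat.exists_eq_succ_of_ne_zero h0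
    have h2 : m N < (k : ℝ) ^ 2 := not_le.1 (Nat.find_min (hex k) (by
      show N < Nk k
      omega))
    rw [hN]
    have h3 : m (N + 1) = m N + μ.real (E N) := by simp only [hm, sum_range_succ]
    have h4 : μ.real (E N) ≤ 1 := measureReal_le_one
    show m (N + 1) ≤ _
    linarith
  have hN3 : ∀ (k N : ℕ), (k : ℝ) ^ 2 ≤ m N → Nk k ≤ N := fun k N h => Nat.find_min' (hex k) h
  have hbc : ∀ᵐ ω ∂μ, ∀ i : ℕ, ∃ J : ℕ, ∀ k ≥ J, ω ∉ {ω | 1 / ((i : ℝ) + 1) * m (Nk k) ≤ |SN E (Nk k) ω - m (Nk k)|} := by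
    rw [ae_all_iff]
    intro i
    have hi : (0 : ℝ) < 1 / ((i : ℝ) + 1) := by positivity
    apply bcS _ (fun k : ℕ => (1 / (1 / ((i : ℝ) + 1)) ^ 2) * (1 / (k : ℝ) ^ (2 : ℝ)))
      ((Real.summable_one_div_nat_rpow.2 (by norm_num)).mul_left _) (fun k => by positivity)
    filter_upwards [eventually_ge_atTop 1] with k hk
    have hk0 : (0 : ℝ) < (k : ℝ) ^ 2 := by positivity
    have h1 := hN1 k
    refine (devi E hE hneg (Nk k) hi (by simp only [hm] at h1; linarith)).trans (ENNReal.ofReal_le_ofReal ?_)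
    rw [Real.rpow_two, one_div_mul_one_div]
    apply one_div_le_one_div_of_le (by positivity)
    exact mul_le_mul_of_nonneg_left h1 (by positivity)
  filter_upwards [hbc] with ω hω
  have hSmono : Monotone (fun N => SN E N ω) := fun a b hab => by
    unfold SN
    exact Finset.sum_le_sum_of_subset_of_nonneg (range_subset_range.2 hab) fun n _ _ =>
      Set.indicator_nonneg (fun _ _ => zero_le_one) ω
  rw [Metric.tendsto_atTop]
  intro ε hε
  -- choose a small parameter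
  obtain ⟨i, hi⟩ : ∃ i : ℕ, 1 / ((i : ℝ) + 1) < min (ε / 8) (1 / 8) := exists_nat_one_div_lt (by positivity)
  set η : ℝ := 1 / ((i : ℝ) + 1) with hη
  have hη0 : 0 < η := by positivity
  have hη1 : η < ε / 8 := lt_of_lt_of_le hi (min_le_left _ _)
  have hη2 : η < 1 / 8 := lt_of_lt_of_le hi (min_le_right _ _)
  obtain ⟨J, hJ⟩ := hω i
  have hlim : ∀ᶠ k : ℕ in atTop, ((k : ℝ) + 1) ^ 2 + 1 ≤ (1 + η) * (k : ℝ) ^ 2 := by
    filter_upwards [(tendsto_natCast_atTop_atTop (R := ℝ)).eventually_ge_atTop (4 / η), eventually_ge_atTop 1] with k h1 h2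
    have hk1 : (1 : ℝ) ≤ k := by exact_mod_cast h2
    rw [div_le_iff₀ hη0] at h1
    nlinarith
  obtain ⟨J', hJ'⟩ := eventually_atTop.1 hlim
  obtain ⟨N₀, hN₀⟩ := eventually_atTop.1 (hT.eventually_ge_atTop (((max (max J J') 1 : ℕ) : ℝ) ^ 2))
  refine ⟨N₀, fun N hN => ?_⟩
  have hmN := hN₀ N hN
  change (((max (max J J') 1 : ℕ) : ℝ) ^ 2) ≤ m N at hmN
  change dist (SN E N ω / m N) 1 < ε
  set k : ℕ := ⌊√(m N)⌋₊ with hk
  have hm0 : 0 ≤ m N := le_trans (by positivity) hmN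
  have hk1 : (k : ℝ) ^ 2 ≤ m N := by
    have h1 : (k : ℝ) ≤ √(m N) := Nat.floor_le (Real.sqrt_nonneg _)
    calc (k : ℝ) ^ 2 ≤ √(m N) ^ 2 := pow_le_pow_left₀ (Nat.cast_nonneg _) h1 2
      _ = m N := Real.sq_sqrt hm0
  have hk2 : m N < ((k : ℝ) + 1) ^ 2 := by
    have h1 : √(m N) < k + 1 := Nat.lt_floor_add_one _
    calc m N = √(m N) ^ 2 := (Real.sq_sqrt hm0).symm
      _ < ((k : ℝ) + 1) ^ 2 := pow_lt_pow_left₀ h1 (Real.sqrt_nonneg _) (by norm_num)
  have hkJ : max (max J J') 1 ≤ k := by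
    apply Nat.le_floor
    exact Real.le_sqrt_of_sq_le hmN
  have hkJ1 : J ≤ k := (le_max_left _ _).trans ((le_max_left _ _).trans hkJ)
  have hkJ2 : J' ≤ k := (le_max_right _ _).trans ((le_max_left _ _).trans hkJ)
  have hk11 : 1 ≤ k := (le_max_right _ _).trans hkJ
  have hNlow : Nk k ≤ N := hN3 k N hk1
  have hNup : N ≤ Nk (k + 1) := by
    by_contra hc
    push Not at hc
    have h1 := hN1 (k + 1)
    have h2 := hmono hc.le
    push_cast at h1
    linarith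
  have hlim' := hJ' k hkJ2
  have hA := hJ k hkJ1
  have hB := hJ (k + 1) (by omega)
  simp only [not_le] at hA hB
  rw [abs_lt] at hA hB
  have hS1 : SN E (Nk k) ω ≤ SN E N ω := hSmono hNlow
  have hS2 : SN E N ω ≤ SN E (Nk (k + 1)) ω := hSmono hNup
  have hm1 := hN1 k
  have hm2 := hN2 (k + 1) (by omega)
  push_cast at hm2
  have hkpos : (0 : ℝ) < (k : ℝ) ^ 2 := by
    have : (1 : ℝ) ≤ k := by exact_mod_cast hk11
    positivity
  have hmNpos : 0 < m N := lt_of_lt_of_le hkpos hk1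
  rw [Real.dist_eq, abs_lt]
  constructor
  · have h1 : (1 - ε) * m N < SN E N ω := by
      have h2 : (1 - η) * m (Nk k) ≤ SN E N ω := by linarith [hA.1]
      have h3 : (1 - η) * (k : ℝ) ^ 2 ≤ (1 - η) * m (Nk k) := mul_le_mul_of_nonneg_left hm1 (by linarith)
      have h4 : m N ≤ (1 + η) * (k : ℝ) ^ 2 := by linarith
      rcases le_or_gt 1 ε with h5 | h5
      · have h6 : (1 - ε) * m N ≤ 0 := mul_nonpos_of_nonpos_of_nonneg (by linarith) hmNpos.le
        have h7 : 0 < (1 - η) * (k : ℝ) ^ 2 := mul_pos (by linarith) hkpos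
        linarith
      · have h6 : (1 - ε) * m N ≤ (1 - ε) * ((1 + η) * (k : ℝ) ^ 2) := mul_le_mul_of_nonneg_left h4 (by linarith)
        have h7 : (1 - ε) * (1 + η) < 1 - η := by nlinarith
        have h8 : (1 - ε) * (1 + η) * (k : ℝ) ^ 2 < (1 - η) * (k : ℝ) ^ 2 := mul_lt_mul_of_pos_right h7 hkpos
        linarith
    have h2 : 1 - ε < SN E N ω / m N := by rwa [lt_div_iff₀ hmNpos]
    linarith
  · have h1 : SN E N ω < (1 + ε) * m N := by
      have h2 : SN E N ω ≤ (1 + η) * m (Nk (k + 1)) := by linarith [hB.2]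
      have h3 : (1 + η) * m (Nk (k + 1)) ≤ (1 + η) * ((1 + η) * (k : ℝ) ^ 2) :=
        mul_le_mul_of_nonneg_left (by linarith) (by linarith)
      have h4 : (1 + η) * (1 + η) < 1 + ε := by nlinarith
      have h5 : (1 + η) * (1 + η) * (k : ℝ) ^ 2 < (1 + ε) * (k : ℝ) ^ 2 := mul_lt_mul_of_pos_right h4 hkpos
      have h6 : (1 + ε) * (k : ℝ) ^ 2 ≤ (1 + ε) * m N := mul_le_mul_of_nonneg_left hk1 (by linarith)
      linarith
    have h2 : SN E N ω / m N < 1 + ε := by rwa [div_lt_iff₀ hmNpos]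
    linarith

end

end Pool.Agent.Q46.CM
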