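import Mathlib
import Pool.Agent.Q46.CM.LLN

/-! Exceptions to `g < (log p)²` in Cramér's model (helper46). -/

set_option autoImplicit false

namespace Pool.Agent.Q46.CM

open Finset Filter Topology MeasureTheory ProbabilityTheory Pool.Agent.H318R2.Cr
open scoped ENNReal

theorem kp1 {m : ℕ} (hm : 3 ≤ m) : keepProb (fun _ => 1) m = 1 / Real.log m := by
  have hV : V 1 = 1 := by
    unfold V
    have : Pz 1 = ∅ := by decide
    rw [this, Finset.prod_empty]
  have hr : Rgh 1 m := fun p hp hp1 _ => by have := hp.two_le; omega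
  have hlog : 1 ≤ Real.log m := by
    rw [Real.le_log_iff_exp_le (by exact_mod_cast (by omega : 0 < m))]
    have h5 := Real.exp_one_lt_d9
    have h6 : (3 : ℝ) ≤ m := by exact_mod_cast hm
    linarith
  rw [kp_eq 1 m (by rw [hV, one_mul]; exact hlog) hr, hV, one_mul]

theorem log_one_sub {x : ℝ} (h0 : 0 ≤ x) (h1 : x ≤ 1 / 2) :
    -x - x ^ 2 / 2 - 2 * x ^ 3 ≤ Real.log (1 - x) ∧ Real.log (1 - x) ≤ -x - x ^ 2 / 2 + 2 * x ^ 3 := by
  have h := Real.abs_log_sub_add_sum_range_le (x := x) (by rw [abs_of_nonneg h0]; linarith) 2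
  rw [Finset.sum_range_succ, Finset.sum_range_succ, Finset.sum_range_zero, abs_of_nonneg h0] at h
  norm_num at h
  have h2 : x ^ 3 / (1 - x) ≤ 2 * x ^ 3 := by
    rw [div_le_iff₀ (by linarith)]
    have : 0 ≤ x ^ 3 := by positivity
    nlinarith
  rw [abs_le] at h
  constructor <;> linarith [h.1, h.2]

theorem prod_bounds {n h : ℕ} (hn : 3 ≤ n) (hL : 2 ≤ Real.log n) :
    Real.exp (-(h / Real.log n + h / (2 * Real.log n ^ 2) + 2 * h / Real.log n ^ 3)) ≤
      ∏ m ∈ Ioc n (n + h), (1 - keepProb (fun _ => 1) m) ∧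
    ∏ m ∈ Ioc n (n + h), (1 - keepProb (fun _ => 1) m) ≤
      Real.exp (-(h / Real.log (n + h : ℕ) + h / (2 * Real.log (n + h : ℕ) ^ 2)) + 2 * h / Real.log n ^ 3) := by
  set L := Real.log n with hLd
  set M := Real.log (n + h : ℕ) with hM
  have hn0 : (0 : ℝ) < n := by exact_mod_cast (by omega : 0 < n)
  have hL0 : 0 < L := by linarith
  have hterm : ∀ m ∈ Ioc n (n + h), Real.exp (-(1 / L) - 1 / (2 * L ^ 2) - 2 / L ^ 3) ≤ 1 - keepProb (fun _ => 1) m ∧
      1 - keepProb (fun _ => 1) m ≤ Real.exp (-(1 / M) - 1 / (2 * M ^ 2) + 2 / L ^ 3) ∧ 0 ≤ 1 - keepProb (fun _ => 1) m := by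
    intro m hm
    rw [mem_Ioc] at hm
    rw [kp1 (by omega)]
    have hm0 : (0 : ℝ) < m := by exact_mod_cast (by omega : 0 < m)
    have h1 : L ≤ Real.log m := Real.log_le_log hn0 (by exact_mod_cast hm.1.le)
    have h2 : Real.log m ≤ M := Real.log_le_log hm0 (by exact_mod_cast hm.2)
    set x := 1 / Real.log m with hx
    have hlm : 0 < Real.log m := by linarith
    have hM0 : 0 < M := by linarith
    have hx0 : 0 ≤ x := by positivity
    have hxL : x ≤ 1 / L := one_div_le_one_div_of_le hL0 h1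
    have hxM : 1 / M ≤ x := one_div_le_one_div_of_le hlm h2
    have hL2 : 1 / L ≤ 1 / 2 := one_div_le_one_div_of_le (by norm_num) hL
    obtain ⟨h3, h4⟩ := log_one_sub hx0 (hxL.trans hL2)
    have h1x : 0 < 1 - x := by linarith
    have a2 : x ^ 2 ≤ 1 / L ^ 2 := by
      rw [← one_div_pow]; exact pow_le_pow_left₀ hx0 hxL 2
    have a3 : x ^ 3 ≤ 1 / L ^ 3 := by
      rw [← one_div_pow]; exact pow_le_pow_left₀ hx0 hxL 3
    have b2 : 1 / M ^ 2 ≤ x ^ 2 := by
      rw [← one_div_pow]; exact pow_le_pow_left₀ (by positivity) hxM 2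
    have c1 : 1 / (2 * L ^ 2) = 1 / L ^ 2 / 2 := by ring
    have c2 : 2 / L ^ 3 = 2 * (1 / L ^ 3) := by ring
    have c3 : 1 / (2 * M ^ 2) = 1 / M ^ 2 / 2 := by ring
    refine ⟨?_, ?_, h1x.le⟩
    · rw [← Real.exp_log h1x]
      apply Real.exp_le_exp.2
      rw [c1, c2]
      linarith
    · rw [← Real.exp_log h1x]
      apply Real.exp_le_exp.2
      rw [c3, c2]
      linarith
  constructor
  · calc Real.exp (-(h / L + h / (2 * L ^ 2) + 2 * h / L ^ 3)) =
        ∏ _m ∈ Ioc n (n + h), Real.exp (-(1 / L) - 1 / (2 * L ^ 2) - 2 / L ^ 3) := by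
          rw [Finset.prod_const, Nat.card_Ioc, Nat.add_sub_cancel_left, ← Real.exp_nat_mul]
          congr 1
          ring
      _ ≤ _ := Finset.prod_le_prod (fun m _ => (Real.exp_pos _).le) fun m hm => (hterm m hm).1
  · calc ∏ m ∈ Ioc n (n + h), (1 - keepProb (fun _ => 1) m) ≤
        ∏ _m ∈ Ioc n (n + h), Real.exp (-(1 / M) - 1 / (2 * M ^ 2) + 2 / L ^ 3) :=
          Finset.prod_le_prod (fun m hm => (hterm m hm).2.2) fun m hm => (hterm m hm).2.1
      _ = _ := by
          rw [Finset.prod_const, Nat.card_Ioc, Nat.add_sub_cancel_left, ← Real.exp_nat_mul]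
          congr 1
          ring

theorem asy : Tendsto (fun n : ℕ => fP 1 n ⌈Real.log n ^ 2⌉₊ * (n * Real.log n)) atTop (𝓝 (Real.exp (-(1 / 2)))) := by
  have eR := tendsto_natCast_atTop_atTop (R := ℝ)
  have hlog : Tendsto (fun n : ℕ => Real.log n) atTop atTop := Real.tendsto_log_atTop.comp eR
  have hinv : Tendsto (fun n : ℕ => (Real.log n)⁻¹) atTop (𝓝 0) := tendsto_inv_atTop_zero.comp hlog
  have hsmall : Tendsto (fun n : ℕ => (Real.log n ^ 2 + 1) / n) atTop (𝓝 0) := by
    have h2 : ∀ k : ℕ, Tendsto (fun x : ℝ => Real.log x ^ k / x) atTop (𝓝 0) := by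
      intro k
      have := (Real.isLittleO_pow_log_id_atTop (n := k)).tendsto_div_nhds_zero
      simpa using this
    have h3 := ((h2 2).add (h2 0)).comp eR
    simp only [add_zero] at h3
    refine h3.congr fun x => ?_
    simp only [Function.comp]
    ring
  -- lower and upper exponents
  set a : ℕ → ℝ := fun n => -(1 / 2) - 3 * (Real.log n)⁻¹ - (Real.log n)⁻¹ ^ 2 / 2 - 2 * (Real.log n)⁻¹ ^ 3 with ha
  have hlim_a : Tendsto a atTop (𝓝 (-(1 / 2))) := by
    have := (((tendsto_const_nhds (x := (-(1 / 2) : ℝ)) (f := (atTop : Filter ℕ))).sub (hinv.const_mul 3)).sub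
      ((hinv.pow 2).div_const 2)).sub ((hinv.pow 3).const_mul 2)
    have e : (-(1 / 2) : ℝ) - 3 * 0 - 0 ^ 2 / 2 - 2 * 0 ^ 3 = -(1 / 2) := by norm_num
    rw [e] at this
    exact this
  set b : ℕ → ℝ := fun n => (Real.log n ^ 2 + 1) / n - (1 - (Real.log n + 1)⁻¹) ^ 2 / 2 +
    2 * ((Real.log n)⁻¹ + (Real.log n)⁻¹ ^ 3) with hb
  have hinv1 : Tendsto (fun n : ℕ => (Real.log n + 1)⁻¹) atTop (𝓝 0) :=
    tendsto_inv_atTop_zero.comp (tendsto_atTop_add_const_right _ _ hlog)
  have hlim_b : Tendsto b atTop (𝓝 (-(1 / 2))) := by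
    have := (hsmall.sub (((hinv1.const_sub 1).pow 2).div_const 2)).add ((hinv.add (hinv.pow 3)).const_mul 2)
    have e : (0 : ℝ) - (1 - 0) ^ 2 / 2 + 2 * (0 + 0 ^ 3) = -(1 / 2) := by norm_num
    rw [e] at this
    exact this
  have hev : ∀ᶠ n : ℕ in atTop, Real.exp (a n) ≤ fP 1 n ⌈Real.log n ^ 2⌉₊ * (n * Real.log n) ∧
      fP 1 n ⌈Real.log n ^ 2⌉₊ * (n * Real.log n) ≤ Real.exp (b n) := by
    filter_upwards [hlog.eventually_ge_atTop 2, hsmall.eventually_le_const (show (0 : ℝ) < 1 by norm_num),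
      eventually_ge_atTop 3] with n h1 h2 h3
    have hn0 : (0 : ℝ) < n := by exact_mod_cast (by omega : 0 < n)
    set L := Real.log n with hL
    have hL0 : 0 < L := by linarith
    set h := ⌈L ^ 2⌉₊ with hh
    have hge : L ^ 2 ≤ h := Nat.le_ceil _
    have hle : (h : ℝ) ≤ L ^ 2 + 1 := (Nat.ceil_lt_add_one (sq_nonneg L)).le
    obtain ⟨p1, p2⟩ := prod_bounds (h := h) h3 h1
    have hexp : Real.exp L = n := Real.exp_log hn0
    have hval : fP 1 n h * (n * L) = Real.exp L * ∏ m ∈ Ioc n (n + h), (1 - keepProb (fun _ => 1) m) := by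
      unfold fP
      rw [kp1 h3, hexp, ← hL]
      field_simp
    rw [hval]
    constructor
    · calc Real.exp (a n) ≤ Real.exp L * Real.exp (-(h / L + h / (2 * L ^ 2) + 2 * h / L ^ 3)) := by
            rw [← Real.exp_add]
            apply Real.exp_le_exp.2
            have e1 : (h : ℝ) / L ≤ L + L⁻¹ := by
              rw [div_le_iff₀ hL0]
              have : (L + L⁻¹) * L = L ^ 2 + 1 := by field_simp
              rw [this]; exact hle
            have e2 : (h : ℝ) / (2 * L ^ 2) ≤ 1 / 2 + L⁻¹ ^ 2 / 2 := by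
              rw [div_le_iff₀ (by positivity)]
              have : (1 / 2 + L⁻¹ ^ 2 / 2) * (2 * L ^ 2) = L ^ 2 + 1 := by field_simp
              rw [this]; exact hle
            have e3 : 2 * (h : ℝ) / L ^ 3 ≤ 2 * L⁻¹ + 2 * L⁻¹ ^ 3 := by
              rw [div_le_iff₀ (by positivity)]
              have : (2 * L⁻¹ + 2 * L⁻¹ ^ 3) * L ^ 3 = 2 * (L ^ 2 + 1) := by field_simp
              rw [this]; linarith
            simp only [ha]
            rw [← hL]
            linarith
        _ ≤ _ := mul_le_mul_of_nonneg_left p1 (Real.exp_pos _).le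
    · calc _ ≤ Real.exp L * Real.exp (-(h / Real.log (n + h : ℕ) + h / (2 * Real.log (n + h : ℕ) ^ 2)) + 2 * h / L ^ 3) :=
            mul_le_mul_of_nonneg_left p2 (Real.exp_pos _).le
        _ ≤ Real.exp (b n) := by
            rw [← Real.exp_add]
            apply Real.exp_le_exp.2
            set M := Real.log (n + h : ℕ) with hM
            set u : ℝ := h / n with hu
            have hu0 : 0 ≤ u := by positivity
            have hu1 : u ≤ (L ^ 2 + 1) / n := div_le_div_of_nonneg_right hle hn0.le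
            have hu2 : u ≤ 1 := hu1.trans h2
            have hML : L ≤ M := Real.log_le_log hn0 (by push_cast; linarith [(Nat.cast_nonneg h : (0 : ℝ) ≤ h)])
            have hM1 : M ≤ L + u := by
              have h4 : ((n + h : ℕ) : ℝ) = n * (1 + u) := by
                rw [hu]
                push_cast
                field_simp
              rw [hM, h4, Real.log_mul hn0.ne' (by positivity)]
              have := Real.log_le_sub_one_of_pos (show (0 : ℝ) < 1 + u by positivity)
              linarith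
            have hM0 : 0 < M := by linarith
            have e1 : L - u ≤ h / M := by
              rw [le_div_iff₀ hM0]
              rcases le_or_gt 0 (L - u) with hc | hc
              · calc (L - u) * M ≤ (L - u) * (L + u) := mul_le_mul_of_nonneg_left hM1 hc
                  _ = L ^ 2 - u ^ 2 := by ring
                  _ ≤ h := by nlinarith
              · linarith
            have e2 : (1 - (L + 1)⁻¹) ^ 2 / 2 ≤ h / (2 * M ^ 2) := by
              have h5 : (1 - (L + 1)⁻¹) = L / (L + 1) := by field_simp; ring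
              rw [h5, div_pow, div_div, div_le_div_iff₀ (by positivity) (by positivity)]
              have h6 : M ^ 2 ≤ (L + 1) ^ 2 := pow_le_pow_left₀ hM0.le (by linarith) 2
              have h7 : L ^ 2 * (2 * M ^ 2) ≤ h * (2 * (L + 1) ^ 2) :=
                mul_le_mul hge (by linarith) (by positivity) (Nat.cast_nonneg _)
              linarith
            have e3 : 2 * (h : ℝ) / L ^ 3 ≤ 2 * (L⁻¹ + L⁻¹ ^ 3) := by
              rw [div_le_iff₀ (by positivity)]
              have : 2 * (L⁻¹ + L⁻¹ ^ 3) * L ^ 3 = 2 * (L ^ 2 + 1) := by field_simp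
              rw [this]; linarith
            simp only [hb]
            rw [← hL]
            linarith
  exact tendsto_of_tendsto_of_tendsto_of_le_of_le' ((Real.continuous_exp.tendsto _).comp hlim_a)
    ((Real.continuous_exp.tendsto _).comp hlim_b) (hev.mono fun n h => h.1) (hev.mono fun n h => h.2)

end Pool.Agent.Q46.CM
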