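import Mathlib
import Pool.Agent.Q46.CM.Main

/-! Chernoff bounds for the sieved random model (helper46). -/

set_option autoImplicit false

namespace Pool.Agent.Q46.CM

open Finset Filter Topology MeasureTheory ProbabilityTheory Pool.Agent.H318R2.Cr
open scoped ENNReal

variable {Ω : Type*} [MeasurableSpace Ω] {μ : Measure Ω} {z : ℕ → ℕ} {A : ℕ → Set Ω}

/-- the number of kept integers in `I`, as a sum of indicators -/
noncomputable def SS (A : ℕ → Set Ω) (I : Finset ℕ) : Ω → ℝ :=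
  ∑ n ∈ I, (A n).indicator (fun _ => (1 : ℝ))

theorem SS_apply (I : Finset ℕ) (ω : Ω) : SS A I ω = ∑ n ∈ I, (A n).indicator (fun _ => (1 : ℝ)) ω := by
  unfold SS
  rw [Finset.sum_apply]

theorem SS_card (I : Finset ℕ) (ω : Ω) : SS A I ω = ({n | n ∈ I ∧ ω ∈ A n}.ncard : ℝ) := by
  classical
  rw [SS_apply]
  have h1 : ∀ n ∈ I, (A n).indicator (fun _ => (1 : ℝ)) ω = if ω ∈ A n then 1 else 0 := by
    intro n _
    rw [Set.indicator_apply]
  rw [Finset.sum_congr rfl h1, Finset.sum_boole]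
  have h2 : {n | n ∈ I ∧ ω ∈ A n} = ((I.filter (fun n => ω ∈ A n) : Finset ℕ) : Set ℕ) := by
    ext n; simp
  rw [h2, Set.ncard_coe_finset]

theorem mgf_ind (hA : IsSievedModel μ z A) (n : ℕ) (t : ℝ) :
    mgf ((A n).indicator (fun _ => (1 : ℝ))) μ t = 1 + keepProb z n * (Real.exp t - 1) := by
  have : IsProbabilityMeasure μ := hA.indep.isProbabilityMeasure
  have hm := hA.measurable n
  have h1 : ∀ ω, Real.exp (t * (A n).indicator (fun _ => (1 : ℝ)) ω) =
      1 + (Real.exp t - 1) * (A n).indicator (fun _ => (1 : ℝ)) ω := by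
    intro ω
    by_cases h : ω ∈ A n
    · rw [Set.indicator_of_mem h]; ring_nf
    · rw [Set.indicator_of_notMem h]; simp
  unfold mgf
  simp_rw [h1]
  have hint : Integrable ((A n).indicator (fun _ => (1 : ℝ))) μ :=
    (integrable_const (1 : ℝ)).indicator hm
  rw [integral_add (integrable_const _) (hint.const_mul _), integral_const, integral_const_mul,
    integral_indicator_const _ hm]
  have h2 : μ.real (A n) = keepProb z n := by
    unfold Measure.real
    rw [hA.prob n, ENNReal.toReal_ofReal (keep_nonneg z n)]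
  rw [h2]
  simp
  ring

theorem mgf_SS (hA : IsSievedModel μ z A) (I : Finset ℕ) (t : ℝ) :
    mgf (SS A I) μ t ≤ Real.exp ((∑ n ∈ I, keepProb z n) * (Real.exp t - 1)) := by
  have hind : iIndepFun (fun n => (A n).indicator (fun _ => (1 : ℝ))) μ := hA.indep.iIndepFun_indicator
  have hmeas : ∀ n, Measurable ((A n).indicator (fun _ => (1 : ℝ))) := fun n =>
    measurable_const.indicator (hA.measurable n)
  unfold SS
  rw [hind.mgf_sum hmeas I]
  rw [Finset.sum_mul, Real.exp_sum]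
  apply Finset.prod_le_prod
  · intro n _
    exact mgf_nonneg
  · intro n _
    rw [mgf_ind hA]
    have := Real.add_one_le_exp (keepProb z n * (Real.exp t - 1))
    linarith

theorem int_SS (hA : IsSievedModel μ z A) (I : Finset ℕ) (t : ℝ) :
    Integrable (fun ω => Real.exp (t * SS A I ω)) μ := by
  have : IsProbabilityMeasure μ := hA.indep.isProbabilityMeasure
  have hmeas : ∀ n, Measurable ((A n).indicator (fun _ => (1 : ℝ))) := fun n =>
    measurable_const.indicator (hA.measurable n)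
  have hS : Measurable (SS A I) := by
    have e : SS A I = fun ω => ∑ n ∈ I, (A n).indicator (fun _ => (1 : ℝ)) ω := funext (SS_apply I)
    rw [e]
    exact Finset.measurable_sum _ (fun n _ => hmeas n)
  have h0 : ∀ ω, 0 ≤ SS A I ω := by
    intro ω
    rw [SS_apply]
    exact Finset.sum_nonneg fun n _ => Set.indicator_nonneg (fun _ _ => zero_le_one) ω
  have h1 : ∀ ω, SS A I ω ≤ I.card := by
    intro ω
    rw [SS_apply]
    calc ∑ n ∈ I, (A n).indicator (fun _ => (1 : ℝ)) ω ≤ ∑ _n ∈ I, (1 : ℝ) :=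
          Finset.sum_le_sum fun n _ => Set.indicator_le_self' (fun _ _ => zero_le_one) ω
      _ = I.card := by simp
  refine Integrable.of_bound (hS.const_mul t).exp.aestronglyMeasurable (Real.exp (|t| * I.card)) ?_
  refine Eventually.of_forall fun ω => ?_
  rw [Real.norm_of_nonneg (Real.exp_pos _).le]
  apply Real.exp_le_exp.2
  calc t * SS A I ω ≤ |t| * SS A I ω := mul_le_mul_of_nonneg_right (le_abs_self t) (h0 ω)
    _ ≤ |t| * I.card := mul_le_mul_of_nonneg_left (h1 ω) (abs_nonneg t)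

theorem exp_quad {t : ℝ} (h : |t| ≤ 1) : Real.exp t - 1 ≤ t + t ^ 2 := by
  have := Real.abs_exp_sub_one_sub_id_le h
  have h2 := (abs_le.1 this).2
  linarith

theorem chern_up (hA : IsSievedModel μ z A) (I : Finset ℕ) {ε m : ℝ} (hε0 : 0 ≤ ε) (hε1 : ε ≤ 1)
    (hm : ∑ n ∈ I, keepProb z n ≤ m) :
    μ {ω | (1 + ε) * m ≤ SS A I ω} ≤ ENNReal.ofReal (Real.exp (-(ε ^ 2 * m / 4))) := by
  have : IsProbabilityMeasure μ := hA.indep.isProbabilityMeasure
  have hm0 : 0 ≤ m := (Finset.sum_nonneg fun n _ => keep_nonneg z n).trans hm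
  have h1 := measure_ge_le_exp_mul_mgf (μ := μ) (X := SS A I) ((1 + ε) * m) (t := ε / 2) (by linarith)
    (int_SS hA I _)
  have h2 := mgf_SS hA I (ε / 2)
  have hex : 0 ≤ Real.exp (ε / 2) - 1 := by
    have := Real.add_one_le_exp (ε / 2)
    linarith
  have h3 : μ.real {ω | (1 + ε) * m ≤ SS A I ω} ≤ Real.exp (-(ε ^ 2 * m / 4)) := by
    refine h1.trans ?_
    calc Real.exp (-(ε / 2) * ((1 + ε) * m)) * mgf (SS A I) μ (ε / 2) ≤
        Real.exp (-(ε / 2) * ((1 + ε) * m)) * Real.exp ((∑ n ∈ I, keepProb z n) * (Real.exp (ε / 2) - 1)) :=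
          mul_le_mul_of_nonneg_left h2 (Real.exp_pos _).le
      _ = Real.exp (-(ε / 2) * ((1 + ε) * m) + (∑ n ∈ I, keepProb z n) * (Real.exp (ε / 2) - 1)) := by
          rw [← Real.exp_add]
      _ ≤ Real.exp (-(ε ^ 2 * m / 4)) := by
          apply Real.exp_le_exp.2
          have h4 : (∑ n ∈ I, keepProb z n) * (Real.exp (ε / 2) - 1) ≤ m * (Real.exp (ε / 2) - 1) :=
            mul_le_mul_of_nonneg_right hm hex
          have h5 : m * (Real.exp (ε / 2) - 1) ≤ m * (ε / 2 + (ε / 2) ^ 2) :=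
            mul_le_mul_of_nonneg_left (exp_quad (by rw [abs_of_nonneg (by linarith)]; linarith)) hm0
          nlinarith
  have h4 : μ {ω | (1 + ε) * m ≤ SS A I ω} = ENNReal.ofReal (μ.real {ω | (1 + ε) * m ≤ SS A I ω}) :=
    (ofReal_measureReal).symm
  rw [h4]
  exact ENNReal.ofReal_le_ofReal h3

theorem chern_low (hA : IsSievedModel μ z A) (I : Finset ℕ) {ε m : ℝ} (hε0 : 0 ≤ ε) (hε1 : ε ≤ 1) (hm0 : 0 ≤ m)
    (hm : m ≤ ∑ n ∈ I, keepProb z n) :
    μ {ω | SS A I ω ≤ (1 - ε) * m} ≤ ENNReal.ofReal (Real.exp (-(ε ^ 2 * m / 4))) := by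
  have : IsProbabilityMeasure μ := hA.indep.isProbabilityMeasure
  have h1 := measure_le_le_exp_mul_mgf (μ := μ) (X := SS A I) ((1 - ε) * m) (t := -(ε / 2)) (by linarith)
    (int_SS hA I _)
  have h2 := mgf_SS hA I (-(ε / 2))
  have hq := exp_quad (t := -(ε / 2)) (by rw [abs_neg, abs_of_nonneg (by linarith)]; linarith)
  have hex : Real.exp (-(ε / 2)) - 1 ≤ 0 := by
    have : Real.exp (-(ε / 2)) ≤ 1 := Real.exp_le_one_iff.2 (by linarith)
    linarith
  have h3 : μ.real {ω | SS A I ω ≤ (1 - ε) * m} ≤ Real.exp (-(ε ^ 2 * m / 4)) := by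
    refine h1.trans ?_
    calc Real.exp (-(-(ε / 2)) * ((1 - ε) * m)) * mgf (SS A I) μ (-(ε / 2)) ≤
        Real.exp (-(-(ε / 2)) * ((1 - ε) * m)) * Real.exp ((∑ n ∈ I, keepProb z n) * (Real.exp (-(ε / 2)) - 1)) :=
          mul_le_mul_of_nonneg_left h2 (Real.exp_pos _).le
      _ = Real.exp (-(-(ε / 2)) * ((1 - ε) * m) + (∑ n ∈ I, keepProb z n) * (Real.exp (-(ε / 2)) - 1)) := by
          rw [← Real.exp_add]
      _ ≤ Real.exp (-(ε ^ 2 * m / 4)) := by
          apply Real.exp_le_exp.2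
          have h4 : (∑ n ∈ I, keepProb z n) * (Real.exp (-(ε / 2)) - 1) ≤ m * (Real.exp (-(ε / 2)) - 1) :=
            mul_le_mul_of_nonpos_right hm hex
          have h5 : m * (Real.exp (-(ε / 2)) - 1) ≤ m * (-(ε / 2) + (-(ε / 2)) ^ 2) :=
            mul_le_mul_of_nonneg_left hq hm0
          nlinarith
  have h4 : μ {ω | SS A I ω ≤ (1 - ε) * m} = ENNReal.ofReal (μ.real {ω | SS A I ω ≤ (1 - ε) * m}) :=
    (ofReal_measureReal).symm
  rw [h4]
  exact ENNReal.ofReal_le_ofReal h3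

end Pool.Agent.Q46.CM
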