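import Mathlib
import Pool.Agent.Q46.CM.Upper1
import Pool.Agent.Q46.CM.Avg

/-! The fundamental lemma for intervals, both sides, all levels (helper46). -/

set_option autoImplicit false

namespace Pool.Agent.Q46.CM

open Finset Filter Topology Pool.Agent.H318R2.Cr
open Pool.Agent.H373R2.T7 (pz mem_pz PerB nuB sys_fund)

/-- the fundamental lemma for intervals, both sides -/
theorem fl_two (ε : ℝ) (hε : 0 < ε) : ∃ K x0 : ℕ, 1 ≤ K ∧ ∀ y : ℕ, x0 ≤ y → ∀ h : ℕ, y ^ K ≤ h → ∀ a : ℕ,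
    |(cnt y a h : ℝ) - h * V y| ≤ ε * (h * V y) := by
  classical
  obtain ⟨K, x0, hK, hF⟩ := sys_fund 1 le_rfl (ε / 2) (by positivity)
  obtain ⟨c₁, c₂, hc₁, hc₁₂, hcz⟩ := cz_bounds
  -- `log h ≤ (ε/2) c₁ √h`
  have e1 : ∀ᶠ x : ℕ in atTop, Real.log x ≤ ε / 2 * c₁ * √(x : ℝ) := by
    have h1 := (isLittleO_log_rpow_atTop (r := 1 / 2) (by norm_num)).def (c := ε / 2 * c₁) (by positivity)
    filter_upwards [(tendsto_natCast_atTop_atTop (R := ℝ)).eventually h1, eventually_ge_atTop 1] with x h3 h4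
    have h4' : (1 : ℝ) ≤ x := by exact_mod_cast h4
    rw [Real.norm_of_nonneg (Real.log_nonneg h4'), Real.norm_of_nonneg (by positivity)] at h3
    rwa [Real.sqrt_eq_rpow]
  obtain ⟨x1, hx1⟩ := eventually_atTop.1 e1
  refine ⟨K, max (max x0 x1) 2, hK, fun y hy h hh a => ?_⟩
  have hy0 : x0 ≤ y := (le_max_left _ _).trans ((le_max_left _ _).trans hy)
  have hy1 : x1 ≤ y := (le_max_right _ _).trans ((le_max_left _ _).trans hy)
  have hy2 : 2 ≤ y := (le_max_right _ _).trans hy
  have hyh : y ≤ h := (Nat.le_self_pow (by omega) y).trans hh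
  set Q : ℕ → ℕ → Prop := fun p n => p ∣ a + n with hQ
  have hper : ∀ p n, Q p n ↔ Q p (n % p) := by
    intro p n
    simp only [hQ]
    constructor
    · intro hd
      have : p ∣ a + (n % p + p * (n / p)) := by rwa [Nat.mod_add_div]
      rw [← add_assoc] at this
      exact (Nat.dvd_add_left (Dvd.intro _ rfl)).1 this
    · intro hd
      have : p ∣ a + n % p + p * (n / p) := Dvd.dvd.add hd (Dvd.intro _ rfl)
      rwa [add_assoc, Nat.mod_add_div] at this
  have hone : ∀ p : ℕ, p.Prime → nuB Q p = 1 := by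
    intro p hp
    unfold nuB
    rw [Finset.card_eq_one]
    refine ⟨(p - a % p) % p, ?_⟩
    have hp0 : 0 < p := hp.pos
    have ham : a % p < p := Nat.mod_lt _ hp0
    have haa : a = p * (a / p) + a % p := (Nat.div_add_mod a p).symm
    ext r
    simp only [mem_filter, mem_range, mem_singleton, hQ]
    constructor
    · rintro ⟨h1, h2⟩
      rw [haa, add_assoc] at h2
      have h3 : p ∣ a % p + r := (Nat.dvd_add_right (Dvd.intro _ rfl)).1 h2
      obtain ⟨t, ht⟩ := h3
      have ht2 : t < 2 := by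
        by_contra hcon
        push Not at hcon
        have : p * 2 ≤ p * t := Nat.mul_le_mul_left p hcon
        omega
      interval_cases t
      · have : a % p = 0 := by omega
        rw [this, Nat.sub_zero, Nat.mod_self]
        omega
      · rcases Nat.eq_zero_or_pos (a % p) with h0 | h0
        · omega
        · rw [Nat.mod_eq_of_lt (by omega)]
          omega
    · rintro rfl
      refine ⟨Nat.mod_lt _ hp0, ?_⟩
      have h6 : a + (p - a % p) % p = p * (a / p) + (a % p + (p - a % p) % p) := by omega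
      rw [h6]
      apply Dvd.dvd.add (Dvd.intro _ rfl)
      rcases Nat.eq_zero_or_pos (a % p) with h0 | h0
      · rw [h0, Nat.sub_zero, Nat.mod_self]; simp
      · rw [Nat.mod_eq_of_lt (show p - a % p < p by omega)]
        have : a % p + (p - a % p) = p := by omega
        rw [this]
  have hP : PerB Q 1 := ⟨hper, fun p hp => (hone p hp).le⟩
  have hmain := hF h y hy0 hh Q hP h
  have e2 : ∏ p ∈ pz y, (1 - (nuB Q p : ℝ) / p) = V y := by
    unfold V
    have : pz y = Pz y := by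
      ext p
      rw [mem_pz]
      unfold Pz
      rw [mem_filter, mem_Ioc]
      constructor
      · rintro ⟨h1, h2⟩; exact ⟨⟨h2.pos, h1⟩, h2⟩
      · rintro ⟨⟨_, h1⟩, h2⟩; exact ⟨h1, h2⟩
    rw [this]
    apply Finset.prod_congr rfl
    intro p hp
    unfold Pz at hp
    rw [mem_filter] at hp
    rw [hone p hp.2]
    norm_num
  have e3 : ((Icc 1 h).filter (fun n : ℕ => ∀ p ∈ pz y, ¬ Q p n)).card = cnt y a h := by
    unfold cnt
    have : (Ioc a (a + h)).filter (Rgh y) = ((Icc 1 h).filter (fun n : ℕ => ∀ p ∈ pz y, ¬ Q p n)).image (fun n => a + n) := by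
      ext m
      simp only [mem_filter, mem_Ioc, mem_image, mem_Icc, hQ]
      constructor
      · rintro ⟨⟨h1, h2⟩, h3⟩
        refine ⟨m - a, ⟨⟨by omega, by omega⟩, ?_⟩, by omega⟩
        intro p hp
        rw [mem_pz] at hp
        rw [show a + (m - a) = m by omega]
        exact h3 p hp.2 hp.1
      · rintro ⟨k, ⟨⟨h1, h2⟩, h3⟩, rfl⟩
        exact ⟨⟨by omega, by omega⟩, fun p hp hpz => h3 p (mem_pz.2 ⟨hpz, hp⟩)⟩
    rw [this, card_image_of_injective _ (fun u v huv => by simpa using huv)]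
  have hmain2 : |(cnt y a h : ℝ) - h * V y| ≤ ε / 2 * (h * V y) + √(h : ℝ) := by
    rw [← e3, ← e2]
    convert hmain
  have hV := V_pos y
  have hh0 : (0 : ℝ) < h := by exact_mod_cast (by omega : 0 < h)
  have hsq : √(h : ℝ) ≤ ε / 2 * (h * V y) := by
    have h1 := hx1 h (hy1.trans hyh)
    have hly : 0 < Real.log y := Real.log_pos (by exact_mod_cast hy2)
    have h2 : Real.log y ≤ Real.log h := Real.log_le_log (by exact_mod_cast (by omega : 0 < y)) (by exact_mod_cast hyh)
    have h3 := (hcz y hy2).1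
    have h4 : c₁ ≤ V y * (ε / 2 * c₁ * √(h : ℝ)) := h3.trans (mul_le_mul_of_nonneg_left (h2.trans h1) hV.le)
    have h5 : 1 ≤ ε / 2 * V y * √(h : ℝ) := by
      have : c₁ * 1 ≤ c₁ * (ε / 2 * V y * √(h : ℝ)) := by linarith
      exact le_of_mul_le_mul_left this hc₁
    have h6 : √(h : ℝ) * √(h : ℝ) = h := Real.mul_self_sqrt hh0.le
    calc √(h : ℝ) = 1 * √(h : ℝ) := (one_mul _).symm
      _ ≤ ε / 2 * V y * √(h : ℝ) * √(h : ℝ) := mul_le_mul_of_nonneg_right h5 (Real.sqrt_nonneg _)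
      _ = ε / 2 * (√(h : ℝ) * √(h : ℝ) * V y) := by ring
      _ = ε / 2 * (h * V y) := by rw [h6]
  refine hmain2.trans ?_
  linarith

theorem cnt_add (z a h₁ h₂ : ℕ) : cnt z a (h₁ + h₂) = cnt z a h₁ + cnt z (a + h₁) h₂ := by
  classical
  unfold cnt
  rw [← add_assoc, ← Finset.card_union_of_disjoint, ← Finset.filter_union,
    Finset.Ioc_union_Ioc_eq_Ioc (Nat.le_add_right _ _) (Nat.le_add_right _ _)]
  rw [Finset.disjoint_left]
  intro n h1 h2
  rw [mem_filter, mem_Ioc] at h1 h2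
  omega

theorem cnt_period (z a : ℕ) : cnt z a (primorial z) = (primorial z).totient := by
  classical
  unfold cnt
  rw [← Nat.filter_coprime_Ico_eq_totient (primorial z) (a + 1)]
  congr 1
  ext n
  simp only [mem_filter, mem_Ioc, mem_Ico, rgh_iff]
  constructor
  · rintro ⟨⟨h1, h2⟩, h3⟩; exact ⟨⟨by omega, by omega⟩, h3⟩
  · rintro ⟨⟨h1, h2⟩, h3⟩; exact ⟨⟨by omega, by omega⟩, h3⟩

theorem cnt_periods (z a q : ℕ) : cnt z a (q * primorial z) = q * (primorial z).totient := by
  induction q generalizing a with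
  | zero => simp [cnt]
  | succ q ih =>
    rw [Nat.succ_mul, cnt_add, ih, cnt_period, Nat.succ_mul]

theorem cnt_mono (z a : ℕ) {h₁ h₂ : ℕ} (h : h₁ ≤ h₂) : cnt z a h₁ ≤ cnt z a h₂ := by
  obtain ⟨k, rfl⟩ := Nat.exists_eq_add_of_le h
  rw [cnt_add]
  exact Nat.le_add_right _ _

theorem cnt_small (z a h : ℕ) : |(cnt z a h : ℝ) - h * V z| ≤ primorial z * V z := by
  set P := primorial z with hP
  have hP0 : 0 < P := primorial_pos z
  have hV := V_pos z
  set q := h / P with hq
  have h1 : q * P ≤ h := Nat.div_mul_le_self h P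
  have h2 : h < (q + 1) * P := by
    rw [mul_comm]; exact Nat.lt_mul_div_succ h hP0
  have h3 := cnt_mono z a h1
  have h4 := cnt_mono z a h2.le
  rw [hP, cnt_periods] at h3 h4
  have h3' : (q : ℝ) * (primorial z).totient ≤ cnt z a h := by exact_mod_cast h3
  have h4' : (cnt z a h : ℝ) ≤ (q + 1) * (primorial z).totient := by exact_mod_cast h4
  rw [tot_primorial, ← hP] at h3' h4'
  have h1' : (q : ℝ) * P ≤ h := by exact_mod_cast h1
  have h2' : (h : ℝ) ≤ (q + 1) * P := by exact_mod_cast h2.le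
  rw [abs_le]
  constructor
  · nlinarith
  · nlinarith

theorem fl_all (ε : ℝ) (hε : 0 < ε) : ∃ K C : ℕ, 1 ≤ K ∧ ∀ z h a : ℕ, z ^ K ≤ h → C ≤ h →
    |(cnt z a h : ℝ) - h * V z| ≤ ε * (h * V z) := by
  obtain ⟨K, x0, hK, hfl⟩ := fl_two ε hε
  refine ⟨K, ⌈(4 : ℝ) ^ x0 / ε⌉₊, hK, fun z h a h1 h2 => ?_⟩
  rcases le_or_gt x0 z with hz | hz
  · exact hfl z hz h h1 a
  · refine (cnt_small z a h).trans ?_
    rw [← mul_assoc]
    apply mul_le_mul_of_nonneg_right _ (V_pos z).le
    have h3 : (4 : ℝ) ^ x0 / ε ≤ h := (Nat.le_ceil _).trans (by exact_mod_cast h2)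
    rw [div_le_iff₀ hε] at h3
    have h4 : (primorial z : ℝ) ≤ 4 ^ x0 := by
      have : primorial z ≤ 4 ^ x0 := (primorial_le_four_pow z).trans (Nat.pow_le_pow_right (by norm_num) hz.le)
      exact_mod_cast this
    linarith

end Pool.Agent.Q46.CM
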