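import Mathlib
import Pool.Agent.Q46.CM.Two
import Pool.Agent.Q46.CM.Upper2

/-! Expected number of kept integers in short intervals, both sides (helper46). -/

set_option autoImplicit false

namespace Pool.Agent.Q46.CM

open Finset Filter Topology Pool.Agent.H318R2.Cr

/-- upper bound for a piece of a block -/
theorem pieceU {z : ℕ → ℕ} {i b g : ℕ} (hi : 1 ≤ i) (h1 : 2 ^ i ≤ b + 1) (h2 : b + g < 2 ^ (i + 1)) :
    ∑ n ∈ Ioc b (b + g), keepProb z n ≤ cnt (z i) b g * pj z i := by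
  classical
  have h3 : ∀ n ∈ Ioc b (b + g), keepProb z n ≤ (if Rgh (z i) n then pj z i else 0) := by
    intro n hn
    rw [mem_Ioc] at hn
    have hb1 : 2 ^ i ≤ n := by omega
    have hb2 : n < 2 ^ (i + 1) := by omega
    split_ifs with hr
    · exact keep_le hi hb1 hb2
    · unfold keepProb
      rw [log_block hb1 hb2, if_neg hr]
  calc ∑ n ∈ Ioc b (b + g), keepProb z n ≤ ∑ n ∈ Ioc b (b + g), (if Rgh (z i) n then pj z i else 0) :=
        Finset.sum_le_sum h3
    _ = cnt (z i) b g * pj z i := by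
        rw [Finset.sum_ite, Finset.sum_const_zero, add_zero, Finset.sum_const, nsmul_eq_mul]
        unfold cnt
        rfl

set_option maxHeartbeats 4000000 in
theorem keep_both {z : ℕ → ℕ} {j a h K C : ℕ} {ε : ℝ} (hε : 0 < ε) (hε1 : ε < 1 / 2)
    (hfl : ∀ y h a : ℕ, y ^ K ≤ h → C ≤ h → |(cnt y a h : ℝ) - h * V y| ≤ ε * (h * V y))
    (hj : 1 ≤ j) (hK1 : ((z j ^ K : ℕ) : ℝ) ≤ ε * h) (hK2 : ((z (j + 1) ^ K : ℕ) : ℝ) ≤ ε * h)
    (hC : (C : ℝ) ≤ ε * h) (hC1 : 1 ≤ ε * h) (hp1 : pj z j ≤ 1) (hp2 : pj z (j + 1) ≤ 1)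
    (ha1 : 2 ^ j ≤ a) (ha2 : a < 2 ^ (j + 1)) (hh : h ≤ 2 ^ (j + 1)) :
    (1 - ε) ^ 2 * (h / ((j + 2) * Real.log 2)) ≤ ∑ n ∈ Ioc a (a + h), keepProb z n ∧
    ∑ n ∈ Ioc a (a + h), keepProb z n ≤ (1 + ε) * (1 + 4 * ε) * (h / (j * Real.log 2)) := by
  have hl2 : 0 < Real.log 2 := Real.log_pos (by norm_num)
  have hj0 : (1 : ℝ) ≤ j := by exact_mod_cast hj
  have hh0 : (0 : ℝ) ≤ h := Nat.cast_nonneg h
  set g1 := min h (2 ^ (j + 1) - 1 - a) with hg1
  set g2 := h - g1 with hg2
  have hg1h : g1 ≤ h := min_le_left _ _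
  have hg1b : g1 ≤ 2 ^ (j + 1) - 1 - a := min_le_right _ _
  have hsplit : Ioc a (a + h) = Ioc a (a + g1) ∪ Ioc (a + g1) (a + g1 + g2) := by
    rw [Ioc_union_Ioc_eq_Ioc (by omega) (by omega)]
    congr 1
    omega
  have hdisj : Disjoint (Ioc a (a + g1)) (Ioc (a + g1) (a + g1 + g2)) := by
    rw [Finset.disjoint_left]
    intro n h1 h2
    rw [mem_Ioc] at h1 h2
    omega
  rw [hsplit, Finset.sum_union hdisj]
  have gen : ∀ i b g : ℕ, 1 ≤ i → i ≤ j + 1 → 2 ^ i ≤ b + 1 → b + g < 2 ^ (i + 1) → pj z i ≤ 1 →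
      ((z i ^ K : ℕ) : ℝ) ≤ ε * h → ε * h ≤ g →
      (1 - ε) * (g / ((j + 2) * Real.log 2)) ≤ ∑ n ∈ Ioc b (b + g), keepProb z n := by
    intro i b g hi hij hb1 hb2 hpi hKi hgi
    have hVi := V_pos (z i)
    have h0 := hfl (z i) g b (by exact_mod_cast hKi.trans hgi) (by exact_mod_cast hC.trans hgi)
    have h1 : (1 - ε) * (g * V (z i)) ≤ cnt (z i) b g := by
      have := (abs_le.1 h0).1
      linarith
    have hi0 : (1 : ℝ) ≤ i := by exact_mod_cast hi
    have hij' : (i : ℝ) ≤ j + 1 := by exact_mod_cast hij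
    refine le_trans ?_ (piece hi hb1 hb2 hpi)
    rw [le_div_iff₀ (by positivity)]
    refine le_trans ?_ h1
    have hg0 : (0 : ℝ) ≤ g := Nat.cast_nonneg g
    have h2 : (g : ℝ) / ((j + 2) * Real.log 2) * ((i + 1) * Real.log 2) ≤ g := by
      rw [div_mul_eq_mul_div, div_le_iff₀ (by positivity)]
      apply mul_le_mul_of_nonneg_left _ hg0
      apply mul_le_mul_of_nonneg_right _ hl2.le
      linarith
    calc (1 - ε) * ((g : ℝ) / ((j + 2) * Real.log 2)) * (V (z i) * ((i + 1) * Real.log 2)) =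
        (1 - ε) * (((g : ℝ) / ((j + 2) * Real.log 2) * ((i + 1) * Real.log 2)) * V (z i)) := by ring
      _ ≤ (1 - ε) * (g * V (z i)) := by
          apply mul_le_mul_of_nonneg_left _ (by linarith)
          exact mul_le_mul_of_nonneg_right h2 hVi.le
  -- upper bound
  set w := ⌈ε * h⌉₊ with hw
  have hw1 : ε * h ≤ w := Nat.le_ceil _
  have hw2 : (w : ℝ) ≤ 2 * (ε * h) := by
    have := Nat.ceil_lt_add_one (show 0 ≤ ε * h by positivity)
    linarith
  have genU : ∀ i b g : ℕ, 1 ≤ i → j ≤ i → 2 ^ i ≤ b + 1 → b + g < 2 ^ (i + 1) →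
      ((z i ^ K : ℕ) : ℝ) ≤ ε * h →
      ∑ n ∈ Ioc b (b + g), keepProb z n ≤ (1 + ε) * ((g + 2 * (ε * h)) / (j * Real.log 2)) := by
    intro i b g hi hji hb1 hb2 hKi
    have hVi := V_pos (z i)
    have hi0 : (1 : ℝ) ≤ i := by exact_mod_cast hi
    have hji' : (j : ℝ) ≤ i := by exact_mod_cast hji
    have hgw : ε * h ≤ ((g + w : ℕ) : ℝ) := by
      push_cast
      have : (0 : ℝ) ≤ g := Nat.cast_nonneg g
      linarith
    have h0 := hfl (z i) (g + w) b (by exact_mod_cast hKi.trans hgw) (by exact_mod_cast hC.trans hgw)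
    have h1 : (cnt (z i) b g : ℝ) ≤ (1 + ε) * ((g + w : ℕ) * V (z i)) := by
      have h2 := (abs_le.1 h0).2
      have h3 : (cnt (z i) b g : ℝ) ≤ cnt (z i) b (g + w) := by
        exact_mod_cast cnt_mono (z i) b (Nat.le_add_right g w)
      linarith
    have hpV : V (z i) * pj z i = 1 / (i * Real.log 2) := by
      unfold pj
      field_simp
    have hp0 : 0 ≤ pj z i := by
      unfold pj; positivity
    calc ∑ n ∈ Ioc b (b + g), keepProb z n ≤ cnt (z i) b g * pj z i := pieceU hi hb1 hb2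
      _ ≤ (1 + ε) * ((g + w : ℕ) * V (z i)) * pj z i := mul_le_mul_of_nonneg_right h1 hp0
      _ = (1 + ε) * ((g + w : ℕ) * (V (z i) * pj z i)) := by ring
      _ = (1 + ε) * ((g + w : ℕ) / (i * Real.log 2)) := by rw [hpV]; ring
      _ ≤ (1 + ε) * ((g + 2 * (ε * h)) / (j * Real.log 2)) := by
          apply mul_le_mul_of_nonneg_left _ (by linarith)
          apply div_le_div₀ (by positivity) _ (by positivity) _
          · push_cast; linarith
          · apply mul_le_mul_of_nonneg_right hji' hl2.le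
  have hnn : ∀ s : Finset ℕ, 0 ≤ ∑ n ∈ s, keepProb z n := fun s => Finset.sum_nonneg fun n _ => keep_nonneg z n
  have hgsum : (g1 : ℝ) + g2 = h := by
    have : g1 + g2 = h := by omega
    exact_mod_cast this
  have hD : 0 < ((j : ℝ) + 2) * Real.log 2 := by positivity
  have hb2 : 0 < g2 → 2 ^ (j + 1) ≤ a + g1 + 1 := by
    intro hpos
    have : g1 < h := by omega
    have : g1 = 2 ^ (j + 1) - 1 - a := by
      rcases min_choice h (2 ^ (j + 1) - 1 - a) with h1 | h1
      · omega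
      · rw [hg1, h1]
    omega
  have hpow2 : 2 ^ (j + 1 + 1) = 2 * 2 ^ (j + 1) := by rw [pow_succ]; ring
  constructor
  · -- the two pieces
    have P1 : ε * h ≤ g1 → (1 - ε) * (g1 / ((j + 2) * Real.log 2)) ≤ ∑ n ∈ Ioc a (a + g1), keepProb z n := fun hc =>
      gen j a g1 hj (by omega) (by omega) (by omega) hp1 hK1 hc
    have P2 : ε * h ≤ g2 → 0 < g2 →
        (1 - ε) * (g2 / ((j + 2) * Real.log 2)) ≤ ∑ n ∈ Ioc (a + g1) (a + g1 + g2), keepProb z n := fun hc hpos =>
      gen (j + 1) (a + g1) g2 (by omega) (by omega) (hb2 hpos) (by rw [hpow2]; omega) hp2 hK2 hc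
    rcases lt_or_ge (g1 : ℝ) (ε * h) with hc1 | hc1
    · have h1 : (1 - ε) * h ≤ g2 := by linarith
      rcases Nat.eq_zero_or_pos g2 with h0 | hpos
      · rw [h0] at h1 hgsum
        push_cast at h1 hgsum
        have : (h : ℝ) = 0 := by nlinarith
        rw [this]
        simp only [zero_div, mul_zero]
        exact add_nonneg (hnn _) (hnn _)
      · have h2 := P2 (by nlinarith) hpos
        have h3 : (1 - ε) ^ 2 * (h / ((j + 2) * Real.log 2)) ≤ (1 - ε) * (g2 / ((j + 2) * Real.log 2)) := by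
          rw [pow_two, mul_assoc]
          apply mul_le_mul_of_nonneg_left _ (by linarith)
          rw [← mul_div_assoc]
          exact div_le_div_of_nonneg_right h1 hD.le
        linarith [hnn (Ioc a (a + g1))]
    · have h2 := P1 hc1
      rcases lt_or_ge (g2 : ℝ) (ε * h) with hc2 | hc2
      · have h1 : (1 - ε) * h ≤ g1 := by linarith
        have h3 : (1 - ε) ^ 2 * (h / ((j + 2) * Real.log 2)) ≤ (1 - ε) * (g1 / ((j + 2) * Real.log 2)) := by
          rw [pow_two, mul_assoc]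
          apply mul_le_mul_of_nonneg_left _ (by linarith)
          rw [← mul_div_assoc]
          exact div_le_div_of_nonneg_right h1 hD.le
        linarith [hnn (Ioc (a + g1) (a + g1 + g2))]
      · rcases Nat.eq_zero_or_pos g2 with h0 | hpos
        · rw [h0] at hgsum
          push_cast at hgsum
          have h4 : (g1 : ℝ) = h := by linarith
          rw [h4] at h2
          have h3 : (1 - ε) ^ 2 * (h / ((j + 2) * Real.log 2)) ≤ (1 - ε) * (h / ((j + 2) * Real.log 2)) := by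
            apply mul_le_mul_of_nonneg_right _ (by positivity)
            nlinarith
          linarith [hnn (Ioc (a + g1) (a + g1 + g2))]
        · have h5 := P2 hc2 hpos
          have h3 : (1 - ε) ^ 2 * (h / ((j + 2) * Real.log 2)) ≤ (1 - ε) * (h / ((j + 2) * Real.log 2)) := by
            apply mul_le_mul_of_nonneg_right _ (by positivity)
            nlinarith
          have h6 : (1 - ε) * (h / ((j + 2) * Real.log 2)) =
              (1 - ε) * (g1 / ((j + 2) * Real.log 2)) + (1 - ε) * (g2 / ((j + 2) * Real.log 2)) := by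
            rw [← hgsum]; ring
          linarith
  · have U1 := genU j a g1 hj le_rfl (by omega) (by omega) hK1
    have hD' : 0 < (j : ℝ) * Real.log 2 := by positivity
    have U2 : ∑ n ∈ Ioc (a + g1) (a + g1 + g2), keepProb z n ≤
        (1 + ε) * ((g2 + 2 * (ε * h)) / (j * Real.log 2)) := by
      rcases Nat.eq_zero_or_pos g2 with h0 | hpos
      · rw [h0, add_zero, Finset.Ioc_self, Finset.sum_empty]
        positivity
      · exact genU (j + 1) (a + g1) g2 (by omega) (by omega) (hb2 hpos) (by rw [hpow2]; omega) hK2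
    have e1 : (1 + ε) * (1 + 4 * ε) * (h / (j * Real.log 2)) =
        (1 + ε) * ((g1 + 2 * (ε * h)) / (j * Real.log 2)) + (1 + ε) * ((g2 + 2 * (ε * h)) / (j * Real.log 2)) := by
      have : (h : ℝ) / (j * Real.log 2) = (g1 + g2) / (j * Real.log 2) := by rw [hgsum]
      rw [mul_assoc, ← mul_add, ← add_div]
      congr 1
      rw [← mul_div_assoc]
      congr 1
      rw [← hgsum]; ring
    rw [e1]
    exact add_le_add U1 U2

end Pool.Agent.Q46.CM
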