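import Mathlib
import Pool.Agent.Q46.CM.Upper2
import Pool.Agent.Q46.CM.Avg

/-! The sieved random model: final theorems (helper46). -/

set_option autoImplicit false

namespace Pool.Agent.Q46.CM

open Finset Filter Topology MeasureTheory ProbabilityTheory Pool.Agent.H318R2.Cr
open scoped ENNReal

section
variable {z : ℕ → ℕ}

theorem zsmall (hz : Tendsto z atTop atTop)
    (hzl : Tendsto (fun j : ℕ => Real.log (z j) / Real.log j) atTop (𝓝 0)) (K : ℕ) (hK : 1 ≤ K) :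
    ∀ᶠ j : ℕ in atTop, (z j) ^ K ≤ j := by
  have hK0 : (0 : ℝ) < K := by exact_mod_cast hK
  filter_upwards [hz.eventually_ge_atTop 1, hzl.eventually_lt_const (show (0 : ℝ) < 1 / K by positivity),
    eventually_ge_atTop 2] with j h1 h2 h3
  have hj : (2 : ℝ) ≤ j := by exact_mod_cast h3
  have hlj : 0 < Real.log j := Real.log_pos (by linarith)
  rw [div_lt_iff₀ hlj, one_div, inv_mul_eq_div, lt_div_iff₀ hK0] at h2
  have hz0 : (0 : ℝ) < z j := by exact_mod_cast h1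
  have h4 : Real.log ((z j : ℝ) ^ K) ≤ Real.log j := by
    rw [Real.log_pow]; linarith
  have h5 : (z j : ℝ) ^ K ≤ j := (Real.log_le_log_iff (by positivity) (by linarith)).1 h4
  exact_mod_cast h5

theorem ztend (hz : Tendsto z atTop atTop)
    (hzl : Tendsto (fun j : ℕ => Real.log (z j) / Real.log j) atTop (𝓝 0)) :
    Tendsto (fun j : ℕ => (z j : ℝ) / j) atTop (𝓝 0) := by
  have h1 : Tendsto (fun j : ℕ => 1 / (z j : ℝ)) atTop (𝓝 0) := by
    have := tendsto_inv_atTop_zero.comp ((tendsto_natCast_atTop_atTop (R := ℝ)).comp hz)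
    simp only [one_div]
    exact this
  refine squeeze_zero' (Eventually.of_forall fun j => by positivity) ?_ h1
  filter_upwards [zsmall hz hzl 2 (by norm_num), hz.eventually_ge_atTop 1, eventually_ge_atTop 1] with j h2 h3 h4
  have hj : (0 : ℝ) < j := by exact_mod_cast h4
  have hz0 : (0 : ℝ) < z j := by exact_mod_cast h3
  rw [div_le_div_iff₀ hj hz0]
  have h5 : (z j : ℝ) ^ 2 ≤ j := by exact_mod_cast h2
  nlinarith

end

variable {Ω : Type*} [MeasurableSpace Ω] {μ : Measure Ω} {z : ℕ → ℕ} {A : ℕ → Set Ω}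

theorem upper (hA : IsSievedModel μ z A) (hz : Tendsto z atTop atTop)
    (hzl : Tendsto (fun j : ℕ => Real.log (z j) / Real.log j) atTop (𝓝 0)) (β : ℝ) (hβ : 1 < β) :
    ∀ᵐ ω ∂μ, cramerLimsup {n | ω ∈ A n} ≤ (β : EReal) := by
  have hl2 : 0 < Real.log 2 := Real.log_pos (by norm_num)
  set l := Real.log 2 with hl
  set η : ℝ := min ((β - 1) / 8) (1 / 8) with hη
  have hη0 : 0 < η := lt_min (by linarith) (by norm_num)
  have hη1 : η ≤ 1 / 8 := min_le_right _ _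
  have hη2 : 1 + 8 * η ≤ β := by
    have : η ≤ (β - 1) / 8 := min_le_left _ _
    linarith
  obtain ⟨K, x0, hK, hfl⟩ := fl_int η hη0
  set G : ℕ → ℕ := fun j => ⌊β * (Real.log ((2:ℝ) ^ j)) ^ 2⌋₊ with hG
  have hGle : ∀ j : ℕ, (G j : ℝ) ≤ β * (j * l) ^ 2 := by
    intro j
    have := Nat.floor_le (show 0 ≤ β * (Real.log ((2:ℝ) ^ j)) ^ 2 by positivity)
    rw [Real.log_pow] at this
    simp only [hG]
    rw [Real.log_pow]
    exact this
  have hGge : ∀ j : ℕ, β * (j * l) ^ 2 - 1 ≤ (G j : ℝ) := by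
    intro j
    have := Nat.lt_floor_add_one (β * (Real.log ((2:ℝ) ^ j)) ^ 2)
    rw [Real.log_pow] at this
    simp only [hG]
    rw [Real.log_pow]
    linarith
  have hz2 : ∀ᶠ j : ℕ in atTop, 2 ≤ z j := hz.eventually_ge_atTop 2
  have hsh : Tendsto (fun j : ℕ => j + 1) atTop atTop := tendsto_add_atTop_nat 1
  have hzt := ztend hz hzl
  have eA := hz.eventually_ge_atTop x0
  have eB := zsmall hz hzl K hK
  have eC := ev_pj hz2 hzt 1 one_pos
  have eR := tendsto_natCast_atTop_atTop (R := ℝ)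
  have hall : ∀ᶠ j : ℕ in atTop, μ (GG A j (G j)) ≤ ENNReal.ofReal (Real.exp (-((η * l) * (j : ℝ)))) := by
    filter_upwards [eA, hsh.eventually eA, eB, hsh.eventually eB, eC, hsh.eventually eC, eventually_ge_atTop 1,
      eR.eventually (eventually_ge_atTop ((2 + η) / (η * l ^ 2))), ev_exp 2 (β * l ^ 2) l hl2 (by positivity),
      eR.eventually (eventually_ge_atTop ((4 * l ^ 2 + 1) / (3 * η * l ^ 2)))]
      with j a1 a2 a3 a4 a5 a6 a7 a8 a9 a10
    have hj : (1 : ℝ) ≤ j := by exact_mod_cast a7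
    have hGj := hGge j
    -- (c)
    have hc : (j : ℝ) + 1 ≤ η * G j := by
      rw [div_le_iff₀ (by positivity)] at a8
      have b1 : (2 + η) * j ≤ j * (η * l ^ 2) * j := mul_le_mul_of_nonneg_right a8 (by linarith)
      have b2 : η * (β * (j * l) ^ 2 - 1) ≤ η * G j := mul_le_mul_of_nonneg_left hGj hη0.le
      have b3 : η * ((j * l) ^ 2) ≤ η * (β * (j * l) ^ 2) := by
        apply mul_le_mul_of_nonneg_left _ hη0.le
        have : 0 ≤ ((j : ℝ) * l) ^ 2 := sq_nonneg _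
        nlinarith
      nlinarith
    -- (e)
    have he : G j ≤ 2 ^ (j + 1) := by
      have b1 : (G j : ℝ) ≤ (2 : ℝ) ^ j := by
        refine (hGle j).trans ?_
        rw [Real.rpow_two] at a9
        have b2 : (2 : ℝ) ^ j = Real.exp (l * j) := by
          rw [hl, ← Real.exp_log (show (0 : ℝ) < 2 ^ j by positivity), Real.log_pow]
          congr 1; ring
        rw [b2]
        calc β * ((j : ℝ) * l) ^ 2 = β * l ^ 2 * (j : ℝ) ^ 2 := by ring
          _ ≤ _ := a9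
      have b3 : G j ≤ 2 ^ j := by exact_mod_cast b1
      exact b3.trans (Nat.pow_le_pow_right (by norm_num) (Nat.le_succ j))
    have hs := fun a (h1 : 2 ^ j ≤ a) (h2 : a < 2 ^ (j + 1)) => keep_sum (z := z) hη0 (by linarith) hfl a7 a1 a2
      (by
        have : ((z j ^ K : ℕ) : ℝ) ≤ j := by exact_mod_cast a3
        linarith)
      (by
        have : ((z (j + 1) ^ K : ℕ) : ℝ) ≤ ((j + 1 : ℕ) : ℝ) := by exact_mod_cast a4
        push_cast at this ⊢
        linarith) a5 a6 h1 h2 he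
    refine (GG_bound hA hs).trans (ENNReal.ofReal_le_ofReal ?_)
    have b2 : (2 : ℝ) ^ j = Real.exp (l * j) := by
      rw [hl, ← Real.exp_log (show (0 : ℝ) < 2 ^ j by positivity), Real.log_pow]
      congr 1; ring
    rw [b2, ← Real.exp_add]
    apply Real.exp_le_exp.2
    -- (f)
    have hf : (1 + η) * (l * j) ≤ (1 - η) ^ 2 * (G j / ((j + 2) * l)) := by
      rw [← mul_div_assoc, le_div_iff₀ (by positivity)]
      have c1 : (1 + 4 * η) ≤ (1 - η) ^ 2 * β := by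
        have d1 : (1 - η) ^ 2 * (1 + 8 * η) ≤ (1 - η) ^ 2 * β := by gcongr
        have d2 : 0 ≤ η * (2 - 15 * η) := mul_nonneg hη0.le (by linarith)
        have d3 : 0 ≤ η ^ 3 := by positivity
        have d4 : (1 - η) ^ 2 * (1 + 8 * η) = 1 + 4 * η + η * (2 - 15 * η) + 8 * η ^ 3 := by ring
        linarith
      have c2 : (1 - η) ^ 2 * (β * (j * l) ^ 2 - 1) ≤ (1 - η) ^ 2 * G j := by gcongr
      have c3 : (1 + 4 * η) * (j * l) ^ 2 ≤ (1 - η) ^ 2 * β * (j * l) ^ 2 := by gcongr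
      have c4 : (1 - η) ^ 2 ≤ 1 := by nlinarith
      rw [div_le_iff₀ (by positivity)] at a10
      have c5 : (4 * l ^ 2 + 1) * j ≤ j * (3 * η * l ^ 2) * j := mul_le_mul_of_nonneg_right a10 (by linarith)
      have c6 : 2 * (1 + η) * (j * l ^ 2) ≤ 4 * l ^ 2 * j := by
        have : 0 ≤ (j : ℝ) * l ^ 2 := by positivity
        nlinarith
      nlinarith
    linarith
  obtain ⟨J, hJ⟩ := eventually_atTop.1 hall
  filter_upwards [bc' (η * l) (by positivity) (fun j => GG A j (G j)) J hJ] with ω hω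
  obtain ⟨J', hJ'⟩ := hω
  apply limsup_le {n | ω ∈ A n} β J'
  intro j hj a ha1 ha2
  have h1 := hJ' j hj
  unfold GG at h1
  simp only [Set.mem_setOf_eq, not_exists, not_and, not_forall, not_not] at h1
  obtain ⟨n, hn1, hn2, hn3⟩ := h1 a ha1 ha2
  refine ⟨n, hn3, hn1, ?_⟩
  have h2 : (n : ℝ) ≤ a + G j := by exact_mod_cast hn2
  have h3 : (G j : ℝ) ≤ β * (Real.log ((2:ℝ) ^ j)) ^ 2 := Nat.floor_le (by positivity)
  linarith

theorem lower_one (hA : IsSievedModel μ z A) (hz2 : ∀ᶠ j : ℕ in atTop, 2 ≤ z j)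
    (hz : Tendsto (fun j : ℕ => (z j : ℝ) / j) atTop (𝓝 0)) : ∀ᵐ ω ∂μ, 1 ≤ cramerLimsup {n | ω ∈ A n} := by
  have h1 : ∀ k : ℕ, ∀ᵐ ω ∂μ, ((1 - 1 / ((k : ℝ) + 2) : ℝ) : EReal) ≤ cramerLimsup {n | ω ∈ A n} := by
    intro k
    have hk : 1 / ((k : ℝ) + 2) < 1 := by
      rw [div_lt_one (by positivity)]
      have : (0 : ℝ) ≤ k := Nat.cast_nonneg k
      linarith
    have hk0 : 0 < 1 / ((k : ℝ) + 2) := by positivity
    apply engine hA hz2 hz (lam := 1 - 1 / ((k : ℝ) + 2)) (δ := 0) (by linarith) zero_le_one (by linarith)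
    filter_upwards with j
    obtain ⟨a, ha⟩ := avg (z j) (hh (1 - 1 / ((k : ℝ) + 2)) j)
    exact ⟨a, by rw [sub_zero, one_mul]; exact ha⟩
  filter_upwards [ae_all_iff.2 h1] with ω hω
  have h2 : Tendsto (fun k : ℕ => ((1 - 1 / ((k : ℝ) + 2) : ℝ) : EReal)) atTop (𝓝 ((1 : ℝ) : EReal)) := by
    apply (continuous_coe_real_ereal.tendsto _).comp
    have h3 : Tendsto (fun k : ℕ => 1 / ((k : ℝ) + 2)) atTop (𝓝 0) := by
      have h4 : Tendsto (fun k : ℕ => (k : ℝ) + 2) atTop atTop :=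
        tendsto_atTop_add_const_right _ _ tendsto_natCast_atTop_atTop
      have h6 := tendsto_inv_atTop_zero.comp h4
      simp only [one_div]
      exact h6
    simpa using h3.const_sub 1
  have h5 := le_of_tendsto' h2 hω
  simpa using h5

theorem exactly_one (hA : IsSievedModel μ z A) (hz : Tendsto z atTop atTop)
    (hzl : Tendsto (fun j : ℕ => Real.log (z j) / Real.log j) atTop (𝓝 0)) :
    ∀ᵐ ω ∂μ, cramerLimsup {n | ω ∈ A n} = 1 := by
  have h1 : ∀ k : ℕ, ∀ᵐ ω ∂μ, cramerLimsup {n | ω ∈ A n} ≤ ((1 + 1 / ((k : ℝ) + 1) : ℝ) : EReal) := by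
    intro k
    exact upper hA hz hzl _ (by have : 0 < 1 / ((k : ℝ) + 1) := by positivity
                                linarith)
  filter_upwards [ae_all_iff.2 h1, lower_one hA (hz.eventually_ge_atTop 2) (ztend hz hzl)] with ω hω h0
  apply le_antisymm _ h0
  have h2 : Tendsto (fun k : ℕ => ((1 + 1 / ((k : ℝ) + 1) : ℝ) : EReal)) atTop (𝓝 ((1 : ℝ) : EReal)) := by
    apply (continuous_coe_real_ereal.tendsto _).comp
    simpa using (tendsto_one_div_add_atTop_nhds_zero_nat (𝕜 := ℝ)).const_add 1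
  have h5 := ge_of_tendsto' h2 hω
  simpa using h5

theorem above_one (α : ℝ) (hα : 0 < α) : ∃ L : ℝ, 1 < L ∧ ∀ z : ℕ → ℕ, (∀ᶠ j : ℕ in atTop, (j : ℝ) ^ α ≤ z j) →
    Tendsto (fun j : ℕ => (z j : ℝ) / j) atTop (𝓝 0) →
    ∀ (Ω : Type*) [MeasurableSpace Ω] (μ : Measure Ω) (A : ℕ → Set Ω), IsSievedModel μ z A →
      ∀ᵐ ω ∂μ, (L : EReal) ≤ cramerLimsup {n | ω ∈ A n} := by
  obtain ⟨δ, hδ0, hδ1, K, z₀, hK, hlow⟩ := lowInt (3 / α)
  refine ⟨1 + δ / 2, by linarith, fun z h1 h2 Ω _ μ A hA => ?_⟩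
  have hz2 : ∀ᶠ j : ℕ in atTop, 2 ≤ z j := ev_z hα h1 2
  refine engine hA hz2 h2 (by linarith) hδ1.le (by nlinarith) ?_
  filter_upwards [ev_z hα h1 z₀, ev_hh (1 + δ / 2) (by linarith) hα h1, ev_hh1 (1 + δ / 2) (by linarith)] with j e1 e2 e3
  obtain ⟨a, -, ha⟩ := hlow (z j) e1 (hh (1 + δ / 2) j) e3 e2
  exact ⟨a, ha⟩

end Pool.Agent.Q46.CM
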