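import Mathlib
import Pool.Agent.Q46.CM.Expect
import Pool.Agent.Q46.CM.Chern
import Pool.Agent.Q46.CM.Final

/-! Uniform asymptotics in short intervals for the sieved random model (helper46). -/

set_option autoImplicit false

namespace Pool.Agent.Q46.CM

open Finset Filter Topology MeasureTheory ProbabilityTheory Pool.Agent.H318R2.Cr
open scoped ENNReal

variable {Ω : Type*} [MeasurableSpace Ω] {μ : Measure Ω} {z : ℕ → ℕ} {A : ℕ → Set Ω}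

/-- some interval starting in the block `j`, of length at least `H`, contains too few or too many kept integers -/
def BB (A : ℕ → Set Ω) (j : ℕ) (H lo up : ℝ) : Set Ω :=
  {ω | ∃ a h : ℕ, 2 ^ j ≤ a ∧ a < 2 ^ (j + 1) ∧ h ≤ 2 ^ (j + 1) ∧ H ≤ h ∧
    (SS A (Ioc a (a + h)) ω ≤ lo * h ∨ up * h ≤ SS A (Ioc a (a + h)) ω)}

theorem BB_bound (hA : IsSievedModel μ z A) {j : ℕ} {H ε m₁ m₂ s : ℝ} (hε0 : 0 ≤ ε) (hε1 : ε ≤ 1)
    (hm1 : 0 ≤ m₁) (hm12 : m₁ ≤ m₂)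
    (hm : ∀ a h : ℕ, 2 ^ j ≤ a → a < 2 ^ (j + 1) → h ≤ 2 ^ (j + 1) → H ≤ h →
      m₁ * h ≤ ∑ n ∈ Ioc a (a + h), keepProb z n ∧ ∑ n ∈ Ioc a (a + h), keepProb z n ≤ m₂ * h)
    (hs : s ≤ ε ^ 2 * (m₁ * H) / 4) :
    μ (BB A j H ((1 - ε) * m₁) ((1 + ε) * m₂)) ≤ ENNReal.ofReal ((2 : ℝ) ^ (2 * j + 3) * Real.exp (-s)) := by
  classical
  set T : Finset (ℕ × ℕ) := (Ico (2 ^ j) (2 ^ (j + 1)) ×ˢ range (2 ^ (j + 1) + 1)).filter (fun p => H ≤ (p.2 : ℝ)) with hT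
  have hsub : BB A j H ((1 - ε) * m₁) ((1 + ε) * m₂) ⊆ ⋃ p ∈ T,
      ({ω | SS A (Ioc p.1 (p.1 + p.2)) ω ≤ (1 - ε) * (m₁ * p.2)} ∪
        {ω | (1 + ε) * (m₂ * p.2) ≤ SS A (Ioc p.1 (p.1 + p.2)) ω}) := by
    rintro ω ⟨a, h, ha1, ha2, hh, hH, hor⟩
    simp only [Set.mem_iUnion]
    refine ⟨(a, h), ?_, ?_⟩
    · rw [hT, mem_filter, mem_product, mem_Ico, mem_range]
      exact ⟨⟨⟨ha1, ha2⟩, by show h < 2 ^ (j + 1) + 1; omega⟩, hH⟩
    · rcases hor with h1 | h1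
      · left
        show SS A (Ioc a (a + h)) ω ≤ (1 - ε) * (m₁ * h)
        linarith
      · right
        show (1 + ε) * (m₂ * h) ≤ SS A (Ioc a (a + h)) ω
        linarith
  refine (measure_mono hsub).trans ((measure_biUnion_finset_le _ _).trans ?_)
  have h1 : ∀ p ∈ T, μ ({ω | SS A (Ioc p.1 (p.1 + p.2)) ω ≤ (1 - ε) * (m₁ * p.2)} ∪
        {ω | (1 + ε) * (m₂ * p.2) ≤ SS A (Ioc p.1 (p.1 + p.2)) ω}) ≤
      ENNReal.ofReal (2 * Real.exp (-s)) := by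
    rintro ⟨a, h⟩ hp
    rw [hT, mem_filter, mem_product, mem_Ico, mem_range] at hp
    obtain ⟨⟨⟨ha1, ha2⟩, hh⟩, hH⟩ := hp
    simp only at ha1 ha2 hh hH ⊢
    obtain ⟨g1, g2⟩ := hm a h ha1 ha2 (by omega) hH
    have hh0 : (0 : ℝ) ≤ h := Nat.cast_nonneg h
    have k1 := chern_low hA (Ioc a (a + h)) hε0 hε1 (show 0 ≤ m₁ * h by positivity) g1
    have k2 := chern_up hA (Ioc a (a + h)) hε0 hε1 g2
    have e1 : s ≤ ε ^ 2 * (m₁ * h) / 4 := by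
      refine hs.trans ?_
      have : m₁ * H ≤ m₁ * h := mul_le_mul_of_nonneg_left hH hm1
      have h2 : 0 ≤ ε ^ 2 := sq_nonneg ε
      nlinarith [mul_le_mul_of_nonneg_left this h2]
    have e2 : s ≤ ε ^ 2 * (m₂ * h) / 4 := by
      refine e1.trans ?_
      have : m₁ * h ≤ m₂ * h := mul_le_mul_of_nonneg_right hm12 hh0
      have h2 : 0 ≤ ε ^ 2 := sq_nonneg ε
      nlinarith [mul_le_mul_of_nonneg_left this h2]
    calc μ ({ω | SS A (Ioc a (a + h)) ω ≤ (1 - ε) * (m₁ * h)} ∪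
          {ω | (1 + ε) * (m₂ * h) ≤ SS A (Ioc a (a + h)) ω}) ≤
        μ {ω | SS A (Ioc a (a + h)) ω ≤ (1 - ε) * (m₁ * h)} +
          μ {ω | (1 + ε) * (m₂ * h) ≤ SS A (Ioc a (a + h)) ω} := measure_union_le _ _
      _ ≤ ENNReal.ofReal (Real.exp (-s)) + ENNReal.ofReal (Real.exp (-s)) := by
          apply add_le_add
          · refine k1.trans (ENNReal.ofReal_le_ofReal (Real.exp_le_exp.2 (by linarith)))
          · refine k2.trans (ENNReal.ofReal_le_ofReal (Real.exp_le_exp.2 (by linarith)))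
      _ = ENNReal.ofReal (2 * Real.exp (-s)) := by
          rw [← ENNReal.ofReal_add (Real.exp_pos _).le (Real.exp_pos _).le]
          congr 1; ring
  refine (Finset.sum_le_sum h1).trans ?_
  rw [Finset.sum_const, nsmul_eq_mul]
  have hcard : T.card ≤ 2 ^ (2 * j + 2) := by
    refine (Finset.card_filter_le _ _).trans ?_
    rw [Finset.card_product, Nat.card_Ico, card_range]
    have e1 : 2 ^ (j + 1) - 2 ^ j = 2 ^ j := by rw [pow_succ]; omega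
    rw [e1]
    have e2 : 2 ^ (j + 1) + 1 ≤ 2 ^ (j + 2) := by
      have : 1 ≤ 2 ^ (j + 1) := Nat.one_le_two_pow
      rw [pow_succ 2 (j + 1)]; omega
    calc 2 ^ j * (2 ^ (j + 1) + 1) ≤ 2 ^ j * 2 ^ (j + 2) := Nat.mul_le_mul_left _ e2
      _ = 2 ^ (2 * j + 2) := by rw [← pow_add]; congr 1; ring
  calc ((T.card : ℕ) : ℝ≥0∞) * ENNReal.ofReal (2 * Real.exp (-s)) ≤
      ((2 ^ (2 * j + 2) : ℕ) : ℝ≥0∞) * ENNReal.ofReal (2 * Real.exp (-s)) := by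
        gcongr
    _ = ENNReal.ofReal ((2 : ℝ) ^ (2 * j + 3) * Real.exp (-s)) := by
        rw [← ENNReal.ofReal_natCast, ← ENNReal.ofReal_mul (by positivity)]
        congr 1
        push_cast
        ring

theorem core (hA : IsSievedModel μ z A) {ε : ℝ} (hε : 0 < ε) (hε1 : ε ≤ 1 / 4) {K C : ℕ}
    (hfl : ∀ y h a : ℕ, y ^ K ≤ h → C ≤ h → |(cnt y a h : ℝ) - h * V y| ≤ ε * (h * V y))
    (H : ℕ → ℝ) (hH : Tendsto (fun j : ℕ => H j / (j : ℝ) ^ 2) atTop atTop)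
    (hK1 : ∀ᶠ j : ℕ in atTop, ((z j ^ K : ℕ) : ℝ) ≤ ε * H j)
    (hK2 : ∀ᶠ j : ℕ in atTop, ((z (j + 1) ^ K : ℕ) : ℝ) ≤ ε * H j)
    (hp : ∀ᶠ j : ℕ in atTop, pj z j ≤ 1) :
    ∀ᵐ ω ∂μ, ∃ J' : ℕ, ∀ j ≥ J', ∀ a h : ℕ, 2 ^ j ≤ a → a < 2 ^ (j + 1) → h ≤ 2 ^ (j + 1) → H j ≤ h →
      (1 - ε) ^ 3 / ((j + 2) * Real.log 2) * h ≤ SS A (Ioc a (a + h)) ω ∧
      SS A (Ioc a (a + h)) ω ≤ (1 + ε) ^ 2 * (1 + 4 * ε) / (j * Real.log 2) * h := by
  have hl2 : 0 < Real.log 2 := Real.log_pos (by norm_num)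
  set l := Real.log 2 with hl
  have hsh : Tendsto (fun j : ℕ => j + 1) atTop atTop := tendsto_add_atTop_nat 1
  have eR := tendsto_natCast_atTop_atTop (R := ℝ)
  -- the constant
  set c : ℝ := ε ^ 2 * (1 - ε) ^ 2 / (12 * l) with hc
  have hc0 : 0 < c := by
    rw [hc]
    have : 0 < 1 - ε := by linarith
    positivity
  have hall : ∀ᶠ j : ℕ in atTop, μ (BB A j (H j) ((1 - ε) * ((1 - ε) ^ 2 / ((j + 2) * l)))
      ((1 + ε) * ((1 + ε) * (1 + 4 * ε) / (j * l)))) ≤ ENNReal.ofReal (Real.exp (-(1 * (j : ℝ)))) := by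
    filter_upwards [hK1, hK2, hp, hsh.eventually hp, eventually_ge_atTop 1,
      hH.eventually_ge_atTop (6 / c), hH.eventually_ge_atTop (((C : ℝ) + 1) / ε)] with j a1 a2 a3 a4 a5 a6 a7
    have hj : (1 : ℝ) ≤ j := by exact_mod_cast a5
    have hj2 : (0 : ℝ) < (j : ℝ) ^ 2 := by positivity
    have hj21 : (1 : ℝ) ≤ (j : ℝ) ^ 2 := one_le_pow₀ hj
    rw [div_le_div_iff₀ hc0 hj2] at a6
    rw [div_le_div_iff₀ hε hj2] at a7
    have hHpos : (C : ℝ) + 1 ≤ ε * H j := by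
      have hC0 : (0 : ℝ) ≤ C := Nat.cast_nonneg C
      nlinarith
    have hm : ∀ a h : ℕ, 2 ^ j ≤ a → a < 2 ^ (j + 1) → h ≤ 2 ^ (j + 1) → H j ≤ h →
        (1 - ε) ^ 2 / ((j + 2) * l) * h ≤ ∑ n ∈ Ioc a (a + h), keepProb z n ∧
        ∑ n ∈ Ioc a (a + h), keepProb z n ≤ (1 + ε) * (1 + 4 * ε) / (j * l) * h := by
      intro a h ha1 ha2 hh hHh
      have hεH : ε * H j ≤ ε * h := mul_le_mul_of_nonneg_left hHh hε.le
      have hC0 : (0 : ℝ) ≤ C := Nat.cast_nonneg C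
      have hb := keep_both (z := z) hε (by linarith) hfl a5 (a1.trans hεH) (a2.trans hεH)
        (by linarith) (by linarith) a3 a4 ha1 ha2 hh
      refine ⟨le_trans (le_of_eq ?_) hb.1, hb.2.trans (le_of_eq ?_)⟩
      · ring
      · ring
    have hm1 : 0 ≤ (1 - ε) ^ 2 / (((j : ℝ) + 2) * l) := by positivity
    have hm12 : (1 - ε) ^ 2 / (((j : ℝ) + 2) * l) ≤ (1 + ε) * (1 + 4 * ε) / (j * l) := by
      apply div_le_div₀ (by positivity) _ (by positivity) _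
      · nlinarith
      · apply mul_le_mul_of_nonneg_right _ hl2.le
        linarith
    have hs : 6 * (j : ℝ) ≤ ε ^ 2 * ((1 - ε) ^ 2 / (((j : ℝ) + 2) * l) * H j) / 4 := by
      have e1 : ε ^ 2 * ((1 - ε) ^ 2 / (((j : ℝ) + 2) * l) * H j) / 4 = c * H j * 3 / (j + 2) := by
        rw [hc]
        have : (0:ℝ) < (j : ℝ) + 2 := by linarith
        field_simp
        ring
      rw [e1, le_div_iff₀ (by linarith)]
      nlinarith
    refine (BB_bound hA hε.le (by linarith) hm1 hm12 hm hs).trans (ENNReal.ofReal_le_ofReal ?_)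
    have e2 : (2 : ℝ) ^ (2 * j + 3) = Real.exp (l * ((2 * j + 3 : ℕ) : ℝ)) := by
      rw [hl, ← Real.exp_log (show (0 : ℝ) < 2 ^ (2 * j + 3) by positivity), Real.log_pow]
      congr 1; ring
    rw [e2, ← Real.exp_add]
    apply Real.exp_le_exp.2
    have hl1 : l ≤ 1 := by
      have := Real.log_two_lt_d9
      rw [hl]; linarith
    push_cast
    nlinarith
  obtain ⟨J, hJ⟩ := eventually_atTop.1 hall
  filter_upwards [bc' 1 one_pos (fun j => BB A j (H j) ((1 - ε) * ((1 - ε) ^ 2 / ((j + 2) * l)))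
      ((1 + ε) * ((1 + ε) * (1 + 4 * ε) / (j * l)))) J hJ] with ω hω
  obtain ⟨J', hJ'⟩ := hω
  refine ⟨J', fun j hj a h ha1 ha2 hh hHh => ?_⟩
  have h1 := hJ' j hj
  have h2 : ¬ (SS A (Ioc a (a + h)) ω ≤ ((1 - ε) * ((1 - ε) ^ 2 / ((j + 2) * l))) * h ∨
      ((1 + ε) * ((1 + ε) * (1 + 4 * ε) / (j * l))) * h ≤ SS A (Ioc a (a + h)) ω) :=
    fun hor => h1 ⟨a, h, ha1, ha2, hh, hHh, hor⟩
  push Not at h2
  obtain ⟨h3, h4⟩ := h2
  constructor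
  · refine le_trans (le_of_eq ?_) h3.le
    ring
  · refine h4.le.trans (le_of_eq ?_)
    ring

end Pool.Agent.Q46.CM
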