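import Mathlib
import Pool.Agent.Q46.CM.Main

/-! The sieved random model exists (helper46). -/

set_option autoImplicit false

namespace Pool.Agent.Q46.CM

open Finset Filter Topology MeasureTheory ProbabilityTheory Pool.Agent.H318R2.Cr
open scoped ENNReal

/-- a coin which shows `true` with probability `p` -/
noncomputable def coin (p : ℝ) : Measure Bool :=
  ENNReal.ofReal p • Measure.dirac true + ENNReal.ofReal (1 - p) • Measure.dirac false

theorem coin_prob {p : ℝ} (h0 : 0 ≤ p) (h1 : p ≤ 1) : IsProbabilityMeasure (coin p) := by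
  constructor
  unfold coin
  rw [Measure.add_apply, Measure.smul_apply, Measure.smul_apply, measure_univ, measure_univ, smul_eq_mul, smul_eq_mul,
    mul_one, mul_one, ← ENNReal.ofReal_add h0 (by linarith)]
  norm_num

theorem coin_true (p : ℝ) : coin p {true} = ENNReal.ofReal p := by
  unfold coin
  rw [Measure.add_apply, Measure.smul_apply, Measure.smul_apply, Measure.dirac_apply, Measure.dirac_apply]
  simp

theorem exists_model (z : ℕ → ℕ) : ∃ (μ : Measure (ℕ → Bool)) (A : ℕ → Set (ℕ → Bool)), IsSievedModel μ z A := by
  have : ∀ n, IsProbabilityMeasure (coin (keepProb z n)) := fun n => coin_prob (keep_nonneg z n) (keep_le_one z n)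
  set μ := Measure.infinitePi (fun n => coin (keepProb z n)) with hμ
  set A : ℕ → Set (ℕ → Bool) := fun n => {x | x n = true} with hA
  have hm : ∀ n, MeasurableSet (A n) := by
    intro n
    have h : Measurable (fun x : ℕ → Bool => x n) := measurable_pi_apply n
    exact h (measurableSet_singleton true)
  have hpi : ∀ s : Finset ℕ, μ (⋂ n ∈ s, A n) = ∏ n ∈ s, ENNReal.ofReal (keepProb z n) := by
    intro s
    have h1 : (⋂ n ∈ s, A n) = Set.pi (s : Set ℕ) (fun _ => ({true} : Set Bool)) := by
      ext x
      simp [hA, Set.mem_pi]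
    rw [h1, hμ, Measure.infinitePi_pi _ (fun i _ => measurableSet_singleton true)]
    exact Finset.prod_congr rfl fun n _ => coin_true _
  have hone : ∀ n, μ (A n) = ENNReal.ofReal (keepProb z n) := by
    intro n
    have := hpi {n}
    simpa using this
  refine ⟨μ, A, hm, ?_, hone⟩
  rw [iIndepSet_iff_meas_biInter hm]
  intro s
  rw [hpi]
  exact Finset.prod_congr rfl fun n _ => (hone n).symm

end Pool.Agent.Q46.CM
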