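import Mathlib
import Pool.Agent.Q46.CM.Core

/-! Maier's phenomenon in the sieved random model (helper46). -/

set_option autoImplicit false

namespace Pool.Agent.Q46.CM

open Finset Filter Topology MeasureTheory ProbabilityTheory Pool.Agent.H318R2.Cr
open scoped ENNReal

variable {Ω : Type*} [MeasurableSpace Ω] {μ : Measure Ω} {z : ℕ → ℕ} {A : ℕ → Set Ω}

theorem meas_SS (I : Finset ℕ) : Measurable[sg A (I : Set ℕ)] (SS A I) := by
  have e : SS A I = fun ω => ∑ n ∈ I, (A n).indicator (fun _ => (1 : ℝ)) ω := funext (SS_apply I)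
  rw [e]
  letI : MeasurableSpace Ω := sg A (I : Set ℕ)
  refine Finset.measurable_sum _ (fun n hn => ?_)
  exact measurable_const.indicator (meas_sg (A := A) (by exact_mod_cast hn))

theorem measSet_SS (I : Finset ℕ) (c : ℝ) : MeasurableSet[sg A (I : Set ℕ)] {ω | c ≤ SS A I ω} := by
  have h := meas_SS (A := A) I
  letI : MeasurableSpace Ω := sg A (I : Set ℕ)
  exact measurableSet_le measurable_const h

/-- all the intervals are rich -/
theorem all_rich (hA : IsSievedModel μ z A) (I : ℕ → Finset ℕ) (N : ℕ)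
    (hI : ∀ i < N, ∀ k < N, i ≠ k → Disjoint (I i) (I k)) {η m : ℝ} (hη0 : 0 ≤ η) (hη1 : η ≤ 1)
    (hm : ∀ i < N, ∑ n ∈ I i, keepProb z n ≤ m) :
    μ (⋂ i ∈ range N, {ω | (1 + η) * m ≤ SS A (I i) ω}) ≤ ENNReal.ofReal (Real.exp (-(η ^ 2 * m / 4 * N))) := by
  rw [group_prod hA.measurable hA.indep (fun i => (I i : Set ℕ)) (fun i => {ω | (1 + η) * m ≤ SS A (I i) ω})
    (fun i => measSet_SS (I i) _) (range N)
    (fun i hi k hk hik => by
      rw [mem_range] at hi hk
      exact Finset.disjoint_coe.2 (hI i hi k hk hik))]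
  calc ∏ i ∈ range N, μ {ω | (1 + η) * m ≤ SS A (I i) ω} ≤
      ∏ _i ∈ range N, ENNReal.ofReal (Real.exp (-(η ^ 2 * m / 4))) :=
        Finset.prod_le_prod' fun i hi => chern_up hA (I i) hη0 hη1 (hm i (mem_range.1 hi))
    _ = ENNReal.ofReal (Real.exp (-(η ^ 2 * m / 4 * N))) := by
        rw [Finset.prod_const, card_range, ← ENNReal.ofReal_pow (Real.exp_pos _).le, ← Real.exp_nat_mul]
        congr 2
        ring

theorem ev_N (hz : Tendsto (fun j : ℕ => (z j : ℝ) / j) atTop (𝓝 0)) (h : ℕ → ℕ)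
    (hh : ∀ᶠ j : ℕ in atTop, (h j : ℝ) + 1 ≤ Real.exp (Real.log 2 / 8 * j)) :
    ∀ᶠ j : ℕ in atTop, ∀ P Q N : ℕ, 1 ≤ P → P ≤ 4 ^ (z j) → Q = P * (h j + 1) → N = 2 ^ j / (4 * Q) →
      4 * Q ≤ 2 ^ j ∧ Real.exp (Real.log 2 / 2 * j) ≤ N := by
  have hl2 : 0 < Real.log 2 := Real.log_pos (by norm_num)
  set l := Real.log 2 with hl
  filter_upwards [ev_small hz (1 / 16) (by norm_num), hh, ev_exp 1 8 (l / 4) (by positivity) (by norm_num),
    eventually_ge_atTop 1] with j e1 f2 e3 e4 P Q N hP1 hP hQ hN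
  have hj : (1 : ℝ) ≤ j := by exact_mod_cast e4
  rw [Real.rpow_one] at e3
  have hQ0 : 1 ≤ Q := by
    rw [hQ]; exact Nat.mul_pos hP1 (Nat.succ_pos _)
  have hQ0' : (1 : ℝ) ≤ Q := by exact_mod_cast hQ0
  have f1 : ((4 : ℝ) ^ (z j)) ≤ Real.exp (l / 8 * j) := by
    have : (4 : ℝ) ^ (z j) = Real.exp (2 * l * z j) := by
      rw [show (4 : ℝ) = 2 ^ 2 by norm_num, ← pow_mul, ← Real.exp_log (show (0 : ℝ) < 2 ^ (2 * z j) by positivity),
        Real.log_pow]
      congr 1
      push_cast; ring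
    rw [this]
    apply Real.exp_le_exp.2
    nlinarith
  have f3 : (Q : ℝ) ≤ Real.exp (l / 4 * j) := by
    rw [hQ]
    push_cast
    have g1 : (P : ℝ) ≤ (4 : ℝ) ^ (z j) := by exact_mod_cast hP
    calc (P : ℝ) * ((h j : ℝ) + 1) ≤ Real.exp (l / 8 * j) * Real.exp (l / 8 * j) := by
          apply mul_le_mul (g1.trans f1) f2 (by positivity) (Real.exp_pos _).le
      _ = Real.exp (l / 4 * j) := by rw [← Real.exp_add]; congr 1; ring
  have g4 : (2 : ℝ) ^ j = Real.exp (l * j) := by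
    rw [hl, ← Real.exp_log (show (0 : ℝ) < 2 ^ j by positivity), Real.log_pow]
    congr 1; ring
  set G := Real.exp (l / 2 * j) with hG
  have hG1 : 1 ≤ G := by
    rw [hG]; apply Real.one_le_exp
    positivity
  have f4 : G ≤ N := by
    have h1 : (2 : ℝ) ^ j / (4 * Q) < N + 1 := by
      have h2 : 2 ^ j < (4 * Q) * (N + 1) := by
        rw [hN]; exact Nat.lt_mul_div_succ _ (by omega)
      have h3 : (2 : ℝ) ^ j < (4 * Q) * (N + 1) := by exact_mod_cast h2
      rw [div_lt_iff₀ (by positivity)]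
      linarith
    have h2 : 2 * G ≤ (2 : ℝ) ^ j / (4 * Q) := by
      rw [le_div_iff₀ (by positivity), g4]
      have h3 : 8 ≤ Real.exp (l / 4 * j) := by
        refine le_trans ?_ e3
        linarith
      calc 2 * G * (4 * Q) ≤ 2 * G * (4 * Real.exp (l / 4 * j)) := by gcongr
        _ = 8 * (G * Real.exp (l / 4 * j)) := by ring
        _ ≤ Real.exp (l / 4 * j) * (G * Real.exp (l / 4 * j)) := by gcongr
        _ = Real.exp (l * j) := by
            rw [hG, ← Real.exp_add, ← Real.exp_add]; congr 1; ring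
    linarith
  have hN1 : 1 ≤ N := by
    have : (1 : ℝ) ≤ N := hG1.trans f4
    exact_mod_cast this
  refine ⟨?_, f4⟩
  by_contra hcon
  push Not at hcon
  have : 2 ^ j / (4 * Q) = 0 := Nat.div_eq_of_lt hcon
  omega

/-- the intervals of length `h j` in the block `j` are all rich -/
def RR (A : ℕ → Set Ω) (j h : ℕ) (c : ℝ) : Set Ω :=
  {ω | ∀ b, 2 ^ j ≤ b → b + h < 2 ^ (j + 1) → c ≤ SS A (Ioc b (b + h)) ω}

theorem poor (hA : IsSievedModel μ z A) (hz : Tendsto (fun j : ℕ => (z j : ℝ) / j) atTop (𝓝 0)) (h : ℕ → ℕ)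
    (hh : ∀ᶠ j : ℕ in atTop, (h j : ℝ) + 1 ≤ Real.exp (Real.log 2 / 8 * j))
    (hh1 : ∀ᶠ j : ℕ in atTop, 1 ≤ h j) {δ η : ℝ} (hδ : δ < 1) (hη0 : 0 < η) (hη1 : η ≤ 1)
    (H : ∀ᶠ j : ℕ in atTop, ∃ a : ℕ, (cnt (z j) a (h j) : ℝ) ≤ (1 - δ) * (h j * V (z j))) :
    ∀ᵐ ω ∂μ, ∃ J' : ℕ, ∀ j ≥ J', ∃ b : ℕ, 2 ^ j ≤ b ∧ b + h j < 2 ^ (j + 1) ∧
      SS A (Ioc b (b + h j)) ω < (1 + η) * ((1 - δ) * (h j / (j * Real.log 2))) := by
  have hl2 : 0 < Real.log 2 := Real.log_pos (by norm_num)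
  set l := Real.log 2 with hl
  set c : ℝ := η ^ 2 * (1 - δ) / (4 * l) with hc
  have hc0 : 0 < c := by
    rw [hc]
    have : 0 < 1 - δ := by linarith
    positivity
  have hall : ∀ᶠ j : ℕ in atTop, μ (RR A j (h j) ((1 + η) * ((1 - δ) * (h j / (j * l))))) ≤
      ENNReal.ofReal (Real.exp (-(1 * (j : ℝ)))) := by
    filter_upwards [ev_N hz h hh, H, hh1, eventually_ge_atTop 1,
      ev_exp 2 (1 / c) (l / 2) (by positivity) (by positivity)] with j h1 h2 h3 h4 h5
    obtain ⟨a', ha'⟩ := h2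
    have hj : (1 : ℝ) ≤ j := by exact_mod_cast h4
    set P := primorial (z j) with hP
    have hP1 : 1 ≤ P := primorial_pos _
    have hP4 : P ≤ 4 ^ (z j) := primorial_le_four_pow _
    set a := a' % P with ha
    have haP : a < P := Nat.mod_lt _ hP1
    have hcnt : cnt (z j) a (h j) = cnt (z j) a' (h j) := by
      conv_rhs => rw [← Nat.div_add_mod a' P]
      rw [cnt_shift (fun p hp1 hp2 => Dvd.dvd.mul_right (prime_dvd_primorial hp1 hp2) _)]
    set Q := P * (h j + 1) with hQ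
    set N := 2 ^ j / (4 * Q) with hN
    set M := 2 ^ j / Q + 1 with hM
    obtain ⟨f1, f2⟩ := h1 P Q N hP1 hP4 rfl rfl
    obtain ⟨g1, g2, g3⟩ := geom hP1 haP hQ f1 hM hN
    have hQd : ∀ p : ℕ, p.Prime → p ≤ z j → p ∣ Q := fun p hp1 hp2 =>
      Dvd.dvd.mul_right (prime_dvd_primorial hp1 hp2) _
    set I : ℕ → Finset ℕ := fun i => Ioc ((M + i) * Q + a) ((M + i) * Q + a + h j) with hI
    have hlt : ∀ i, (M + i) * Q + a + h j < (M + i + 1) * Q := by
      intro i
      have : (M + i + 1) * Q = (M + i) * Q + Q := by ring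
      omega
    have hdisj : ∀ i < N, ∀ k < N, i ≠ k → Disjoint (I i) (I k) := by
      have key : ∀ i k : ℕ, i < k → Disjoint (I i) (I k) := by
        intro i k hik
        rw [Finset.disjoint_left]
        intro n h1 h2
        simp only [hI, mem_Ioc] at h1 h2
        have h3 : (M + i + 1) * Q ≤ (M + k) * Q := Nat.mul_le_mul_right _ (by omega)
        have := hlt i
        omega
      intro i _ k _ hik
      rcases lt_or_gt_of_ne hik with h1 | h1
      · exact key i k h1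
      · exact (key k i h1).symm
    set m : ℝ := (1 - δ) * (h j / (j * l)) with hm
    have hVz := V_pos (z j)
    have hexp : ∀ i < N, ∑ n ∈ I i, keepProb z n ≤ m := by
      intro i hi
      obtain ⟨k1, k2⟩ := g3 i hi
      have hb := pieceU (z := z) (i := j) (b := (M + i) * Q + a) (g := h j) h4 (by omega) (by have := hlt i; omega)
      refine hb.trans ?_
      rw [cnt_shift (fun p hp1 hp2 => Dvd.dvd.mul_left (hQd p hp1 hp2) _), hcnt]
      have hp0 : 0 ≤ pj z j := by unfold pj; positivity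
      have hpV : V (z j) * pj z j = 1 / (j * l) := by
        show V (z j) * (1 / (V (z j) * (j * l))) = 1 / (j * l)
        field_simp
      calc (cnt (z j) a' (h j) : ℝ) * pj z j ≤ (1 - δ) * (h j * V (z j)) * pj z j :=
            mul_le_mul_of_nonneg_right ha' hp0
        _ = (1 - δ) * (h j * (V (z j) * pj z j)) := by ring
        _ = m := by rw [hpV, hm]; ring
    have hsub : RR A j (h j) ((1 + η) * m) ⊆ ⋂ i ∈ range N, {ω | (1 + η) * m ≤ SS A (I i) ω} := by
      intro ω hω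
      simp only [Set.mem_iInter]
      intro i hi
      rw [mem_range] at hi
      obtain ⟨k1, k2⟩ := g3 i hi
      exact hω ((M + i) * Q + a) (by omega) (by have := hlt i; omega)
    refine (measure_mono hsub).trans ((all_rich hA I N hdisj hη0.le hη1 hexp).trans (ENNReal.ofReal_le_ofReal ?_))
    apply Real.exp_le_exp.2
    -- `η² m N / 4 ≥ j`
    have hm1 : (1 - δ) / (j * l) ≤ m := by
      rw [hm, ← mul_div_assoc]
      apply div_le_div_of_nonneg_right _ (by positivity)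
      have : (1 : ℝ) ≤ h j := by exact_mod_cast h3
      nlinarith
    have hN2 : 1 / c * (j : ℝ) ^ 2 ≤ N := by
      rw [Real.rpow_two] at h5
      exact h5.trans f2
    have hcN : (j : ℝ) ^ 2 ≤ c * N := by
      have : c * (1 / c * (j : ℝ) ^ 2) ≤ c * N := mul_le_mul_of_nonneg_left hN2 hc0.le
      have e : c * (1 / c * (j : ℝ) ^ 2) = (j : ℝ) ^ 2 := by field_simp
      linarith
    have e1 : c / j ≤ η ^ 2 * m / 4 := by
      have : η ^ 2 * ((1 - δ) / (j * l)) ≤ η ^ 2 * m := mul_le_mul_of_nonneg_left hm1 (sq_nonneg η)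
      have e2 : c / j = η ^ 2 * ((1 - δ) / (j * l)) / 4 := by
        rw [hc]; field_simp
      rw [e2]
      linarith
    have hN0 : (0 : ℝ) ≤ N := Nat.cast_nonneg N
    have e3 : (j : ℝ) ≤ η ^ 2 * m / 4 * N := by
      calc (j : ℝ) = (j : ℝ) ^ 2 / j := by field_simp
        _ ≤ c * N / j := by gcongr
        _ = c / j * N := by ring
        _ ≤ η ^ 2 * m / 4 * N := mul_le_mul_of_nonneg_right e1 hN0
    linarith
  obtain ⟨J, hJ⟩ := eventually_atTop.1 hall
  filter_upwards [bc' 1 one_pos (fun j => RR A j (h j) ((1 + η) * ((1 - δ) * (h j / (j * l))))) J hJ] with ω hω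
  obtain ⟨J', hJ'⟩ := hω
  refine ⟨J', fun j hj => ?_⟩
  have h1 := hJ' j hj
  by_contra hcon
  push Not at hcon
  exact h1 (fun b hb1 hb2 => hcon b hb1 hb2)

end Pool.Agent.Q46.CM
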