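import Mathlib
import Pool.Agent.Q46.CM.Core

/-! Uniform asymptotics in short intervals for the sieved random model, final forms (helper46). -/

set_option autoImplicit false

namespace Pool.Agent.Q46.CM

open Finset Filter Topology MeasureTheory ProbabilityTheory Pool.Agent.H318R2.Cr
open scoped ENNReal

variable {Ω : Type*} [MeasurableSpace Ω] {μ : Measure Ω} {z : ℕ → ℕ} {A : ℕ → Set Ω}

theorem V_anti {a b : ℕ} (h : a ≤ b) : V b ≤ V a := by
  unfold V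
  apply Finset.prod_le_prod_of_subset_of_le_one
  · intro p hp
    unfold Pz at hp ⊢
    rw [mem_filter, mem_Ioc] at hp ⊢
    exact ⟨⟨hp.1.1, hp.1.2.trans h⟩, hp.2⟩
  · intro p hp
    unfold Pz at hp
    rw [mem_filter] at hp
    have : (2 : ℝ) ≤ p := by exact_mod_cast hp.2.two_le
    have : 1 / (p : ℝ) ≤ 1 / 2 := by gcongr
    linarith
  · intro p _ _
    have : 0 ≤ 1 / (p : ℝ) := by positivity
    linarith

theorem ev_pj2 (D : ℕ) (hz : ∀ᶠ j : ℕ in atTop, z j ≤ j ^ D) : ∀ᶠ j : ℕ in atTop, pj z j ≤ 1 := by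
  obtain ⟨c₁, c₂, hc₁, hc₁₂, hcz⟩ := cz_bounds
  have hl2 : 0 < Real.log 2 := Real.log_pos (by norm_num)
  have e1 : ∀ᶠ x : ℝ in atTop, Real.log x ≤ (c₁ * Real.log 2 / (D + 1)) * x := by
    have h1 := Real.isLittleO_log_id_atTop.def (c := c₁ * Real.log 2 / (D + 1)) (by positivity)
    filter_upwards [h1, eventually_ge_atTop (1 : ℝ)] with x h3 h4
    rw [Real.norm_of_nonneg (Real.log_nonneg h4), id, Real.norm_of_nonneg (by linarith)] at h3
    exact h3
  have e2 := tendsto_natCast_atTop_atTop (R := ℝ) |>.eventually e1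
  filter_upwards [hz, e2, eventually_ge_atTop 3] with j h1 h2 h3
  have hj : (3 : ℝ) ≤ j := by exact_mod_cast h3
  have hlj : 0 < Real.log j := Real.log_pos (by linarith)
  set w := z j + 2 with hw
  have hV := V_pos (z j)
  have h4 := (hcz w (by omega)).1
  have h5 : V w ≤ V (z j) := V_anti (by omega)
  have h6 : Real.log w ≤ (D + 1) * Real.log j := by
    have h7 : (w : ℝ) ≤ (j : ℝ) ^ (D + 1) := by
      have h8 : w ≤ j ^ (D + 1) := by
        have h9 : 1 ≤ j ^ D := Nat.one_le_pow _ _ (by omega)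
        calc w ≤ j ^ D + 2 := by omega
          _ ≤ 3 * j ^ D := by omega
          _ ≤ j * j ^ D := Nat.mul_le_mul_right _ h3
          _ = j ^ (D + 1) := by rw [pow_succ]; ring
      exact_mod_cast h8
    have hw0 : (0 : ℝ) < w := by
      have : 0 < w := by omega
      exact_mod_cast this
    have h8 := Real.log_le_log hw0 h7
    rw [Real.log_pow] at h8
    push_cast at h8
    exact h8
  have hlw : 0 ≤ Real.log w := Real.log_natCast_nonneg w
  unfold pj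
  rw [div_le_one (by positivity)]
  have h9 : c₁ ≤ V (z j) * ((D + 1) * Real.log j) :=
    calc c₁ ≤ V w * Real.log w := h4
      _ ≤ V (z j) * Real.log w := mul_le_mul_of_nonneg_right h5 hlw
      _ ≤ V (z j) * ((D + 1) * Real.log j) := mul_le_mul_of_nonneg_left h6 hV.le
  have h10 : ((D : ℝ) + 1) * Real.log j ≤ c₁ * (j * Real.log 2) := by
    have h11 : Real.log j ≤ c₁ * Real.log 2 / (D + 1) * j := h2
    have hD : (0 : ℝ) < (D : ℝ) + 1 := by positivity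
    calc ((D : ℝ) + 1) * Real.log j ≤ (D + 1) * (c₁ * Real.log 2 / (D + 1) * j) :=
          mul_le_mul_of_nonneg_left h11 hD.le
      _ = c₁ * (j * Real.log 2) := by field_simp
  have h12 : c₁ * 1 ≤ c₁ * (V (z j) * (j * Real.log 2)) := by
    calc c₁ * 1 = c₁ := mul_one _
      _ ≤ V (z j) * ((D + 1) * Real.log j) := h9
      _ ≤ V (z j) * (c₁ * (j * Real.log 2)) := mul_le_mul_of_nonneg_left h10 hV.le
      _ = _ := by ring
  exact le_of_mul_le_mul_left h12 hc₁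

theorem unif_core (hA : IsSievedModel μ z A) {ε κ : ℝ} (hε : 0 < ε) (hε1 : ε ≤ 1 / 4) {K C E : ℕ}
    (hfl : ∀ y h a : ℕ, y ^ K ≤ h → C ≤ h → |(cnt y a h : ℝ) - h * V y| ≤ ε * (h * V y))
    (hE : ∀ᶠ j : ℕ in atTop, z j ^ K ≤ j ^ E) (hκE : (E : ℝ) < κ) (hκ : 2 < κ)
    (hp : ∀ᶠ j : ℕ in atTop, pj z j ≤ 1) :
    ∀ᵐ ω ∂μ, ∃ n₀ : ℕ, ∀ n ≥ n₀, ∀ h : ℕ, h ≤ n → (Real.log n) ^ κ ≤ h →
      |SS A (Ioc n (n + h)) ω * Real.log n / h - 1| ≤ 20 * ε := by
  have hl2 : 0 < Real.log 2 := Real.log_pos (by norm_num)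
  set l := Real.log 2 with hl
  have eR := tendsto_natCast_atTop_atTop (R := ℝ)
  have hlk : 0 < l ^ κ := Real.rpow_pos_of_pos hl2 κ
  set H : ℕ → ℝ := fun j => ((j : ℝ) * l) ^ κ with hH
  have hHe : ∀ j : ℕ, H j = (j : ℝ) ^ κ * l ^ κ := by
    intro j
    simp only [hH]
    rw [Real.mul_rpow (Nat.cast_nonneg j) hl2.le]
  have hH2 : Tendsto (fun j : ℕ => H j / (j : ℝ) ^ 2) atTop atTop := by
    have h1 : Tendsto (fun j : ℕ => (j : ℝ) ^ (κ - 2) * l ^ κ) atTop atTop :=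
      ((tendsto_rpow_atTop (by linarith)).comp eR).atTop_mul_const hlk
    refine h1.congr' ?_
    filter_upwards [eventually_ge_atTop 1] with j hj
    have hj' : (0 : ℝ) < j := by exact_mod_cast hj
    rw [hHe, Real.rpow_sub hj', Real.rpow_two]
    ring
  have hsmall : ∀ᶠ j : ℕ in atTop, (2 : ℝ) ^ E * (j : ℝ) ^ E ≤ ε * H j := by
    have h1 : Tendsto (fun j : ℕ => (j : ℝ) ^ (κ - E) * (ε * l ^ κ)) atTop atTop :=
      ((tendsto_rpow_atTop (by linarith)).comp eR).atTop_mul_const (by positivity)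
    filter_upwards [h1.eventually_ge_atTop ((2 : ℝ) ^ E), eventually_ge_atTop 1] with j h2 hj
    have hj' : (0 : ℝ) < j := by exact_mod_cast hj
    rw [hHe]
    have h3 : (j : ℝ) ^ κ = (j : ℝ) ^ (κ - E) * (j : ℝ) ^ E := by
      rw [← Real.rpow_natCast, ← Real.rpow_add hj']
      congr 1; ring
    rw [h3]
    calc (2 : ℝ) ^ E * (j : ℝ) ^ E ≤ ((j : ℝ) ^ (κ - E) * (ε * l ^ κ)) * (j : ℝ) ^ E := by gcongr
      _ = _ := by ring
  have hsh : Tendsto (fun j : ℕ => j + 1) atTop atTop := tendsto_add_atTop_nat 1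
  have hK1 : ∀ᶠ j : ℕ in atTop, ((z j ^ K : ℕ) : ℝ) ≤ ε * H j := by
    filter_upwards [hE, hsmall] with j h1 h2
    have h3 : ((z j ^ K : ℕ) : ℝ) ≤ (j : ℝ) ^ E := by exact_mod_cast h1
    have h4 : (1 : ℝ) ≤ 2 ^ E := one_le_pow₀ (by norm_num)
    have h5 : (0 : ℝ) ≤ (j : ℝ) ^ E := by positivity
    nlinarith
  have hK2 : ∀ᶠ j : ℕ in atTop, ((z (j + 1) ^ K : ℕ) : ℝ) ≤ ε * H j := by
    filter_upwards [hsh.eventually hE, hsmall, eventually_ge_atTop 1] with j h1 h2 h3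
    have h4 : ((z (j + 1) ^ K : ℕ) : ℝ) ≤ ((j + 1 : ℕ) : ℝ) ^ E := by exact_mod_cast h1
    refine h4.trans (le_trans ?_ h2)
    rw [← mul_pow]
    have h5 : ((j + 1 : ℕ) : ℝ) ≤ 2 * j := by
      have : (1 : ℝ) ≤ j := by exact_mod_cast h3
      push_cast; linarith
    gcongr
  filter_upwards [core hA hε hε1 hfl H hH2 hK1 hK2 hp] with ω hω
  obtain ⟨J', hJ'⟩ := hω
  obtain ⟨J2, hJ2⟩ := eventually_atTop.1 (eR.eventually (eventually_ge_atTop (2 / ε)))
  refine ⟨2 ^ (max (J' + 1) (J2 + 1)), fun n hn h hhn hhl => ?_⟩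
  have hn0 : n ≠ 0 := by
    have : 0 < 2 ^ (max (J' + 1) (J2 + 1)) := by positivity
    omega
  set j := Nat.log 2 n with hj
  have h1 : 2 ^ j ≤ n := Nat.pow_log_le_self 2 hn0
  have h2 : n < 2 ^ (j + 1) := Nat.lt_pow_succ_log_self (by norm_num) n
  have hjJ : max (J' + 1) (J2 + 1) ≤ j := by
    have h3 : 2 ^ (max (J' + 1) (J2 + 1)) < 2 ^ (j + 1) := lt_of_le_of_lt hn h2
    have := (Nat.pow_lt_pow_iff_right (by norm_num : 1 < 2)).1 h3
    omega
  have hj1 : J' ≤ j := by have := le_max_left (J' + 1) (J2 + 1); omega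
  have hj2 : J2 ≤ j := by have := le_max_right (J' + 1) (J2 + 1); omega
  have hj3 : 1 ≤ j := by have := le_max_left (J' + 1) (J2 + 1); omega
  have hjr : (1 : ℝ) ≤ j := by exact_mod_cast hj3
  have hj0 : (0 : ℝ) < j := by linarith
  have hjε : 2 ≤ j * ε := by
    have := hJ2 j hj2
    rwa [div_le_iff₀ hε] at this
  have hlog1 : (j : ℝ) * l ≤ Real.log n := by
    have : Real.log ((2 : ℝ) ^ j) ≤ Real.log n := Real.log_le_log (by positivity) (by exact_mod_cast h1)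
    rwa [Real.log_pow] at this
  have hlog2 : Real.log n ≤ (j + 1) * l := by
    have : Real.log n ≤ Real.log ((2 : ℝ) ^ (j + 1)) :=
      Real.log_le_log (by exact_mod_cast Nat.pos_of_ne_zero hn0) (by exact_mod_cast h2.le)
    rw [Real.log_pow] at this
    push_cast at this
    exact this
  have hjl : 0 < (j : ℝ) * l := by positivity
  have hln : 0 < Real.log n := hjl.trans_le hlog1
  have hHh : H j ≤ h := by
    refine le_trans ?_ hhl
    simp only [hH]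
    exact Real.rpow_le_rpow hjl.le hlog1 (by linarith)
  obtain ⟨g1, g2⟩ := hJ' j hj1 n h h1 h2 (by omega) hHh
  have hh0 : (0 : ℝ) < h := lt_of_lt_of_le (Real.rpow_pos_of_pos hln κ) hhl
  rw [abs_le]
  constructor
  · -- lower
    have e1 : (1 - ε) ^ 3 * (j / (j + 2)) ≤ SS A (Ioc n (n + h)) ω * Real.log n / h := by
      rw [le_div_iff₀ hh0]
      calc (1 - ε) ^ 3 * (j / (j + 2)) * h = ((1 - ε) ^ 3 / ((j + 2) * l) * h) * (j * l) := by
            field_simp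
        _ ≤ SS A (Ioc n (n + h)) ω * Real.log n := by
            apply mul_le_mul g1 hlog1 hjl.le
            refine le_trans ?_ g1
            have : 0 ≤ (1 - ε) ^ 3 := pow_nonneg (by linarith) 3
            positivity
    have e2 : 1 - ε ≤ (j : ℝ) / (j + 2) := by
      rw [le_div_iff₀ (by linarith)]
      nlinarith
    have e3 : (1 - ε) ^ 3 * (1 - ε) ≤ (1 - ε) ^ 3 * (j / (j + 2)) :=
      mul_le_mul_of_nonneg_left e2 (pow_nonneg (by linarith) 3)
    have e4 : 1 - 20 * ε ≤ (1 - ε) ^ 3 * (1 - ε) := by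
      have : (1 - ε) ^ 3 * (1 - ε) = ((1 - ε) ^ 2) ^ 2 := by ring
      rw [this]
      have h5 : 1 - 2 * ε ≤ (1 - ε) ^ 2 := by nlinarith
      have h6 : 0 ≤ 1 - 2 * ε := by linarith
      have h7 : (1 - 2 * ε) ^ 2 ≤ ((1 - ε) ^ 2) ^ 2 := by gcongr
      nlinarith
    linarith
  · -- upper
    have e1 : SS A (Ioc n (n + h)) ω * Real.log n / h ≤ (1 + ε) ^ 2 * (1 + 4 * ε) * ((j + 1) / j) := by
      rw [div_le_iff₀ hh0]
      calc SS A (Ioc n (n + h)) ω * Real.log n ≤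
          ((1 + ε) ^ 2 * (1 + 4 * ε) / (j * l) * h) * ((j + 1) * l) := by
            apply mul_le_mul g2 hlog2 hln.le
            positivity
        _ = _ := by field_simp
    have e2 : ((j : ℝ) + 1) / j ≤ 1 + ε := by
      rw [div_le_iff₀ hj0]
      nlinarith
    have e3 : (1 + ε) ^ 2 * (1 + 4 * ε) * ((j + 1) / j) ≤ (1 + ε) ^ 2 * (1 + 4 * ε) * (1 + ε) :=
      mul_le_mul_of_nonneg_left e2 (by positivity)
    have e4 : (1 + ε) ^ 2 * (1 + 4 * ε) * (1 + ε) ≤ 1 + 20 * ε := by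
      have : (1 + ε) ^ 2 * (1 + 4 * ε) * (1 + ε) = 1 + 7 * ε + 15 * ε ^ 2 + 13 * ε ^ 3 + 4 * ε ^ 4 := by ring
      rw [this]
      have a1 : ε ^ 2 ≤ ε * (1 / 4) := by nlinarith
      have a2 : ε ^ 3 ≤ ε * (1 / 16) := by nlinarith [mul_nonneg hε.le hε.le]
      have a3 : ε ^ 4 ≤ ε * (1 / 64) := by
        have : ε ^ 4 = ε * ε ^ 3 := by ring
        rw [this]
        apply mul_le_mul_of_nonneg_left _ hε.le
        nlinarith [mul_nonneg hε.le hε.le]
      linarith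
    linarith

/-- the law for all levels up to a fixed power of `log n` -/
theorem law (D : ℕ) (ε : ℝ) (hε : 0 < ε) : ∃ κ : ℝ, 1 < κ ∧ ∀ z : ℕ → ℕ, (∀ᶠ j : ℕ in atTop, z j ≤ j ^ D) →
    ∀ (Ω : Type*) [MeasurableSpace Ω] (μ : Measure Ω) (A : ℕ → Set Ω), IsSievedModel μ z A →
      ∀ᵐ ω ∂μ, ∃ n₀ : ℕ, ∀ n ≥ n₀, ∀ h : ℕ, h ≤ n → (Real.log n) ^ κ ≤ h →
        |SS A (Ioc n (n + h)) ω * Real.log n / h - 1| ≤ ε := by
  set e := min (ε / 20) (1 / 4) with he
  have he0 : 0 < e := lt_min (by positivity) (by norm_num)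
  obtain ⟨K, C, hK, hfl⟩ := fl_all e he0
  refine ⟨(D * K : ℕ) + 3, by have : (0 : ℝ) ≤ ((D * K : ℕ) : ℝ) := Nat.cast_nonneg _
                              linarith, fun z hz Ω _ μ A hA => ?_⟩
  have hE : ∀ᶠ j : ℕ in atTop, z j ^ K ≤ j ^ (D * K) := by
    filter_upwards [hz] with j h1
    rw [pow_mul]
    exact Nat.pow_le_pow_left h1 K
  filter_upwards [unif_core hA he0 (min_le_right _ _) hfl hE (κ := (D * K : ℕ) + 3) (by linarith)
    (by have : (0 : ℝ) ≤ ((D * K : ℕ) : ℝ) := Nat.cast_nonneg _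
        linarith) (ev_pj2 D hz)] with ω hω
  obtain ⟨n₀, h⟩ := hω
  refine ⟨n₀, fun n hn k hk1 hk2 => (h n hn k hk1 hk2).trans ?_⟩
  have : e ≤ ε / 20 := min_le_left _ _
  linarith

/-- Cramér's law for the levels `(log n) ^ o(1)` -/
theorem law0 (hA : IsSievedModel μ z A) (hz : ∀ K : ℕ, ∀ᶠ j : ℕ in atTop, z j ^ K ≤ j) (κ : ℝ) (hκ : 2 < κ)
    (ε : ℝ) (hε : 0 < ε) :
    ∀ᵐ ω ∂μ, ∃ n₀ : ℕ, ∀ n ≥ n₀, ∀ h : ℕ, h ≤ n → (Real.log n) ^ κ ≤ h →
      |SS A (Ioc n (n + h)) ω * Real.log n / h - 1| ≤ ε := by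
  set e := min (ε / 20) (1 / 4) with he
  have he0 : 0 < e := lt_min (by positivity) (by norm_num)
  obtain ⟨K, C, hK, hfl⟩ := fl_all e he0
  have hE : ∀ᶠ j : ℕ in atTop, z j ^ K ≤ j ^ 1 := by
    filter_upwards [hz K] with j h1
    rwa [pow_one]
  have hz1 : ∀ᶠ j : ℕ in atTop, z j ≤ j ^ 1 := by
    filter_upwards [hz 1] with j h1
    rw [pow_one] at h1 ⊢
    exact h1
  filter_upwards [unif_core hA he0 (min_le_right _ _) hfl hE (κ := κ) (by push_cast; linarith)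
    hκ (ev_pj2 1 hz1)] with ω hω
  obtain ⟨n₀, h⟩ := hω
  refine ⟨n₀, fun n hn k hk1 hk2 => (h n hn k hk1 hk2).trans ?_⟩
  have : e ≤ ε / 20 := min_le_left _ _
  linarith

end Pool.Agent.Q46.CM
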