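import Mathlib
import Pool.Agent.Q46.CM.Uniform
import Pool.Agent.Q46.CM.Maier

/-! Primes in short intervals in the sieved random model: final theorems (helper46). -/

set_option autoImplicit false

namespace Pool.Agent.Q46.CM

open Finset Filter Topology MeasureTheory ProbabilityTheory Pool.Agent.H318R2.Cr
open scoped ENNReal

variable {Ω : Type*} [MeasurableSpace Ω] {μ : Measure Ω} {z : ℕ → ℕ} {A : ℕ → Set Ω}

/-- the number of kept integers in `(n, n + y]` divided by `y / log n` -/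
noncomputable def RR' (A : ℕ → Set Ω) (ω : Ω) (n : ℕ) (y : ℝ) : ℝ :=
  ({m : ℕ | n < m ∧ (m : ℝ) ≤ n + y ∧ ω ∈ A m}.ncard : ℝ) / (y / Real.log n)

theorem RR'_eq (ω : Ω) (n : ℕ) {y : ℝ} (hy : 0 ≤ y) :
    RR' A ω n y = SS A (Ioc n (n + ⌊y⌋₊)) ω * Real.log n / y := by
  have h1 : {m : ℕ | n < m ∧ (m : ℝ) ≤ n + y ∧ ω ∈ A m} = {m | m ∈ Ioc n (n + ⌊y⌋₊) ∧ ω ∈ A m} := by
    ext m
    simp only [Set.mem_ofPred_eq, mem_Ioc]
    constructor
    · rintro ⟨h1, h2, h3⟩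
      refine ⟨⟨h1, ?_⟩, h3⟩
      have h4 : ((m - n : ℕ) : ℝ) ≤ y := by
        rw [Nat.cast_sub h1.le]; linarith
      have h5 := Nat.le_floor h4
      omega
    · rintro ⟨⟨h1, h2⟩, h3⟩
      refine ⟨h1, ?_, h3⟩
      have h4 : (m : ℝ) ≤ n + ⌊y⌋₊ := by exact_mod_cast h2
      have h5 := Nat.floor_le hy
      linarith
  unfold RR'
  rw [h1, ← SS_card, div_div_eq_mul_div]

theorem SS_nonneg (I : Finset ℕ) (ω : Ω) : 0 ≤ SS A I ω := by
  rw [SS_apply]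
  exact Finset.sum_nonneg fun n _ => Set.indicator_nonneg (fun _ _ => zero_le_one) ω

theorem SS_mono {I J : Finset ℕ} (h : I ⊆ J) (ω : Ω) : SS A I ω ≤ SS A J ω := by
  rw [SS_apply, SS_apply]
  exact Finset.sum_le_sum_of_subset_of_nonneg h fun n _ _ => Set.indicator_nonneg (fun _ _ => zero_le_one) ω

/-- the number of kept integers in `(x, x + y]` divided by `y / log x` -/
noncomputable def RX {Ω : Type*} (A : ℕ → Set Ω) (ω : Ω) (x y : ℝ) : ℝ :=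
  ({m : ℕ | x < m ∧ (m : ℝ) ≤ x + y ∧ ω ∈ A m}.ncard : ℝ) / (y / Real.log x)

theorem RX_nat {Ω : Type*} (A : ℕ → Set Ω) (ω : Ω) (n : ℕ) (y : ℝ) : RX A ω n y = RR' A ω n y := by
  unfold RX RR'
  simp only [Nat.cast_lt]

theorem count_bounds (ω : Ω) {x y : ℝ} (hx : 0 ≤ x) (hy : 0 ≤ y) :
    SS A (Ioc ⌊x⌋₊ (⌊x⌋₊ + ⌊y⌋₊)) ω ≤ ({m : ℕ | x < m ∧ (m : ℝ) ≤ x + y ∧ ω ∈ A m}.ncard : ℝ) ∧
    ({m : ℕ | x < m ∧ (m : ℝ) ≤ x + y ∧ ω ∈ A m}.ncard : ℝ) ≤ SS A (Ioc ⌊x⌋₊ (⌊x⌋₊ + ⌊y⌋₊)) ω + 1 := by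
  have hx1 := Nat.floor_le hx
  have hx2 := Nat.lt_floor_add_one x
  have hy1 := Nat.floor_le hy
  have hy2 := Nat.lt_floor_add_one y
  set n := ⌊x⌋₊ with hn
  set g := ⌊y⌋₊ with hg
  rw [SS_card]
  have hsub1 : {m : ℕ | m ∈ Ioc n (n + g) ∧ ω ∈ A m} ⊆ {m : ℕ | x < m ∧ (m : ℝ) ≤ x + y ∧ ω ∈ A m} := by
    rintro m ⟨h1, h2⟩
    rw [mem_Ioc] at h1
    have h3 : (n : ℝ) + 1 ≤ m := by exact_mod_cast h1.1
    have h4 : (m : ℝ) ≤ n + g := by exact_mod_cast h1.2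
    exact ⟨by linarith, by linarith, h2⟩
  have hsub2 : {m : ℕ | x < m ∧ (m : ℝ) ≤ x + y ∧ ω ∈ A m} ⊆
      insert (n + g + 1) {m : ℕ | m ∈ Ioc n (n + g) ∧ ω ∈ A m} := by
    rintro m ⟨h1, h2, h3⟩
    have h4 : (n : ℝ) < m := by linarith
    have h5 : (m : ℝ) < (n + g + 1 + 1 : ℕ) := by push_cast; linarith
    have h4' : n < m := by exact_mod_cast h4
    have h5' : m < n + g + 1 + 1 := by exact_mod_cast h5
    rw [Set.mem_insert_iff]
    by_cases h6 : m = n + g + 1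
    · exact Or.inl h6
    · right
      exact ⟨by rw [mem_Ioc]; omega, h3⟩
  have hfin1 : {m : ℕ | m ∈ Ioc n (n + g) ∧ ω ∈ A m}.Finite :=
    (Finset.finite_toSet (Ioc n (n + g))).subset fun m hm => hm.1
  have hfin2 : (insert (n + g + 1) {m : ℕ | m ∈ Ioc n (n + g) ∧ ω ∈ A m}).Finite := hfin1.insert _
  constructor
  · exact_mod_cast Set.ncard_le_ncard hsub1 (hfin2.subset hsub2)
  · have h1 := Set.ncard_le_ncard hsub2 hfin2
    have h2 := Set.ncard_insert_le (n + g + 1) {m : ℕ | m ∈ Ioc n (n + g) ∧ ω ∈ A m}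
    exact_mod_cast h1.trans h2

/-- from integers to real numbers -/
theorem to_realx {ω : Ω} {κ₀ κ ε : ℝ} (hε : 0 < ε) (hε1 : ε ≤ 1) (hκ0 : 1 ≤ κ₀) (hκ : κ₀ < κ)
    (h : ∃ n₀ : ℕ, ∀ n ≥ n₀, ∀ h : ℕ, h ≤ n → (Real.log n) ^ κ₀ ≤ h →
      |SS A (Ioc n (n + h)) ω * Real.log n / h - 1| ≤ ε / 8) :
    ∃ x₀ : ℝ, ∀ x : ℝ, x₀ ≤ x → ∀ y : ℝ, (Real.log x) ^ κ ≤ y → y ≤ x → |RX A ω x y - 1| ≤ ε := by
  obtain ⟨n₀, h⟩ := h
  have e1 : ∀ᶠ L : ℝ in atTop, L ^ κ₀ + 1 ≤ L ^ κ := by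
    have h1 : Tendsto (fun L : ℝ => L ^ (κ - κ₀)) atTop atTop := tendsto_rpow_atTop (by linarith)
    filter_upwards [h1.eventually_ge_atTop 2, eventually_ge_atTop (1 : ℝ)] with L h2 h3
    have h4 : L ^ κ = L ^ κ₀ * L ^ (κ - κ₀) := by
      rw [← Real.rpow_add (by linarith)]; congr 1; ring
    have h5 : 1 ≤ L ^ κ₀ := Real.one_le_rpow h3 (by linarith)
    rw [h4]
    nlinarith
  have e2 : ∀ᶠ L : ℝ in atTop, 8 / ε * L ≤ L ^ κ := by
    have h1 : Tendsto (fun L : ℝ => L ^ (κ - 1)) atTop atTop := tendsto_rpow_atTop (by linarith)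
    filter_upwards [h1.eventually_ge_atTop (8 / ε), eventually_ge_atTop (1 : ℝ)] with L h2 h3
    have h4 : L ^ κ = L ^ (κ - 1) * L := by
      rw [← Real.rpow_add_one (by linarith)]; congr 1; ring
    rw [h4]
    exact mul_le_mul_of_nonneg_right h2 (by linarith)
  have hlog : Tendsto (fun x : ℝ => Real.log x) atTop atTop := Real.tendsto_log_atTop
  obtain ⟨x₁, hx₁⟩ := eventually_atTop.1 ((hlog.eventually e1).and ((hlog.eventually e2).and
    ((hlog.eventually_ge_atTop 2).and ((eventually_ge_atTop (n₀ + 1 : ℝ)).and (eventually_ge_atTop (8 / ε + 2))))))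
  refine ⟨x₁, fun x hx y hy hyx => ?_⟩
  obtain ⟨k1, k2, k3, k4, k5⟩ := hx₁ x hx
  have hx0 : 0 ≤ x := by
    have : (0 : ℝ) ≤ n₀ := Nat.cast_nonneg _
    linarith
  have h8 : 8 ≤ 8 / ε := by rw [le_div_iff₀ hε]; linarith
  have hy8 : 8 / ε * Real.log x ≤ y := k2.trans hy
  have hy0 : 0 < y := by nlinarith
  obtain ⟨c1, c2⟩ := count_bounds (A := A) ω hx0 hy0.le
  have hx1 := Nat.floor_le hx0
  have hx2 := Nat.lt_floor_add_one x
  have hy1 := Nat.floor_le hy0.le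
  have hy2 := Nat.lt_floor_add_one y
  set c : ℝ := ({m : ℕ | x < m ∧ (m : ℝ) ≤ x + y ∧ ω ∈ A m}.ncard : ℝ) with hc
  set n := ⌊x⌋₊ with hn
  set g := ⌊y⌋₊ with hg
  have hnn : n₀ ≤ n := Nat.le_floor (by linarith)
  have hgn : g ≤ n := Nat.floor_le_floor hyx
  have hnpos : (0 : ℝ) < n := by linarith
  have hn8 : 8 / ε ≤ n := by linarith
  have hlnx : Real.log n ≤ Real.log x := Real.log_le_log hnpos hx1
  have hlxn : Real.log x ≤ Real.log n + ε / 8 := by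
    have h1 : Real.log x ≤ Real.log (n * (1 + 1 / n)) := by
      apply Real.log_le_log (by linarith)
      have : (n : ℝ) * (1 + 1 / n) = n + 1 := by field_simp
      rw [this]
      exact hx2.le
    rw [Real.log_mul hnpos.ne' (by positivity)] at h1
    have h2 : Real.log (1 + 1 / (n : ℝ)) ≤ 1 / n := by
      have := Real.log_le_sub_one_of_pos (show (0 : ℝ) < 1 + 1 / n by positivity)
      linarith
    have h3 : 1 / (n : ℝ) ≤ ε / 8 := by
      rw [div_le_div_iff₀ hnpos (by norm_num)]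
      rw [div_le_iff₀ hε] at hn8
      linarith
    linarith
  have hln1 : 1 ≤ Real.log n := by linarith
  have hfk : (Real.log n) ^ κ₀ ≤ (g : ℝ) := by
    have := Real.rpow_le_rpow (by linarith) hlnx (show 0 ≤ κ₀ by linarith)
    linarith
  have h1 := h n hnn g hgn hfk
  have hgpos : (0 : ℝ) < g := lt_of_lt_of_le (Real.rpow_pos_of_pos (by linarith) κ₀) hfk
  set S := SS A (Ioc n (n + g)) ω with hS
  have hS0 : 0 ≤ S := SS_nonneg _ _
  rw [abs_le] at h1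
  have h2 : S * Real.log n ≤ (1 + ε / 8) * g := by
    have : S * Real.log n / g ≤ 1 + ε / 8 := by linarith [h1.2]
    rwa [div_le_iff₀ hgpos] at this
  have h3 : (1 - ε / 8) * g ≤ S * Real.log n := by
    have : 1 - ε / 8 ≤ S * Real.log n / g := by linarith [h1.1]
    rwa [le_div_iff₀ hgpos] at this
  have hlxy : Real.log x ≤ ε / 8 * y := by
    have : 8 / ε * Real.log x * (ε / 8) ≤ y * (ε / 8) := mul_le_mul_of_nonneg_right hy8 (by positivity)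
    have h5 : 8 / ε * Real.log x * (ε / 8) = Real.log x := by field_simp
    linarith
  have hRX : RX A ω x y = c * Real.log x / y := by
    unfold RX
    rw [div_div_eq_mul_div]
  rw [hRX, abs_le]
  constructor
  · have h4 : 1 - ε ≤ c * Real.log x / y := by
      rw [le_div_iff₀ hy0]
      have h5 : S * Real.log n ≤ c * Real.log x := mul_le_mul c1 hlnx (by linarith) (hS0.trans c1)
      have h6 : (1 - ε / 8) * (y - 1) ≤ (1 - ε / 8) * g := mul_le_mul_of_nonneg_left (by linarith) (by linarith)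
      have h7 : 1 ≤ ε / 8 * y := by linarith
      have hεy : 0 ≤ ε * y := by positivity
      linarith
    linarith
  · have h4 : c * Real.log x / y ≤ 1 + ε := by
      rw [div_le_iff₀ hy0]
      have h5 : c * Real.log x ≤ (S + 1) * Real.log x := mul_le_mul_of_nonneg_right c2 (by linarith)
      have h6 : S * Real.log x ≤ S * (Real.log n + ε / 8) := mul_le_mul_of_nonneg_left hlxn hS0
      have h7 : S * (ε / 8) ≤ S * Real.log n * (ε / 8) := by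
        apply mul_le_mul_of_nonneg_right _ (by positivity)
        nlinarith
      have h8 : S * Real.log n ≤ (1 + ε / 8) * y := h2.trans (mul_le_mul_of_nonneg_left hy1 (by linarith))
      have h9 : S * Real.log n * (ε / 8) ≤ (1 + ε / 8) * y * (ε / 8) := mul_le_mul_of_nonneg_right h8 (by positivity)
      have hεy : 0 ≤ ε * y := by positivity
      have h10 : (1 + ε / 8) * y * (ε / 8) ≤ ε / 4 * y := by
        have h11 : ε * (ε * y) ≤ 1 * (ε * y) := mul_le_mul_of_nonneg_right hε1 hεy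
        linarith
      linarith
    linarith

theorem final1 (D : ℕ) : ∃ N : ℝ → ℝ, (∀ ε, 1 < N ε) ∧ ∀ z : ℕ → ℕ, (∀ᶠ j : ℕ in atTop, z j ≤ j ^ D) →
    ∀ (Ω : Type*) [MeasurableSpace Ω] (μ : Measure Ω) (A : ℕ → Set Ω), IsSievedModel μ z A →
      ∀ᵐ ω ∂μ, ∀ ε : ℝ, 0 < ε → ∃ x₀ : ℝ, ∀ x : ℝ, x₀ ≤ x → ∀ y : ℝ, (Real.log x) ^ N ε ≤ y → y ≤ x →
        |RX A ω x y - 1| ≤ ε := by
  have H : ∀ k : ℕ, ∃ κ : ℝ, 1 < κ ∧ ∀ z : ℕ → ℕ, (∀ᶠ j : ℕ in atTop, z j ≤ j ^ D) →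
    ∀ (Ω : Type _) [MeasurableSpace Ω] (μ : Measure Ω) (A : ℕ → Set Ω), IsSievedModel μ z A →
      ∀ᵐ ω ∂μ, ∃ n₀ : ℕ, ∀ n ≥ n₀, ∀ h : ℕ, h ≤ n → (Real.log n) ^ κ ≤ h →
        |SS A (Ioc n (n + h)) ω * Real.log n / h - 1| ≤ (1 / ((k : ℝ) + 1)) / 8 := fun k => law D _ (by positivity)
  choose κ hκ hk using H
  refine ⟨fun ε => κ ⌈1 / ε⌉₊ + 1, fun ε => by have := hκ ⌈1 / ε⌉₊; linarith, fun z hz Ω _ μ A hA => ?_⟩
  have hall : ∀ᵐ ω ∂μ, ∀ k : ℕ, ∃ n₀ : ℕ, ∀ n ≥ n₀, ∀ h : ℕ, h ≤ n → (Real.log n) ^ κ k ≤ h →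
        |SS A (Ioc n (n + h)) ω * Real.log n / h - 1| ≤ (1 / ((k : ℝ) + 1)) / 8 :=
    ae_all_iff.2 fun k => hk k z hz Ω μ A hA
  filter_upwards [hall] with ω hω ε hε
  set k := ⌈1 / ε⌉₊ with hkd
  have hk0 : (0 : ℝ) ≤ k := Nat.cast_nonneg k
  have hke : 1 / ((k : ℝ) + 1) ≤ ε := by
    have h1 : 1 / ε ≤ k := Nat.le_ceil _
    rw [div_le_iff₀ hε] at h1
    rw [div_le_iff₀ (by linarith)]
    nlinarith
  obtain ⟨x₀, h1⟩ := to_realx (A := A) (κ := κ k + 1) (show (0 : ℝ) < 1 / ((k : ℝ) + 1) by positivity)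
    (by rw [div_le_one (by positivity)]; linarith) (hκ k).le (by linarith) (hω k)
  exact ⟨x₀, fun x hx y hy1 hy2 => (h1 x hx y hy1 hy2).trans hke⟩

theorem final2 (hA : IsSievedModel μ z A) (hz : ∀ K : ℕ, ∀ᶠ j : ℕ in atTop, z j ^ K ≤ j) (N : ℝ) (hN : 2 < N) :
    ∀ᵐ ω ∂μ, ∀ ε : ℝ, 0 < ε → ∃ x₀ : ℝ, ∀ x : ℝ, x₀ ≤ x → ∀ y : ℝ, (Real.log x) ^ N ≤ y → y ≤ x →
        |RX A ω x y - 1| ≤ ε := by
  have hall : ∀ᵐ ω ∂μ, ∀ k : ℕ, ∃ n₀ : ℕ, ∀ n ≥ n₀, ∀ h : ℕ, h ≤ n → (Real.log n) ^ ((2 + N) / 2) ≤ h →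
        |SS A (Ioc n (n + h)) ω * Real.log n / h - 1| ≤ (1 / ((k : ℝ) + 1)) / 8 :=
    ae_all_iff.2 fun k => law0 hA hz ((2 + N) / 2) (by linarith) _ (by positivity)
  filter_upwards [hall] with ω hω ε hε
  set k := ⌈1 / ε⌉₊ with hkd
  have hk0 : (0 : ℝ) ≤ k := Nat.cast_nonneg k
  have hke : 1 / ((k : ℝ) + 1) ≤ ε := by
    have h1 : 1 / ε ≤ k := Nat.le_ceil _
    rw [div_le_iff₀ hε] at h1
    rw [div_le_iff₀ (by linarith)]
    nlinarith
  obtain ⟨x₀, h1⟩ := to_realx (A := A) (κ := N) (show (0 : ℝ) < 1 / ((k : ℝ) + 1) by positivity)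
    (by rw [div_le_one (by positivity)]; linarith) (by linarith) (by linarith) (hω k)
  exact ⟨x₀, fun x hx y hy1 hy2 => (h1 x hx y hy1 hy2).trans hke⟩

theorem final3 (α B : ℝ) (hα : 0 < α) (hB : 0 < B) : ∃ δ : ℝ, 0 < δ ∧ ∀ z : ℕ → ℕ,
    (∀ᶠ j : ℕ in atTop, (j : ℝ) ^ α ≤ z j) → Tendsto (fun j : ℕ => (z j : ℝ) / j) atTop (𝓝 0) →
    ∀ (Ω : Type*) [MeasurableSpace Ω] (μ : Measure Ω) (A : ℕ → Set Ω), IsSievedModel μ z A →
      ∀ᵐ ω ∂μ, ∀ x₀ : ℝ, ∃ x : ℝ, x₀ ≤ x ∧ RX A ω x ((Real.log x) ^ B) ≤ 1 - δ := by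
  obtain ⟨δ, hδ0, hδ1, K, z₀, hK, hlow⟩ := lowInt ((B + 1) / α)
  refine ⟨δ / 4, by positivity, fun z h1 h2 Ω _ μ A hA => ?_⟩
  have hl2 : 0 < Real.log 2 := Real.log_pos (by norm_num)
  have hl1 : Real.log 2 ≤ 1 := by
    have := Real.log_two_lt_d9
    linarith
  set l := Real.log 2 with hl
  have eR := tendsto_natCast_atTop_atTop (R := ℝ)
  set h : ℕ → ℕ := fun j => ⌊(((j : ℝ) + 1) * l) ^ B⌋₊ with hh
  have hle : ∀ j : ℕ, (h j : ℝ) ≤ (((j : ℝ) + 1) * l) ^ B := fun j => Nat.floor_le (by positivity)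
  have hle2 : ∀ᶠ j : ℕ in atTop, (((j : ℝ) + 1) * l) ^ B ≤ (j : ℝ) ^ (B + 1) := by
    filter_upwards [eR.eventually_ge_atTop ((2 : ℝ) ^ B), eventually_ge_atTop 1] with j h3 h4
    have hj : (1 : ℝ) ≤ j := by exact_mod_cast h4
    have h5 : ((j : ℝ) + 1) * l ≤ 2 * j := by nlinarith
    calc (((j : ℝ) + 1) * l) ^ B ≤ (2 * j) ^ B := Real.rpow_le_rpow (by positivity) h5 hB.le
      _ = 2 ^ B * (j : ℝ) ^ B := Real.mul_rpow (by norm_num) (by linarith)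
      _ ≤ j * (j : ℝ) ^ B := mul_le_mul_of_nonneg_right h3 (Real.rpow_nonneg (by linarith) _)
      _ = (j : ℝ) ^ (B + 1) := by rw [Real.rpow_add_one (by linarith)]; ring
  have hexp : ∀ᶠ j : ℕ in atTop, (h j : ℝ) + 1 ≤ Real.exp (l / 8 * j) := by
    filter_upwards [hle2, ev_exp (B + 1) 2 (l / 8) (by positivity) (by norm_num), eventually_ge_atTop 1] with j h3 h4 h5
    have hj : (1 : ℝ) ≤ j := by exact_mod_cast h5
    have h6 : 1 ≤ (j : ℝ) ^ (B + 1) := Real.one_le_rpow hj (by linarith)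
    have := hle j
    linarith
  have hone : ∀ᶠ j : ℕ in atTop, 1 ≤ h j := by
    filter_upwards [eR.eventually_ge_atTop (1 / l)] with j h3
    simp only [hh]
    apply Nat.le_floor
    rw [div_le_iff₀ hl2] at h3
    rw [Nat.cast_one]
    apply Real.one_le_rpow _ hB.le
    nlinarith
  have H : ∀ᶠ j : ℕ in atTop, ∃ a : ℕ, (cnt (z j) a (h j) : ℝ) ≤ (1 - δ) * (h j * V (z j)) := by
    filter_upwards [ev_z hα h1 z₀, hle2, hone, h1] with j h3 h4 h5 h6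
    obtain ⟨a, -, ha⟩ := hlow (z j) h3 (h j) h5 (by
      calc (h j : ℝ) ≤ (((j : ℝ) + 1) * l) ^ B := hle j
        _ ≤ (j : ℝ) ^ (B + 1) := h4
        _ = ((j : ℝ) ^ α) ^ ((B + 1) / α) := by
            rw [← Real.rpow_mul (Nat.cast_nonneg j)]
            congr 1
            field_simp
        _ ≤ (z j : ℝ) ^ ((B + 1) / α) :=
            Real.rpow_le_rpow (Real.rpow_nonneg (Nat.cast_nonneg j) _) h6 (by positivity))
    exact ⟨a, ha⟩
  have hlim : ∀ᶠ j : ℕ in atTop, (((j : ℝ) + 1) / j) ^ (B + 1) ≤ 1 + δ / 4 := by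
    have h3 : Tendsto (fun j : ℕ => ((j : ℝ) + 1) / j) atTop (𝓝 1) := by
      have h4 : Tendsto (fun j : ℕ => 1 + 1 / (j : ℝ)) atTop (𝓝 (1 + 0)) :=
        tendsto_const_nhds.add tendsto_one_div_atTop_nhds_zero_nat
      rw [add_zero] at h4
      refine h4.congr' ?_
      filter_upwards [eventually_ge_atTop 1] with j hj
      have : (j : ℝ) ≠ 0 := by
        have : (0 : ℝ) < j := by exact_mod_cast hj
        exact this.ne'
      field_simp
    have h5 := h3.rpow_const (p := B + 1) (Or.inl one_ne_zero)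
    rw [Real.one_rpow] at h5
    exact h5.eventually_le_const (by linarith)
  filter_upwards [poor hA h2 h hexp hone hδ1 (show 0 < δ / 4 by positivity) (by linarith) H] with ω hω
  obtain ⟨J', hJ'⟩ := hω
  obtain ⟨J2, hJ2⟩ := eventually_atTop.1 (hlim.and (eventually_ge_atTop 1))
  intro x₀
  set n₀ := ⌈x₀⌉₊ with hn₀
  set j := max (max J' J2) n₀ with hj
  obtain ⟨b, hb1, hb2, hb3⟩ := hJ' j ((le_max_left _ _).trans (le_max_left _ _))
  obtain ⟨hJl, hj1⟩ := hJ2 j ((le_max_right _ _).trans (le_max_left _ _))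
  have hjr : (1 : ℝ) ≤ j := by exact_mod_cast hj1
  have hj0 : (0 : ℝ) < j := by linarith
  have hjn : n₀ ≤ b := by
    have h3 : n₀ ≤ j := le_max_right _ _
    have h4 : j < 2 ^ j := Nat.lt_two_pow_self
    omega
  refine ⟨b, (Nat.le_ceil x₀).trans (by exact_mod_cast hjn), ?_⟩
  rw [RX_nat]
  have hb0 : 0 < b := by
    have : 0 < 2 ^ j := by positivity
    omega
  have hlog1 : (j : ℝ) * l ≤ Real.log b := by
    have : Real.log ((2 : ℝ) ^ j) ≤ Real.log b := Real.log_le_log (by positivity) (by exact_mod_cast hb1)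
    rwa [Real.log_pow] at this
  have hlog2 : Real.log b ≤ (j + 1) * l := by
    have : Real.log b ≤ Real.log ((2 : ℝ) ^ (j + 1)) :=
      Real.log_le_log (by exact_mod_cast hb0) (by exact_mod_cast (by omega : b ≤ 2 ^ (j + 1)))
    rw [Real.log_pow] at this
    push_cast at this
    exact this
  have hjl : 0 < (j : ℝ) * l := by positivity
  have hln : 0 < Real.log b := hjl.trans_le hlog1
  have hyB : 0 < (Real.log b) ^ B := Real.rpow_pos_of_pos hln B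
  rw [RR'_eq ω b hyB.le, div_le_iff₀ hyB]
  have hsub : Ioc b (b + ⌊(Real.log b) ^ B⌋₊) ⊆ Ioc b (b + h j) := by
    apply Finset.Ioc_subset_Ioc le_rfl
    have : ⌊(Real.log b) ^ B⌋₊ ≤ h j := Nat.floor_le_floor (Real.rpow_le_rpow hln.le hlog2 hB.le)
    omega
  have h3 : SS A (Ioc b (b + ⌊(Real.log b) ^ B⌋₊)) ω ≤ (1 + δ / 4) * ((1 - δ) * (h j / (j * l))) :=
    (SS_mono hsub ω).trans hb3.le
  have h4 : SS A (Ioc b (b + ⌊(Real.log b) ^ B⌋₊)) ω * Real.log b ≤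
      (1 + δ / 4) * ((1 - δ) * ((((j : ℝ) + 1) * l) ^ B / (j * l))) * ((j + 1) * l) := by
    apply mul_le_mul _ hlog2 hln.le
    · have : 0 < 1 - δ := by linarith
      positivity
    · refine h3.trans ?_
      apply mul_le_mul_of_nonneg_left _ (by positivity)
      apply mul_le_mul_of_nonneg_left _ (by linarith)
      exact div_le_div_of_nonneg_right (hle j) hjl.le
  have h5 : (((j : ℝ) + 1) * l) ^ B = (((j : ℝ) + 1) / j) ^ B * ((j : ℝ) * l) ^ B := by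
    rw [← Real.mul_rpow (by positivity) (by positivity)]
    congr 1
    field_simp
  have h6 : (1 + δ / 4) * ((1 - δ) * ((((j : ℝ) + 1) * l) ^ B / (j * l))) * ((j + 1) * l) =
      (1 + δ / 4) * (1 - δ) * (((j : ℝ) + 1) / j) ^ (B + 1) * ((j : ℝ) * l) ^ B := by
    rw [h5, Real.rpow_add_one (by positivity)]
    field_simp
  have h7 : ((j : ℝ) * l) ^ B ≤ (Real.log b) ^ B := Real.rpow_le_rpow hjl.le hlog1 hB.le
  rw [h6] at h4
  have h8 : (1 + δ / 4) * (1 - δ) * (((j : ℝ) + 1) / j) ^ (B + 1) ≤ 1 - δ / 4 := by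
    calc (1 + δ / 4) * (1 - δ) * (((j : ℝ) + 1) / j) ^ (B + 1) ≤ (1 + δ / 4) * (1 - δ) * (1 + δ / 4) := by
          apply mul_le_mul_of_nonneg_left hJl
          exact mul_nonneg (by positivity) (by linarith)
      _ ≤ 1 - δ / 4 := by nlinarith [mul_pos hδ0 hδ0, mul_pos (mul_pos hδ0 hδ0) hδ0]
  refine h4.trans ?_
  apply mul_le_mul h8 h7 (by positivity) (by linarith)

end Pool.Agent.Q46.CM
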