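import Mathlib
import Pool.Agent.Q46.CM.Num
import Pool.Agent.H510R2.Maier.MA6

/-! Integers up to `lam (log n)²` free of primes `≤ z`, for `z = (log n)^(1 - o(1))` (helper46). -/

set_option autoImplicit false

namespace Pool.Agent.Q46.CM

open Finset Filter Topology Pool.Agent.H318R2.Cr
open Pool.Agent.H510R2.Maier (PI GG GG_le R1 R1_real QQ_real QQ pi_ev card_PI_le mem_PI sum_PI_inv)

theorem cnt_le_GG (z T : ℕ) : cnt z 0 T ≤ (GG z ∅ T).card := by
  classical
  unfold cnt GG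
  apply Finset.card_le_card
  intro m hm
  simp only [mem_filter, mem_Ioc, zero_add] at hm
  simp only [mem_filter, mem_Icc]
  refine ⟨⟨by omega, hm.1.2⟩, fun p hp hd => Or.inl ?_⟩
  by_contra hc
  exact hm.2 p hp (by omega) hd

theorem V_eq_QQ (z : ℕ) : V z = QQ z := rfl

theorem near0 {z : ℕ → ℕ} (hzl : Tendsto (fun j : ℕ => Real.log (z j) / Real.log j) atTop (𝓝 1))
    (hz : Tendsto (fun j : ℕ => (z j : ℝ) / j) atTop (𝓝 0)) {lam : ℝ} (hlam : 0 < lam) {ρ : ℝ}
    (hρ : Real.exp Real.eulerMascheroniConstant / 2 < ρ) :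
    ∀ᶠ j : ℕ in atTop, (cnt (z j) 0 (hh lam j) : ℝ) ≤ ρ * (hh lam j * V (z j)) := by
  have hl2 : 0 < Real.log 2 := Real.log_pos (by norm_num)
  have hl1 : Real.log 2 ≤ 1 := by
    have := Real.log_two_lt_d9
    linarith
  set l := Real.log 2 with hl
  set E := Real.exp Real.eulerMascheroniConstant with hE
  have hE0 : 0 < E := Real.exp_pos _
  set δ : ℝ := min (1 / 2) ((ρ - E / 2) / (5 * E + 6)) with hδ
  have hδ0 : 0 < δ := lt_min (by norm_num) (div_pos (by linarith) (by positivity))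
  have hδ1 : δ ≤ 1 / 2 := min_le_left _ _
  have hδ2 : δ * (5 * E + 6) ≤ ρ - E / 2 := by
    have : δ ≤ (ρ - E / 2) / (5 * E + 6) := min_le_right _ _
    rwa [le_div_iff₀ (by positivity)] at this
  set C : ℝ := 4 * lam + 1 with hC
  have hC1 : 1 ≤ C := by linarith
  have eR := tendsto_natCast_atTop_atTop (R := ℝ)
  have hlogj : Tendsto (fun j : ℕ => Real.log j) atTop atTop := Real.tendsto_log_atTop.comp eR
  -- size of z
  have hα : ∀ᶠ j : ℕ in atTop, (j : ℝ) ^ (9 / 10 : ℝ) ≤ z j := by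
    filter_upwards [hzl.eventually_const_lt (show (9 / 10 : ℝ) < 1 by norm_num), hlogj.eventually_gt_atTop 0,
      eventually_ge_atTop 1] with j h1 h2 h3
    rw [lt_div_iff₀ h2] at h1
    have hj : (0 : ℝ) < j := by exact_mod_cast h3
    have hz0 : (0 : ℝ) < z j := by
      rcases Nat.eq_zero_or_pos (z j) with h | h
      · rw [h] at h1
        simp only [Nat.cast_zero, Real.log_zero] at h1
        nlinarith
      · exact_mod_cast h
    rw [← Real.log_le_log_iff (Real.rpow_pos_of_pos hj _) hz0, Real.log_rpow hj]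
    exact h1.le
  have hzge := fun n : ℕ => ev_z (show (0 : ℝ) < 9 / 10 by norm_num) hα n
  have hzT : Tendsto z atTop atTop := tendsto_atTop.2 hzge
  have hzTr : Tendsto (fun j : ℕ => (z j : ℝ)) atTop atTop := eR.comp hzT
  have hlz : Tendsto (fun j : ℕ => Real.log (z j)) atTop atTop := Real.tendsto_log_atTop.comp hzTr
  have hzj : ∀ᶠ j : ℕ in atTop, (z j : ℝ) ≤ 1 * j := ev_small hz 1 one_pos
  -- T
  have hTle : ∀ᶠ j : ℕ in atTop, (hh lam j : ℝ) ≤ C * (j : ℝ) ^ 2 := by
    filter_upwards [eventually_ge_atTop 1] with j h1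
    have hj : (1 : ℝ) ≤ j := by exact_mod_cast h1
    have h2 : ((j : ℝ) + 1) * l ≤ 2 * j := by nlinarith
    calc (hh lam j : ℝ) ≤ lam * (((j : ℝ) + 1) * l) ^ 2 := hh_le hlam.le j
      _ ≤ lam * (2 * j) ^ 2 := by
          apply mul_le_mul_of_nonneg_left _ hlam.le
          exact pow_le_pow_left₀ (by positivity) h2 2
      _ = 4 * lam * (j : ℝ) ^ 2 := by ring
      _ ≤ C * (j : ℝ) ^ 2 := mul_le_mul_of_nonneg_right (by linarith) (by positivity)
  have hTge : ∀ᶠ j : ℕ in atTop, lam * l ^ 2 * (j : ℝ) ^ 2 ≤ hh lam j := by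
    filter_upwards [eR.eventually_ge_atTop (1 / (lam * l ^ 2))] with j h1
    have h2 := hh_lt lam j
    rw [Real.log_pow] at h2
    push_cast at h2
    rw [div_le_iff₀ (by positivity)] at h1
    have h3 : lam * (((j : ℝ) + 1) * l) ^ 2 = lam * l ^ 2 * (j : ℝ) ^ 2 + 2 * (j * (lam * l ^ 2)) + lam * l ^ 2 := by ring
    have h4 : 0 ≤ lam * l ^ 2 := by positivity
    rw [h3] at h2
    linarith
  have hTT : Tendsto (fun j : ℕ => hh lam j) atTop atTop := by
    rw [tendsto_atTop]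
    intro b
    filter_upwards [hTge, eventually_ge_atTop 1, eR.eventually_ge_atTop (b / (lam * l ^ 2))] with j h1 h2 h3
    have hj : (1 : ℝ) ≤ j := by exact_mod_cast h2
    rw [div_le_iff₀ (by positivity)] at h3
    have h4 : (b : ℝ) ≤ hh lam j := by
      refine h3.trans (le_trans ?_ h1)
      have h5 : (j : ℝ) ≤ (j : ℝ) ^ 2 := by nlinarith
      calc (j : ℝ) * (lam * l ^ 2) ≤ (j : ℝ) ^ 2 * (lam * l ^ 2) := mul_le_mul_of_nonneg_right h5 (by positivity)
        _ = _ := by ring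
    exact_mod_cast h4
  -- w
  set w : ℕ → ℝ := fun j => C * (j : ℝ) ^ 2 / z j with hw
  have hwge : ∀ᶠ j : ℕ in atTop, (j : ℝ) ≤ w j := by
    filter_upwards [hzj, hzge 1] with j h1 h2
    have hz0 : (0 : ℝ) < z j := by exact_mod_cast h2
    simp only [hw]
    rw [le_div_iff₀ hz0]
    rw [one_mul] at h1
    have hj0 : (0 : ℝ) ≤ j := Nat.cast_nonneg j
    have h3 : (j : ℝ) * z j ≤ j * j := mul_le_mul_of_nonneg_left h1 hj0
    have h4 : 1 * ((j : ℝ) * j) ≤ C * ((j : ℝ) * j) := mul_le_mul_of_nonneg_right hC1 (by positivity)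
    nlinarith
  have hwT : Tendsto w atTop atTop := tendsto_atTop_mono' _ hwge eR
  have hwl : Tendsto (fun j : ℕ => Real.log (w j) / Real.log (z j)) atTop (𝓝 1) := by
    have h1 : Tendsto (fun j : ℕ => Real.log C * (Real.log (z j))⁻¹ +
        2 * (Real.log (z j) / Real.log j)⁻¹ - 1) atTop (𝓝 (Real.log C * 0 + 2 * (1 : ℝ)⁻¹ - 1)) :=
      (((tendsto_inv_atTop_zero.comp hlz).const_mul _).add ((hzl.inv₀ one_ne_zero).const_mul 2)).sub_const 1
    have h2 : Real.log C * 0 + 2 * (1 : ℝ)⁻¹ - 1 = 1 := by norm_num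
    rw [h2] at h1
    refine h1.congr' ?_
    filter_upwards [hlz.eventually_gt_atTop 0, hlogj.eventually_gt_atTop 0, hzge 1, eventually_ge_atTop 1] with j k1 k2 k3 k4
    have hz0 : (0 : ℝ) < z j := by exact_mod_cast k3
    have hj0 : (0 : ℝ) < j := by exact_mod_cast k4
    simp only [hw]
    rw [Real.log_div (by positivity) hz0.ne', Real.log_mul (by positivity) (by positivity), Real.log_pow]
    push_cast
    field_simp
  have hR1 : Tendsto (fun j : ℕ => R1 ⌊w j⌋₊ - R1 (z j)) atTop (𝓝 0) := by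
    obtain ⟨M, hM⟩ := R1_real
    have h1 := hM.comp hwT
    have h2 := hM.comp hzTr
    have h3 : Tendsto (fun j => Real.log (Real.log (w j) / Real.log (z j))) atTop (𝓝 (Real.log 1)) :=
      (Real.continuousAt_log one_ne_zero).tendsto.comp hwl
    rw [Real.log_one] at h3
    have h4 := (h1.sub h2).add h3
    rw [sub_self, zero_add] at h4
    refine h4.congr' ?_
    filter_upwards [hwT.eventually_gt_atTop 1, hzTr.eventually_gt_atTop 1] with j h5 h6
    have h7 := Real.log_pos h5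
    have h8 := Real.log_pos h6
    simp only [Function.comp, Nat.floor_natCast]
    rw [Real.log_div h7.ne' h8.ne']
    ring
  obtain ⟨N0, hN0⟩ := eventually_atTop.1 (pi_ev 1 one_pos)
  have hPI : ∀ᶠ j : ℕ in atTop, ∀ N : ℕ, ((PI (z j) N).card : ℝ) ≤ 2 * N / Real.log (z j) := by
    filter_upwards [hzge (max N0 2)] with j h2
    intro N
    have hz2 : (2 : ℝ) ≤ z j := by exact_mod_cast (le_max_right _ _).trans h2
    have h4 := Real.log_pos (show (1 : ℝ) < z j by linarith)
    rcases le_or_gt N (z j) with h5 | h5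
    · have : PI (z j) N = ∅ := by
        unfold PI
        rw [Finset.Ioc_eq_empty (by omega)]
        simp
      rw [this]
      simp only [card_empty, Nat.cast_zero]
      positivity
    · have h6 := hN0 N ((le_max_left _ _).trans (h2.trans h5.le))
      have h7 : ((PI (z j) N).card : ℝ) ≤ Nat.primeCounting N := by exact_mod_cast card_PI_le _ _
      have h8 : Real.log (z j) ≤ Real.log N := by
        apply Real.log_le_log (by linarith)
        exact_mod_cast h5.le
      calc ((PI (z j) N).card : ℝ) ≤ (1 + 1) * (N / Real.log N) := h7.trans h6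
        _ ≤ (1 + 1) * (N / Real.log (z j)) := by gcongr
        _ = 2 * N / Real.log (z j) := by ring
  have hpiT : ∀ᶠ j : ℕ in atTop, ((PI (z j) (hh lam j)).card : ℝ) ≤ (1 / 2 + 2 * δ) * (hh lam j / Real.log (z j)) := by
    filter_upwards [hTT.eventually (pi_ev δ hδ0), hTge, hlogj.eventually_ge_atTop (-Real.log (lam * l ^ 2) / δ),
      hzj, hlz.eventually_gt_atTop 0, hTT.eventually_ge_atTop 2, eventually_ge_atTop 1, hlogj.eventually_gt_atTop 0,
      hzge 1] with j k1 k2 k3 k4 k5 k6 k7 k8 k9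
    have hj0 : (0 : ℝ) < j := by exact_mod_cast k7
    have hz0 : (0 : ℝ) < z j := by exact_mod_cast k9
    rw [one_mul] at k4
    have h1 : Real.log (z j) ≤ Real.log j := Real.log_le_log hz0 k4
    rw [div_le_iff₀ hδ0] at k3
    have hT2 : (2 : ℝ) ≤ hh lam j := by exact_mod_cast k6
    have h2 : Real.log (lam * l ^ 2) + 2 * Real.log j ≤ Real.log (hh lam j) := by
      have := Real.log_le_log (by positivity) k2
      rw [Real.log_mul (by positivity) (by positivity), Real.log_pow] at this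
      push_cast at this
      exact this
    have h3 : (2 - δ) * Real.log (z j) ≤ Real.log (hh lam j) := by
      have : (2 - δ) * Real.log (z j) ≤ (2 - δ) * Real.log j := mul_le_mul_of_nonneg_left h1 (by linarith)
      linarith
    have h4 : ((PI (z j) (hh lam j)).card : ℝ) ≤ Nat.primeCounting (hh lam j) := by exact_mod_cast card_PI_le _ _
    refine (h4.trans k1).trans ?_
    have h5 : 0 < Real.log (hh lam j) := Real.log_pos (by linarith)
    have h6 : (0 : ℝ) ≤ hh lam j := Nat.cast_nonneg _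
    rw [mul_div_assoc', mul_div_assoc', div_le_div_iff₀ h5 k5]
    have h7 : (1 + δ) ≤ (1 / 2 + 2 * δ) * (2 - δ) := by nlinarith
    calc (1 + δ) * (hh lam j : ℝ) * Real.log (z j) ≤ ((1 / 2 + 2 * δ) * (2 - δ)) * (hh lam j : ℝ) * Real.log (z j) := by
          gcongr
      _ = (1 / 2 + 2 * δ) * (hh lam j : ℝ) * ((2 - δ) * Real.log (z j)) := by ring
      _ ≤ (1 / 2 + 2 * δ) * (hh lam j : ℝ) * Real.log (hh lam j) :=
          mul_le_mul_of_nonneg_left h3 (by positivity)
  have hV : ∀ᶠ j : ℕ in atTop, 1 / Real.log (z j) ≤ (E + δ) * V (z j) := by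
    have h1 := QQ_real.comp hzTr
    filter_upwards [h1.eventually_lt_const (show E < E + δ by linarith), hlz.eventually_gt_atTop 0] with j h2 h3
    simp only [Function.comp, Nat.floor_natCast] at h2
    rw [← V_eq_QQ, div_lt_iff₀ h3] at h2
    have hVp := V_pos (z j)
    rw [div_le_iff₀ h3]
    have h4 : (V (z j))⁻¹ * V (z j) ≤ (E + δ) * Real.log (z j) * V (z j) := mul_le_mul_of_nonneg_right h2.le hVp.le
    rw [inv_mul_cancel₀ hVp.ne'] at h4
    linarith
  have hone : ∀ᶠ j : ℕ in atTop, 1 ≤ δ * (hh lam j / Real.log (z j)) := by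
    have e1 : ∀ᶠ x : ℝ in atTop, Real.log x ≤ (δ * (lam * l ^ 2)) * x :=
      (Real.isLittleO_log_id_atTop.def (show 0 < δ * (lam * l ^ 2) by positivity)).mp (by
        filter_upwards [eventually_ge_atTop (1 : ℝ)] with x hx h
        rw [id, Real.norm_of_nonneg (Real.log_nonneg hx), Real.norm_of_nonneg (by linarith)] at h
        exact h)
    filter_upwards [eR.eventually e1, hTge, hzj, hlz.eventually_gt_atTop 0, eventually_ge_atTop 1, hzge 1]
      with j k1 k2 k3 k4 k5 k6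
    have hj1 : (1 : ℝ) ≤ j := by exact_mod_cast k5
    have hz0 : (0 : ℝ) < z j := by exact_mod_cast k6
    rw [one_mul] at k3
    have h1 : Real.log (z j) ≤ Real.log j := Real.log_le_log hz0 k3
    rw [mul_div_assoc', le_div_iff₀ k4, one_mul]
    have h2 : δ * (lam * l ^ 2 * (j : ℝ) ^ 2) ≤ δ * hh lam j := mul_le_mul_of_nonneg_left k2 hδ0.le
    have h3 : δ * (lam * l ^ 2) * j ≤ δ * (lam * l ^ 2 * (j : ℝ) ^ 2) := by
      have h4 : (j : ℝ) ≤ (j : ℝ) ^ 2 := by nlinarith
      calc δ * (lam * l ^ 2) * j ≤ δ * (lam * l ^ 2) * (j : ℝ) ^ 2 := mul_le_mul_of_nonneg_left h4 (by positivity)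
        _ = _ := by ring
    linarith
  have hcube : ∀ᶠ j : ℕ in atTop, C * (j : ℝ) ^ 2 < ((z j : ℝ) + 1) ^ 3 := by
    filter_upwards [hα, ev_atTop (show (0 : ℝ) < 7 / 10 by norm_num) C, eventually_ge_atTop 1] with j k1 k2 k3
    have hj0 : (0 : ℝ) < j := by exact_mod_cast k3
    have h1 : C * (j : ℝ) ^ 2 ≤ ((j : ℝ) ^ (9 / 10 : ℝ)) ^ 3 := by
      have h2 : ((j : ℝ) ^ (9 / 10 : ℝ)) ^ 3 = (j : ℝ) ^ (7 / 10 : ℝ) * (j : ℝ) ^ 2 := by
        rw [← Real.rpow_natCast, ← Real.rpow_natCast, ← Real.rpow_mul hj0.le, ← Real.rpow_add hj0]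
        norm_num
      rw [h2]
      exact mul_le_mul_of_nonneg_right k2 (by positivity)
    have h3 : ((j : ℝ) ^ (9 / 10 : ℝ)) ^ 3 ≤ (z j : ℝ) ^ 3 := pow_le_pow_left₀ (by positivity) k1 3
    have h4 : (z j : ℝ) ^ 3 < ((z j : ℝ) + 1) ^ 3 := pow_lt_pow_left₀ (by linarith) (Nat.cast_nonneg _) (by norm_num)
    linarith
  filter_upwards [hTle, hcube, hPI, hpiT, hV, hone, hR1.eventually_lt_const hδ0, hzj, hwge, hlz.eventually_gt_atTop 0,
    hzge 1] with j k1 k2 k3 k4 k5 k6 k7 k8 k9 k10 k11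
  set T := hh lam j with hTd
  have hz0 : (0 : ℝ) < z j := by exact_mod_cast k11
  rw [one_mul] at k8
  have hT0 : (0 : ℝ) ≤ T := Nat.cast_nonneg _
  have hT3 : T < (z j + 1) ^ 3 := by
    have : (T : ℝ) < (((z j + 1) ^ 3 : ℕ) : ℝ) := by push_cast; linarith
    exact_mod_cast this
  have hG := GG_le (z j) ∅ T hT3
  rw [Finset.sum_empty, add_zero] at hG
  have hG' : (cnt (z j) 0 T : ℝ) ≤ 1 + (PI (z j) T).card + ∑ p ∈ PI (z j) (T / (z j + 1)), ((PI (z j) (T / p)).card : ℝ) := by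
    exact_mod_cast (cnt_le_GG (z j) T).trans hG
  have hzw : z j ≤ ⌊w j⌋₊ := Nat.le_floor (by linarith)
  have hsub : PI (z j) (T / (z j + 1)) ⊆ PI (z j) ⌊w j⌋₊ := by
    intro p hp
    have h6 := mem_PI.1 hp
    refine mem_PI.2 ⟨⟨h6.1.1, h6.1.2.trans ?_⟩, h6.2⟩
    apply Nat.le_floor
    refine Nat.cast_div_le.trans ?_
    push_cast
    simp only [hw]
    calc (T : ℝ) / (z j + 1) ≤ C * (j : ℝ) ^ 2 / (z j + 1) := by gcongr
      _ ≤ C * (j : ℝ) ^ 2 / z j := by
          apply div_le_div_of_nonneg_left (by positivity) hz0 (by linarith)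
  have hA : ∑ p ∈ PI (z j) (T / (z j + 1)), ((PI (z j) (T / p)).card : ℝ) ≤ 2 * δ * (T / Real.log (z j)) := by
    calc ∑ p ∈ PI (z j) (T / (z j + 1)), ((PI (z j) (T / p)).card : ℝ)
        ≤ ∑ p ∈ PI (z j) (T / (z j + 1)), 2 * (T : ℝ) / Real.log (z j) * (1 / p) := by
          apply Finset.sum_le_sum
          intro p hp
          refine (k3 (T / p)).trans ?_
          have h6 : ((T / p : ℕ) : ℝ) ≤ T / p := Nat.cast_div_le
          calc 2 * ((T / p : ℕ) : ℝ) / Real.log (z j) ≤ 2 * ((T : ℝ) / p) / Real.log (z j) := by gcongr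
            _ = _ := by ring
      _ = 2 * (T : ℝ) / Real.log (z j) * ∑ p ∈ PI (z j) (T / (z j + 1)), (1 : ℝ) / p := by rw [Finset.mul_sum]
      _ ≤ 2 * (T : ℝ) / Real.log (z j) * δ := by
          apply mul_le_mul_of_nonneg_left _ (by positivity)
          refine le_trans ?_ k7.le
          rw [← sum_PI_inv hzw]
          apply Finset.sum_le_sum_of_subset_of_nonneg hsub
          intro p _ _
          positivity
      _ = _ := by ring
  set X := (T : ℝ) / Real.log (z j) with hX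
  have hX0 : 0 ≤ X := by positivity
  have h1 : (cnt (z j) 0 T : ℝ) ≤ (1 / 2 + 5 * δ) * X := by linarith
  have hVp := V_pos (z j)
  have h2 : X ≤ (E + δ) * (T * V (z j)) := by
    have : (T : ℝ) * (1 / Real.log (z j)) ≤ T * ((E + δ) * V (z j)) := mul_le_mul_of_nonneg_left k5 hT0
    rw [hX]
    calc (T : ℝ) / Real.log (z j) = T * (1 / Real.log (z j)) := by ring
      _ ≤ _ := this
      _ = _ := by ring
  have h3 : (1 / 2 + 5 * δ) * (E + δ) ≤ ρ := by nlinarith
  calc (cnt (z j) 0 T : ℝ) ≤ (1 / 2 + 5 * δ) * X := h1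
    _ ≤ (1 / 2 + 5 * δ) * ((E + δ) * (T * V (z j))) := mul_le_mul_of_nonneg_left h2 (by positivity)
    _ = ((1 / 2 + 5 * δ) * (E + δ)) * (T * V (z j)) := by ring
    _ ≤ ρ * (T * V (z j)) := mul_le_mul_of_nonneg_right h3 (by positivity)

end Pool.Agent.Q46.CM
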