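import Mathlib
import Pool.Agent.Q46.CM.Final
import Pool.Agent.Q46.CM.GX

/-! The sieved random model: the engines in raw form (helper46). -/

set_option autoImplicit false

namespace Pool.Agent.Q46.CM

open Finset Filter Topology MeasureTheory ProbabilityTheory Pool.Agent.H318R2.Cr
open scoped ENNReal

section
variable {Ω : Type*} [MeasurableSpace Ω] {μ : Measure Ω} {z : ℕ → ℕ} {A : ℕ → Set Ω}

theorem engineRaw (hA : IsSievedModel μ z A) (hz2 : ∀ᶠ j : ℕ in atTop, 2 ≤ z j)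
    (hz : Tendsto (fun j : ℕ => (z j : ℝ) / j) atTop (𝓝 0)) {lam δ : ℝ} (hlam : 0 < lam)
    (hδ1 : δ ≤ 1) (hl : (1 - δ) * lam < 1)
    (H : ∀ᶠ j : ℕ in atTop, ∃ a : ℕ, (cnt (z j) a (hh lam j) : ℝ) ≤ (1 - δ) * (hh lam j * V (z j))) :
    ∀ᵐ ω ∂μ, ∃ J : ℕ, (∀ j ≥ J, ∃ n ∈ {n | ω ∈ A n}, 2 ^ j ≤ n ∧ n < 2 ^ (j + 1)) ∧
      (∀ j ≥ J, ∃ a h : ℕ, 2 ^ j ≤ a ∧ a + h < 2 ^ (j + 1) ∧
        lam * (Real.log ((2:ℝ) ^ (j + 1))) ^ 2 < h + 1 ∧ ∀ n ∈ {n | ω ∈ A n}, a < n → a + h < n) := by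
  set θ : ℝ := min ((1 - (1 - δ) * lam) / 4) (1 / 8) with hθ
  have hθ0 : 0 < θ := lt_min (by linarith) (by norm_num)
  have hθ1 : θ ≤ 1 / 8 := min_le_right _ _
  have hθ2 : (1 - δ) * lam ≤ 1 - 4 * θ := by
    have : θ ≤ (1 - (1 - δ) * lam) / 4 := min_le_left _ _
    linarith
  obtain ⟨J, hJ⟩ := eventually_atTop.1 (((ev_main hz2 hz hlam hδ1 hθ0 hθ1 hθ2).and H).and
    ((ev_pj hz2 hz (1 / 2) (by norm_num)).and (eventually_ge_atTop 1)))
  have hboth : ∀ j ≥ J, μ (EE A j (hh lam j)) ≤ ENNReal.ofReal (Real.exp (-(j : ℝ))) ∧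
      μ (FF A j) ≤ ENNReal.ofReal (Real.exp (-(j : ℝ))) := by
    intro j hj
    obtain ⟨⟨h1, a', ha'⟩, h2, h3⟩ := hJ j hj
    set P := primorial (z j) with hP
    have hP1 : 1 ≤ P := primorial_pos _
    have hP4 : P ≤ 4 ^ (z j) := primorial_le_four_pow _
    set a := a' % P with ha
    have haP : a < P := Nat.mod_lt _ hP1
    have hcnt : cnt (z j) a (hh lam j) = cnt (z j) a' (hh lam j) := by
      conv_rhs => rw [← Nat.div_add_mod a' P]
      rw [cnt_shift (fun p hp1 hp2 => Dvd.dvd.mul_right (prime_dvd_primorial hp1 hp2) _)]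
    set Q := P * (hh lam j + 1) with hQ
    set N := 2 ^ j / (4 * Q) with hN
    set M := 2 ^ j / Q + 1 with hM
    obtain ⟨f1, f2, f3⟩ := h1 P Q N hP1 hP4 rfl rfl
    obtain ⟨g1, g2, g3⟩ := geom hP1 haP hQ f1 hM hN
    have hQd : ∀ p : ℕ, p.Prime → p ≤ z j → p ∣ Q := fun p hp1 hp2 =>
      Dvd.dvd.mul_right (prime_dvd_primorial hp1 hp2) _
    constructor
    · rw [← hcnt] at ha'
      refine (EE_bound hA h3 h2 ha' hQd g1 g2 g3).trans (ENNReal.ofReal_le_ofReal ?_)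
      apply Real.exp_le_exp.2
      linarith
    · refine (FF_bound hA h3 hQd g1 g3).trans (ENNReal.ofReal_le_ofReal ?_)
      apply Real.exp_le_exp.2
      linarith
  filter_upwards [bc (fun j => EE A j (hh lam j)) J (fun j hj => (hboth j hj).1),
    bc (fun j => FF A j) J (fun j hj => (hboth j hj).2)] with ω h1 h2
  obtain ⟨J1, hJ1⟩ := h1
  obtain ⟨J2, hJ2⟩ := h2
  refine ⟨max J1 J2, ?_, ?_⟩
  · intro j hj
    have := hJ2 j (le_trans (le_max_right _ _) hj)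
    unfold FF at this
    simp only [Set.mem_setOf_eq, not_forall] at this
    obtain ⟨n, hn1, hn2, hn3⟩ := this
    exact ⟨n, by simpa using hn3, hn1, hn2⟩
  · intro j hj
    have := hJ1 j (le_trans (le_max_left _ _) hj)
    unfold EE at this
    simp only [Set.mem_setOf_eq, not_forall] at this
    obtain ⟨b, hb1, hb2, hb3⟩ := this
    refine ⟨b, hh lam j, hb1, hb2, hh_lt lam j, fun n hn hbn => ?_⟩
    by_contra hcon
    exact hb3 ⟨n, hbn, by omega, hn⟩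


end

theorem ztend2 {z : ℕ → ℕ} (hz : Tendsto z atTop atTop) {K : ℕ} (hK : 2 ≤ K) (h : ∀ᶠ j : ℕ in atTop, z j ^ K ≤ j) :
    Tendsto (fun j : ℕ => (z j : ℝ) / j) atTop (𝓝 0) := by
  have h1 : Tendsto (fun j : ℕ => 1 / (z j : ℝ)) atTop (𝓝 0) := by
    have := tendsto_inv_atTop_zero.comp ((tendsto_natCast_atTop_atTop (R := ℝ)).comp hz)
    simp only [one_div]
    exact this
  refine squeeze_zero' (Eventually.of_forall fun j => by positivity) ?_ h1
  filter_upwards [h, hz.eventually_ge_atTop 1, eventually_ge_atTop 1] with j h2 h3 h4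
  have hj : (0 : ℝ) < j := by exact_mod_cast h4
  have hz0 : (0 : ℝ) < z j := by exact_mod_cast h3
  rw [div_le_div_iff₀ hj hz0]
  have h5 : (z j) ^ 2 ≤ j := (Nat.pow_le_pow_right h3 hK).trans h2
  have h6 : (z j : ℝ) ^ 2 ≤ j := by exact_mod_cast h5
  nlinarith

theorem upperRaw (β : ℝ) (hβ : 1 < β) : ∃ K : ℕ, 2 ≤ K ∧ ∀ z : ℕ → ℕ, Tendsto z atTop atTop →
    (∀ᶠ j : ℕ in atTop, z j ^ K ≤ j) →
    ∀ (Ω : Type*) [MeasurableSpace Ω] (μ : Measure Ω) (A : ℕ → Set Ω), IsSievedModel μ z A →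
    ∀ᵐ ω ∂μ, ∃ J : ℕ, ∀ j ≥ J, ∀ a : ℕ, 2 ^ j ≤ a → a < 2 ^ (j + 1) →
      ∃ n ∈ {n | ω ∈ A n}, a < n ∧ (n : ℝ) ≤ a + β * (Real.log ((2:ℝ) ^ j)) ^ 2 := by
  have hl2 : 0 < Real.log 2 := Real.log_pos (by norm_num)
  set l := Real.log 2 with hl
  set η : ℝ := min ((β - 1) / 8) (1 / 8) with hη
  have hη0 : 0 < η := lt_min (by linarith) (by norm_num)
  have hη1 : η ≤ 1 / 8 := min_le_right _ _
  have hη2 : 1 + 8 * η ≤ β := by
    have : η ≤ (β - 1) / 8 := min_le_left _ _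
    linarith
  obtain ⟨K, x0, hK, hfl⟩ := fl_int η hη0
  refine ⟨max K 2, le_max_right _ _, fun z hz hzK Ω _ μ A hA => ?_⟩
  set G : ℕ → ℕ := fun j => ⌊β * (Real.log ((2:ℝ) ^ j)) ^ 2⌋₊ with hG
  have hGle : ∀ j : ℕ, (G j : ℝ) ≤ β * (j * l) ^ 2 := by
    intro j
    have := Nat.floor_le (show 0 ≤ β * (Real.log ((2:ℝ) ^ j)) ^ 2 by positivity)
    rw [Real.log_pow] at this
    simp only [hG]
    rw [Real.log_pow]
    exact this
  have hGge : ∀ j : ℕ, β * (j * l) ^ 2 - 1 ≤ (G j : ℝ) := by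
    intro j
    have := Nat.lt_floor_add_one (β * (Real.log ((2:ℝ) ^ j)) ^ 2)
    rw [Real.log_pow] at this
    simp only [hG]
    rw [Real.log_pow]
    linarith
  have hz2 : ∀ᶠ j : ℕ in atTop, 2 ≤ z j := hz.eventually_ge_atTop 2
  have hsh : Tendsto (fun j : ℕ => j + 1) atTop atTop := tendsto_add_atTop_nat 1
  have hzt := ztend2 hz (le_max_right K 2) hzK
  have eA := hz.eventually_ge_atTop x0
  have eB : ∀ᶠ j : ℕ in atTop, z j ^ K ≤ j := by
    filter_upwards [hzK, hz.eventually_ge_atTop 1] with j h2 h3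
    exact (Nat.pow_le_pow_right h3 (le_max_left _ _)).trans h2
  have eC := ev_pj hz2 hzt 1 one_pos
  have eR := tendsto_natCast_atTop_atTop (R := ℝ)
  have hall : ∀ᶠ j : ℕ in atTop, μ (GG A j (G j)) ≤ ENNReal.ofReal (Real.exp (-((η * l) * (j : ℝ)))) := by
    filter_upwards [eA, hsh.eventually eA, eB, hsh.eventually eB, eC, hsh.eventually eC, eventually_ge_atTop 1,
      eR.eventually (eventually_ge_atTop ((2 + η) / (η * l ^ 2))), ev_exp 2 (β * l ^ 2) l hl2 (by positivity),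
      eR.eventually (eventually_ge_atTop ((4 * l ^ 2 + 1) / (3 * η * l ^ 2)))]
      with j a1 a2 a3 a4 a5 a6 a7 a8 a9 a10
    have hj : (1 : ℝ) ≤ j := by exact_mod_cast a7
    have hGj := hGge j
    -- (c)
    have hc : (j : ℝ) + 1 ≤ η * G j := by
      rw [div_le_iff₀ (by positivity)] at a8
      have b1 : (2 + η) * j ≤ j * (η * l ^ 2) * j := mul_le_mul_of_nonneg_right a8 (by linarith)
      have b2 : η * (β * (j * l) ^ 2 - 1) ≤ η * G j := mul_le_mul_of_nonneg_left hGj hη0.le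
      have b3 : η * ((j * l) ^ 2) ≤ η * (β * (j * l) ^ 2) := by
        apply mul_le_mul_of_nonneg_left _ hη0.le
        have : 0 ≤ ((j : ℝ) * l) ^ 2 := sq_nonneg _
        nlinarith
      nlinarith
    -- (e)
    have he : G j ≤ 2 ^ (j + 1) := by
      have b1 : (G j : ℝ) ≤ (2 : ℝ) ^ j := by
        refine (hGle j).trans ?_
        rw [Real.rpow_two] at a9
        have b2 : (2 : ℝ) ^ j = Real.exp (l * j) := by
          rw [hl, ← Real.exp_log (show (0 : ℝ) < 2 ^ j by positivity), Real.log_pow]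
          congr 1; ring
        rw [b2]
        calc β * ((j : ℝ) * l) ^ 2 = β * l ^ 2 * (j : ℝ) ^ 2 := by ring
          _ ≤ _ := a9
      have b3 : G j ≤ 2 ^ j := by exact_mod_cast b1
      exact b3.trans (Nat.pow_le_pow_right (by norm_num) (Nat.le_succ j))
    have hs := fun a (h1 : 2 ^ j ≤ a) (h2 : a < 2 ^ (j + 1)) => keep_sum (z := z) hη0 (by linarith) hfl a7 a1 a2
      (by
        have : ((z j ^ K : ℕ) : ℝ) ≤ j := by exact_mod_cast a3
        linarith)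
      (by
        have : ((z (j + 1) ^ K : ℕ) : ℝ) ≤ ((j + 1 : ℕ) : ℝ) := by exact_mod_cast a4
        push_cast at this ⊢
        linarith) a5 a6 h1 h2 he
    refine (GG_bound hA hs).trans (ENNReal.ofReal_le_ofReal ?_)
    have b2 : (2 : ℝ) ^ j = Real.exp (l * j) := by
      rw [hl, ← Real.exp_log (show (0 : ℝ) < 2 ^ j by positivity), Real.log_pow]
      congr 1; ring
    rw [b2, ← Real.exp_add]
    apply Real.exp_le_exp.2
    -- (f)
    have hf : (1 + η) * (l * j) ≤ (1 - η) ^ 2 * (G j / ((j + 2) * l)) := by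
      rw [← mul_div_assoc, le_div_iff₀ (by positivity)]
      have c1 : (1 + 4 * η) ≤ (1 - η) ^ 2 * β := by
        have d1 : (1 - η) ^ 2 * (1 + 8 * η) ≤ (1 - η) ^ 2 * β := by gcongr
        have d2 : 0 ≤ η * (2 - 15 * η) := mul_nonneg hη0.le (by linarith)
        have d3 : 0 ≤ η ^ 3 := by positivity
        have d4 : (1 - η) ^ 2 * (1 + 8 * η) = 1 + 4 * η + η * (2 - 15 * η) + 8 * η ^ 3 := by ring
        linarith
      have c2 : (1 - η) ^ 2 * (β * (j * l) ^ 2 - 1) ≤ (1 - η) ^ 2 * G j := by gcongr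
      have c3 : (1 + 4 * η) * (j * l) ^ 2 ≤ (1 - η) ^ 2 * β * (j * l) ^ 2 := by gcongr
      have c4 : (1 - η) ^ 2 ≤ 1 := by nlinarith
      rw [div_le_iff₀ (by positivity)] at a10
      have c5 : (4 * l ^ 2 + 1) * j ≤ j * (3 * η * l ^ 2) * j := mul_le_mul_of_nonneg_right a10 (by linarith)
      have c6 : 2 * (1 + η) * (j * l ^ 2) ≤ 4 * l ^ 2 * j := by
        have : 0 ≤ (j : ℝ) * l ^ 2 := by positivity
        nlinarith
      nlinarith
    linarith
  obtain ⟨J, hJ⟩ := eventually_atTop.1 hall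
  filter_upwards [bc' (η * l) (by positivity) (fun j => GG A j (G j)) J hJ] with ω hω
  obtain ⟨J', hJ'⟩ := hω
  refine ⟨J', fun j hj a ha1 ha2 => ?_⟩
  have h1 := hJ' j hj
  unfold GG at h1
  simp only [Set.mem_setOf_eq, not_exists, not_and, not_forall, not_not] at h1
  obtain ⟨n, hn1, hn2, hn3⟩ := h1 a ha1 ha2
  refine ⟨n, hn3, hn1, ?_⟩
  have h2 : (n : ℝ) ≤ a + G j := by exact_mod_cast hn2
  have h3 : (G j : ℝ) ≤ β * (Real.log ((2:ℝ) ^ j)) ^ 2 := Nat.floor_le (by positivity)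
  linarith


end Pool.Agent.Q46.CM
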