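import Mathlib
import Pool.Agent.Q46.CM.Raw
import Pool.Agent.Q46.CM.Near0

/-! The largest gap up to `x` in the sieved random model: final theorems (helper46). -/

set_option autoImplicit false

namespace Pool.Agent.Q46.CM

open Finset Filter Topology MeasureTheory ProbabilityTheory Pool.Agent.H318R2.Cr
open scoped ENNReal

/-- levels `(log n)^(1 - o(1))`: Granville's constant -/
theorem g1 {Ω : Type*} [MeasurableSpace Ω] {μ : Measure Ω} {z : ℕ → ℕ} {A : ℕ → Set Ω} (hA : IsSievedModel μ z A)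
    (hzl : Tendsto (fun j : ℕ => Real.log (z j) / Real.log j) atTop (𝓝 1))
    (hz : Tendsto (fun j : ℕ => (z j : ℝ) / j) atTop (𝓝 0)) :
    ∀ᵐ ω ∂μ, ∀ c : ℝ, c < 2 * Real.exp (-Real.eulerMascheroniConstant) → ∃ x₀ : ℝ, ∀ x : ℝ, x₀ ≤ x →
      ((c * Real.log x ^ 2 : ℝ) : EReal) ≤ GapMax {n | ω ∈ A n} x := by
  set E := Real.exp Real.eulerMascheroniConstant with hE
  have hE0 : 0 < E := Real.exp_pos _
  have hEi : 2 * Real.exp (-Real.eulerMascheroniConstant) = 2 / E := by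
    rw [Real.exp_neg, hE]; ring
  rw [hEi]
  have hz2 : ∀ᶠ j : ℕ in atTop, 2 ≤ z j := by
    have eR := tendsto_natCast_atTop_atTop (R := ℝ)
    have hlogj : Tendsto (fun j : ℕ => Real.log j) atTop atTop := Real.tendsto_log_atTop.comp eR
    filter_upwards [hzl.eventually_const_lt (show (1 / 2 : ℝ) < 1 by norm_num), hlogj.eventually_gt_atTop 0] with j h1 h2
    rw [lt_div_iff₀ h2] at h1
    by_contra hc
    have h3 : z j = 0 ∨ z j = 1 := by omega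
    rcases h3 with h3 | h3 <;> rw [h3] at h1 <;> simp at h1 <;> linarith
  have h1 : ∀ k : ℕ, ∀ᵐ ω ∂μ, ∃ J : ℕ, (∀ j ≥ J, ∃ n ∈ {n | ω ∈ A n}, 2 ^ j ≤ n ∧ n < 2 ^ (j + 1)) ∧
      (∀ j ≥ J, ∃ a h : ℕ, 2 ^ j ≤ a ∧ a + h < 2 ^ (j + 1) ∧
        (2 / E * (1 - 1 / ((k : ℝ) + 2))) * (Real.log ((2:ℝ) ^ (j + 1))) ^ 2 < h + 1 ∧
        ∀ n ∈ {n | ω ∈ A n}, a < n → a + h < n) := by
    intro k
    have hk : 1 / ((k : ℝ) + 2) < 1 := by
      rw [div_lt_one (by positivity)]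
      have : (0 : ℝ) ≤ k := Nat.cast_nonneg k
      linarith
    have hk0 : 0 < 1 / ((k : ℝ) + 2) := by positivity
    set lam := 2 / E * (1 - 1 / ((k : ℝ) + 2)) with hlam
    have hlam0 : 0 < lam := mul_pos (by positivity) (by linarith)
    have hlam1 : lam * (E / 2) < 1 := by
      have : lam * (E / 2) = 1 - 1 / ((k : ℝ) + 2) := by rw [hlam]; field_simp
      rw [this]; linarith
    have hlam2 : E / 2 < 1 / lam := by rw [lt_div_iff₀ hlam0]; linarith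
    set ρ := (E / 2 + 1 / lam) / 2 with hρ
    have hρ1 : E / 2 < ρ := by rw [hρ]; linarith
    have hρ2 : ρ < 1 / lam := by rw [hρ]; linarith
    have hρ0 : 0 < ρ := by positivity
    rw [lt_div_iff₀ hlam0] at hρ2
    apply engineRaw hA hz2 hz (lam := lam) (δ := 1 - ρ) hlam0 (by linarith) (by linarith)
    filter_upwards [near0 hzl hz hlam0 hρ1] with j hj
    exact ⟨0, by rw [sub_sub_cancel]; exact hj⟩
  filter_upwards [ae_all_iff.2 h1] with ω hω c hc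
  have h2 : Tendsto (fun k : ℕ => 2 / E * (1 - 1 / ((k : ℝ) + 2))) atTop (𝓝 (2 / E * (1 - 0))) := by
    apply Tendsto.const_mul
    apply Tendsto.const_sub
    have h4 : Tendsto (fun k : ℕ => (k : ℝ) + 2) atTop atTop :=
      tendsto_atTop_add_const_right _ _ tendsto_natCast_atTop_atTop
    have h6 := tendsto_inv_atTop_zero.comp h4
    simp only [one_div]
    exact h6
  rw [sub_zero, mul_one] at h2
  obtain ⟨k, hk⟩ := (h2.eventually_const_lt (show max c 0 < 2 / E from max_lt hc (by positivity))).exists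
  obtain ⟨J, g1, g2⟩ := hω k
  obtain ⟨x₀, hx₀⟩ := G_ge {n | ω ∈ A n} (le_max_right c 0) hk J g1 g2
  refine ⟨x₀, fun x hx => le_trans ?_ (hx₀ x hx)⟩
  apply EReal.coe_le_coe_iff.2
  exact mul_le_mul_of_nonneg_right (le_max_left c 0) (sq_nonneg _)

/-- small powers of `log n`: the constant is close to one -/
theorem g2 : ∃ K : ℝ → ℕ, ∀ z : ℕ → ℕ, Tendsto z atTop atTop →
    ∀ (Ω : Type*) [MeasurableSpace Ω] (μ : Measure Ω) (A : ℕ → Set Ω), IsSievedModel μ z A →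
    ∀ᵐ ω ∂μ, ∀ ε : ℝ, 0 < ε → (∀ᶠ j : ℕ in atTop, z j ^ K ε ≤ j) → ∃ x₀ : ℝ, ∀ x : ℝ, x₀ ≤ x →
      (((1 - ε) * Real.log x ^ 2 : ℝ) : EReal) ≤ GapMax {n | ω ∈ A n} x ∧
      GapMax {n | ω ∈ A n} x ≤ (((1 + ε) * Real.log x ^ 2 : ℝ) : EReal) := by
  have hpos : ∀ k : ℕ, (1 : ℝ) < 1 + 1 / ((k : ℝ) + 1) := by
    intro k
    have : 0 < 1 / ((k : ℝ) + 1) := by positivity
    linarith
  have H := fun k : ℕ => upperRaw (1 + 1 / ((k : ℝ) + 1)) (hpos k)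
  choose κ hκ hk using H
  refine ⟨fun ε => κ ⌈1 / ε⌉₊, fun z hz Ω _ μ A hA => ?_⟩
  have hup : ∀ᵐ ω ∂μ, ∀ k : ℕ, (∀ᶠ j : ℕ in atTop, z j ^ κ k ≤ j) →
      ∃ J : ℕ, ∀ j ≥ J, ∀ a : ℕ, 2 ^ j ≤ a → a < 2 ^ (j + 1) →
        ∃ n ∈ {n | ω ∈ A n}, a < n ∧ (n : ℝ) ≤ a + (1 + 1 / ((k : ℝ) + 1)) * (Real.log ((2:ℝ) ^ j)) ^ 2 := by
    rw [ae_all_iff]
    intro k
    by_cases hc : ∀ᶠ j : ℕ in atTop, z j ^ κ k ≤ j
    · filter_upwards [hk k z hz hc Ω μ A hA] with ω hω _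
      exact hω
    · exact Eventually.of_forall fun ω h => absurd h hc
  have hlo : ∀ᵐ ω ∂μ, ∀ k : ℕ, (∀ᶠ j : ℕ in atTop, z j ^ κ k ≤ j) →
      ∃ J : ℕ, (∀ j ≥ J, ∃ n ∈ {n | ω ∈ A n}, 2 ^ j ≤ n ∧ n < 2 ^ (j + 1)) ∧
      (∀ j ≥ J, ∃ a h : ℕ, 2 ^ j ≤ a ∧ a + h < 2 ^ (j + 1) ∧
        (1 - 1 / ((k : ℝ) + 2)) * (Real.log ((2:ℝ) ^ (j + 1))) ^ 2 < h + 1 ∧
        ∀ n ∈ {n | ω ∈ A n}, a < n → a + h < n) := by
    rw [ae_all_iff]
    intro k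
    have hkk : 1 / ((k : ℝ) + 2) < 1 := by
      rw [div_lt_one (by positivity)]
      have : (0 : ℝ) ≤ k := Nat.cast_nonneg k
      linarith
    have hk0 : 0 < 1 / ((k : ℝ) + 2) := by positivity
    by_cases hc : ∀ᶠ j : ℕ in atTop, z j ^ κ k ≤ j
    · have he := engineRaw hA (hz.eventually_ge_atTop 2) (ztend2 hz (hκ k) hc)
        (lam := 1 - 1 / ((k : ℝ) + 2)) (δ := 0) (by linarith) zero_le_one (by linarith) (by
          filter_upwards with j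
          obtain ⟨a, ha⟩ := avg (z j) (hh (1 - 1 / ((k : ℝ) + 2)) j)
          exact ⟨a, by rw [sub_zero, one_mul]; exact ha⟩)
      filter_upwards [he] with ω hω _
      exact hω
    · exact Eventually.of_forall fun ω h => absurd h hc
  filter_upwards [hup, hlo] with ω h1 h2 ε hε hc
  set k := ⌈1 / ε⌉₊ with hkd
  have hk0 : (0 : ℝ) ≤ k := Nat.cast_nonneg k
  have hke : 1 / ((k : ℝ) + 1) ≤ ε := by
    have h1 : 1 / ε ≤ k := Nat.le_ceil _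
    rw [div_le_iff₀ hε] at h1
    rw [div_le_iff₀ (by linarith)]
    nlinarith
  have hke2 : 1 / ((k : ℝ) + 2) < 1 / ((k : ℝ) + 1) := by
    apply one_div_lt_one_div_of_lt (by linarith) (by linarith)
  have hke3 : 1 / ((k : ℝ) + 1) ≤ 1 := by
    rw [div_le_one (by linarith)]; linarith
  obtain ⟨J, g1⟩ := h1 k hc
  obtain ⟨J', g2, g3⟩ := h2 k hc
  obtain ⟨x₁, hx₁⟩ := G_le {n | ω ∈ A n} (by positivity) J g1
  obtain ⟨x₂, hx₂⟩ := G_ge {n | ω ∈ A n} (le_max_right (1 - ε) 0)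
    (show max (1 - ε) 0 < 1 - 1 / ((k : ℝ) + 2) from max_lt (by linarith) (by linarith)) J' g2 g3
  refine ⟨max x₁ x₂, fun x hx => ⟨?_, ?_⟩⟩
  · refine le_trans ?_ (hx₂ x ((le_max_right _ _).trans hx))
    apply EReal.coe_le_coe_iff.2
    exact mul_le_mul_of_nonneg_right (le_max_left _ 0) (sq_nonneg _)
  · refine (hx₁ x ((le_max_left _ _).trans hx)).trans ?_
    apply EReal.coe_le_coe_iff.2
    exact mul_le_mul_of_nonneg_right (by linarith) (sq_nonneg _)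

/-- all powers of `log n`: the constant is larger than one -/
theorem g3 (α : ℝ) (hα : 0 < α) : ∃ L : ℝ, 1 < L ∧ ∀ z : ℕ → ℕ, (∀ᶠ j : ℕ in atTop, (j : ℝ) ^ α ≤ z j) →
    Tendsto (fun j : ℕ => (z j : ℝ) / j) atTop (𝓝 0) →
    ∀ (Ω : Type*) [MeasurableSpace Ω] (μ : Measure Ω) (A : ℕ → Set Ω), IsSievedModel μ z A →
      ∀ᵐ ω ∂μ, ∃ x₀ : ℝ, ∀ x : ℝ, x₀ ≤ x → ((L * Real.log x ^ 2 : ℝ) : EReal) ≤ GapMax {n | ω ∈ A n} x := by
  obtain ⟨δ, hδ0, hδ1, K, z₀, hK, hlow⟩ := lowInt (3 / α)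
  refine ⟨1 + δ / 4, by linarith, fun z h1 h2 Ω _ μ A hA => ?_⟩
  have hz2 : ∀ᶠ j : ℕ in atTop, 2 ≤ z j := ev_z hα h1 2
  have he := engineRaw hA hz2 h2 (lam := 1 + δ / 2) (δ := δ) (by linarith) hδ1.le (by nlinarith) (by
    filter_upwards [ev_z hα h1 z₀, ev_hh (1 + δ / 2) (by linarith) hα h1, ev_hh1 (1 + δ / 2) (by linarith)] with j e1 e2 e3
    obtain ⟨a, -, ha⟩ := hlow (z j) e1 (hh (1 + δ / 2) j) e3 e2
    exact ⟨a, ha⟩)
  filter_upwards [he] with ω hω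
  obtain ⟨J, g1, g2⟩ := hω
  exact G_ge {n | ω ∈ A n} (by positivity) (by linarith) J g1 g2

end Pool.Agent.Q46.CM
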