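import Mathlib
import Pool.Agent.Q46.CM.Asy

/-! The number of exceptions to `g < (log p)²` in Cramér's model: final theorems (helper46). -/

set_option autoImplicit false

namespace Pool.Agent.Q46.CM

open Finset Filter Topology MeasureTheory ProbabilityTheory Pool.Agent.H318R2.Cr
open scoped ENNReal

/-- strong law for long gaps, all levels and all thresholds -/
theorem lln {Ω : Type*} [MeasurableSpace Ω] {μ : Measure Ω} {z : ℕ → ℕ} {A : ℕ → Set Ω} (hA : IsSievedModel μ z A)
    (F : ℕ → ℝ) (hs : ¬ Summable fun n => keepProb z n * ∏ m ∈ Ioc n (n + ⌈F n⌉₊), (1 - keepProb z m)) :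
    ∀ᵐ ω ∂μ, Tendsto (fun N : ℕ => ({q | q ∈ LongGaps {n | ω ∈ A n} F ∧ q < N}.ncard : ℝ) /
      ∑ n ∈ range N, keepProb z n * ∏ m ∈ Ioc n (n + ⌈F n⌉₊), (1 - keepProb z m)) atTop (𝓝 1) := by
  classical
  have hP : IsProbabilityMeasure μ := hA.indep.isProbabilityMeasure
  set f : ℕ → ℝ := fun n => keepProb z n * ∏ m ∈ Ioc n (n + ⌈F n⌉₊), (1 - keepProb z m) with hf
  have hf0 : ∀ n, 0 ≤ f n := fun n => mul_nonneg (keep_nonneg z n) (Finset.prod_nonneg fun m _ => by linarith [keep_le_one z m])
  have hfE : ∀ n, μ.real (EN A n ⌈F n⌉₊) = f n := fun n =>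
    EN_real hA.measurable hA.indep (keepProb z) (keep_nonneg z) (keep_le_one z) hA.prob n _
  have htend := (not_summable_iff_tendsto_nat_atTop_of_nonneg hf0).1 hs
  have h1 := strong_law (μ := μ) (fun n => EN A n ⌈F n⌉₊)
    (fun n => EN_meas hA.measurable hA.indep (keepProb z) (keep_nonneg z) (keep_le_one z) hA.prob n _) (by
      intro n k hnk
      rcases lt_or_gt_of_ne hnk with h5 | h5
      · exact EN_neg hA.measurable hA.indep (keepProb z) (keep_nonneg z) (keep_le_one z) hA.prob h5
      · rw [Set.inter_comm, mul_comm]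
        exact EN_neg hA.measurable hA.indep (keepProb z) (keep_nonneg z) (keep_le_one z) hA.prob h5)
    (by simp only [hfE]; exact htend)
  simp only [hfE] at h1
  filter_upwards [h1, zo_inf hA.measurable hA.indep (keepProb z) (keep_nonneg z) (keep_le_one z) hA.prob
    (fun n => ⌈F n⌉₊) hs] with ω hω hinf
  refine hω.congr fun N => ?_
  congr 1
  have hinf' : ∀ N : ℕ, ∃ m ≥ N, ω ∈ A m := fun N => by
    obtain ⟨n, hn, hE⟩ := hinf N
    exact ⟨n, hn, hE.1⟩
  have hset : {q | q ∈ LongGaps {n | ω ∈ A n} F ∧ q < N} =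
      (((range N).filter (fun n => ω ∈ EN A n ⌈F n⌉₊) : Finset ℕ) : Set ℕ) := by
    ext q
    simp only [Set.mem_ofPred_eq, coe_filter, mem_range]
    constructor
    · rintro ⟨h2, h3⟩; exact ⟨h3, long_EN h2⟩
    · rintro ⟨h2, h3⟩; exact ⟨EN_long h3 (Nat.le_ceil _) hinf', h2⟩
  rw [hset, Set.ncard_coe_finset]
  unfold SN
  simp only [Set.indicator_apply, Pi.one_apply]
  rw [Finset.sum_boole]

theorem D_asy : Tendsto (fun n : ℕ => (Real.log (Real.log ((n + 1 : ℕ) + 2)) - Real.log (Real.log (n + 2))) *
    (n * Real.log n)) atTop (𝓝 1) := by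
  have eR := tendsto_natCast_atTop_atTop (R := ℝ)
  have h3 : Tendsto (fun n : ℕ => 3 / ((n : ℝ) + 3)) atTop (𝓝 0) :=
    tendsto_const_nhds.div_atTop (tendsto_atTop_add_const_right _ _ eR)
  have h4 : Tendsto (fun n : ℕ => 3 / (n : ℝ)) atTop (𝓝 0) := tendsto_const_nhds.div_atTop eR
  have hlow : Tendsto (fun n : ℕ => (1 - 3 / ((n : ℝ) + 3)) * (1 - 3 / (n : ℝ))) atTop (𝓝 1) := by
    have := (h3.const_sub 1).mul (h4.const_sub 1)
    simpa using this
  apply tendsto_of_tendsto_of_tendsto_of_le_of_le' hlow tendsto_const_nhds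
  · filter_upwards [eventually_ge_atTop 3] with n hn
    have hn3 : (3 : ℝ) ≤ n := by exact_mod_cast hn
    have hn0 : (0 : ℝ) < n := by linarith
    set a := Real.log ((n : ℝ) + 2) with ha
    set b := Real.log ((n : ℝ) + 3) with hb
    have hcast : Real.log ((n + 1 : ℕ) + 2 : ℝ) = b := by
      rw [hb]; congr 1; push_cast; ring
    rw [hcast]
    have hlogn : 1 ≤ Real.log n := by
      rw [Real.le_log_iff_exp_le hn0]
      linarith [Real.exp_one_lt_d9]
    have ha1 : Real.log n ≤ a := Real.log_le_log hn0 (by linarith)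
    have hab : a ≤ b := Real.log_le_log (by linarith) (by linarith)
    have ha0 : 0 < a := by linarith
    have hb0 : 0 < b := by linarith
    have hba : 1 / ((n : ℝ) + 3) ≤ b - a := by
      rw [hb, ha, ← Real.log_div (by linarith) (by linarith)]
      have h5 := Real.one_sub_inv_le_log_of_pos (show 0 < ((n : ℝ) + 3) / (n + 2) by positivity)
      have h6 : 1 - (((n : ℝ) + 3) / (n + 2))⁻¹ = 1 / (n + 3) := by
        field_simp
        ring
      linarith
    have hD : (b - a) / b ≤ Real.log b - Real.log a := by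
      rw [← Real.log_div hb0.ne' ha0.ne']
      have h5 := Real.one_sub_inv_le_log_of_pos (show 0 < b / a by positivity)
      have h6 : 1 - (b / a)⁻¹ = (b - a) / b := by field_simp
      linarith
    have hbn : b ≤ Real.log n + 3 / n := by
      have h7 : (n : ℝ) + 3 = n * (1 + 3 / n) := by field_simp
      rw [hb, h7, Real.log_mul hn0.ne' (by positivity)]
      have := Real.log_le_sub_one_of_pos (show (0 : ℝ) < 1 + 3 / n by positivity)
      linarith
    have h8 : (1 - 3 / (n : ℝ)) ≤ Real.log n / b := by
      rw [le_div_iff₀ hb0]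
      have h9 : 0 ≤ 3 / (n : ℝ) := by positivity
      have h10 : 1 ≤ b := by linarith
      nlinarith
    have h11 : 1 - 3 / ((n : ℝ) + 3) = n / (n + 3) := by field_simp; ring
    rw [h11]
    calc (n : ℝ) / (n + 3) * (1 - 3 / n) ≤ n / (n + 3) * (Real.log n / b) :=
          mul_le_mul_of_nonneg_left h8 (by positivity)
      _ = (1 / (n + 3)) / b * (n * Real.log n) := by field_simp
      _ ≤ (b - a) / b * (n * Real.log n) := by
          apply mul_le_mul_of_nonneg_right _ (by positivity)
          exact div_le_div_of_nonneg_right hba hb0.le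
      _ ≤ (Real.log b - Real.log a) * (n * Real.log n) := mul_le_mul_of_nonneg_right hD (by positivity)
  · filter_upwards [eventually_ge_atTop 3] with n hn
    have hn3 : (3 : ℝ) ≤ n := by exact_mod_cast hn
    have hn0 : (0 : ℝ) < n := by linarith
    set a := Real.log ((n : ℝ) + 2) with ha
    set b := Real.log ((n : ℝ) + 3) with hb
    have hcast : Real.log ((n + 1 : ℕ) + 2 : ℝ) = b := by
      rw [hb]; congr 1; push_cast; ring
    rw [hcast]
    have hlogn : 1 ≤ Real.log n := by
      rw [Real.le_log_iff_exp_le hn0]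
      linarith [Real.exp_one_lt_d9]
    have ha1 : Real.log n ≤ a := Real.log_le_log hn0 (by linarith)
    have hab : a ≤ b := Real.log_le_log (by linarith) (by linarith)
    have ha0 : 0 < a := by linarith
    have hb0 : 0 < b := by linarith
    have hba : b - a ≤ 1 / ((n : ℝ) + 2) := by
      rw [hb, ha, ← Real.log_div (by linarith) (by linarith)]
      have h5 := Real.log_le_sub_one_of_pos (show 0 < ((n : ℝ) + 3) / (n + 2) by positivity)
      have h6 : ((n : ℝ) + 3) / (n + 2) - 1 = 1 / (n + 2) := by
        field_simp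
        ring
      linarith
    have hD : Real.log b - Real.log a ≤ (b - a) / a := by
      rw [← Real.log_div hb0.ne' ha0.ne']
      have h5 := Real.log_le_sub_one_of_pos (show 0 < b / a by positivity)
      have h6 : b / a - 1 = (b - a) / a := by field_simp
      linarith
    calc (Real.log b - Real.log a) * (n * Real.log n) ≤ ((b - a) / a) * (n * Real.log n) :=
          mul_le_mul_of_nonneg_right hD (by positivity)
      _ ≤ (1 / (n + 2)) / a * (n * Real.log n) := by
          apply mul_le_mul_of_nonneg_right _ (by positivity)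
          exact div_le_div_of_nonneg_right hba ha0.le
      _ = (n * Real.log n) / ((n + 2) * a) := by field_simp
      _ ≤ 1 := by
          rw [div_le_one (by positivity)]
          exact mul_le_mul (by linarith) ha1 (by linarith) (by linarith)

theorem sum_asy : Tendsto (fun N : ℕ => (∑ n ∈ range N, fP 1 n ⌈Real.log n ^ 2⌉₊) / Real.log (Real.log N)) atTop
    (𝓝 (Real.exp (-(1 / 2)))) := by
  have eR := tendsto_natCast_atTop_atTop (R := ℝ)
  have hlog : Tendsto (fun n : ℕ => Real.log n) atTop atTop := Real.tendsto_log_atTop.comp eR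
  have hll : Tendsto (fun n : ℕ => Real.log (Real.log n)) atTop atTop := Real.tendsto_log_atTop.comp hlog
  set c := Real.exp (-(1 / 2)) with hc
  set u : ℕ → ℝ := fun n => Real.log (Real.log ((n : ℝ) + 2)) with hu
  set D : ℕ → ℝ := fun n => u (n + 1) - u n with hD
  set f : ℕ → ℝ := fun n => fP 1 n ⌈Real.log n ^ 2⌉₊ with hf
  have humono : ∀ n, 0 ≤ D n := by
    intro n
    simp only [hD, hu]
    have hn : (0 : ℝ) ≤ n := Nat.cast_nonneg n
    have h1 : 0 < Real.log ((n : ℝ) + 2) := Real.log_pos (by linarith)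
    have h2 : Real.log ((n : ℝ) + 2) ≤ Real.log ((n + 1 : ℕ) + 2 : ℝ) := Real.log_le_log (by linarith) (by push_cast; linarith)
    linarith [Real.log_le_log h1 h2]
  have hsumD : ∀ N, ∑ n ∈ range N, D n = u N - u 0 := fun N => Finset.sum_range_sub u N
  have huT : Tendsto u atTop atTop :=
    Real.tendsto_log_atTop.comp (Real.tendsto_log_atTop.comp (tendsto_atTop_add_const_right _ _ eR))
  have hDT : Tendsto (fun N => ∑ n ∈ range N, D n) atTop atTop := by
    simp only [hsumD]
    exact tendsto_atTop_add_const_right _ _ huT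
  have hDas : Tendsto (fun n : ℕ => D n * (n * Real.log n)) atTop (𝓝 1) := D_asy
  have hfas : Tendsto (fun n : ℕ => f n * (n * Real.log n)) atTop (𝓝 c) := asy
  have hpos : ∀ᶠ n : ℕ in atTop, 0 < D n := by
    filter_upwards [hDas.eventually_const_lt (show (1 / 2 : ℝ) < 1 by norm_num), hlog.eventually_gt_atTop 0,
      eventually_ge_atTop 1] with n h1 h2 h3
    have hn0 : (0 : ℝ) < n := by exact_mod_cast h3
    by_contra h
    have h4 : D n = 0 := le_antisymm (not_lt.1 h) (humono n)
    rw [h4] at h1
    linarith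
  have hratio : Tendsto (fun n => (f n - c * D n) / D n) atTop (𝓝 0) := by
    have h1 := (hfas.div hDas one_ne_zero).sub_const c
    rw [div_one, sub_self] at h1
    refine h1.congr' ?_
    filter_upwards [hpos, hlog.eventually_gt_atTop 0, eventually_ge_atTop 1] with n h2 h3 h4
    have hn0 : (0 : ℝ) < n := by exact_mod_cast h4
    simp only [Pi.div_apply]
    field_simp
  have hlo : (fun n => f n - c * D n) =o[atTop] D := by
    rw [Asymptotics.isLittleO_iff_tendsto']
    · exact hratio
    · filter_upwards [hpos] with n h1 h2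
      exact absurd h2 h1.ne'
  have hsum := hlo.sum_range humono hDT
  have hs2 := hsum.tendsto_div_nhds_zero
  have hA : Tendsto (fun N => (∑ n ∈ range N, f n) / ∑ n ∈ range N, D n) atTop (𝓝 c) := by
    have h1 := hs2.const_add c
    rw [add_zero] at h1
    refine h1.congr' ?_
    filter_upwards [hDT.eventually_gt_atTop 0] with N hN
    rw [Finset.sum_sub_distrib, ← Finset.mul_sum]
    field_simp
    ring
  have hB : Tendsto (fun N : ℕ => (∑ n ∈ range N, D n) / Real.log (Real.log N)) atTop (𝓝 1) := by
    have h1 : Tendsto (fun N : ℕ => 1 + (u N - Real.log (Real.log N) - u 0) / Real.log (Real.log N)) atTop (𝓝 (1 + 0)) := by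
      apply Tendsto.const_add
      have hbd : Tendsto (fun N : ℕ => (1 + |u 0|) / Real.log (Real.log N)) atTop (𝓝 0) := tendsto_const_nhds.div_atTop hll
      apply squeeze_zero_norm' _ hbd
      filter_upwards [hll.eventually_gt_atTop 0, eventually_ge_atTop 3] with N h2 h3
      have hN3 : (3 : ℝ) ≤ N := by exact_mod_cast h3
      have hN0 : (0 : ℝ) < N := by linarith
      have hlogn : 1 ≤ Real.log N := by
        rw [Real.le_log_iff_exp_le hN0]
        linarith [Real.exp_one_lt_d9]
      rw [Real.norm_eq_abs, abs_div, abs_of_pos h2]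
      apply div_le_div_of_nonneg_right _ h2.le
      have h4 : 0 ≤ u N - Real.log (Real.log N) := by
        have : Real.log N ≤ Real.log ((N : ℝ) + 2) := Real.log_le_log hN0 (by linarith)
        have := Real.log_le_log (by linarith) this
        simp only [hu]
        linarith
      have h5 : u N - Real.log (Real.log N) ≤ 1 := by
        simp only [hu]
        have ha0 : 0 < Real.log ((N : ℝ) + 2) := Real.log_pos (by linarith)
        rw [← Real.log_div ha0.ne' (by linarith)]
        have h6 := Real.log_le_sub_one_of_pos (show 0 < Real.log ((N : ℝ) + 2) / Real.log N by positivity)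
        have h7 : Real.log ((N : ℝ) + 2) ≤ Real.log N + 2 / N := by
          have h8 : (N : ℝ) + 2 = N * (1 + 2 / N) := by field_simp
          rw [h8, Real.log_mul hN0.ne' (by positivity)]
          have := Real.log_le_sub_one_of_pos (show (0 : ℝ) < 1 + 2 / N by positivity)
          linarith
        have h9 : 2 / (N : ℝ) ≤ 1 := by rw [div_le_one hN0]; linarith
        have h10 : Real.log ((N : ℝ) + 2) / Real.log N ≤ 2 := by
          rw [div_le_iff₀ (by linarith)]
          linarith
        linarith
      calc |u N - Real.log (Real.log N) - u 0| ≤ |u N - Real.log (Real.log N)| + |u 0| := abs_sub _ _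
        _ ≤ 1 + |u 0| := by
            rw [abs_of_nonneg h4]
            linarith
    rw [add_zero] at h1
    refine h1.congr' ?_
    filter_upwards [hll.eventually_gt_atTop 0] with N h2
    rw [hsumD]
    field_simp
    ring
  have h := hA.mul hB
  rw [mul_one] at h
  refine h.congr' ?_
  filter_upwards [hDT.eventually_gt_atTop 0, hll.eventually_gt_atTop 0] with N h1 h2
  field_simp

/-- Cramér's model: the number of exceptions up to `N` is `~ e^(-1/2) log log N` -/
theorem exceptions {Ω : Type*} [MeasurableSpace Ω] {μ : Measure Ω} {A : ℕ → Set Ω}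
    (hA : IsSievedModel μ (fun _ => 1) A) :
    ∀ᵐ ω ∂μ, Tendsto (fun N : ℕ => ({q | q ∈ LongGaps {n | ω ∈ A n} (fun q => Real.log q ^ 2) ∧ q < N}.ncard : ℝ) /
      Real.log (Real.log N)) atTop (𝓝 (Real.exp (-(1 / 2)))) := by
  have hns : ¬ Summable fun n : ℕ => fP 1 n ⌈Real.log n ^ 2⌉₊ := by
    have h1 := not_summ_fP 1
    have h2 : ∀ n : ℕ, Fc 0 n = Real.log n ^ 2 := fun n => by unfold Fc; ring
    simpa only [h2] using h1
  filter_upwards [lln hA (fun q => Real.log q ^ 2) hns] with ω hω
  have h := hω.mul sum_asy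
  rw [one_mul] at h
  refine h.congr' ?_
  have hT := (not_summable_iff_tendsto_nat_atTop_of_nonneg (fun n => fP_nonneg 1 n ⌈Real.log n ^ 2⌉₊)).1 hns
  filter_upwards [hT.eventually_gt_atTop 0] with N hN
  unfold fP at hN ⊢
  exact div_mul_div_cancel₀ hN.ne'

end Pool.Agent.Q46.CM
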