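import Mathlib
import Pool.Agent.Q46.CM.Chern
import Pool.Agent.Q46.CM.Prob

/-! Few kept integers in a finite set: bounds for the probability (helper46). -/

set_option autoImplicit false

namespace Pool.Agent.Q46.CM

open Finset Filter Topology MeasureTheory ProbabilityTheory Pool.Agent.H318R2.Cr
open scoped ENNReal

variable {Ω : Type*} [MeasurableSpace Ω] {μ : Measure Ω} {z : ℕ → ℕ} {A : ℕ → Set Ω}

/-- fewer than `k` of the elements of `W` are kept -/
def Few (A : ℕ → Set Ω) (W : Finset ℕ) (k : ℕ) : Set Ω := {ω | {m | m ∈ W ∧ ω ∈ A m}.ncard < k}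

theorem few_le (hA : IsSievedModel μ z A) (W : Finset ℕ) {k : ℕ} (hk : 1 ≤ k) {s : ℝ} (hs0 : 0 < s) (hs1 : s ≤ 1) :
    μ.real (Few A W k) ≤ (1 / s) ^ (k - 1) * Real.exp (-((1 - s) * ∑ n ∈ W, keepProb z n)) := by
  have : IsProbabilityMeasure μ := hA.indep.isProbabilityMeasure
  have h1 : Few A W k ⊆ {ω | SS A W ω ≤ ((k - 1 : ℕ) : ℝ)} := by
    intro ω hω
    rw [Set.mem_setOf_eq, SS_card]
    have h2 : {m | m ∈ W ∧ ω ∈ A m}.ncard < k := hω
    exact_mod_cast (by omega : {m | m ∈ W ∧ ω ∈ A m}.ncard ≤ k - 1)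
  have ht : Real.log s ≤ 0 := Real.log_nonpos hs0.le hs1
  have h2 := measure_le_le_exp_mul_mgf (μ := μ) (X := SS A W) (((k - 1 : ℕ) : ℝ)) ht (int_SS hA W _)
  have h3 := mgf_SS hA W (Real.log s)
  rw [Real.exp_log hs0] at h3
  calc μ.real (Few A W k) ≤ μ.real {ω | SS A W ω ≤ ((k - 1 : ℕ) : ℝ)} := measureReal_mono h1
    _ ≤ Real.exp (-Real.log s * ((k - 1 : ℕ) : ℝ)) * mgf (SS A W) μ (Real.log s) := h2
    _ ≤ Real.exp (-Real.log s * ((k - 1 : ℕ) : ℝ)) * Real.exp ((∑ n ∈ W, keepProb z n) * (s - 1)) :=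
        mul_le_mul_of_nonneg_left h3 (Real.exp_nonneg _)
    _ = _ := by
        congr 1
        · rw [← Real.log_inv, mul_comm, Real.exp_nat_mul, Real.exp_log (by positivity), one_div]
        · congr 1; ring

theorem pattern (hA : IsSievedModel μ z A) (W S : Finset ℕ) :
    μ.real (⋂ m ∈ W, if m ∈ S then A m else (A m)ᶜ) =
      ∏ m ∈ W, (if m ∈ S then keepProb z m else 1 - keepProb z m) := by
  have : IsProbabilityMeasure μ := hA.indep.isProbabilityMeasure
  unfold Measure.real
  rw [group_prod hA.measurable hA.indep (fun n => ({n} : Set ℕ)) (fun m => if m ∈ S then A m else (A m)ᶜ)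
    (fun n => by
      by_cases h : n ∈ S
      · simp only [h, if_true]; exact meas_sg (Set.mem_singleton n)
      · simp only [h, if_false]; exact MeasurableSet.compl (meas_sg (Set.mem_singleton n))) W
    (fun i _ j _ hij => Set.disjoint_singleton.2 hij), ENNReal.toReal_prod]
  apply Finset.prod_congr rfl
  intro m _
  by_cases h : m ∈ S
  · simp only [h, if_true]
    rw [hA.prob, ENNReal.toReal_ofReal (keep_nonneg z m)]
  · simp only [h, if_false]
    have h1 : μ.real (A m)ᶜ = 1 - μ.real (A m) := probReal_compl_eq_one_sub (hA.measurable m)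
    have h2 : μ.real (A m) = keepProb z m := by
      unfold Measure.real
      rw [hA.prob m, ENNReal.toReal_ofReal (keep_nonneg z m)]
    rw [h2] at h1
    exact h1

theorem few_ge (hA : IsSievedModel μ z A) (W : Finset ℕ) {k : ℕ} (hk : 1 ≤ k) {q : ℝ} (hq0 : 0 ≤ q)
    (hq : ∀ m ∈ W, q ≤ keepProb z m) :
    (W.card.choose (k - 1) : ℝ) * (q ^ (k - 1) * ∏ m ∈ W, (1 - keepProb z m)) ≤ μ.real (Few A W k) := by
  classical
  have : IsProbabilityMeasure μ := hA.indep.isProbabilityMeasure
  have hsub : (⋃ S ∈ W.powersetCard (k - 1), ⋂ m ∈ W, if m ∈ S then A m else (A m)ᶜ) ⊆ Few A W k := by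
    intro ω hω
    simp only [Set.mem_iUnion] at hω
    obtain ⟨S, hS, h⟩ := hω
    obtain ⟨hSW, hSc⟩ := Finset.mem_powersetCard.1 hS
    have h1 : {m | m ∈ W ∧ ω ∈ A m} ⊆ (S : Set ℕ) := by
      rintro m ⟨hm, hmA⟩
      by_contra h2
      have h3 := Set.mem_iInter₂.1 h m hm
      have h4 : m ∉ S := fun h5 => h2 (by exact_mod_cast h5)
      simp only [h4, if_false] at h3
      exact h3 hmA
    have h2 := Set.ncard_le_ncard h1 S.finite_toSet
    rw [Set.ncard_coe_finset, hSc] at h2
    show {m | m ∈ W ∧ ω ∈ A m}.ncard < k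
    omega
  have hdis : Set.PairwiseDisjoint (↑(W.powersetCard (k - 1))) (fun S : Finset ℕ => ⋂ m ∈ W, if m ∈ S then A m else (A m)ᶜ) := by
    intro S hS T hT hST
    have hS' := (Finset.mem_powersetCard.1 (Finset.mem_coe.1 hS)).1
    have hT' := (Finset.mem_powersetCard.1 (Finset.mem_coe.1 hT)).1
    rw [Function.onFun, Set.disjoint_left]
    intro ω h1 h2
    apply hST
    ext m
    constructor
    · intro h
      by_contra h'
      have h3 := Set.mem_iInter₂.1 h1 m (hS' h)
      have h4 := Set.mem_iInter₂.1 h2 m (hS' h)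
      simp only [h, h', if_true, if_false] at h3 h4
      exact h4 h3
    · intro h
      by_contra h'
      have h3 := Set.mem_iInter₂.1 h1 m (hT' h)
      have h4 := Set.mem_iInter₂.1 h2 m (hT' h)
      simp only [h, h', if_true, if_false] at h3 h4
      exact h3 h4
  have hmeas : ∀ S ∈ W.powersetCard (k - 1), MeasurableSet (⋂ m ∈ W, if m ∈ S then A m else (A m)ᶜ) := by
    intro S _
    apply Finset.measurableSet_biInter
    intro m _
    by_cases h : m ∈ S
    · simp only [h, if_true]; exact hA.measurable m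
    · simp only [h, if_false]; exact (hA.measurable m).compl
  calc (W.card.choose (k - 1) : ℝ) * (q ^ (k - 1) * ∏ m ∈ W, (1 - keepProb z m))
      = ∑ S ∈ W.powersetCard (k - 1), (q ^ (k - 1) * ∏ m ∈ W, (1 - keepProb z m)) := by
        rw [Finset.sum_const, Finset.card_powersetCard, nsmul_eq_mul]
    _ ≤ ∑ S ∈ W.powersetCard (k - 1), μ.real (⋂ m ∈ W, if m ∈ S then A m else (A m)ᶜ) := by
        apply Finset.sum_le_sum
        intro S hS
        obtain ⟨hSW, hSc⟩ := Finset.mem_powersetCard.1 hS
        rw [pattern hA]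
        have h1 : ∏ m ∈ W, (if m ∈ S then keepProb z m else 1 - keepProb z m) =
            (∏ m ∈ S, keepProb z m) * ∏ m ∈ W \ S, (1 - keepProb z m) := by
          rw [← Finset.prod_sdiff hSW, mul_comm]
          congr 1
          · exact Finset.prod_congr rfl fun m hm => by simp only [hm, if_true]
          · exact Finset.prod_congr rfl fun m hm => by simp only [(Finset.mem_sdiff.1 hm).2, if_false]
        rw [h1]
        apply mul_le_mul
        · rw [← hSc, ← Finset.prod_const]
          exact Finset.prod_le_prod (fun _ _ => hq0) fun m hm => hq m (hSW hm)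
        · rw [← Finset.prod_sdiff hSW]
          apply mul_le_of_le_one_right
          · exact Finset.prod_nonneg fun m _ => by linarith [keep_le_one z m]
          · exact Finset.prod_le_one (fun m _ => by linarith [keep_le_one z m]) fun m _ => by linarith [keep_nonneg z m]
        · exact Finset.prod_nonneg fun m _ => by linarith [keep_le_one z m]
        · exact Finset.prod_nonneg fun m _ => keep_nonneg z m
    _ = μ.real (⋃ S ∈ W.powersetCard (k - 1), ⋂ m ∈ W, if m ∈ S then A m else (A m)ᶜ) :=
        (measureReal_biUnion_finset hdis hmeas).symm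
    _ ≤ _ := measureReal_mono hsub

theorem few_meas (W : Finset ℕ) (k : ℕ) : MeasurableSet[sg A (W : Set ℕ)] (Few A W k) := by
  classical
  have h1 : Few A W k = ⋃ S ∈ W.powerset.filter (fun S => S.card < k), ⋂ m ∈ W, if m ∈ S then A m else (A m)ᶜ := by
    ext ω
    simp only [Set.mem_iUnion, Few, Set.mem_setOf_eq]
    have h2 : {m | m ∈ W ∧ ω ∈ A m} = ((W.filter (fun m => ω ∈ A m) : Finset ℕ) : Set ℕ) := by
      ext n; simp
    constructor
    · intro h
      rw [h2, Set.ncard_coe_finset] at h
      refine ⟨W.filter (fun m => ω ∈ A m), Finset.mem_filter.2 ⟨Finset.mem_powerset.2 (Finset.filter_subset _ _), h⟩, ?_⟩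
      apply Set.mem_iInter₂.2
      intro m hm
      by_cases h3 : ω ∈ A m
      · have : m ∈ W.filter (fun m => ω ∈ A m) := Finset.mem_filter.2 ⟨hm, h3⟩
        simp only [this, if_true]; exact h3
      · have : m ∉ W.filter (fun m => ω ∈ A m) := fun h4 => h3 (Finset.mem_filter.1 h4).2
        simp only [this, if_false]; exact h3
    · rintro ⟨S, hS, h⟩
      obtain ⟨hSW, hSc⟩ := Finset.mem_filter.1 hS
      have h3 : {m | m ∈ W ∧ ω ∈ A m} ⊆ (S : Set ℕ) := by
        rintro m ⟨hm, hmA⟩
        by_contra h2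
        have h3 := Set.mem_iInter₂.1 h m hm
        have h4 : m ∉ S := fun h5 => h2 (by exact_mod_cast h5)
        simp only [h4, if_false] at h3
        exact h3 hmA
      have h4 := Set.ncard_le_ncard h3 S.finite_toSet
      rw [Set.ncard_coe_finset] at h4
      omega
  rw [h1]
  apply Finset.measurableSet_biUnion
  intro S _
  apply Finset.measurableSet_biInter
  intro m hm
  by_cases h : m ∈ S
  · simp only [h, if_true]; exact meas_sg (by exact_mod_cast hm)
  · simp only [h, if_false]; exact MeasurableSet.compl (meas_sg (by exact_mod_cast hm))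

end Pool.Agent.Q46.CM
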