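import Mathlib
import Pool.Agent.Q46.CM.Op1
import Pool.Agent.Q46.CM.Asy

/-! Windows next to the squares in Cramér's model: the two series (helper46). -/

set_option autoImplicit false

namespace Pool.Agent.Q46.CM

open Finset Filter Topology MeasureTheory ProbabilityTheory Pool.Agent.H318R2.Cr
open scoped ENNReal

/-- the length `2 (log n)² + c log n log log n` (rounded down) -/
noncomputable def hw (c : ℝ) (n : ℕ) : ℕ := ⌊2 * Real.log n ^ 2 + c * Real.log n * Real.log (Real.log n)⌋₊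

theorem ev_basic (c M : ℝ) (hc : 0 ≤ c) : ∀ᶠ n : ℕ in atTop, M ≤ Real.log n ∧ M ≤ Real.log (Real.log n) ∧
    Real.log (Real.log n) ≤ Real.log n ∧ Real.log n * (2 + c) * Real.log n ≤ n / 2 ∧
    0 ≤ Real.log (n + 1) - Real.log n ∧ Real.log (n + 1) - Real.log n ≤ 1 / n ∧ M ≤ n := by
  have eR := tendsto_natCast_atTop_atTop (R := ℝ)
  have hlog : Tendsto (fun n : ℕ => Real.log n) atTop atTop := Real.tendsto_log_atTop.comp eR
  have hll : Tendsto (fun n : ℕ => Real.log (Real.log n)) atTop atTop := Real.tendsto_log_atTop.comp hlog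
  have h1 : Tendsto (fun n : ℕ => Real.log n ^ 2 / n) atTop (𝓝 0) := by
    have := (isLittleO_log_rpow_atTop (r := 1/2) (by norm_num)).tendsto_div_nhds_zero
    have h2 := (this.pow 2).comp eR
    rw [zero_pow (by norm_num)] at h2
    refine h2.congr' ?_
    filter_upwards [eventually_ge_atTop 1] with n hn
    have hn0 : (0 : ℝ) < n := by exact_mod_cast hn
    simp only [Function.comp]
    rw [div_pow, ← Real.rpow_natCast ((n : ℝ) ^ (1 / 2 : ℝ)), ← Real.rpow_mul hn0.le]
    norm_num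
  filter_upwards [hlog.eventually_ge_atTop M, hll.eventually_ge_atTop M, hlog.eventually_ge_atTop 1,
    h1.eventually_le_const (show (0 : ℝ) < 1 / (2 * (2 + c)) by positivity), eventually_ge_atTop 1, eR.eventually_ge_atTop M]
    with n a1 a2 a3 a4 a5 a6
  have hn0 : (0 : ℝ) < n := by exact_mod_cast a5
  refine ⟨a1, a2, ?_, ?_, ?_, ?_, a6⟩
  · have := Real.log_le_sub_one_of_pos (show 0 < Real.log n by linarith)
    linarith
  · rw [div_le_div_iff₀ hn0 (by positivity)] at a4
    nlinarith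
  · have := Real.log_le_log hn0 (show (n : ℝ) ≤ n + 1 by linarith)
    linarith
  · have h2 : (n : ℝ) + 1 = n * (1 + 1 / n) := by field_simp
    rw [h2, Real.log_mul hn0.ne' (by positivity)]
    have := Real.log_le_sub_one_of_pos (show (0 : ℝ) < 1 + 1 / n by positivity)
    linarith

/-- upper bound for `c > 2k`: any window of `hw c n` integers between `3` and `(n+1)²` -/
theorem up {k : ℕ} (hk : 1 ≤ k) {c : ℝ} (hc : 2 * (k : ℝ) < c) : ∃ C : ℝ, ∀ᶠ n : ℕ in atTop,
    ∀ {Ω : Type*} [MeasurableSpace Ω] {μ : Measure Ω} {A : ℕ → Set Ω}, IsSievedModel μ (fun _ => 1) A →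
    ∀ W : Finset ℕ, W.card = hw c n → (∀ m ∈ W, 3 ≤ m ∧ m ≤ (n + 1) ^ 2) →
    μ.real (Few A W k) ≤ C * (1 / ((n : ℝ) * (1 + Real.log n) ^ (1 + (c / 2 - k)))) := by
  have hc0 : 0 ≤ c := by
    have : (0 : ℝ) ≤ k := Nat.cast_nonneg k
    linarith
  refine ⟨2 ^ (1 + (c / 2 - k)) * Real.exp (2 + c / 2), ?_⟩
  filter_upwards [ev_basic c (4 + c) hc0] with n hb Ω _ μ A hA W hW hWm
  obtain ⟨b1, b2, b3, b4, b5, b6, b7⟩ := hb
  set L := Real.log n with hL
  set l := Real.log L with hl
  have hL0 : 0 < L := by linarith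
  have hn0 : (0 : ℝ) < n := by linarith
  have hn1 : (1 : ℝ) ≤ n := by linarith
  have hL' : Real.log (n + 1) ≤ L + 1 / n := by linarith
  have hs1 : 1 / L ≤ 1 := by rw [div_le_one hL0]; linarith
  have h1 := few_le hA W hk (s := 1 / L) (by positivity) hs1
  have hsum : L + c / 2 * l - 1 ≤ ∑ m ∈ W, keepProb (fun _ => 1) m := by
    have h2 : ∀ m ∈ W, 1 / (2 * Real.log (n + 1)) ≤ keepProb (fun _ => 1) m := by
      intro m hm
      obtain ⟨h3, h4⟩ := hWm m hm
      rw [kp1 h3]
      have hm0 : (1 : ℝ) < m := by exact_mod_cast (by omega : 1 < m)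
      apply one_div_le_one_div_of_le (Real.log_pos hm0)
      have h5 : (m : ℝ) ≤ ((n : ℝ) + 1) ^ 2 := by exact_mod_cast h4
      have h6 := Real.log_le_log (by linarith) h5
      rw [Real.log_pow] at h6
      exact_mod_cast h6
    have h3 : (hw c n : ℝ) * (1 / (2 * Real.log (n + 1))) ≤ ∑ m ∈ W, keepProb (fun _ => 1) m := by
      rw [← hW, ← nsmul_eq_mul, ← Finset.sum_const]
      exact Finset.sum_le_sum h2
    have h4 : 2 * L ^ 2 + c * L * l - 1 ≤ hw c n := by
      have := Nat.lt_floor_add_one (2 * Real.log n ^ 2 + c * Real.log n * Real.log (Real.log n))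
      unfold hw
      linarith
    refine le_trans ?_ h3
    have hlp : 0 < Real.log ((n : ℝ) + 1) := by linarith
    rw [mul_one_div, le_div_iff₀ (by linarith)]
    refine le_trans ?_ h4
    have h5 : 0 ≤ L + c / 2 * l - 1 := by nlinarith
    have h6 : (L + c / 2 * l - 1) * (2 * Real.log (n + 1)) ≤ (L + c / 2 * l - 1) * (2 * (L + 1 / n)) :=
      mul_le_mul_of_nonneg_left (by linarith) h5
    refine le_trans h6 ?_
    have h7 : (L + c / 2 * l - 1) * (2 * (1 / n)) ≤ 2 + c := by
      have h8 : (L + c / 2 * l - 1) ≤ (1 + c / 2) * n := by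
        have h9 : L ≤ n := by
          have := Real.log_le_sub_one_of_pos hn0
          linarith
        nlinarith
      calc (L + c / 2 * l - 1) * (2 * (1 / n)) ≤ ((1 + c / 2) * n) * (2 * (1 / n)) :=
            mul_le_mul_of_nonneg_right h8 (by positivity)
        _ = 2 + c := by field_simp
    nlinarith
  refine h1.trans ?_
  set t := ∑ m ∈ W, keepProb (fun _ => 1) m with ht
  have hexp : Real.exp (-((1 - 1 / L) * t)) ≤ Real.exp (2 + c / 2) * (1 / n) * L ^ (-(c / 2)) := by
    have h2 : Real.exp (2 + c / 2) * (1 / n) * L ^ (-(c / 2)) = Real.exp (2 + c / 2 - L - c / 2 * l) := by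
      have e1 : Real.exp (-L) = 1 / n := by rw [Real.exp_neg, hL, Real.exp_log hn0, one_div]
      have e2 : L ^ (-(c / 2)) = Real.exp (l * (-(c / 2))) := by rw [Real.rpow_def_of_pos hL0]
      rw [e2, ← e1, ← Real.exp_add, ← Real.exp_add]
      congr 1
      ring
    rw [h2]
    apply Real.exp_le_exp.2
    have h3 : (1 - 1 / L) * (L + c / 2 * l - 1) ≤ (1 - 1 / L) * t := mul_le_mul_of_nonneg_left hsum (by linarith)
    have h4 : (1 - 1 / L) * (L + c / 2 * l - 1) = (L + c / 2 * l - 1) - (L + c / 2 * l - 1) / L := by ring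
    have h5 : (L + c / 2 * l - 1) / L ≤ 1 + c / 2 := by
      rw [div_le_iff₀ hL0]
      nlinarith
    linarith
  have hk1 : (1 / (1 / L)) ^ (k - 1) = L ^ ((k : ℝ) - 1) := by
    rw [one_div_one_div, ← Real.rpow_natCast, Nat.cast_sub hk, Nat.cast_one]
  rw [hk1]
  calc L ^ ((k : ℝ) - 1) * Real.exp (-((1 - 1 / L) * t)) ≤
        L ^ ((k : ℝ) - 1) * (Real.exp (2 + c / 2) * (1 / n) * L ^ (-(c / 2))) :=
        mul_le_mul_of_nonneg_left hexp (Real.rpow_nonneg hL0.le _)
    _ = Real.exp (2 + c / 2) * (1 / n) * L ^ (-(1 + (c / 2 - k))) := by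
        rw [show L ^ ((k : ℝ) - 1) * (Real.exp (2 + c / 2) * (1 / n) * L ^ (-(c / 2))) =
          Real.exp (2 + c / 2) * (1 / n) * (L ^ ((k : ℝ) - 1) * L ^ (-(c / 2))) by ring, ← Real.rpow_add hL0]
        congr 2; ring
    _ ≤ Real.exp (2 + c / 2) * (1 / n) * (2 ^ (1 + (c / 2 - k)) * (1 + L) ^ (-(1 + (c / 2 - k)))) := by
        apply mul_le_mul_of_nonneg_left _ (by positivity)
        have hδ : 0 ≤ 1 + (c / 2 - k) := by linarith
        rw [Real.rpow_neg hL0.le, Real.rpow_neg (by linarith), ← div_eq_mul_inv, ← one_div,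
          div_le_div_iff₀ (Real.rpow_pos_of_pos hL0 _) (Real.rpow_pos_of_pos (by linarith) _), one_mul,
          ← Real.mul_rpow (by norm_num) hL0.le]
        exact Real.rpow_le_rpow (by linarith) (by linarith) hδ
    _ = _ := by
        rw [Real.rpow_neg (by linarith)]
        field_simp

end Pool.Agent.Q46.CM
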