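import Mathlib
import Pool.Agent.Q46.CM.Op2

/-! Windows next to the squares in Cramér's model: lower bound (helper46). -/

set_option autoImplicit false

namespace Pool.Agent.Q46.CM

open Finset Filter Topology MeasureTheory ProbabilityTheory Pool.Agent.H318R2.Cr
open scoped ENNReal

/-- lower bound for `c = 2k` -/
theorem low {k : ℕ} (hk : 1 ≤ k) : ∃ C : ℝ, 0 < C ∧ ∀ᶠ n : ℕ in atTop,
    ∀ {Ω : Type*} [MeasurableSpace Ω] {μ : Measure Ω} {A : ℕ → Set Ω}, IsSievedModel μ (fun _ => 1) A →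
    C * (1 / ((n : ℝ) * (1 + Real.log n))) ≤ μ.real (Few A (Ioc (n ^ 2) (n ^ 2 + hw (2 * k) n)) k) := by
  have hk0 : (1 : ℝ) ≤ k := by exact_mod_cast hk
  refine ⟨((1 / 8 : ℝ) ^ (k - 1) / (k - 1).factorial) * Real.exp (-(k + 1)), by positivity, ?_⟩
  filter_upwards [ev_basic (2 * k) (4 + 4 * k) (by positivity), eventually_ge_atTop 3] with n hb hn3 Ω _ μ A hA
  obtain ⟨b1, b2, b3, b4, b5, b6, b7⟩ := hb
  set L := Real.log n with hL
  set l := Real.log L with hl
  have hL0 : 0 < L := by linarith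
  have hl0 : 0 < l := by linarith
  have hn0 : (0 : ℝ) < n := by linarith
  have hn1 : (1 : ℝ) ≤ n := by linarith
  have hhw : (hw (2 * k) n : ℝ) ≤ 2 * L ^ 2 + 2 * k * L * l := by
    unfold hw
    exact Nat.floor_le (by positivity)
  have hhw' : 2 * L ^ 2 + 2 * k * L * l - 1 ≤ (hw (2 * k) n : ℝ) := by
    have := Nat.lt_floor_add_one (2 * Real.log n ^ 2 + 2 * k * Real.log n * Real.log (Real.log n))
    unfold hw
    linarith
  have hwn : (hw (2 * k) n : ℝ) ≤ n / 2 := by
    refine hhw.trans (le_trans ?_ b4)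
    have h0 : 2 * (k : ℝ) * L * l ≤ 2 * k * L * L := mul_le_mul_of_nonneg_left b3 (by positivity)
    nlinarith [h0]
  have hwn' : hw (2 * k) n ≤ n := by
    have : (hw (2 * k) n : ℝ) ≤ n := by linarith
    exact_mod_cast this
  have hkp : ∀ m ∈ Ioc (n ^ 2) (n ^ 2 + hw (2 * k) n), 1 / (4 * L) ≤ keepProb (fun _ => 1) m ∧
      keepProb (fun _ => 1) m ≤ 1 / (2 * L) := by
    intro m hm
    obtain ⟨h3, h4⟩ := Finset.mem_Ioc.1 hm
    have h5 : 3 ≤ m := by nlinarith
    rw [kp1 h5]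
    have hm0 : (1 : ℝ) < m := by exact_mod_cast (by omega : 1 < m)
    constructor
    · apply one_div_le_one_div_of_le (Real.log_pos hm0)
      have h6 : m ≤ n ^ 4 := by
        have : n ^ 2 + n ≤ n ^ 4 := by nlinarith [Nat.pow_le_pow_left hn3 2, sq_nonneg (n ^ 2)]
        omega
      have h7 : (m : ℝ) ≤ (n : ℝ) ^ 4 := by exact_mod_cast h6
      have h8 := Real.log_le_log (by linarith) h7
      rw [Real.log_pow] at h8
      exact_mod_cast h8
    · apply one_div_le_one_div_of_le (by linarith)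
      have h7 : (n : ℝ) ^ 2 ≤ m := by exact_mod_cast h3.le
      have h8 := Real.log_le_log (by positivity) h7
      rw [Real.log_pow] at h8
      exact_mod_cast h8
  have h1 := few_ge hA (Ioc (n ^ 2) (n ^ 2 + hw (2 * k) n)) hk (q := 1 / (4 * L)) (by positivity) (fun m hm => (hkp m hm).1)
  refine le_trans ?_ h1
  rw [Nat.card_Ioc, Nat.add_sub_cancel_left]
  -- the product
  have hprod : Real.exp (-(k + 1)) * (1 / n) * L ^ (-(k : ℝ)) ≤
      ∏ m ∈ Ioc (n ^ 2) (n ^ 2 + hw (2 * k) n), (1 - keepProb (fun _ => 1) m) := by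
    have h2 : Real.exp (-(k + 1)) * (1 / n) * L ^ (-(k : ℝ)) = Real.exp (-(k + 1) - L - k * l) := by
      have e1 : Real.exp (-L) = 1 / n := by rw [Real.exp_neg, hL, Real.exp_log hn0, one_div]
      have e2 : L ^ (-(k : ℝ)) = Real.exp (l * (-(k : ℝ))) := by rw [Real.rpow_def_of_pos hL0]
      rw [e2, ← e1, ← Real.exp_add, ← Real.exp_add]
      congr 1
      ring
    have h3 : Real.exp (-(1 / (2 * L) + 1 / (2 * L) ^ 2)) ^ (hw (2 * k) n) ≤
        ∏ m ∈ Ioc (n ^ 2) (n ^ 2 + hw (2 * k) n), (1 - keepProb (fun _ => 1) m) := by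
      have h4 : hw (2 * k) n = (Ioc (n ^ 2) (n ^ 2 + hw (2 * k) n)).card := by simp
      conv_lhs => rw [h4]
      rw [← Finset.prod_const]
      apply Finset.prod_le_prod (fun _ _ => Real.exp_nonneg _)
      intro m hm
      have h5 := (hkp m hm).2
      have hx0 : 0 < 1 / (2 * L) := by positivity
      have hx1 : 1 / (2 * L) ≤ 1 / 8 := by
        apply one_div_le_one_div_of_le (by norm_num)
        linarith
      have h6 : Real.exp (-(1 / (2 * L) + 1 / (2 * L) ^ 2)) ≤ 1 - 1 / (2 * L) := by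
        set x := 1 / (2 * L) with hx
        have hxx : 1 / (2 * L) ^ 2 = x ^ 2 := by rw [hx]; field_simp
        rw [hxx, Real.exp_neg, inv_le_comm₀ (Real.exp_pos _) (by linarith)]
        have h7 := Real.quadratic_le_exp_of_nonneg (show 0 ≤ x + x ^ 2 by positivity)
        refine le_trans ?_ h7
        rw [inv_le_iff_one_le_mul₀ (by linarith)]
        nlinarith [pow_pos hx0 2, pow_pos hx0 3, pow_pos hx0 4, pow_pos hx0 5]
      linarith
    refine le_trans (le_of_eq_of_le h2 ?_) h3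
    rw [← Real.exp_nat_mul]
    apply Real.exp_le_exp.2
    have h5 : (hw (2 * k) n : ℝ) * (1 / (2 * L) + 1 / (2 * L) ^ 2) ≤ (2 * L ^ 2 + 2 * k * L * l) * (1 / (2 * L) + 1 / (2 * L) ^ 2) :=
      mul_le_mul_of_nonneg_right hhw (by positivity)
    have h6 : (2 * L ^ 2 + 2 * k * L * l) * (1 / (2 * L) + 1 / (2 * L) ^ 2) = L + k * l + 1 / 2 + k / 2 * (l / L) := by
      field_simp
      ring
    have h7 : k / 2 * (l / L) ≤ (k : ℝ) / 2 := by
      apply mul_le_of_le_one_right (by positivity)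
      rw [div_le_one hL0]
      exact b3
    rw [h6] at h5
    nlinarith
  -- the binomial coefficient
  have hchoose : (1 / 8 : ℝ) ^ (k - 1) / (k - 1).factorial * L ^ (k - 1) ≤
      ((hw (2 * k) n).choose (k - 1) : ℝ) * (1 / (4 * L)) ^ (k - 1) := by
    have h2 : (((hw (2 * k) n + 1 - (k - 1) : ℕ) : ℝ) ^ (k - 1)) / (k - 1).factorial ≤ (hw (2 * k) n).choose (k - 1) := by
      have := Nat.pow_le_choose (α := ℝ) (k - 1) (hw (2 * k) n)
      exact_mod_cast this
    have h3 : L ^ 2 / 2 ≤ ((hw (2 * k) n + 1 - (k - 1) : ℕ) : ℝ) := by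
      have h4 : (hw (2 * k) n : ℝ) + 1 - k ≤ ((hw (2 * k) n + 1 - (k - 1) : ℕ) : ℝ) := by
        have h5 : hw (2 * k) n + 1 ≤ (hw (2 * k) n + 1 - (k - 1)) + k := by omega
        have h6 : (hw (2 * k) n : ℝ) + 1 ≤ ((hw (2 * k) n + 1 - (k - 1) : ℕ) : ℝ) + k := by exact_mod_cast h5
        linarith
      refine le_trans ?_ h4
      have h7 : 1 ≤ L * l := by
        have h8 : (1 : ℝ) ≤ L := by linarith
        have h9 : (1 : ℝ) ≤ l := by linarith
        calc (1 : ℝ) = 1 * 1 := by ring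
          _ ≤ L * l := mul_le_mul h8 h9 zero_le_one hL0.le
      have h8 : (k : ℝ) * 1 ≤ k * (L * l) := mul_le_mul_of_nonneg_left h7 (by positivity)
      have h9 : 2 * (k : ℝ) * L * l = 2 * (k * (L * l)) := by ring
      rw [h9] at hhw'
      have h10 : 0 ≤ L ^ 2 := sq_nonneg L
      linarith
    calc (1 / 8 : ℝ) ^ (k - 1) / (k - 1).factorial * L ^ (k - 1) =
          ((L ^ 2 / 2) ^ (k - 1) / (k - 1).factorial) * (1 / (4 * L)) ^ (k - 1) := by
          rw [div_mul_eq_mul_div, div_mul_eq_mul_div, ← mul_pow, ← mul_pow]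
          congr 2
          field_simp
          norm_num
      _ ≤ ((((hw (2 * k) n + 1 - (k - 1) : ℕ) : ℝ) ^ (k - 1)) / (k - 1).factorial) * (1 / (4 * L)) ^ (k - 1) := by
          apply mul_le_mul_of_nonneg_right _ (by positivity)
          exact div_le_div_of_nonneg_right (pow_le_pow_left₀ (by positivity) h3 _) (by positivity)
      _ ≤ _ := mul_le_mul_of_nonneg_right h2 (by positivity)
  have hLk : L ^ (k - 1) * L ^ (-(k : ℝ)) = 1 / L := by
    rw [← Real.rpow_natCast, Nat.cast_sub hk, Nat.cast_one, ← Real.rpow_add hL0,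
      show ((k : ℝ) - 1 + -(k : ℝ)) = -1 by ring, Real.rpow_neg_one, one_div]
  calc ((1 / 8 : ℝ) ^ (k - 1) / (k - 1).factorial) * Real.exp (-(k + 1)) * (1 / ((n : ℝ) * (1 + L)))
      ≤ ((1 / 8 : ℝ) ^ (k - 1) / (k - 1).factorial) * Real.exp (-(k + 1)) * ((1 / n) * (1 / L)) := by
        apply mul_le_mul_of_nonneg_left _ (by positivity)
        rw [one_div_mul_one_div]
        apply one_div_le_one_div_of_le (by positivity)
        nlinarith
    _ = ((1 / 8 : ℝ) ^ (k - 1) / (k - 1).factorial * L ^ (k - 1)) * (Real.exp (-(k + 1)) * (1 / n) * L ^ (-(k : ℝ))) := by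
        rw [← hLk]; ring
    _ ≤ (((hw (2 * k) n).choose (k - 1) : ℝ) * (1 / (4 * L)) ^ (k - 1)) *
        ∏ m ∈ Ioc (n ^ 2) (n ^ 2 + hw (2 * k) n), (1 - keepProb (fun _ => 1) m) := by
        apply mul_le_mul hchoose hprod (by positivity) (by positivity)
    _ = _ := by ring

end Pool.Agent.Q46.CM
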