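import Mathlib
import Pool.Agent.Q46.CM.Op3

/-! Windows next to the squares in Cramér's model: final theorems (helper46). -/

set_option autoImplicit false

namespace Pool.Agent.Q46.CM

open Finset Filter Topology MeasureTheory ProbabilityTheory Pool.Agent.H318R2.Cr
open scoped ENNReal

variable {Ω : Type*} [MeasurableSpace Ω] {μ : Measure Ω} {A : ℕ → Set Ω}

theorem few_fin (hA : IsSievedModel μ (fun _ => 1) A) {k : ℕ} (hk : 1 ≤ k) {c : ℝ} (hc : 2 * (k : ℝ) < c)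
    (W : ℕ → Finset ℕ) (hW : ∀ᶠ n : ℕ in atTop, (W n).card = hw c n ∧ ∀ m ∈ W n, 3 ≤ m ∧ m ≤ (n + 1) ^ 2) :
    ∀ᵐ ω ∂μ, ∀ᶠ n : ℕ in atTop, k ≤ {m | m ∈ W n ∧ ω ∈ A m}.ncard := by
  have : IsProbabilityMeasure μ := hA.indep.isProbabilityMeasure
  obtain ⟨C, hC⟩ := up hk hc
  obtain ⟨N, hN⟩ := eventually_atTop.1 (hC.and hW)
  have hsum : Summable fun n : ℕ => μ.real (Few A (W (n + N)) k) := by
    have h1 := (summable_nat_add_iff N).2 ((summ_c (c / 2 - k) (by linarith)).mul_left C)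
    refine Summable.of_nonneg_of_le (fun _ => measureReal_nonneg) (fun n => ?_) h1
    exact (hN (n + N) (by omega)).1 hA _ (hN (n + N) (by omega)).2.1 (hN (n + N) (by omega)).2.2
  have hne : ∑' n : ℕ, μ (Few A (W (n + N)) k) ≠ ∞ := by
    have h2 : ∀ n, μ (Few A (W (n + N)) k) = ENNReal.ofReal (μ.real (Few A (W (n + N)) k)) := fun n =>
      (ofReal_measureReal (measure_ne_top μ _)).symm
    simp_rw [h2]
    exact hsum.tsum_ofReal_ne_top
  filter_upwards [ae_eventually_notMem hne] with ω hω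
  obtain ⟨M, hM⟩ := eventually_atTop.1 hω
  filter_upwards [eventually_ge_atTop (M + N)] with n hn
  have h3 := hM (n - N) (by omega)
  rw [Nat.sub_add_cancel (by omega)] at h3
  exact not_lt.1 h3

theorem few_inf (hA : IsSievedModel μ (fun _ => 1) A) {k : ℕ} (hk : 1 ≤ k) :
    ∀ᵐ ω ∂μ, ∃ᶠ n : ℕ in atTop, ω ∈ Few A (Ioc (n ^ 2) (n ^ 2 + hw (2 * k) n)) k := by
  classical
  have : IsProbabilityMeasure μ := hA.indep.isProbabilityMeasure
  obtain ⟨C, hC0, hC⟩ := low hk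
  obtain ⟨N, hN⟩ := eventually_atTop.1 (hC.and (ev_basic (2 * k) 1 (by positivity)))
  set E : ℕ → Set Ω := fun n => Few A (Ioc ((n + N) ^ 2) ((n + N) ^ 2 + hw (2 * k) (n + N))) k with hE
  have hsg : ∀ n, MeasurableSet[sg A ((Ioc ((n + N) ^ 2) ((n + N) ^ 2 + hw (2 * k) (n + N)) : Finset ℕ) : Set ℕ)] (E n) :=
    fun n => few_meas _ _
  have hm : ∀ n, MeasurableSet (E n) := by
    intro n
    have hle : sg A ((Ioc ((n + N) ^ 2) ((n + N) ^ 2 + hw (2 * k) (n + N)) : Finset ℕ) : Set ℕ) ≤ (inferInstance : MeasurableSpace Ω) := by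
      apply MeasurableSpace.generateFrom_le
      rintro t ⟨m, _, rfl⟩
      exact hA.measurable m
    exact hle _ (hsg n)
  have hlen : ∀ n : ℕ, hw (2 * k) (n + N) ≤ n + N := by
    intro n
    obtain ⟨b1, b2, b3, b4, b5, b6, b7⟩ := (hN (n + N) (by omega)).2
    have h0 : (hw (2 * k) (n + N) : ℝ) ≤ ((n + N : ℕ) : ℝ) := by
      unfold hw
      refine (Nat.floor_le ?_).trans ?_
      · have h1 : 0 ≤ Real.log ((n + N : ℕ) : ℝ) := by linarith
        have h2 : 0 ≤ Real.log (Real.log ((n + N : ℕ) : ℝ)) := by linarith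
        positivity
      · have h1 : 0 ≤ Real.log ((n + N : ℕ) : ℝ) := by linarith
        have h3 : 2 * (k : ℝ) * Real.log ((n + N : ℕ) : ℝ) * Real.log (Real.log ((n + N : ℕ) : ℝ)) ≤
          2 * k * Real.log ((n + N : ℕ) : ℝ) * Real.log ((n + N : ℕ) : ℝ) :=
          mul_le_mul_of_nonneg_left b3 (by positivity)
        nlinarith [h3]
    exact_mod_cast h0
  have hind : iIndepSet E μ := by
    rw [iIndepSet_iff_meas_biInter hm]
    intro s
    apply group_prod hA.measurable hA.indep (fun n => ((Ioc ((n + N) ^ 2) ((n + N) ^ 2 + hw (2 * k) (n + N)) : Finset ℕ) : Set ℕ)) E hsg s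
    intro i _ j _ hij
    rw [Finset.disjoint_coe, Finset.disjoint_left]
    intro m hmi hmj
    obtain ⟨a1, a2⟩ := Finset.mem_Ioc.1 hmi
    obtain ⟨a3, a4⟩ := Finset.mem_Ioc.1 hmj
    have l1 := hlen i
    have l2 := hlen j
    rcases lt_or_gt_of_ne hij with h | h
    · have h5 : (i + N + 1) ^ 2 ≤ (j + N) ^ 2 := Nat.pow_le_pow_left (by omega) 2
      nlinarith
    · have h5 : (j + N + 1) ^ 2 ≤ (i + N) ^ 2 := Nat.pow_le_pow_left (by omega) 2
      nlinarith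
  have hdiv : ∑' n, μ (E n) = ∞ := by
    by_contra hne
    have h1 : Summable fun n => μ.real (E n) := ENNReal.summable_toReal hne
    have h2 : Summable fun n : ℕ => C * (1 / (((n + N : ℕ) : ℝ) * (1 + Real.log ((n + N : ℕ) : ℝ)))) := by
      refine Summable.of_nonneg_of_le (fun n => ?_) (fun n => (hN (n + N) (by omega)).1 hA) h1
      have : 0 ≤ Real.log ((n + N : ℕ) : ℝ) := Real.log_natCast_nonneg _
      positivity
    have h3 : Summable fun n : ℕ => C * (1 / ((n : ℝ) * (1 + Real.log n))) := (summable_nat_add_iff N).1 h2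
    have h4 := h3.mul_left C⁻¹
    apply not_summ
    refine h4.congr fun n => ?_
    field_simp
  have hlim := measure_limsup_eq_one hm hind hdiv
  have hae : ∀ᵐ ω ∂μ, ω ∈ limsup E atTop := by
    rw [ae_iff]
    have h5 : {a | a ∉ limsup E atTop} = (limsup E atTop)ᶜ := rfl
    rw [h5, prob_compl_eq_zero_iff (MeasurableSet.measurableSet_limsup hm)]
    exact hlim
  filter_upwards [hae] with ω hω
  rw [mem_limsup_iff_frequently_mem] at hω
  rw [frequently_atTop] at hω ⊢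
  intro M
  obtain ⟨n, hn, h⟩ := hω M
  exact ⟨n + N, by omega, h⟩

/-- (1) for `c > 2k`, both sides -/
theorem opp1 (hA : IsSievedModel μ (fun _ => 1) A) {k : ℕ} (hk : 1 ≤ k) {c : ℝ} (hc : 2 * (k : ℝ) < c) :
    ∀ᵐ ω ∂μ, ∀ᶠ n : ℕ in atTop, k ≤ {m | n ^ 2 - hw c n ≤ m ∧ m < n ^ 2 ∧ ω ∈ A m}.ncard ∧
      k ≤ {m | n ^ 2 < m ∧ m ≤ n ^ 2 + hw c n ∧ ω ∈ A m}.ncard := by
  have hc0 : 0 ≤ c := by
    have : (0 : ℝ) ≤ k := Nat.cast_nonneg k
    linarith
  have hlen : ∀ᶠ n : ℕ in atTop, hw c n ≤ n ∧ 3 ≤ n := by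
    filter_upwards [ev_basic c 1 hc0, eventually_ge_atTop 3] with n hb hn3
    refine ⟨?_, hn3⟩
    obtain ⟨b1, b2, b3, b4, b5, b6, b7⟩ := hb
    have h1 : 0 ≤ Real.log (n : ℝ) := by linarith
    have h2 : 0 ≤ Real.log (Real.log (n : ℝ)) := by linarith
    have h0 : (hw c n : ℝ) ≤ (n : ℝ) := by
      unfold hw
      refine (Nat.floor_le (by positivity)).trans ?_
      have h3 : c * Real.log (n : ℝ) * Real.log (Real.log (n : ℝ)) ≤ c * Real.log (n : ℝ) * Real.log (n : ℝ) :=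
        mul_le_mul_of_nonneg_left b3 (by positivity)
      nlinarith [h3]
    exact_mod_cast h0
  have e1 := few_fin hA hk hc (fun n => Ico (n ^ 2 - hw c n) (n ^ 2)) (by
    filter_upwards [hlen] with n hn
    obtain ⟨hn, hn3⟩ := hn
    have h9 : n * 3 ≤ n ^ 2 := by nlinarith
    constructor
    · rw [Nat.card_Ico]; omega
    · intro m hm
      obtain ⟨a1, a2⟩ := Finset.mem_Ico.1 hm
      constructor
      · omega
      · have : n ^ 2 ≤ (n + 1) ^ 2 := Nat.pow_le_pow_left (by omega) 2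
        omega)
  have e2 := few_fin hA hk hc (fun n => Ioc (n ^ 2) (n ^ 2 + hw c n)) (by
    filter_upwards [hlen] with n hn
    obtain ⟨hn, hn3⟩ := hn
    have h9 : n * 3 ≤ n ^ 2 := by nlinarith
    constructor
    · rw [Nat.card_Ioc]; omega
    · intro m hm
      obtain ⟨a1, a2⟩ := Finset.mem_Ioc.1 hm
      constructor
      · omega
      · nlinarith)
  filter_upwards [e1, e2] with ω h1 h2
  filter_upwards [h1, h2] with n h3 h4
  constructor
  · convert h3 using 3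
    ext m
    simp only [Finset.mem_Ico]
    tauto
  · convert h4 using 3
    ext m
    simp only [Finset.mem_Ioc]
    tauto

/-- (2) for `c ≤ 2k`, to the right of the squares -/
theorem opp2 (hA : IsSievedModel μ (fun _ => 1) A) {k : ℕ} (hk : 1 ≤ k) {c : ℝ} (hc : c ≤ 2 * (k : ℝ)) :
    ∀ᵐ ω ∂μ, ∃ᶠ n : ℕ in atTop, {m | n ^ 2 < m ∧ m ≤ n ^ 2 + hw c n ∧ ω ∈ A m}.ncard < k := by
  filter_upwards [few_inf hA hk] with ω hω
  have h1 := hω.and_eventually (ev_basic 0 1 le_rfl)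
  refine h1.mono ?_
  rintro n ⟨hn, b1, b2, b3, b4, b5, b6, b7⟩
  have h2 : {m | m ∈ Ioc (n ^ 2) (n ^ 2 + hw (2 * k) n) ∧ ω ∈ A m}.ncard < k := hn
  refine lt_of_le_of_lt (Set.ncard_le_ncard ?_ ?_) h2
  · rintro m ⟨a1, a2, a3⟩
    refine ⟨Finset.mem_Ioc.2 ⟨a1, a2.trans ?_⟩, a3⟩
    have h3 : hw c n ≤ hw (2 * k) n := by
      unfold hw
      apply Nat.floor_le_floor
      have h4 : 0 ≤ Real.log (n : ℝ) * Real.log (Real.log (n : ℝ)) := mul_nonneg (by linarith) (by linarith)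
      have h5 := mul_le_mul_of_nonneg_right hc h4
      linarith
    omega
  · exact (Finset.finite_toSet (Ioc (n ^ 2) (n ^ 2 + hw (2 * k) n))).subset fun m hm => hm.1

/-- (3) the statement of the question in the model -/
theorem opp3 (hA : IsSievedModel μ (fun _ => 1) A) :
    ∀ᵐ ω ∂μ, ∀ k : ℕ, ∀ᶠ n : ℕ in atTop, k ≤ {m | n ^ 2 - n ≤ m ∧ m ≤ n ^ 2 ∧ ω ∈ A m}.ncard ∧
      k ≤ {m | n ^ 2 ≤ m ∧ m ≤ n ^ 2 + n ∧ ω ∈ A m}.ncard := by
  have h0 : ∀ᵐ ω ∂μ, ∀ k : ℕ, ∀ᶠ n : ℕ in atTop,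
      k + 1 ≤ {m | n ^ 2 - hw (2 * (k + 1 : ℕ) + 1) n ≤ m ∧ m < n ^ 2 ∧ ω ∈ A m}.ncard ∧
      k + 1 ≤ {m | n ^ 2 < m ∧ m ≤ n ^ 2 + hw (2 * (k + 1 : ℕ) + 1) n ∧ ω ∈ A m}.ncard :=
    ae_all_iff.2 fun k => opp1 hA (Nat.succ_pos k) (by linarith)
  filter_upwards [h0] with ω hω k
  have hb := ev_basic (2 * (k + 1 : ℕ) + 1) 1 (by positivity)
  filter_upwards [hω k, hb] with n h1 hb
  obtain ⟨b1, b2, b3, b4, b5, b6, b7⟩ := hb
  have hlen : hw (2 * (k + 1 : ℕ) + 1) n ≤ n := by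
    have g1 : 0 ≤ Real.log (n : ℝ) := by linarith
    have g2 : 0 ≤ Real.log (Real.log (n : ℝ)) := by linarith
    have g0 : (hw (2 * (k + 1 : ℕ) + 1) n : ℝ) ≤ (n : ℝ) := by
      unfold hw
      refine (Nat.floor_le (by positivity)).trans ?_
      have g3 : (2 * ((k + 1 : ℕ) : ℝ) + 1) * Real.log (n : ℝ) * Real.log (Real.log (n : ℝ)) ≤
        (2 * ((k + 1 : ℕ) : ℝ) + 1) * Real.log (n : ℝ) * Real.log (n : ℝ) :=
        mul_le_mul_of_nonneg_left b3 (by positivity)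
      nlinarith [g3]
    exact_mod_cast g0
  constructor
  · refine (Nat.le_succ k).trans (h1.1.trans (Set.ncard_le_ncard ?_ ?_))
    · rintro m ⟨a1, a2, a3⟩
      exact ⟨by omega, by omega, a3⟩
    · exact (Set.finite_Iic (n ^ 2)).subset fun m hm => hm.2.1
  · refine (Nat.le_succ k).trans (h1.2.trans (Set.ncard_le_ncard ?_ ?_))
    · rintro m ⟨a1, a2, a3⟩
      exact ⟨by omega, by omega, a3⟩
    · exact (Set.finite_Iic (n ^ 2 + n)).subset fun m hm => hm.2.1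

end Pool.Agent.Q46.CM
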