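import Mathlib
import Pool.Agent.Q46.CM.Osc4

/-! Oscillation of the largest gap in the random model with constant level: final theorem (helper46). -/

set_option autoImplicit false

namespace Pool.Agent.Q46.CM

open Finset Filter Topology MeasureTheory ProbabilityTheory Pool.Agent.H318R2.Cr
open scoped ENNReal

/-- the largest gap `q' - q` between consecutive elements of `S` which are at most `x` -/
noncomputable def GapUp (S : Set ℕ) (x : ℝ) : EReal :=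
  ⨆ (q : ℕ) (q' : ℕ) (_ : Consec S q q' ∧ (q' : ℝ) ≤ x), (((q' : ℝ) - q : ℝ) : EReal)

theorem le_GapUp {S : Set ℕ} {q q' : ℕ} {x c : ℝ} (h : Consec S q q') (hx : (q' : ℝ) ≤ x) (hc : c ≤ (q' : ℝ) - q) :
    (c : EReal) ≤ GapUp S x := by
  unfold GapUp
  exact le_iSup_of_le q (le_iSup_of_le q' (le_iSup_of_le ⟨h, hx⟩ (EReal.coe_le_coe_iff.2 hc)))

theorem GapUp_le {S : Set ℕ} {x c : ℝ} (h : ∀ q q' : ℕ, Consec S q q' → (q' : ℝ) ≤ x → (q' : ℝ) - q ≤ c) :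
    GapUp S x ≤ (c : EReal) := by
  unfold GapUp
  refine iSup_le fun q => iSup_le fun q' => iSup_le fun hq => ?_
  exact EReal.coe_le_coe_iff.2 (h q q' hq.1 hq.2)

/-- the function `(log x)² + c log x log log x` -/
noncomputable def Gc (c x : ℝ) : ℝ := Real.log x ^ 2 + c * Real.log x * Real.log (Real.log x)

theorem Fc_eq (c : ℝ) (q : ℕ) : Fc c q = Gc c q := rfl

theorem ev_ll (C : ℝ) (c : ℝ) (hc : 0 < c) : ∀ᶠ x : ℝ in atTop, C ≤ c * Real.log x * Real.log (Real.log x) := by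
  have h1 : Tendsto (fun x : ℝ => Real.log x * Real.log (Real.log x)) atTop atTop :=
    Real.tendsto_log_atTop.atTop_mul_atTop₀ (Real.tendsto_log_atTop.comp Real.tendsto_log_atTop)
  filter_upwards [(h1.const_mul_atTop hc).eventually_ge_atTop C] with x hx
  rw [mul_assoc]
  exact hx

theorem Gc_mono {c : ℝ} (hc : 0 ≤ c) {x y : ℝ} (hx : Real.exp 1 ≤ x) (hxy : x ≤ y) : Gc c x ≤ Gc c y := by
  have hx0 : 0 < x := lt_of_lt_of_le (Real.exp_pos 1) hx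
  have h1 : 1 ≤ Real.log x := by rwa [Real.le_log_iff_exp_le hx0]
  have h2 : Real.log x ≤ Real.log y := Real.log_le_log hx0 hxy
  have h3 : 0 ≤ Real.log (Real.log x) := Real.log_nonneg h1
  have h4 : Real.log (Real.log x) ≤ Real.log (Real.log y) := Real.log_le_log (by linarith) h2
  unfold Gc
  apply add_le_add
  · exact pow_le_pow_left₀ (by linarith) h2 2
  · apply mul_le_mul (mul_le_mul_of_nonneg_left h2 hc) h4 h3
    exact mul_nonneg hc (by linarith)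

/-- (i) -/
theorem osc_i (S : Set ℕ) (hinf : S.Infinite) {ε : ℝ} (hε : 0 < ε) (hfin : (LongGaps S (Fc (ε / 2))).Finite) :
    ∃ x₀ : ℝ, ∀ x : ℝ, x₀ ≤ x → GapUp S x ≤ ((Gc ε x : ℝ) : EReal) := by
  obtain ⟨B, hB⟩ := hfin.bddAbove
  obtain ⟨s, hs, hsB⟩ := hinf.exists_gt (max B 3)
  have e1 := ev_ll 1 (ε / 2) (by positivity)
  have e2 : ∀ᶠ x : ℝ in atTop, (s : ℝ) ≤ Real.log x ^ 2 :=
    ((tendsto_pow_atTop (by norm_num)).comp Real.tendsto_log_atTop).eventually_ge_atTop _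
  obtain ⟨x₀, hx₀⟩ := eventually_atTop.1 (e1.and e2)
  refine ⟨x₀, fun x hx => GapUp_le fun q q' hc hqx => ?_⟩
  obtain ⟨h1, h2⟩ := hx₀ x hx
  rcases le_or_gt q (max B 3) with h3 | h3
  · have h4 : q' ≤ s := hc.2.2.2 s hs (by omega)
    have h5 : (q' : ℝ) ≤ s := by exact_mod_cast h4
    have h6 : (0 : ℝ) ≤ q := Nat.cast_nonneg _
    unfold Gc
    have h7 : 0 ≤ ε * Real.log x * Real.log (Real.log x) := by nlinarith
    linarith
  · have hqB : B < q := lt_of_le_of_lt (le_max_left _ _) h3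
    have hq3 : 3 < q := lt_of_le_of_lt (le_max_right _ _) h3
    have h4 : q ∉ LongGaps S (Fc (ε / 2)) := fun h => absurd (hB h) (by omega)
    have h5 : (q' : ℝ) - q - 1 < Fc (ε / 2) q := by
      by_contra h
      exact h4 ⟨q', hc, not_lt.1 h⟩
    have h6 : Gc (ε / 2) q ≤ Gc (ε / 2) x := by
      apply Gc_mono (by positivity)
      · have := Real.exp_one_lt_d9
        have h7 : (3 : ℝ) < q := by exact_mod_cast hq3
        linarith
      · have h8 : (q : ℝ) ≤ q' := by exact_mod_cast hc.2.2.1.le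
        linarith
    rw [Fc_eq] at h5
    unfold Gc at *
    nlinarith

/-- (ii) -/
theorem osc_ii (S : Set ℕ) (hfin : (LongGaps S (Fc 1)).Finite) (hlong : (LongGaps S (Fc 0)).Infinite) :
    ∀ x₀ : ℝ, ∃ x : ℝ, x₀ ≤ x ∧ ((Real.log x ^ 2 : ℝ) : EReal) ≤ GapUp S x := by
  intro x₀
  obtain ⟨B, hB⟩ := hfin.bddAbove
  have e1 : ∀ᶠ x : ℝ in atTop, 12 * Real.log x ^ 3 ≤ x := by
    have h2 : Tendsto (fun x : ℝ => Real.log x ^ 3 / x) atTop (𝓝 0) := by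
      have := (Real.isLittleO_pow_log_id_atTop (n := 3)).tendsto_div_nhds_zero
      simpa using this
    filter_upwards [h2.eventually_le_const (show (0 : ℝ) < 1 / 12 by norm_num), eventually_gt_atTop 0] with x h3 h4
    rw [div_le_iff₀ h4] at h3
    linarith
  obtain ⟨x₁, hx₁⟩ := eventually_atTop.1 e1
  obtain ⟨q, hq, hqB⟩ := hlong.exists_gt (max B (max 3 (max ⌈x₀⌉₊ ⌈x₁⌉₊)))
  obtain ⟨q', hc, hF⟩ := hq
  have h1 : B < q := by omega
  have h2 : 3 < q := by omega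
  have h3 : ⌈x₀⌉₊ < q := by omega
  have h4 : ⌈x₁⌉₊ < q := by omega
  have h3' : x₀ ≤ q := (Nat.le_ceil x₀).trans (by exact_mod_cast h3.le)
  have h4' : x₁ ≤ q := (Nat.le_ceil x₁).trans (by exact_mod_cast h4.le)
  have hqq : (q : ℝ) < q' := by exact_mod_cast hc.2.2.1
  refine ⟨q', by linarith, le_GapUp hc le_rfl ?_⟩
  have h5 : q ∉ LongGaps S (Fc 1) := fun h => absurd (hB h) (by omega)
  have h6 : (q' : ℝ) - q - 1 < Fc 1 q := by
    by_contra h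
    exact h5 ⟨q', hc, not_lt.1 h⟩
  have hq3 : (3 : ℝ) < q := by exact_mod_cast h2
  have hq0 : (0 : ℝ) < q := by linarith
  have hlog1 : 1 ≤ Real.log q := by
    rw [Real.le_log_iff_exp_le hq0]
    have := Real.exp_one_lt_d9
    linarith
  set L := Real.log q with hL
  have hll : Real.log L ≤ L := by
    have := Real.log_le_sub_one_of_pos (show 0 < L by linarith)
    linarith
  have hg : (q' : ℝ) - q ≤ 3 * L ^ 2 := by
    unfold Fc at h6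
    rw [← hL] at h6
    have h7 : L * Real.log L ≤ L * L := mul_le_mul_of_nonneg_left hll (by linarith)
    have h8 : 1 ≤ L ^ 2 := one_le_pow₀ hlog1
    nlinarith
  have hF' : L ^ 2 ≤ (q' : ℝ) - q - 1 := by
    unfold Fc at hF
    rw [← hL] at hF
    linarith
  have h12 := hx₁ q h4'
  rw [← hL] at h12
  -- `log q' ≤ L + 3 L²/q`
  set t : ℝ := 3 * L ^ 2 / q with ht
  have ht0 : 0 ≤ t := by positivity
  have hlq' : Real.log q' ≤ L + t := by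
    have h9 : (q' : ℝ) ≤ q * (1 + t) := by
      rw [ht]
      have : (q : ℝ) * (1 + 3 * L ^ 2 / q) = q + 3 * L ^ 2 := by field_simp
      rw [this]
      linarith
    have h10 : Real.log q' ≤ Real.log (q * (1 + t)) := Real.log_le_log (by linarith) h9
    rw [Real.log_mul hq0.ne' (by linarith)] at h10
    have h11 := Real.log_le_sub_one_of_pos (show (0 : ℝ) < 1 + t by linarith)
    linarith
  have htL : t * L ≤ 1 / 4 := by
    rw [ht, div_mul_eq_mul_div, div_le_iff₀ hq0]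
    nlinarith
  have ht1 : t ≤ 1 / 4 := by nlinarith
  have hlq0 : 0 ≤ Real.log q' := Real.log_natCast_nonneg _
  have h13 : Real.log q' ^ 2 ≤ (L + t) ^ 2 := pow_le_pow_left₀ hlq0 hlq' 2
  nlinarith

/-- (iv) -/
theorem osc_iv {Ω : Type*} {A : ℕ → Set Ω} {ω : Ω} {ε : ℝ} (hε : 0 < ε) (_hε1 : ε ≤ 1)
    (h : ∀ N₀ : ℕ, ∃ N ≥ N₀, ∀ n ≤ N, ω ∉ EN A n (hU (ε / 2) N)) :
    ∀ x₀ : ℝ, ∃ x : ℝ, x₀ ≤ x ∧ GapUp {n | ω ∈ A n} x ≤ ((Gc (-(1 - ε)) x : ℝ) : EReal) := by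
  intro x₀
  have e1 := ev_ll 1 (ε / 2) (by positivity)
  have e2 : ∀ᶠ x : ℝ in atTop, 1 ≤ Real.log x := Real.tendsto_log_atTop.eventually_ge_atTop 1
  obtain ⟨x₁, hx₁⟩ := eventually_atTop.1 (e1.and e2)
  obtain ⟨N, hN, hN2⟩ := h (max ⌈x₀⌉₊ ⌈x₁⌉₊)
  have h1 : x₀ ≤ N := (Nat.le_ceil x₀).trans (by exact_mod_cast (le_max_left _ _).trans hN)
  have h2 : x₁ ≤ N := (Nat.le_ceil x₁).trans (by exact_mod_cast (le_max_right _ _).trans hN)
  obtain ⟨h3, h4⟩ := hx₁ N h2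
  refine ⟨N, h1, GapUp_le fun q q' hc hq' => ?_⟩
  set L := Real.log (N : ℝ) with hL
  have hlL : 0 ≤ Real.log L := Real.log_nonneg h4
  have hq'N : q' ≤ N := by exact_mod_cast hq'
  have hqq := hc.2.2.1
  have h5 := hN2 q (by omega)
  have h6 : q' ≤ q + hU (ε / 2) N := by
    by_contra hcon
    apply h5
    refine ⟨hc.1, ?_⟩
    simp only [Set.mem_iInter, Set.mem_compl_iff]
    intro m hm hmA
    rw [mem_Ioc] at hm
    have := hc.2.2.2 m hmA hm.1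
    omega
  have h7 : (q' : ℝ) - q ≤ hU (ε / 2) N := by
    have : (q' : ℝ) ≤ q + hU (ε / 2) N := by exact_mod_cast h6
    linarith
  have hin : 0 ≤ L ^ 2 - (1 - ε / 2) * L * Real.log L := by
    have h8 : Real.log L ≤ L := by
      have := Real.log_le_sub_one_of_pos (show 0 < L by linarith)
      linarith
    have h9 : L * Real.log L ≤ L * L := mul_le_mul_of_nonneg_left h8 (by linarith)
    have h10 : (1 - ε / 2) * (L * Real.log L) ≤ 1 * (L * Real.log L) :=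
      mul_le_mul_of_nonneg_right (by linarith) (by positivity)
    nlinarith
  have h8 : (hU (ε / 2) N : ℝ) < L ^ 2 - (1 - ε / 2) * L * Real.log L + 1 := Nat.ceil_lt_add_one hin
  unfold Gc
  rw [← hL]
  nlinarith

/-- (iii) -/
theorem osc_iii {Ω : Type*} {A : ℕ → Set Ω} {ω : Ω} {ε : ℝ} (hε : 0 < ε)
    (h : ∃ J : ℕ, ∀ j ≥ J, ∃ n : ℕ, 2 ^ j ≤ n ∧ n < 2 ^ (j + 1) ∧ ω ∈ EN A n (hB (ε / 2) j)) :
    ∃ x₀ : ℝ, ∀ x : ℝ, x₀ ≤ x → ((Gc (-(1 + ε)) x : ℝ) : EReal) ≤ GapUp {n | ω ∈ A n} x := by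
  classical
  obtain ⟨J, hJ⟩ := h
  have hl2 : 0 < Real.log 2 := Real.log_pos (by norm_num)
  have hl1 : Real.log 2 ≤ 1 := by
    have := Real.log_two_lt_d9
    linarith
  have eR := tendsto_natCast_atTop_atTop (R := ℝ)
  have hLT : Tendsto (fun j : ℕ => (j : ℝ) * Real.log 2) atTop atTop := eR.atTop_mul_const hl2
  have e1 : ∀ᶠ x : ℝ in atTop, 6 ≤ ε / 2 * Real.log (Real.log x) :=
    ((Real.tendsto_log_atTop.comp Real.tendsto_log_atTop).const_mul_atTop (by positivity)).eventually_ge_atTop 6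
  obtain ⟨x₁, hx₁⟩ := eventually_atTop.1 e1
  obtain ⟨J₁, hJ₁⟩ := eventually_atTop.1 (hLT.eventually_ge_atTop 4)
  refine ⟨max x₁ ((2 : ℝ) ^ (max J J₁ + 3)), fun x hx => ?_⟩
  have hxx₁ : x₁ ≤ x := (le_max_left _ _).trans hx
  have hx2 : (2 : ℝ) ^ (max J J₁ + 3) ≤ x := (le_max_right _ _).trans hx
  have hxpos : (0 : ℝ) < x := lt_of_lt_of_le (by positivity) hx2
  have hfx : 2 ^ (max J J₁ + 3) ≤ ⌊x⌋₊ := Nat.le_floor (by push_cast; exact hx2)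
  have hfx0 : ⌊x⌋₊ ≠ 0 := by
    have : 0 < 2 ^ (max J J₁ + 3) := by positivity
    omega
  obtain ⟨k, hk⟩ : ∃ k, k = Nat.log 2 ⌊x⌋₊ := ⟨_, rfl⟩
  have hk1 : 2 ^ k ≤ ⌊x⌋₊ := by rw [hk]; exact Nat.pow_log_le_self 2 hfx0
  have hk2 : ⌊x⌋₊ < 2 ^ (k + 1) := by rw [hk]; exact Nat.lt_pow_succ_log_self (by norm_num) _
  have hkm : max J J₁ + 3 ≤ k := by rw [hk]; exact Nat.le_log_of_pow_le (by norm_num) hfx
  clear hk
  obtain ⟨j, rfl⟩ : ∃ j, k = j + 2 := ⟨k - 2, by omega⟩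
  have hjJ : J ≤ j := by omega
  have hjJ₁ : J₁ ≤ j := by omega
  obtain ⟨n, hn1, hn2, hE⟩ := hJ j hjJ
  obtain ⟨n₂, hn₂1, hn₂2, hE₂⟩ := hJ (j + 1) (by omega)
  have hex : ∃ m, ω ∈ A m ∧ n < m := ⟨n₂, hE₂.1, by omega⟩
  obtain ⟨h1, h2⟩ := Nat.find_spec hex
  set q' := Nat.find hex with hq'
  have hcons : Consec {n | ω ∈ A n} n q' := ⟨hE.1, h1, h2, fun m hm1 hm2 => Nat.find_min' hex ⟨hm1, hm2⟩⟩
  have hq'n : q' ≤ n₂ := Nat.find_min' hex ⟨hE₂.1, by omega⟩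
  have hq'x : (q' : ℝ) ≤ x := by
    have h5 : q' ≤ ⌊x⌋₊ := by
      have : 2 ^ (j + 1 + 1) = 2 ^ (j + 2) := by ring
      omega
    have h6 : (q' : ℝ) ≤ ⌊x⌋₊ := by exact_mod_cast h5
    exact h6.trans (Nat.floor_le hxpos.le)
  refine le_GapUp hcons hq'x ?_
  have h3 : n + hB (ε / 2) j < q' := by
    by_contra hc
    have h4 := hE.2
    simp only [Set.mem_iInter, Set.mem_compl_iff] at h4
    exact h4 q' (mem_Ioc.2 ⟨h2, by omega⟩) h1
  have h4 : (n : ℝ) + hB (ε / 2) j + 1 ≤ q' := by exact_mod_cast h3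
  set L : ℝ := (j : ℝ) * Real.log 2 with hL
  have hL4 : 4 ≤ L := hJ₁ j hjJ₁
  have hB1 : L ^ 2 - (1 + ε / 2) * L * Real.log L ≤ hB (ε / 2) j := Nat.le_ceil _
  set y := Real.log x with hy
  have hy1 : y ≤ L + 3 := by
    have h11 : x ≤ (2 : ℝ) ^ (j + 2 + 1) := by
      have h12 := Nat.lt_floor_add_one x
      have h13 : (⌊x⌋₊ : ℝ) + 1 ≤ (2 : ℝ) ^ (j + 2 + 1) := by exact_mod_cast hk2
      linarith
    have h14 := Real.log_le_log hxpos h11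
    rw [Real.log_pow] at h14
    push_cast at h14
    rw [hy, hL]
    nlinarith
  have hy2 : L ≤ y := by
    have h11 : (2 : ℝ) ^ j ≤ x := by
      have h13 : (2 : ℝ) ^ (j + 2) ≤ ⌊x⌋₊ := by exact_mod_cast hk1
      have h14 : (2 : ℝ) ^ j ≤ (2 : ℝ) ^ (j + 2) := pow_le_pow_right₀ (by norm_num) (by omega)
      have h15 := Nat.floor_le hxpos.le
      linarith
    have h14 := Real.log_le_log (by positivity) h11
    rw [Real.log_pow] at h14
    exact h14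
  have h5 := hx₁ x hxx₁
  rw [← hy] at h5
  have hlL : 0 ≤ Real.log L := Real.log_nonneg (by linarith)
  have hll : Real.log L ≤ Real.log y := Real.log_le_log (by linarith) hy2
  have h6 : L * Real.log L ≤ y * Real.log y := mul_le_mul hy2 hll hlL (by linarith)
  have h7 : (1 + ε / 2) * (L * Real.log L) ≤ (1 + ε / 2) * (y * Real.log y) := mul_le_mul_of_nonneg_left h6 (by linarith)
  have h8 : 6 * y ≤ ε / 2 * Real.log y * y := mul_le_mul_of_nonneg_right h5 (by linarith)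
  have h9 : y ^ 2 - 6 * y ≤ L ^ 2 := by nlinarith
  unfold Gc
  rw [← hy]
  nlinarith

/-- the second order of the largest gap oscillates between `- log x log log x` and `0` -/
theorem osc {Ω : Type*} [MeasurableSpace Ω] {μ : Measure Ω} {A : ℕ → Set Ω} {z : ℕ}
    (hA : IsSievedModel μ (fun _ => z) A) : ∀ᵐ ω ∂μ, ∀ ε : ℝ, 0 < ε →
      (∃ x₀ : ℝ, ∀ x : ℝ, x₀ ≤ x → GapUp {n | ω ∈ A n} x ≤ ((Gc ε x : ℝ) : EReal)) ∧
      (∀ x₀ : ℝ, ∃ x : ℝ, x₀ ≤ x ∧ ((Real.log x ^ 2 : ℝ) : EReal) ≤ GapUp {n | ω ∈ A n} x) ∧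
      (∃ x₀ : ℝ, ∀ x : ℝ, x₀ ≤ x → ((Gc (-(1 + ε)) x : ℝ) : EReal) ≤ GapUp {n | ω ∈ A n} x) ∧
      (∀ x₀ : ℝ, ∃ x : ℝ, x₀ ≤ x ∧ GapUp {n | ω ∈ A n} x ≤ ((Gc (-(1 - ε)) x : ℝ) : EReal)) := by
  have hp : ∀ k : ℕ, (0 : ℝ) < 1 / ((k : ℝ) + 1) := fun k => by positivity
  have hp1 : ∀ k : ℕ, 1 / ((k : ℝ) + 1) ≤ 1 := fun k => by
    rw [div_le_one (by positivity)]
    have : (0 : ℝ) ≤ k := Nat.cast_nonneg k
    linarith
  have a1 : ∀ᵐ ω ∂μ, ∀ k : ℕ, (LongGaps {n | ω ∈ A n} (Fc (1 / ((k : ℝ) + 1) / 2))).Finite :=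
    ae_all_iff.2 fun k => z3 hA (by have := hp k; positivity)
  have a3 : ∀ᵐ ω ∂μ, ∀ k : ℕ, ∃ J : ℕ, ∀ j ≥ J, ∃ n : ℕ, 2 ^ j ≤ n ∧ n < 2 ^ (j + 1) ∧
      ω ∈ EN A n (hB (1 / ((k : ℝ) + 1) / 2) j) := ae_all_iff.2 fun k => block_gap hA _ (by have := hp k; positivity)
  have a4 : ∀ᵐ ω ∂μ, ∀ k : ℕ, ∀ N₀ : ℕ, ∃ N ≥ N₀, ∀ n ≤ N, ω ∉ EN A n (hU (1 / ((k : ℝ) + 1) / 2) N) :=
    ae_all_iff.2 fun k => upto_rare hA _ (by have := hp k; positivity) (by have := hp1 k; linarith)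
  filter_upwards [a1, z3 hA one_pos, z4 hA (le_refl (0 : ℝ)), a3, a4] with ω b1 b1' b2 b3 b4 ε hε
  have hinf : ({n | ω ∈ A n} : Set ℕ).Infinite := b2.mono fun q hq => hq.choose_spec.1.1
  set k := ⌈1 / ε⌉₊ with hkd
  have hk0 : (0 : ℝ) ≤ k := Nat.cast_nonneg k
  have hke : 1 / ((k : ℝ) + 1) ≤ ε := by
    have h1 : 1 / ε ≤ k := Nat.le_ceil _
    rw [div_le_iff₀ hε] at h1
    rw [div_le_iff₀ (by linarith)]
    nlinarith
  have hmono : ∀ {c c' : ℝ}, c ≤ c' → ∀ᶠ x : ℝ in atTop, Gc c x ≤ Gc c' x := by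
    intro c c' hcc
    filter_upwards [ev_ll 0 1 one_pos] with x hx
    unfold Gc
    nlinarith
  have hle := hmono hke
  refine ⟨?_, osc_ii _ b1' b2, ?_, ?_⟩
  · obtain ⟨x₀, h1⟩ := osc_i _ hinf (hp k) (b1 k)
    obtain ⟨x₁, h2⟩ := eventually_atTop.1 hle
    exact ⟨max x₀ x₁, fun x hx => (h1 x ((le_max_left _ _).trans hx)).trans
      (EReal.coe_le_coe_iff.2 (h2 x ((le_max_right _ _).trans hx)))⟩
  · obtain ⟨x₀, h1⟩ := osc_iii (hp k) (b3 k)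
    obtain ⟨x₁, h2⟩ := eventually_atTop.1 (hmono (show -(1 + ε) ≤ -(1 + 1 / ((k : ℝ) + 1)) by linarith))
    exact ⟨max x₀ x₁, fun x hx => (EReal.coe_le_coe_iff.2 (h2 x ((le_max_right _ _).trans hx))).trans
      (h1 x ((le_max_left _ _).trans hx))⟩
  · intro x₀
    obtain ⟨x₁, h2⟩ := eventually_atTop.1 (hmono (show -(1 - 1 / ((k : ℝ) + 1)) ≤ -(1 - ε) by linarith))
    obtain ⟨x, h3, h4⟩ := osc_iv (hp k) (hp1 k) (b4 k) (max x₀ x₁)
    exact ⟨x, (le_max_left _ _).trans h3, h4.trans (EReal.coe_le_coe_iff.2 (h2 x ((le_max_right _ _).trans h3)))⟩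

end Pool.Agent.Q46.CM
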